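import Mathlib
import Pool.Agent.H805R2.Glue

/-!
Second derivative test, continuity of the Levi form, differentiation under the integral sign (lemmas of
`H805K.UpperCmp` and `H805K.TaskD`, copied here to keep the chain of files short).
-/

set_option autoImplicit false
set_option maxHeartbeats 1000000

open MeasureTheory Metric Set Filter Topology
open scoped ContDiff ComplexOrder

namespace Pool.Agent.U574.FC
open Pool.Agent.H805R2

variable {n : ℕ}

/-- second derivative test -/
lemma D2_nonpos {F : Cn n → ℝ} (hF : ContDiff ℝ 2 F) {y : Cn n} (h : IsLocalMax F y) (ξ : Cn n) :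
    D2 F y ξ ξ ≤ 0 := by
  by_contra hcon
  push Not at hcon
  have hd : ∀ y, DifferentiableAt ℝ F y := fun y => (hF.differentiable (by norm_num)).differentiableAt
  have hd2 : ∀ y, DifferentiableAt ℝ (fderiv ℝ F) y := fun y =>
    ((hF.fderiv_right (m := 1) (by norm_num)).differentiable (by norm_num)).differentiableAt
  have hline : ∀ τ : ℝ, HasDerivAt (fun τ : ℝ => y + τ • ξ) ξ τ := by
    intro τ
    simpa using ((hasDerivAt_id τ).smul_const ξ).const_add y
  set g : ℝ → ℝ := fun τ => F (y + τ • ξ) with hg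
  have hg1 : ∀ τ, HasDerivAt g (fderiv ℝ F (y + τ • ξ) ξ) τ := fun τ =>
    (hd (y + τ • ξ)).hasFDerivAt.comp_hasDerivAt τ (hline τ)
  have hdg : deriv g = fun τ => fderiv ℝ F (y + τ • ξ) ξ := funext fun τ => (hg1 τ).deriv
  have hg2 : ∀ τ, HasDerivAt (deriv g) (D2 F (y + τ • ξ) ξ ξ) τ := by
    intro τ
    rw [hdg]
    have e1 : HasDerivAt (fun τ : ℝ => fderiv ℝ F (y + τ • ξ)) (fderiv ℝ (fderiv ℝ F) (y + τ • ξ) ξ) τ :=
      (hd2 (y + τ • ξ)).hasFDerivAt.comp_hasDerivAt τ (hline τ)
    have := (ContinuousLinearMap.apply ℝ ℝ ξ).hasFDerivAt.comp_hasDerivAt τ e1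
    exact this
  have hy0 : y + (0 : ℝ) • ξ = y := by rw [zero_smul, add_zero]
  have hcont : Continuous fun τ : ℝ => y + τ • ξ := by fun_prop
  have hmax : IsLocalMax g 0 := by
    have e1 : Tendsto (fun τ : ℝ => y + τ • ξ) (𝓝 0) (𝓝 y) := by
      have := hcont.tendsto 0
      rwa [hy0] at this
    have e2 := e1.eventually h
    filter_upwards [e2] with τ hτ
    simp only [hg, hy0]
    exact hτ
  have hdd : deriv (deriv g) 0 > 0 := by
    rw [(hg2 0).deriv, hy0]
    exact hcon
  have hmin : IsLocalMin g 0 := isLocalMin_of_deriv_deriv_pos hdd hmax.deriv_eq_zero (hg1 0).continuousAt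
  have hloc : g =ᶠ[𝓝 0] fun _ => g 0 := by
    filter_upwards [hmax, hmin] with τ h1 h2
    exact le_antisymm h1 h2
  have h3 : deriv g =ᶠ[𝓝 0] deriv (fun _ => g 0) := hloc.deriv
  have h4 : deriv (deriv g) 0 = 0 := by
    rw [h3.deriv_eq]
    simp
  rw [h4] at hdd
  exact lt_irrefl _ hdd

lemma levi_nonpos {F : Cn n → ℝ} (hF : ContDiff ℝ 2 F) {y : Cn n} (h : IsLocalMax F y) (ζ : Cn n) :
    levi F y ζ ≤ 0 := by
  unfold levi
  have h1 := D2_nonpos hF h ζ
  have h2 := D2_nonpos hF h (Complex.I • ζ)
  linarith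

lemma D2_continuous {F : Cn n → ℝ} (hF : ContDiff ℝ 2 F) (ξ ζ : Cn n) : Continuous fun z => D2 F z ξ ζ := by
  have hcont : Continuous (fderiv ℝ (fderiv ℝ F)) :=
    ((hF.fderiv_right (m := 1) (by norm_num)).continuous_fderiv (by norm_num))
  unfold D2
  exact (hcont.clm_apply continuous_const).clm_apply continuous_const

lemma levi_continuous {F : Cn n → ℝ} (hF : ContDiff ℝ 2 F) (ζ : Cn n) : Continuous fun z => levi F z ζ := by
  unfold levi
  exact ((D2_continuous hF ζ ζ).add (D2_continuous hF _ _)).div_const 4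

/-- differentiation under the integral sign, everything continuous -/
lemma hasDerivAt_param {F F' : ℝ → ℝ → ℝ} (hF : Continuous (Function.uncurry F))
    (hF' : Continuous (Function.uncurry F')) (h : ∀ r θ, HasDerivAt (fun r => F r θ) (F' r θ) r)
    (a b r0 : ℝ) : HasDerivAt (fun r => ∫ θ in a..b, F r θ) (∫ θ in a..b, F' r0 θ) r0 := by
  have hK : IsCompact (Icc (r0 - 1) (r0 + 1) ×ˢ uIcc a b) := isCompact_Icc.prod isCompact_uIcc
  obtain ⟨C, hC⟩ := hK.exists_bound_of_continuousOn hF'.continuousOn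
  refine (intervalIntegral.hasDerivAt_integral_of_dominated_loc_of_deriv_le (bound := fun _ => C)
    (F := F) (F' := F') (s := Icc (r0 - 1) (r0 + 1)) (Icc_mem_nhds (by linarith) (by linarith))
    ?_ ?_ ?_ ?_ ?_ ?_).2
  · refine Eventually.of_forall fun r => ?_
    have : Continuous (F r) := hF.comp (continuous_const.prodMk continuous_id)
    exact this.aestronglyMeasurable
  · have : Continuous (F r0) := hF.comp (continuous_const.prodMk continuous_id)
    exact this.intervalIntegrable _ _
  · have : Continuous (F' r0) := hF'.comp (continuous_const.prodMk continuous_id)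
    exact this.aestronglyMeasurable
  · refine Eventually.of_forall fun t ht r hr => ?_
    exact hC (r, t) ⟨hr, uIoc_subset_uIcc ht⟩
  · exact continuous_const.intervalIntegrable _ _
  · exact Eventually.of_forall fun t _ r _ => h r t

end Pool.Agent.U574.FC
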