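import Mathlib
import Pool.Agent.H805R2.Lite
import Pool.Agent.U574.FC.Lev

/-!
Smooth plurisubharmonic functions on the bidisc: local copies, regularised maximum, functions of one
coordinate, integration by parts.
-/

set_option autoImplicit false
set_option maxHeartbeats 1000000

open MeasureTheory Metric Set Filter Topology
open scoped ContDiff ComplexOrder

namespace Pool.Agent.U574.FC
open Pool.Agent.H805R2

/-- the unit bidisc -/
def Om : Set (Cn 2) := {x | ‖x 0‖ < 1 ∧ ‖x 1‖ < 1}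

lemma cont_coord (i : Fin 2) : Continuous fun x : Cn 2 => x i := by fun_prop

lemma Om_open : IsOpen Om :=
  (isOpen_lt (cont_coord 0).norm continuous_const).inter (isOpen_lt (cont_coord 1).norm continuous_const)

/-- closed bidiscs -/
def KR (r : ℝ) : Set (Cn 2) := {x | ‖x 0‖ ≤ r ∧ ‖x 1‖ ≤ r}

lemma norm_le_of_coord {x : Cn 2} {r : ℝ} (h0 : ‖x 0‖ ≤ r) (h1 : ‖x 1‖ ≤ r) : ‖x‖ ≤ 2 * r := by
  have hr : 0 ≤ r := (norm_nonneg _).trans h0
  have h : ‖x‖ ^ 2 ≤ (2 * r) ^ 2 := by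
    rw [EuclideanSpace.norm_sq_eq, Fin.sum_univ_two]
    have a0 : ‖x 0‖ ^ 2 ≤ r ^ 2 := by gcongr
    have a1 : ‖x 1‖ ^ 2 ≤ r ^ 2 := by gcongr
    nlinarith
  exact (sq_le_sq₀ (norm_nonneg _) (by positivity)).1 h

lemma Om_bdd : Bornology.IsBounded Om := by
  rw [isBounded_iff_forall_norm_le]
  exact ⟨2 * 1, fun x hx => norm_le_of_coord hx.1.le hx.2.le⟩

lemma KR_compact (r : ℝ) : IsCompact (KR r) := by
  apply isCompact_of_isClosed_isBounded
  · exact (isClosed_le (cont_coord 0).norm continuous_const).inter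
      (isClosed_le (cont_coord 1).norm continuous_const)
  · rw [isBounded_iff_forall_norm_le]
    exact ⟨2 * r, fun x hx => norm_le_of_coord hx.1 hx.2⟩

lemma KR_sub {r : ℝ} (hr : r < 1) : KR r ⊆ Om := fun _ hx => ⟨hx.1.trans_lt hr, hx.2.trans_lt hr⟩

/-- smooth plurisubharmonic functions on the bidisc -/
structure SP (v : Cn 2 → ℝ) : Prop where
  sm : ContDiffOn ℝ ∞ v Om
  psd : ∀ x ∈ Om, (hess v x).PosSemidef

/-- a global copy of a function smooth on the bidisc -/
lemma copy {v : Cn 2 → ℝ} (hv : ContDiffOn ℝ ∞ v Om) {K : Set (Cn 2)} (hK : IsCompact K) (hKO : K ⊆ Om) :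
    ∃ (v' : Cn 2 → ℝ) (W : Set (Cn 2)), ContDiff ℝ ∞ v' ∧ IsOpen W ∧ K ⊆ W ∧ W ⊆ Om ∧
      (∀ x ∈ W, v' x = v x) ∧ ((∀ x ∈ Om, v x ≤ 0) → ∀ x, v' x ≤ 0) ∧
      ((∀ x ∈ Om, 0 ≤ v x) → ∀ x, 0 ≤ v' x) := by
  obtain ⟨K1, hK1, hKK1, hK1O⟩ := exists_compact_between hK Om_open hKO
  obtain ⟨χ, hχs, hχc, hχO, hχ1, hχ01⟩ := cutoff hK1 Om_open hK1O
  refine ⟨fun x => χ x * v x, interior K1, cutoff_mul_smooth Om_open hχs hv hχO, isOpen_interior, hKK1,
    interior_subset.trans hK1O, fun x hx => by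
      show χ x * v x = v x
      rw [hχ1 x (interior_subset hx), one_mul], ?_, ?_⟩
  · intro h x
    by_cases hx : x ∈ tsupport χ
    · exact mul_nonpos_of_nonneg_of_nonpos (hχ01 x).1 (h x (hχO hx))
    · simp [image_eq_zero_of_notMem_tsupport hx]
  · intro h x
    by_cases hx : x ∈ tsupport χ
    · exact mul_nonneg (hχ01 x).1 (h x (hχO hx))
    · simp [image_eq_zero_of_notMem_tsupport hx]

lemma levi_congr {n : ℕ} {f g : Cn n → ℝ} {z : Cn n} (h : f =ᶠ[𝓝 z] g) (ζ : Cn n) :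
    levi f z ζ = levi g z ζ := by
  unfold levi D2
  rw [(h.fderiv (𝕜 := ℝ)).fderiv_eq]

lemma copy_pt {v : Cn 2 → ℝ} (hv : ContDiffOn ℝ ∞ v Om) {x : Cn 2} (hx : x ∈ Om) :
    ∃ v' : Cn 2 → ℝ, ContDiff ℝ ∞ v' ∧ v' =ᶠ[𝓝 x] v := by
  obtain ⟨v', W, h1, h2, h3, _, h5, _⟩ := copy hv isCompact_singleton (singleton_subset_iff.2 hx)
  exact ⟨v', h1, by filter_upwards [h2.mem_nhds (h3 rfl)] with y hy using h5 y hy⟩

lemma psd_iff_at {v : Cn 2 → ℝ} (hv : ContDiffOn ℝ ∞ v Om) {x : Cn 2} (hx : x ∈ Om) :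
    (hess v x).PosSemidef ↔ ∀ ζ, 0 ≤ levi v x ζ := by
  obtain ⟨v', h1, h2⟩ := copy_pt hv hx
  rw [← hess_congr h2, psd_iff h1]
  exact forall_congr' fun ζ => by rw [levi_congr h2]

/-- plurisubharmonic where it is touched from below by plurisubharmonic functions -/
lemma psd_of_touch {r : Cn 2 → ℝ} (hr : ContDiffOn ℝ ∞ r Om) {x : Cn 2} (hx : x ∈ Om)
    {L : Cn 2 → ℝ} (hL : ContDiffOn ℝ ∞ L Om) (hLp : ∀ ζ, 0 ≤ levi L x ζ) (hle : ∀ y ∈ Om, L y ≤ r y)
    (heq : L x = r x) : (hess r x).PosSemidef := by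
  rw [psd_iff_at hr hx]
  intro ζ
  obtain ⟨r', hr1, hr2⟩ := copy_pt hr hx
  obtain ⟨L', hL1, hL2⟩ := copy_pt hL hx
  have hmax : IsLocalMax (fun y => L' y - r' y) x := by
    filter_upwards [hr2, hL2, Om_open.mem_nhds hx] with y h1 h2 h3
    rw [h1, h2, hr2.self_of_nhds, hL2.self_of_nhds, heq, sub_self]
    linarith [hle y h3]
  have h := levi_nonpos ((hL1.sub hr1).of_le ss_le) hmax ζ
  rw [levi_sub (hL1.of_le ss_le) (hr1.of_le ss_le), levi_congr hr2, levi_congr hL2] at h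
  linarith [hLp ζ]

lemma sm_tangent (y0 y : ℝ) : sm y0 + Real.smoothTransition y0 * (y - y0) ≤ sm y := by
  have hc : Continuous Real.smoothTransition := Real.smoothTransition.continuous
  have h : sm y - sm y0 = ∫ t in y0..y, Real.smoothTransition t :=
    intervalIntegral.integral_interval_sub_left (μ := volume) (hc.intervalIntegrable _ _)
      (hc.intervalIntegrable _ _)
  have h2 : Real.smoothTransition y0 * (y - y0) ≤ ∫ t in y0..y, Real.smoothTransition t := by
    rcases le_total y0 y with h3 | h3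
    · have := intervalIntegral.integral_mono_on (μ := volume) h3 (f := fun _ => Real.smoothTransition y0)
        (continuous_const.intervalIntegrable _ _)
        (hc.intervalIntegrable _ _) (fun t ht => Real.smoothTransition.monotone ht.1)
      simp only [intervalIntegral.integral_const, smul_eq_mul] at this
      linarith
    · have := intervalIntegral.integral_mono_on (μ := volume) h3 (g := fun _ => Real.smoothTransition y0)
        (hc.intervalIntegrable _ _)
        (continuous_const.intervalIntegrable _ _) (fun t ht => Real.smoothTransition.monotone ht.2)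
      rw [intervalIntegral.integral_symm]
      simp only [intervalIntegral.integral_const, smul_eq_mul] at this
      linarith
  linarith

/-- a regularised maximum of `α` and `β / 2`, for negative `α`, `β`, homogeneous of degree one -/
noncomputable def rm (α β : Cn 2 → ℝ) (x : Cn 2) : ℝ :=
  α x + (-β x / 2) * sm ((β x / 2 - α x) / (-β x / 2))

lemma rm_smooth {α β : Cn 2 → ℝ} (hα : ContDiffOn ℝ ∞ α Om) (hβ : ContDiffOn ℝ ∞ β Om)
    (hβ0 : ∀ x ∈ Om, β x < 0) : ContDiffOn ℝ ∞ (rm α β) Om := by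
  unfold rm
  apply hα.add
  have h1 : ContDiffOn ℝ ∞ (fun x => -β x / 2) Om := hβ.neg.div_const 2
  apply h1.mul
  exact sm_smooth.comp_contDiffOn (((hβ.div_const 2).sub hα).div h1 fun x hx => by
    have := hβ0 x hx
    linarith)

lemma rm_sp {α β : Cn 2 → ℝ} (hα : SP α) (hβ : SP β) (hβ0 : ∀ x ∈ Om, β x < 0) : SP (rm α β) := by
  have hs := rm_smooth hα.sm hβ.sm hβ0
  refine ⟨hs, fun x hx => ?_⟩
  have hβx := hβ0 x hx
  set y0 := (β x / 2 - α x) / (-β x / 2) with hy0
  set s := Real.smoothTransition y0 with hs0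
  set c1 := (s * (1 + y0) - sm y0) / 2 with hc1
  have hc1' : 0 ≤ c1 := by
    have := sm_tangent y0 (-1)
    rw [sm_of_nonpos (by norm_num : (-1 : ℝ) ≤ 0)] at this
    rw [hc1]
    linarith
  have hs1 : 0 ≤ 1 - s := by linarith [Real.smoothTransition.le_one y0]
  have key : ∀ y ∈ Om, ∀ t, t = (β y / 2 - α y) / (-β y / 2) →
      (1 - s) * α y + c1 * β y = α y + (-β y / 2) * (sm y0 + s * (t - y0)) := by
    intro y hy t ht
    have h1 : -β y / 2 ≠ 0 := by have := hβ0 y hy; linarith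
    have h2 : t * (-β y / 2) = β y / 2 - α y := by rw [ht, div_mul_cancel₀ _ h1]
    rw [hc1]
    linear_combination (-s) * h2
  have hLs : ContDiffOn ℝ ∞ (fun y => (1 - s) * α y + c1 * β y) Om :=
    (contDiffOn_const.mul hα.sm).add (contDiffOn_const.mul hβ.sm)
  apply psd_of_touch hs hx hLs
  · intro ζ
    obtain ⟨a', ha1, ha2⟩ := copy_pt hα.sm hx
    obtain ⟨b', hb1, hb2⟩ := copy_pt hβ.sm hx
    have hc : (fun y => (1 - s) * α y + c1 * β y) =ᶠ[𝓝 x] fun y => (1 - s) * a' y + c1 * b' y := by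
      filter_upwards [ha2, hb2] with y h1 h2
      rw [h1, h2]
    rw [levi_congr hc, levi_add (contDiff_const.mul (ha1.of_le ss_le)) (contDiff_const.mul (hb1.of_le ss_le)),
      levi_const_mul _ (ha1.of_le ss_le), levi_const_mul _ (hb1.of_le ss_le), levi_congr ha2, levi_congr hb2]
    have h1 := (psd_iff_at hα.sm hx).1 (hα.psd x hx) ζ
    have h2 := (psd_iff_at hβ.sm hx).1 (hβ.psd x hx) ζ
    positivity
  · intro y hy
    rw [key y hy _ rfl, rm]
    have h1 : 0 < -β y / 2 := by have := hβ0 y hy; linarith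
    have := sm_tangent y0 ((β y / 2 - α y) / (-β y / 2))
    nlinarith [mul_le_mul_of_nonneg_left this h1.le]
  · rw [key x hx _ rfl, rm, ← hy0]
    ring

section rmprops
variable {α β : Cn 2 → ℝ} {x : Cn 2}

lemma le_rm (hβ : β x < 0) : α x ≤ rm α β x := by
  unfold rm
  have := mul_nonneg (by linarith : (0 : ℝ) ≤ -β x / 2) (sm_nonneg ((β x / 2 - α x) / (-β x / 2)))
  linarith

lemma rm_of_le (hβ : β x < 0) (h : β x / 2 ≤ α x) : rm α β x = α x := by
  unfold rm
  rw [sm_of_nonpos, mul_zero, add_zero]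
  exact div_nonpos_of_nonpos_of_nonneg (by linarith) (by linarith)

lemma rm_ge_beta (hβ : β x < 0) : β x ≤ rm α β x := by
  unfold rm
  have h1 : 0 < -β x / 2 := by linarith
  have h := mul_le_mul_of_nonneg_left (le_sm ((β x / 2 - α x) / (-β x / 2))) h1.le
  rw [mul_sub, mul_div_cancel₀ _ h1.ne'] at h
  have h2 := c0_le_one
  nlinarith

lemma rm_le_max (hβ : β x < 0) : rm α β x ≤ max (α x) (β x / 2) := by
  unfold rm
  have h1 : 0 < -β x / 2 := by linarith
  have h := mul_le_mul_of_nonneg_left (sm_le_max ((β x / 2 - α x) / (-β x / 2))) h1.le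
  have h2 : (-β x / 2) * max ((β x / 2 - α x) / (-β x / 2)) 0 = max (β x / 2 - α x) 0 := by
    rw [mul_max_of_nonneg _ _ h1.le, mul_div_cancel₀ _ h1.ne', mul_zero]
  rw [h2] at h
  rcases le_total (β x / 2) (α x) with h3 | h3
  · rw [max_eq_right (by linarith : β x / 2 - α x ≤ 0)] at h
    rw [max_eq_left h3]
    linarith
  · rw [max_eq_left (by linarith : 0 ≤ β x / 2 - α x)] at h
    rw [max_eq_right h3]
    linarith

lemma rm_neg (hα : α x < 0) (hβ : β x < 0) : rm α β x < 0 :=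
  (rm_le_max hβ).trans_lt (max_lt hα (by linarith))

lemma rm_le_half (hβ : β x < 0) (h : α x ≤ β x / 2) : rm α β x ≤ β x / 2 :=
  (rm_le_max hβ).trans (by rw [max_eq_right h])

lemma rm_lip {α' : Cn 2 → ℝ} {ε : ℝ} (hε : 0 ≤ ε) (hβ : β x < 0) (h : α x ≤ α' x + ε) :
    rm α β x ≤ rm α' β x + ε := by
  unfold rm
  have h1 : 0 < -β x / 2 := by linarith
  set η := -β x / 2 with hη
  have e : ∀ a : ℝ, a + η * sm ((β x / 2 - a) / η) = β x / 2 + η * (sm ((β x / 2 - a) / η) - (β x / 2 - a) / η) := by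
    intro a
    rw [mul_sub, mul_div_cancel₀ _ h1.ne']
    ring
  have h2 : α x + η * sm ((β x / 2 - α x) / η) ≤
      (α' x + ε) + η * sm ((β x / 2 - (α' x + ε)) / η) := by
    rw [e, e]
    have hle : (β x / 2 - (α' x + ε)) / η ≤ (β x / 2 - α x) / η := by
      apply div_le_div_of_nonneg_right _ h1.le
      linarith
    have := sm_sub_mono hle
    simp only at this
    have := mul_le_mul_of_nonneg_left this h1.le
    linarith
  have h3 : sm ((β x / 2 - (α' x + ε)) / η) ≤ sm ((β x / 2 - α' x) / η) := by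
    apply sm_mono
    apply div_le_div_of_nonneg_right _ h1.le
    linarith
  have := mul_le_mul_of_nonneg_left h3 h1.le
  linarith

end rmprops

end Pool.Agent.U574.FC
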