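import Mathlib
import Pool.Agent.U574.FC.Base

/-!
Points of the bidisc and annuli.
-/

set_option autoImplicit false
set_option maxHeartbeats 1000000

open MeasureTheory Metric Set Filter Topology
open scoped ContDiff ComplexOrder

namespace Pool.Agent.U574.FC
open Pool.Agent.H805R2

/-- the point `(z, w)` -/
noncomputable def pp (z w : ℂ) : Cn 2 := w • bas 1 + z • bas 0

@[simp] lemma pp_zero (z w : ℂ) : (pp z w : Cn 2) 0 = z := by
  simp [pp, bas]

@[simp] lemma pp_one (z w : ℂ) : (pp z w : Cn 2) 1 = w := by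
  simp [pp, bas]

lemma pp_eta (x : Cn 2) : pp (x 0) (x 1) = x := by
  ext i
  fin_cases i
  · exact pp_zero _ _
  · exact pp_one _ _

lemma pp_cont : Continuous fun p : ℂ × ℂ => pp p.1 p.2 := by
  unfold pp
  fun_prop

lemma pp_mem {z w : ℂ} : pp z w ∈ Om ↔ ‖z‖ < 1 ∧ ‖w‖ < 1 := by
  unfold Om
  rw [mem_ofPred_eq, pp_zero, pp_one]

lemma pp_zero_cont : Continuous fun z : ℂ => pp z 0 :=
  pp_cont.comp (by fun_prop : Continuous fun z : ℂ => (z, (0 : ℂ)))

/-- closed annulus -/
def Ann (a b : ℝ) : Set ℂ := {w | a ≤ ‖w‖ ∧ ‖w‖ ≤ b}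

lemma Ann_compact (a b : ℝ) : IsCompact (Ann a b) := by
  apply isCompact_of_isClosed_isBounded
  · exact (isClosed_le continuous_const continuous_norm).inter (isClosed_le continuous_norm continuous_const)
  · rw [isBounded_iff_forall_norm_le]
    exact ⟨b, fun x hx => hx.2⟩

end Pool.Agent.U574.FC
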