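import Mathlib
import Pool.Agent.U574.FC.PP

/-!
Tools on the bidisc: determinant density, functions of one coordinate, product structure of Lebesgue
measure, radial functions, integration by parts.
-/

set_option autoImplicit false
set_option maxHeartbeats 1000000

open MeasureTheory Metric Set Filter Topology
open scoped ContDiff ComplexOrder

namespace Pool.Agent.U574.FC
open Pool.Agent.H805R2

/-- the determinant of the complex Hessian -/
noncomputable def Hd (v : Cn 2 → ℝ) (x : Cn 2) : ℝ := (hess v x).det.re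

/-- the normalising constant -/
noncomputable def kap : ℝ := 8 / Real.pi ^ 2

lemma kap_pos : 0 < kap := by unfold kap; positivity

lemma maD (v : Cn 2 → ℝ) (x : Cn 2) : maDensity v x = kap * Hd v x := by
  unfold maDensity kap Hd
  rw [Nat.factorial_two]
  push_cast
  ring

lemma Hd_nonneg {v : Cn 2 → ℝ} {x : Cn 2} (h : (hess v x).PosSemidef) : 0 ≤ Hd v x := det_hess_nonneg h

lemma Hd_cont {v : Cn 2 → ℝ} (hv : ContDiff ℝ ∞ v) : Continuous (Hd v) := det_hess_continuous hv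

lemma Hd_congr {f g : Cn 2 → ℝ} {z : Cn 2} (h : f =ᶠ[𝓝 z] g) : Hd f z = Hd g z := by
  unfold Hd
  rw [hess_congr h]

lemma Hd_contOn {v : Cn 2 → ℝ} (hv : ContDiffOn ℝ ∞ v Om) : ContinuousOn (Hd v) Om := by
  intro x hx
  obtain ⟨v', h1, h2⟩ := copy_pt hv hx
  have h3 : Hd v' =ᶠ[𝓝 x] Hd v := by
    filter_upwards [h2.eventuallyEq_nhds] with y hy
    exact Hd_congr hy
  exact ((Hd_cont h1).continuousAt.congr h3).continuousWithinAt

lemma Hd_affine {f : Cn 2 → ℝ} (hf : ContDiff ℝ ∞ f) (c d : ℝ) (x : Cn 2) :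
    Hd (fun y => c * f y + d) x = c ^ 2 * Hd f x := by
  unfold Hd
  rw [hess_add_const d (contDiff_const.mul hf), hess_const_mul c hf, Matrix.det_smul, Fintype.card_fin]
  have : ((c : ℂ) ^ 2 * (hess f x).det).re = (((c ^ 2 : ℝ) : ℂ) * (hess f x).det).re := by
    push_cast; rfl
  rw [this, Complex.re_ofReal_mul]

lemma Hd_affine_at {f : Cn 2 → ℝ} (hf : ContDiffOn ℝ ∞ f Om) (c d : ℝ) {x : Cn 2} (hx : x ∈ Om) :
    Hd (fun y => c * f y + d) x = c ^ 2 * Hd f x := by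
  obtain ⟨v', h1, h2⟩ := copy_pt hf hx
  have h3 : (fun y => c * v' y + d) =ᶠ[𝓝 x] fun y => c * f y + d := by
    filter_upwards [h2] with y hy
    rw [hy]
  rw [← Hd_congr h3, Hd_affine h1, Hd_congr h2]

lemma sp_affine {f : Cn 2 → ℝ} (hf : SP f) {c : ℝ} (hc : 0 ≤ c) (d : ℝ) : SP (fun y => c * f y + d) := by
  refine ⟨(contDiffOn_const.mul hf.sm).add contDiffOn_const, fun x hx => ?_⟩
  obtain ⟨v', h1, h2⟩ := copy_pt hf.sm hx
  have h3 : (fun y => c * v' y + d) =ᶠ[𝓝 x] fun y => c * f y + d := by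
    filter_upwards [h2] with y hy
    rw [hy]
  rw [← hess_congr h3, hess_add_const d (contDiff_const.mul h1), hess_const_mul c h1, hess_congr h2]
  exact (hf.psd x hx).smul (by exact_mod_cast hc)

lemma sp_smul {f : Cn 2 → ℝ} (hf : SP f) {c : ℝ} (hc : 0 ≤ c) : SP (fun y => c * f y) := by
  have := sp_affine hf hc 0
  simpa using this

lemma sp_of_global {f : Cn 2 → ℝ} (hf : ContDiff ℝ ∞ f) (h : ∀ x ∈ Om, (hess f x).PosSemidef) : SP f :=
  ⟨hf.contDiffOn, h⟩

lemma glue_sp_at {η : ℝ} (hη : 0 < η) {b a : Cn 2 → ℝ} (hb : ContDiffOn ℝ ∞ b Om)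
    (ha : ContDiffOn ℝ ∞ a Om) {x : Cn 2} (hx : x ∈ Om) (h1 : (hess b x).PosSemidef)
    (h2 : (hess a x).PosSemidef) : (hess (glue η b a) x).PosSemidef := by
  obtain ⟨b', hb1, hb2⟩ := copy_pt hb hx
  obtain ⟨a', ha1, ha2⟩ := copy_pt ha hx
  have h3 : glue η b' a' =ᶠ[𝓝 x] glue η b a := by
    filter_upwards [ha2, hb2] with y h1 h2
    simp only [glue, h1, h2]
  rw [← hess_congr h3]
  apply glue_psd hη hb1 ha1 x
  · rwa [hess_congr hb2]
  · rwa [hess_congr ha2]

lemma glue_smOn (η : ℝ) {b a : Cn 2 → ℝ} {W : Set (Cn 2)} (hb : ContDiffOn ℝ ∞ b W)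
    (ha : ContDiffOn ℝ ∞ a W) : ContDiffOn ℝ ∞ (glue η b a) W := by
  unfold glue
  exact hb.add (contDiffOn_const.mul (sm_smooth.comp_contDiffOn ((ha.sub hb).div_const η)))

lemma glue_sp {η : ℝ} (hη : 0 < η) {b a : Cn 2 → ℝ} (hb : SP b) (ha : SP a) : SP (glue η b a) :=
  ⟨glue_smOn η hb.sm ha.sm, fun _ hx => glue_sp_at hη hb.sm ha.sm hx (hb.psd _ hx) (ha.psd _ hx)⟩

/-! ### functions of one coordinate -/

/-- coordinate as a real linear map -/
noncomputable def crd (i : Fin 2) : Cn 2 →L[ℝ] ℂ := (EuclideanSpace.proj i : Cn 2 →L[ℂ] ℂ).restrictScalars ℝ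

@[simp] lemma crd_apply (i : Fin 2) (x : Cn 2) : crd i x = x i := rfl

/-- squared modulus of a coordinate -/
noncomputable def qc (i : Fin 2) (x : Cn 2) : ℝ := ‖x i‖ ^ 2

lemma qc_smooth (i : Fin 2) : ContDiff ℝ ∞ (qc i) := (contDiff_norm_sq ℝ).comp (crd i).contDiff

lemma qc_nonneg (i : Fin 2) (x : Cn 2) : 0 ≤ qc i x := sq_nonneg _

lemma qc_fderiv (i : Fin 2) (x ξ : Cn 2) : fderiv ℝ (qc i) x ξ = 2 * inner ℝ (x i) (ξ i) := by
  have e1 : HasFDerivAt (fun z : ℂ => ‖z‖ ^ 2) (2 • (innerSL ℝ (x i))) (crd i x) :=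
    (hasStrictFDerivAt_norm_sq (x i)).hasFDerivAt
  have e3 := e1.comp x (crd i).hasFDerivAt
  have e4 : fderiv ℝ (qc i) x = (2 • (innerSL ℝ (x i))).comp (crd i) := e3.fderiv
  rw [e4]
  simp [two_smul]
  ring

lemma qc_D2 (i : Fin 2) (x ξ ζ : Cn 2) : D2 (qc i) x ξ ζ = 2 * inner ℝ (ξ i) (ζ i) := by
  have h1 : fderiv ℝ (qc i) = fun x => (2 : ℝ) • ((innerSL ℝ (crd i x)).comp (crd i)) := by
    funext y
    ext w
    rw [qc_fderiv]
    simp
  set L : Cn 2 →L[ℝ] Cn 2 →L[ℝ] ℝ :=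
    (ContinuousLinearMap.compL ℝ (Cn 2) ℂ ℝ).flip (crd i) ∘L (innerSL ℝ ∘L crd i) with hL
  have h2 : HasFDerivAt (fun x => (2 : ℝ) • ((innerSL ℝ (crd i x)).comp (crd i))) ((2 : ℝ) • L) x :=
    (L.hasFDerivAt (x := x)).const_smul (2 : ℝ)
  unfold D2
  rw [h1, h2.fderiv]
  rfl

lemma qc_levi (i : Fin 2) (x ζ : Cn 2) : levi (qc i) x ζ = ‖ζ i‖ ^ 2 := by
  unfold levi
  rw [qc_D2, qc_D2]
  have : (Complex.I • ζ) i = Complex.I * ζ i := rfl
  rw [this, real_inner_self_eq_norm_sq, real_inner_self_eq_norm_sq, norm_mul, Complex.norm_I, one_mul]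
  ring

/-- `‖x i‖² - 1` -/
noncomputable def pc (i : Fin 2) (x : Cn 2) : ℝ := ‖x i‖ ^ 2 - 1

lemma pc_smooth (i : Fin 2) : ContDiff ℝ ∞ (pc i) := (qc_smooth i).sub contDiff_const

lemma pc_sp (i : Fin 2) : SP (pc i) := by
  apply sp_of_global (pc_smooth i)
  intro x _
  have h : hess (pc i) x = hess (qc i) x := hess_add_const (-1) (qc_smooth i) x
  rw [h, psd_iff (qc_smooth i)]
  intro ζ
  rw [qc_levi]
  positivity

lemma pc_neg {i : Fin 2} {x : Cn 2} (hx : x ∈ Om) : pc i x < 0 := by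
  unfold pc
  have h : ‖x i‖ < 1 := by
    fin_cases i
    · exact hx.1
    · exact hx.2
  have := norm_nonneg (x i)
  nlinarith

lemma pc_ge (i : Fin 2) (x : Cn 2) : -1 ≤ pc i x := by
  unfold pc
  have := sq_nonneg ‖x i‖
  linarith

/-- a function not depending on the coordinate `i` -/
lemma dir_zero {u : Cn 2 → ℝ} (hu : ContDiff ℝ ∞ u) {ξ : Cn 2} (h : ∀ (x : Cn 2) (t : ℝ), u (x + t • ξ) = u x)
    (x : Cn 2) : fderiv ℝ u x ξ = 0 := by
  have hd : HasFDerivAt u (fderiv ℝ u x) (x + (0 : ℝ) • ξ) := by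
    rw [zero_smul, add_zero]
    exact ((hu.differentiable (by simp)).differentiableAt).hasFDerivAt
  have hl : HasDerivAt (fun t : ℝ => x + t • ξ) ξ 0 := by
    simpa using ((hasDerivAt_id (0 : ℝ)).smul_const ξ).const_add x
  have h1 := hd.comp_hasDerivAt 0 hl
  have h2 : (u ∘ fun t : ℝ => x + t • ξ) = fun _ => u x := by
    funext t
    exact h x t
  rw [h2] at h1
  exact h1.unique (hasDerivAt_const _ _)

lemma D2_dir_zero {u : Cn 2 → ℝ} (hu : ContDiff ℝ ∞ u) {ξ : Cn 2}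
    (h : ∀ (x : Cn 2) (t : ℝ), u (x + t • ξ) = u x) (x ζ : Cn 2) : D2 u x ζ ξ = 0 ∧ D2 u x ξ ζ = 0 := by
  have hd2 : DifferentiableAt ℝ (fderiv ℝ u) x :=
    ((hu.fderiv_right (m := ∞) (by simp)).differentiable (by simp)).differentiableAt
  have h1 : HasFDerivAt (fun y => fderiv ℝ u y ξ) ((fderiv ℝ (fderiv ℝ u) x).flip ξ) x := by
    have := (ContinuousLinearMap.apply ℝ ℝ ξ).hasFDerivAt.comp x hd2.hasFDerivAt
    exact this
  have h2 : (fun y => fderiv ℝ u y ξ) = fun _ => 0 := by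
    funext y
    exact dir_zero hu h y
  rw [h2] at h1
  have h3 := h1.unique (hasFDerivAt_const 0 x)
  have h4 : D2 u x ζ ξ = 0 := by
    have := congrArg (fun L => L ζ) h3
    exact this
  have hsymm : IsSymmSndFDerivAt ℝ u x := (hu.of_le ss_le).contDiffAt.isSymmSndFDerivAt (by simp)
  refine ⟨h4, ?_⟩
  have := hsymm.eq ξ ζ
  unfold D2 at *
  rw [this]
  exact h4

/-- trace formula for a function of the second coordinate -/
lemma tr_one {u : Cn 2 → ℝ} (hu : ContDiff ℝ ∞ u) (h : ∀ (x : Cn 2) (c : ℂ), u (x + c • bas 0) = u x)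
    (M : Matrix (Fin 2) (Fin 2) ℂ) (x : Cn 2) :
    (M.adjugate * hess u x).trace = M 0 0 * levi u x (bas 1) := by
  have hz : ∀ c : ℂ, ∀ (x : Cn 2) (t : ℝ), u (x + t • (c • bas 0)) = u x := by
    intro c x t
    have : t • (c • (bas 0 : Cn 2)) = ((t : ℂ) * c) • bas 0 := by
      rw [mul_smul, Complex.coe_smul]
    rw [this]
    exact h x _
  have h1 := D2_dir_zero hu (ξ := bas 0) (fun x t => by simpa using hz 1 x t) x
  have h2 := D2_dir_zero hu (ξ := Complex.I • bas 0) (hz Complex.I) x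
  have hs := hess_eq_sesq (hu.of_le ss_le) x
  have e00 : hess u x 0 0 = 0 := by
    rw [hs, sesq]
    have a1 := (h1 (bas 0)).1
    have a2 := (h2 (Complex.I • bas 0)).1
    have a3 := (h2 (bas 0)).1
    have a4 := (h2 (bas 0)).2
    unfold D2 at *
    rw [a1, a2, a3, a4]
    simp
  have e01 : hess u x 0 1 = 0 := by
    rw [hs, sesq]
    have a1 := (h1 (bas 1)).2
    have a2 := (h2 (Complex.I • bas 1)).2
    have a3 := (h1 (Complex.I • bas 1)).2
    have a4 := (h2 (bas 1)).2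
    unfold D2 at *
    rw [a1, a2, a3, a4]
    simp
  have e10 : hess u x 1 0 = 0 := by
    rw [hs, sesq]
    have a1 := (h1 (bas 1)).1
    have a2 := (h2 (Complex.I • bas 1)).1
    have a3 := (h1 (Complex.I • bas 1)).1
    have a4 := (h2 (bas 1)).1
    unfold D2 at *
    rw [a1, a2, a3, a4]
    simp
  have e11 : (levi u x (bas 1) : ℂ) = hess u x 1 1 := by
    rw [levi_eq (hu.of_le ss_le), Fin.sum_univ_two, Fin.sum_univ_two, Fin.sum_univ_two]
    simp [bas]
  rw [e11, Matrix.trace_fin_two, Matrix.mul_apply, Matrix.mul_apply, Fin.sum_univ_two, Fin.sum_univ_two,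
    e00, e01, e10, Matrix.adjugate_fin_two]
  simp

/-- trace formula for a function of the first coordinate -/
lemma tr_zero {u : Cn 2 → ℝ} (hu : ContDiff ℝ ∞ u) (h : ∀ (x : Cn 2) (c : ℂ), u (x + c • bas 1) = u x)
    (M : Matrix (Fin 2) (Fin 2) ℂ) (x : Cn 2) :
    (M.adjugate * hess u x).trace = M 1 1 * levi u x (bas 0) := by
  have hz : ∀ c : ℂ, ∀ (x : Cn 2) (t : ℝ), u (x + t • (c • bas 1)) = u x := by
    intro c x t
    have : t • (c • (bas 1 : Cn 2)) = ((t : ℂ) * c) • bas 1 := by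
      rw [mul_smul, Complex.coe_smul]
    rw [this]
    exact h x _
  have h1 := D2_dir_zero hu (ξ := bas 1) (fun x t => by simpa using hz 1 x t) x
  have h2 := D2_dir_zero hu (ξ := Complex.I • bas 1) (hz Complex.I) x
  have hs := hess_eq_sesq (hu.of_le ss_le) x
  have e11 : hess u x 1 1 = 0 := by
    rw [hs, sesq]
    have a1 := (h1 (bas 1)).1
    have a2 := (h2 (Complex.I • bas 1)).1
    have a3 := (h2 (bas 1)).1
    have a4 := (h2 (bas 1)).2
    unfold D2 at *
    rw [a1, a2, a3, a4]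
    simp
  have e10 : hess u x 1 0 = 0 := by
    rw [hs, sesq]
    have a1 := (h1 (bas 0)).2
    have a2 := (h2 (Complex.I • bas 0)).2
    have a3 := (h1 (Complex.I • bas 0)).2
    have a4 := (h2 (bas 0)).2
    unfold D2 at *
    rw [a1, a2, a3, a4]
    simp
  have e01 : hess u x 0 1 = 0 := by
    rw [hs, sesq]
    have a1 := (h1 (bas 0)).1
    have a2 := (h2 (Complex.I • bas 0)).1
    have a3 := (h1 (Complex.I • bas 0)).1
    have a4 := (h2 (bas 0)).1
    unfold D2 at *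
    rw [a1, a2, a3, a4]
    simp
  have e00 : (levi u x (bas 0) : ℂ) = hess u x 0 0 := by
    rw [levi_eq (hu.of_le ss_le), Fin.sum_univ_two, Fin.sum_univ_two, Fin.sum_univ_two]
    simp [bas]
  rw [e00, Matrix.trace_fin_two, Matrix.mul_apply, Matrix.mul_apply, Fin.sum_univ_two, Fin.sum_univ_two,
    e11, e01, e10, Matrix.adjugate_fin_two]
  simp

lemma hess_diag {u : Cn 2 → ℝ} (hu : ContDiff ℝ ∞ u) (x : Cn 2) (i : Fin 2) :
    hess u x i i = levi u x (bas i) := by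
  rw [levi_eq (hu.of_le ss_le), Fin.sum_univ_two, Fin.sum_univ_two, Fin.sum_univ_two]
  fin_cases i <;> simp [bas]

/-- values near zero close to the boundary -/
def Bd (v : Cn 2 → ℝ) : Prop :=
  ∀ θ > 0, ∃ C : Set (Cn 2), IsCompact C ∧ C ⊆ Om ∧ ∀ x ∈ Om, x ∉ C → -θ < v x

lemma Bd.mono {u v : Cn 2 → ℝ} (hu : Bd u) (h : ∀ x ∈ Om, u x ≤ v x) : Bd v := by
  intro θ hθ
  obtain ⟨C, h1, h2, h3⟩ := hu θ hθ
  exact ⟨C, h1, h2, fun x hx hxC => (h3 x hx hxC).trans_le (h x hx)⟩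

lemma pp_norm (z w : ℂ) : ‖pp z w‖ ^ 2 = ‖z‖ ^ 2 + ‖w‖ ^ 2 := by
  rw [EuclideanSpace.norm_sq_eq, Fin.sum_univ_two, pp_zero, pp_one]

/-- the product structure as a linear isometry -/
noncomputable def Jm : WithLp 2 (ℂ × ℂ) ≃ₗᵢ[ℝ] Cn 2 where
  toFun q := pp q.snd q.fst
  map_add' q r := by
    ext i
    fin_cases i <;> simp
  map_smul' c q := by
    ext i
    fin_cases i <;> simp
  invFun x := WithLp.toLp 2 (x 1, x 0)
  left_inv q := by
    simp
    rfl
  right_inv x := by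
    exact pp_eta x
  norm_map' q := by
    have h : ‖pp q.snd q.fst‖ ^ 2 = ‖q‖ ^ 2 := by
      rw [pp_norm, WithLp.prod_norm_sq_eq_of_L2]
      ring
    exact (sq_eq_sq₀ (norm_nonneg _) (norm_nonneg _)).1 h

lemma mpp : MeasurePreserving (fun q : ℂ × ℂ => pp q.2 q.1) volume volume :=
  Jm.measurePreserving.comp (WithLp.volume_preserving_toLp ℂ ℂ)

lemma mpp_emb : MeasurableEmbedding (fun q : ℂ × ℂ => pp q.2 q.1) := by
  have h1 : MeasurableEmbedding (WithLp.toLp 2 : ℂ × ℂ → WithLp 2 (ℂ × ℂ)) :=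
    (MeasurableEquiv.toLp 2 (ℂ × ℂ)).measurableEmbedding
  exact (Jm.toMeasurableEquiv.measurableEmbedding).comp h1

lemma fub {F : Cn 2 → ℝ} (hF : Integrable F) : ∫ x, F x = ∫ w : ℂ, ∫ z : ℂ, F (pp z w) := by
  rw [← mpp.integral_comp mpp_emb F]
  rw [show (volume : Measure (ℂ × ℂ)) = (volume : Measure ℂ).prod volume from rfl]
  rw [integral_prod]
  have := (mpp.integrable_comp_emb mpp_emb (g := F)).2 hF
  exact this

lemma fub_on {F : Cn 2 → ℝ} {A B : Set ℂ}
    (hF : IntegrableOn F {x | x 1 ∈ A ∧ x 0 ∈ B}) :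
    ∫ x in {x : Cn 2 | x 1 ∈ A ∧ x 0 ∈ B}, F x = ∫ w in A, ∫ z in B, F (pp z w) := by
  have hpre : (fun q : ℂ × ℂ => pp q.2 q.1) ⁻¹' {x : Cn 2 | x 1 ∈ A ∧ x 0 ∈ B} = A ×ˢ B := by
    ext q
    simp [mem_prod]
  have hF' : IntegrableOn (fun q : ℂ × ℂ => F (pp q.2 q.1)) (A ×ˢ B) := by
    rw [← hpre]
    exact (mpp.integrableOn_comp_preimage mpp_emb).2 hF
  rw [← mpp.setIntegral_preimage_emb mpp_emb F, hpre]
  rw [show (volume : Measure (ℂ × ℂ)) = (volume : Measure ℂ).prod volume from rfl] at *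
  exact setIntegral_prod _ hF'

/-- the logarithmic area of an annulus -/
lemma ann_log {a b : ℝ} (ha : 0 < a) (hab : a ≤ b) :
    ∫ w in Ann a b, (‖w‖ ^ 2)⁻¹ = 2 * Real.pi * Real.log (b / a) := by
  have hm : MeasurableSet (Ann a b) := (Ann_compact a b).measurableSet
  have h := integral_fun_norm_addHaar (volume : Measure ℂ) (fun y : ℝ => (Icc a b).indicator (fun y => (y ^ 2)⁻¹) y)
  rw [← integral_indicator hm]
  have e1 : (fun x : ℂ => (Icc a b).indicator (fun y : ℝ => (y ^ 2)⁻¹) ‖x‖) =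
      (Ann a b).indicator (fun w => (‖w‖ ^ 2)⁻¹) := by
    funext x
    by_cases hx : x ∈ Ann a b
    · rw [indicator_of_mem hx, indicator_of_mem (show ‖x‖ ∈ Icc a b from hx)]
    · rw [indicator_of_notMem hx, indicator_of_notMem (show ‖x‖ ∉ Icc a b from hx)]
  rw [e1] at h
  rw [h]
  have e2 : (volume : Measure ℂ).real (ball 0 1) = Real.pi := by
    rw [Measure.real, Complex.volume_ball]
    simp
  have e3 : ∫ y in Ioi (0 : ℝ), y ^ (Module.finrank ℝ ℂ - 1) • (Icc a b).indicator (fun y => (y ^ 2)⁻¹) y =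
      Real.log (b / a) := by
    rw [Complex.finrank_real_complex]
    have : ∀ y : ℝ, y ^ (2 - 1) • (Icc a b).indicator (fun y => (y ^ 2)⁻¹) y =
        (Icc a b).indicator (fun y => y⁻¹) y := by
      intro y
      by_cases hy : y ∈ Icc a b
      · rw [indicator_of_mem hy, indicator_of_mem hy]
        have : y ≠ 0 := (ha.trans_le hy.1).ne'
        simp only [smul_eq_mul]
        field_simp
        norm_num
      · rw [indicator_of_notMem hy, indicator_of_notMem hy, smul_zero]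
    simp_rw [this]
    have hsub : Icc a b ⊆ Ioi 0 := fun y hy => ha.trans_le hy.1
    rw [setIntegral_indicator measurableSet_Icc, inter_eq_right.2 hsub,
      integral_Icc_eq_integral_Ioc, ← intervalIntegral.integral_of_le hab, integral_inv_of_pos ha (ha.trans_le hab)]
  rw [e2, e3, Complex.finrank_real_complex]
  simp only [nsmul_eq_mul, smul_eq_mul]
  push_cast
  ring

lemma ann_exp {T s t : ℝ} (hT : 0 ≤ T) (hst : s ≤ t) :
    ∫ w in Ann (Real.exp (-(t * T))) (Real.exp (-(s * T))), (‖w‖ ^ 2)⁻¹ = 2 * Real.pi * ((t - s) * T) := by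
  rw [ann_log (Real.exp_pos _) (Real.exp_le_exp.2 (by nlinarith)), ← Real.exp_sub, Real.log_exp]
  ring

/-- a product set over an annulus -/
def AE (a b : ℝ) : Set (Cn 2) := {x | x 1 ∈ Ann a b ∧ x 0 ∈ closedBall (0 : ℂ) 1}

lemma AE_compact (a b : ℝ) : IsCompact (AE a b) := by
  apply (KR_compact (max b 1)).of_isClosed_subset
  · exact ((Ann_compact a b).isClosed.preimage (cont_coord 1)).inter
      (isClosed_closedBall.preimage (cont_coord 0))
  · intro x hx
    exact ⟨(mem_closedBall_zero_iff.1 hx.2).trans (le_max_right _ _), hx.1.2.trans (le_max_left _ _)⟩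

lemma AE_int {a b : ℝ} (ha : 0 < a) (hab : a ≤ b) :
    IntegrableOn (fun x : Cn 2 => (‖x 1‖ ^ 2)⁻¹) (AE a b) ∧
      ∫ x in AE a b, (‖x 1‖ ^ 2)⁻¹ = Real.pi * (2 * Real.pi * Real.log (b / a)) := by
  have hc : ContinuousOn (fun x : Cn 2 => (‖x 1‖ ^ 2)⁻¹) (AE a b) := by
    apply ContinuousOn.inv₀ (((cont_coord 1).norm.pow 2).continuousOn)
    intro x hx
    have : 0 < ‖x 1‖ := ha.trans_le hx.1.1
    change ‖x 1‖ ^ 2 ≠ 0
    positivity
  have hi := hc.integrableOn_compact (μ := volume) (AE_compact a b)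
  refine ⟨hi, ?_⟩
  unfold AE at *
  rw [fub_on hi]
  simp only [pp_one]
  have : ∀ w : ℂ, ∫ _z in closedBall (0 : ℂ) 1, (‖w‖ ^ 2)⁻¹ = Real.pi * (‖w‖ ^ 2)⁻¹ := by
    intro w
    rw [setIntegral_const, measureReal_def, Complex.volume_closedBall]
    simp
  simp_rw [this]
  rw [integral_const_mul, ann_log ha hab]

/-- `F (log q / T)` -/
noncomputable def lg (F : ℝ → ℝ) (T q : ℝ) : ℝ := if q ≤ 0 then 0 else F (Real.log q / T)

/-- `F (log q / T) / q` -/
noncomputable def lgd (F : ℝ → ℝ) (T q : ℝ) : ℝ := if q ≤ 0 then 0 else F (Real.log q / T) / q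

section rad
variable {F : ℝ → ℝ} {T t0 : ℝ}

lemma log_lt {q : ℝ} (hT : 0 < T) (hq : 0 < q) (h : q < Real.exp (t0 * T)) : Real.log q / T ≤ t0 := by
  rw [div_le_iff₀ hT]
  exact ((Real.log_lt_iff_lt_exp hq).2 h).le

lemma lg_zero (hT : 0 < T) (h0 : ∀ t ≤ t0, F t = 0) {q : ℝ} (h : q < Real.exp (t0 * T)) : lg F T q = 0 := by
  unfold lg
  split_ifs with hq
  · rfl
  · exact h0 _ (log_lt hT (not_le.1 hq) h)

lemma lgd_zero (hT : 0 < T) (h0 : ∀ t ≤ t0, F t = 0) {q : ℝ} (h : q < Real.exp (t0 * T)) : lgd F T q = 0 := by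
  unfold lgd
  split_ifs with hq
  · rfl
  · rw [h0 _ (log_lt hT (not_le.1 hq) h), zero_div]

lemma lg_pos {q : ℝ} (hq : 0 < q) : lg F T q = F (Real.log q / T) := by
  unfold lg
  rw [if_neg (not_le.2 hq)]

lemma lgd_pos {q : ℝ} (hq : 0 < q) : lgd F T q = F (Real.log q / T) / q := by
  unfold lgd
  rw [if_neg (not_le.2 hq)]

lemma mul_lgd (q : ℝ) : q * lgd F T q = lg F T q := by
  unfold lg lgd
  split_ifs with hq
  · rw [mul_zero]
  · have : q ≠ 0 := (not_le.1 hq).ne'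
    field_simp

lemma lg_smooth (hF : ContDiff ℝ ∞ F) (hT : 0 < T) (h0 : ∀ t ≤ t0, F t = 0) : ContDiff ℝ ∞ (lg F T) := by
  rw [contDiff_iff_contDiffAt]
  intro q
  rcases lt_or_ge q (Real.exp (t0 * T)) with h | h
  · have : lg F T =ᶠ[𝓝 q] fun _ => 0 := by
      filter_upwards [gt_mem_nhds h] with y hy
      exact lg_zero hT h0 hy
    exact contDiffAt_const.congr_of_eventuallyEq this
  · have hq : 0 < q := (Real.exp_pos _).trans_le h
    have : lg F T =ᶠ[𝓝 q] fun y => F (Real.log y / T) := by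
      filter_upwards [lt_mem_nhds hq] with y hy
      exact lg_pos hy
    refine ContDiffAt.congr_of_eventuallyEq ?_ this
    exact hF.contDiffAt.comp q ((Real.contDiffAt_log.2 hq.ne').div_const T)

lemma lgd_smooth (hF : ContDiff ℝ ∞ F) (hT : 0 < T) (h0 : ∀ t ≤ t0, F t = 0) : ContDiff ℝ ∞ (lgd F T) := by
  rw [contDiff_iff_contDiffAt]
  intro q
  rcases lt_or_ge q (Real.exp (t0 * T)) with h | h
  · have : lgd F T =ᶠ[𝓝 q] fun _ => 0 := by
      filter_upwards [gt_mem_nhds h] with y hy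
      exact lgd_zero hT h0 hy
    exact contDiffAt_const.congr_of_eventuallyEq this
  · have hq : 0 < q := (Real.exp_pos _).trans_le h
    have : lgd F T =ᶠ[𝓝 q] fun y => F (Real.log y / T) / y := by
      filter_upwards [lt_mem_nhds hq] with y hy
      exact lgd_pos hy
    refine ContDiffAt.congr_of_eventuallyEq ?_ this
    exact (hF.contDiffAt.comp q ((Real.contDiffAt_log.2 hq.ne').div_const T)).div contDiffAt_id hq.ne'

lemma lg_deriv (hF : ContDiff ℝ ∞ F) (hT : 0 < T) (h0 : ∀ t ≤ t0, F t = 0) (q : ℝ) :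
    HasDerivAt (lg F T) (lgd (deriv F) T q / T) q := by
  rcases lt_or_ge q (Real.exp (t0 * T)) with h | h
  · have h1 : lg F T =ᶠ[𝓝 q] fun _ => 0 := by
      filter_upwards [gt_mem_nhds h] with y hy
      exact lg_zero hT h0 hy
    have h2 : lgd (deriv F) T q = 0 := by
      unfold lgd
      split_ifs with hq
      · rfl
      · have h3 : Real.log q / T < t0 := by
          rw [div_lt_iff₀ hT]
          exact (Real.log_lt_iff_lt_exp (not_le.1 hq)).2 h
        have h4 : F =ᶠ[𝓝 (Real.log q / T)] fun _ => 0 := by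
          filter_upwards [gt_mem_nhds h3] with y hy
          exact h0 y hy.le
        rw [h4.deriv_eq]
        simp
    rw [h2, zero_div]
    exact (hasDerivAt_const q (0 : ℝ)).congr_of_eventuallyEq h1
  · have hq : 0 < q := (Real.exp_pos _).trans_le h
    have h1 : lg F T =ᶠ[𝓝 q] fun y => F (Real.log y / T) := by
      filter_upwards [lt_mem_nhds hq] with y hy
      exact lg_pos hy
    have h2 : HasDerivAt (fun y => F (Real.log y / T)) (deriv F (Real.log q / T) * (q⁻¹ / T)) q :=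
      ((hF.differentiable (by simp)).differentiableAt.hasDerivAt).comp q ((Real.hasDerivAt_log hq.ne').div_const T)
    have h3 : lgd (deriv F) T q / T = deriv F (Real.log q / T) * (q⁻¹ / T) := by
      rw [lgd_pos hq]
      ring
    rw [h3]
    exact h2.congr_of_eventuallyEq h1

end rad

lemma deriv_zero_of {F : ℝ → ℝ} {t0 : ℝ} (hF : ContDiff ℝ ∞ F) (h0 : ∀ t ≤ t0, F t = 0) : ∀ t ≤ t0, deriv F t = 0 := by
  intro t ht
  have hc : Continuous (deriv F) := hF.continuous_deriv (by simp)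
  have h1 : ∀ s < t0, deriv F s = 0 := by
    intro s hs
    have h4 : F =ᶠ[𝓝 s] fun _ => 0 := by
      filter_upwards [gt_mem_nhds hs] with y hy
      exact h0 y hy.le
    rw [h4.deriv_eq]
    simp
  rcases eq_or_lt_of_le ht with h | h
  · rw [h]
    have h2 : Tendsto (deriv F) (𝓝[<] t0) (𝓝 (deriv F t0)) := (hc.tendsto t0).mono_left nhdsWithin_le_nhds
    have h3 : Tendsto (deriv F) (𝓝[<] t0) (𝓝 0) := by
      refine tendsto_const_nhds.congr' ?_
      filter_upwards [self_mem_nhdsWithin] with s hs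
      exact (h1 s hs).symm
    exact tendsto_nhds_unique h2 h3
  · exact h1 t h

lemma rad_levi {Φ : ℝ → ℝ} (hΦ : ContDiff ℝ ∞ Φ) (x : Cn 2) :
    levi (fun y => Φ (qc 1 y)) x (bas 1) = deriv Φ (qc 1 x) + qc 1 x * deriv (deriv Φ) (qc 1 x) := by
  have hb : (bas 1 : Cn 2) 1 = 1 := by simp [bas]
  have hb2 : (Complex.I • bas 1 : Cn 2) 1 = Complex.I := by simp [bas]
  rw [levi_comp (hΦ.of_le ss_le) ((qc_smooth 1).of_le ss_le), qc_levi, qc_fderiv, qc_fderiv, hb, hb2]
  simp only [norm_one, one_pow, mul_one, Complex.inner]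
  have : qc 1 x = (x 1).re ^ 2 + (x 1).im ^ 2 := by
    unfold qc
    rw [← Complex.normSq_eq_norm_sq, Complex.normSq_apply]
    ring
  rw [this]
  simp
  ring

lemma lg_levi {F : ℝ → ℝ} {T t0 : ℝ} (hF : ContDiff ℝ ∞ F) (hT : 0 < T) (h0 : ∀ t ≤ t0, F t = 0) (x : Cn 2) :
    levi (fun y => lg F T (qc 1 y)) x (bas 1) = lgd (deriv (deriv F)) T (qc 1 x) / T ^ 2 := by
  rw [rad_levi (lg_smooth hF hT h0)]
  have hF' : ContDiff ℝ ∞ (deriv F) := by
    rw [contDiff_infty_iff_deriv] at hF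
    exact hF.2
  have hF0 := deriv_zero_of hF h0
  have e1 : deriv (lg F T) = fun q => lgd (deriv F) T q / T := funext fun q => (lg_deriv hF hT h0 q).deriv
  have hs : ContDiff ℝ ∞ (deriv (lg F T)) := by
    rw [e1]
    exact (lgd_smooth hF' hT hF0).div_const T
  set q := qc 1 x with hq
  have e2 : HasDerivAt (fun y => y * deriv (lg F T) y) (1 * deriv (lg F T) q + q * deriv (deriv (lg F T)) q) q :=
    (hasDerivAt_id q).mul (hs.differentiable (by simp)).differentiableAt.hasDerivAt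
  have e3 : (fun y => y * deriv (lg F T) y) = fun y => lg (deriv F) T y / T := by
    funext y
    rw [e1]
    simp only
    rw [← mul_lgd y]
    ring
  rw [e3] at e2
  have e4 := e2.unique ((lg_deriv hF' hT hF0 q).div_const T)
  rw [one_mul] at e4
  rw [e4]
  field_simp

lemma rad_indep {Φ : ℝ → ℝ} (x : Cn 2) (c : ℂ) : Φ (qc 1 (x + c • bas 0)) = Φ (qc 1 x) := by
  have : (x + c • bas 0 : Cn 2) 1 = x 1 := by simp [bas]
  unfold qc
  rw [this]

lemma hess_pc0 (x : Cn 2) : hess (pc 0) x = !![1, 0; 0, 0] := by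
  have h : hess (pc 0) x = hess (qc 0) x := hess_add_const (-1) (qc_smooth 0) x
  rw [h]
  have hs := hess_eq_sesq ((qc_smooth 0).of_le ss_le) x
  have hD : ∀ ξ ζ : Cn 2, fderiv ℝ (fderiv ℝ (qc 0)) x ξ ζ = 2 * inner ℝ (ξ 0) (ζ 0) := qc_D2 0 x
  ext i j
  rw [hs, sesq, hD, hD, hD, hD]
  fin_cases i <;> fin_cases j <;> simp [bas] <;> norm_num

lemma hess_pc1 (x : Cn 2) : hess (pc 1) x = !![0, 0; 0, 1] := by
  have h : hess (pc 1) x = hess (qc 1) x := hess_add_const (-1) (qc_smooth 1) x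
  rw [h]
  have hs := hess_eq_sesq ((qc_smooth 1).of_le ss_le) x
  have hD : ∀ ξ ζ : Cn 2, fderiv ℝ (fderiv ℝ (qc 1)) x ξ ζ = 2 * inner ℝ (ξ 1) (ζ 1) := qc_D2 1 x
  ext i j
  rw [hs, sesq, hD, hD, hD, hD]
  fin_cases i <;> fin_cases j <;> simp [bas] <;> norm_num

/-- integration by parts in the first coordinate -/
lemma ibp_zero {c g : Cn 2 → ℝ} (hc : ContDiff ℝ ∞ c) (hg : ContDiff ℝ ∞ g) (hcs : HasCompactSupport c) :
    ∫ x, g x * levi c x (bas 0) = ∫ x, c x * levi g x (bas 0) := by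
  have h := ibp (pc 1) c g (pc_smooth 1) hc hg hcs
  have e : ∀ u : Cn 2 → ℝ, ContDiff ℝ ∞ u → ∀ x, ((hess (pc 1) x).adjugate * hess u x).trace = (levi u x (bas 0) : ℂ) := by
    intro u hu x
    rw [hess_pc1, ← hess_diag hu, Matrix.adjugate_fin_two, Matrix.trace_fin_two, Matrix.mul_apply, Matrix.mul_apply,
      Fin.sum_univ_two, Fin.sum_univ_two]
    simp
  simp_rw [e c hc, e g hg, ← Complex.ofReal_mul] at h
  rw [integral_complex_ofReal, integral_complex_ofReal] at h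
  exact_mod_cast h

/-! ### first order integration by parts -/

/-- the mixed gradient in the second coordinate -/
noncomputable def G1 (f g : Cn 2 → ℝ) (x : Cn 2) : ℝ :=
  (fderiv ℝ f x (bas 1) * fderiv ℝ g x (bas 1) +
    fderiv ℝ f x (Complex.I • bas 1) * fderiv ℝ g x (Complex.I • bas 1)) / 4

lemma fderiv_smooth {f : Cn 2 → ℝ} (hf : ContDiff ℝ ∞ f) (ξ : Cn 2) : ContDiff ℝ ∞ fun x => fderiv ℝ f x ξ :=
  (hf.fderiv_right (m := ∞) (by simp)).clm_apply contDiff_const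

/-- the integral of a directional derivative vanishes -/
lemma int_dir {F : Cn 2 → ℝ} (hF : ContDiff ℝ ∞ F) (hc : HasCompactSupport F) (ξ : Cn 2) :
    ∫ x, fderiv ℝ F x ξ = 0 := by
  have h1 : ContDiff ℝ 1 fun x => (F x : ℂ) := (Complex.ofRealCLM.contDiff.comp hF).of_le (by simp)
  have h2 : HasCompactSupport fun x => (F x : ℂ) := hc.comp_left (g := fun x : ℝ => (x : ℂ)) (by simp)
  have h3 := int_deriv_zero (fun x => (F x : ℂ)) h1 h2 ξ
  have h4 : ∀ x, fderiv ℝ (fun y => (F y : ℂ)) x ξ = ((fderiv ℝ F x ξ : ℝ) : ℂ) := fun x =>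
    fderiv_ofReal x ξ ((hF.differentiable (by simp)).differentiableAt)
  simp_rw [h4] at h3
  rw [integral_complex_ofReal] at h3
  exact_mod_cast h3

lemma fderiv_mul_apply' {f g : Cn 2 → ℝ} (hf : ContDiff ℝ ∞ f) (hg : ContDiff ℝ ∞ g) (x ξ : Cn 2) :
    fderiv ℝ (fun y => f y * g y) x ξ = f x * fderiv ℝ g x ξ + fderiv ℝ f x ξ * g x := by
  have h1 := ((hf.differentiable (by simp)).differentiableAt (x := x)).hasFDerivAt
  have h2 := ((hg.differentiable (by simp)).differentiableAt (x := x)).hasFDerivAt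
  have h3 : fderiv ℝ (fun y => f y * g y) x = f x • fderiv ℝ g x + g x • fderiv ℝ f x := (h1.mul h2).fderiv
  rw [h3]
  simp
  ring

lemma dir_ibp {c : Cn 2 → ℝ} (hc : ContDiff ℝ ∞ c) (hcs : HasCompactSupport c) {g : Cn 2 → ℝ}
    (hg : ContDiff ℝ ∞ g) (ξ : Cn 2) :
    ∫ x, c x * fderiv ℝ g x ξ = -∫ x, fderiv ℝ c x ξ * g x := by
  have h := int_dir (hc.mul hg) hcs.mul_right ξ
  have h1 : (fun x => fderiv ℝ (fun y => c y * g y) x ξ) =
      fun x => c x * fderiv ℝ g x ξ + fderiv ℝ c x ξ * g x := funext fun x => fderiv_mul_apply' hc hg x ξ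
  have hcd : HasCompactSupport fun x => fderiv ℝ c x ξ := hcs.fderiv_apply (𝕜 := ℝ) ξ
  rw [h1, integral_add] at h
  · linarith
  · exact (hc.continuous.mul (fderiv_smooth hg ξ).continuous).integrable_of_hasCompactSupport hcs.mul_right
  · exact ((fderiv_smooth hc ξ).continuous.mul hg.continuous).integrable_of_hasCompactSupport hcd.mul_right

lemma D2_eq_dir {g : Cn 2 → ℝ} (hg : ContDiff ℝ ∞ g) (x ξ : Cn 2) :
    D2 g x ξ ξ = fderiv ℝ (fun y => fderiv ℝ g y ξ) x ξ := by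
  have hd2 : DifferentiableAt ℝ (fderiv ℝ g) x :=
    ((hg.fderiv_right (m := ∞) (by simp)).differentiable (by simp)).differentiableAt
  have h1 : HasFDerivAt (fun y => fderiv ℝ g y ξ) ((fderiv ℝ (fderiv ℝ g) x).flip ξ) x := by
    have := (ContinuousLinearMap.apply ℝ ℝ ξ).hasFDerivAt.comp x hd2.hasFDerivAt
    exact this
  rw [h1.fderiv]
  rfl

/-- integration by parts in the second coordinate -/
lemma ibp_one {c g : Cn 2 → ℝ} (hc : ContDiff ℝ ∞ c) (hcs : HasCompactSupport c) (hg : ContDiff ℝ ∞ g) :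
    ∫ x, c x * levi g x (bas 1) = -∫ x, G1 c g x := by
  have key : ∀ ξ : Cn 2, ∫ x, c x * D2 g x ξ ξ = -∫ x, fderiv ℝ c x ξ * fderiv ℝ g x ξ := by
    intro ξ
    simp_rw [D2_eq_dir hg]
    exact dir_ibp hc hcs (fderiv_smooth hg ξ) ξ
  have hi1 : ∀ ξ : Cn 2, Integrable fun x => c x * D2 g x ξ ξ := fun ξ =>
    (hc.continuous.mul (D2_continuous (hg.of_le ss_le) ξ ξ)).integrable_of_hasCompactSupport
      hcs.mul_right
  have hi2 : ∀ ξ : Cn 2, Integrable fun x => fderiv ℝ c x ξ * fderiv ℝ g x ξ := fun ξ =>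
    ((fderiv_smooth hc ξ).continuous.mul (fderiv_smooth hg ξ).continuous).integrable_of_hasCompactSupport
      (HasCompactSupport.mul_right (hcs.fderiv_apply (𝕜 := ℝ) ξ))
  have e1 : (fun x => c x * levi g x (bas 1)) = fun x => (c x * D2 g x (bas 1) (bas 1) +
      c x * D2 g x (Complex.I • bas 1) (Complex.I • bas 1)) / 4 := by
    funext x
    unfold levi
    ring
  unfold G1
  rw [e1, integral_div, integral_add (hi1 _) (hi1 _), key, key, integral_div, integral_add (hi2 _) (hi2 _)]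
  ring

end Pool.Agent.U574.FC
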