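import Mathlib
import Pool.Agent.U574.FC.Tools

/-!
Concentration of the Monge-Ampère mass of the approximants on their sublevel sets.
-/

set_option autoImplicit false
set_option maxHeartbeats 1000000

open MeasureTheory Metric Set Filter Topology
open scoped ContDiff ComplexOrder

namespace Pool.Agent.U574.FC
open Pool.Agent.H805R2

/-- the set near `w = 0` -/
def Lw (r T : ℝ) : Set (Cn 2) := {x | ‖x 0‖ ≤ r ∧ ‖x 1‖ ≤ Real.exp (-T)}

lemma Lw_closed (r T : ℝ) : IsClosed (Lw r T) :=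
  (isClosed_le (cont_coord 0).norm continuous_const).inter (isClosed_le (cont_coord 1).norm continuous_const)

lemma Lw_sub {r T : ℝ} (hr : r < 1) (hT : 0 < T) : Lw r T ⊆ Om := fun _ hx =>
  ⟨hx.1.trans_lt hr, hx.2.trans_lt (by rw [Real.exp_lt_one_iff]; linarith)⟩

lemma Lw_compact {r T : ℝ} (hr : r < 1) (hT : 0 < T) : IsCompact (Lw r T) :=
  (KR_compact 1).of_isClosed_subset (Lw_closed r T) fun _ hx =>
    ⟨(Lw_sub hr hT hx).1.le, (Lw_sub hr hT hx).2.le⟩

/-- truncation by `S (‖z‖² - 1)` -/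
noncomputable def tru (S : ℝ) (v : Cn 2 → ℝ) : Cn 2 → ℝ := rm v fun x => S * pc 0 x

section tru
variable {S : ℝ} {v : Cn 2 → ℝ} (hS : 0 < S) (hv : SP v) (hneg : ∀ x ∈ Om, v x < 0)
include hS

lemma beta_neg {x : Cn 2} (hx : x ∈ Om) : S * pc 0 x < 0 := mul_neg_of_pos_of_neg hS (pc_neg hx)

lemma tru_ge {x : Cn 2} (hx : x ∈ Om) : v x ≤ tru S v x := le_rm (β := fun x => S * pc 0 x) (beta_neg hS hx)

lemma tru_ge' {x : Cn 2} (hx : x ∈ Om) : S * pc 0 x ≤ tru S v x :=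
  rm_ge_beta (β := fun x => S * pc 0 x) (beta_neg hS hx)

lemma tru_eq {x : Cn 2} (hx : x ∈ Om) (h : S * pc 0 x / 2 ≤ v x) : tru S v x = v x :=
  rm_of_le (β := fun x => S * pc 0 x) (beta_neg hS hx) h

lemma tru_half {x : Cn 2} (hx : x ∈ Om) (h : v x ≤ S * pc 0 x / 2) : tru S v x ≤ S * pc 0 x / 2 :=
  rm_le_half (β := fun x => S * pc 0 x) (beta_neg hS hx) h

lemma tru_max {x : Cn 2} (hx : x ∈ Om) : tru S v x ≤ max (v x) (S * pc 0 x / 2) :=
  rm_le_max (β := fun x => S * pc 0 x) (beta_neg hS hx)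

include hv

lemma tru_sp : SP (tru S v) := rm_sp hv (sp_smul (pc_sp 0) hS.le) fun _ hx => beta_neg hS hx

include hneg

omit hv in
lemma tru_neg {x : Cn 2} (hx : x ∈ Om) : tru S v x < 0 := rm_neg (hneg x hx) (beta_neg hS hx)

omit hneg in
lemma tru_Hd {x : Cn 2} (hx : x ∈ Om) (h : S * pc 0 x / 2 < v x) : Hd (tru S v) x = Hd v x := by
  apply Hd_congr
  have h1 : ContinuousAt (fun y => S * pc 0 y / 2) x :=
    (((pc_smooth 0).continuous.const_mul S).div_const 2).continuousAt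
  have h2 : ContinuousAt v x := hv.sm.continuousOn.continuousAt (Om_open.mem_nhds hx)
  filter_upwards [h1.eventually_lt h2 h, Om_open.mem_nhds hx] with y hy hyO
  exact tru_eq hS hyO hy.le

end tru

/-- the sublevel set where the truncation is active -/
def Bs (S : ℝ) (v : Cn 2 → ℝ) : Set (Cn 2) := {x | v x ≤ S * pc 0 x / 2}

lemma Bs_compact {S : ℝ} {v : Cn 2 → ℝ} (hv : ContinuousOn v Om) {L : Set (Cn 2)} (hL : IsCompact L) (hLO : L ⊆ Om) :
    IsCompact (L ∩ Bs S v) := by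
  have h1 : ContinuousOn (fun x => v x - S * pc 0 x / 2) L :=
    (hv.mono hLO).sub (((pc_smooth 0).continuous.const_mul S).div_const 2).continuousOn
  have h2 : IsClosed (L ∩ (fun x => v x - S * pc 0 x / 2) ⁻¹' Iic 0) :=
    h1.preimage_isClosed_of_isClosed hL.isClosed isClosed_Iic
  have h3 : L ∩ Bs S v = L ∩ (fun x => v x - S * pc 0 x / 2) ⁻¹' Iic 0 := by
    ext x
    simp [Bs]
  rw [h3]
  exact hL.of_isClosed_subset h2 inter_subset_left

lemma wi {v : Cn 2 → ℝ} (hv : SP v) {h : Cn 2 → ℝ} (hh : ContinuousOn h Om) {L : Set (Cn 2)} (hL : IsCompact L)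
    (hLO : L ⊆ Om) : IntegrableOn (fun x => h x * Hd v x) L :=
  ((hh.mono hLO).mul ((Hd_contOn hv.sm).mono hLO)).integrableOn_compact hL

lemma conc {CM : ℝ} (hM : ∀ {S T r : ℝ}, 0 < S → 0 < T → 0 ≤ r → r < 1 → ∀ {V : Cn 2 → ℝ}, SP V →
    (∀ x ∈ Om, V x ≤ 0) → (∀ x ∈ Om, S * pc 0 x ≤ V x) → ∫ x in Lw r T, Hd V x ≤ CM * S ^ 2 / T)
    {v : Cn 2 → ℝ} (hv : SP v) (hneg : ∀ x ∈ Om, v x < 0) {S T r : ℝ} (hS : 0 < S) (hT : 0 < T) (hr0 : 0 ≤ r)
    (hr1 : r < 1) {χ : Cn 2 → ℝ} (hχ : Continuous χ) (hχ01 : ∀ x, χ x ∈ Icc (0 : ℝ) 1)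
    (hχL : ∀ x, x ∉ Lw r T → χ x = 0) :
    ∫ x, (χ x * (-pc 0 x)) * Hd v x ≤ (∫ x in Lw r T ∩ Bs S v, (-pc 0 x) * Hd v x) + CM * S ^ 2 / T := by
  set L := Lw r T with hL
  have hLc : IsCompact L := Lw_compact hr1 hT
  have hLO : L ⊆ Om := Lw_sub hr1 hT
  have hpc : Continuous fun x : Cn 2 => -pc 0 x := (pc_smooth 0).continuous.neg
  have hDc : IsCompact (L ∩ Bs S v) := Bs_compact hv.sm.continuousOn hLc hLO
  have hi : IntegrableOn (fun x => (-pc 0 x) * Hd v x) L := wi hv hpc.continuousOn hLc hLO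
  have e1 : ∫ x, (χ x * (-pc 0 x)) * Hd v x = ∫ x in L, (χ x * (-pc 0 x)) * Hd v x := by
    symm
    apply setIntegral_eq_integral_of_forall_compl_eq_zero
    intro x hx
    rw [hχL x hx]
    simp
  have e2 : ∫ x in L, (χ x * (-pc 0 x)) * Hd v x ≤ ∫ x in L, (-pc 0 x) * Hd v x := by
    apply setIntegral_mono_on _ hi hLc.measurableSet
    · intro x hx
      have h1 := Hd_nonneg (hv.psd x (hLO hx))
      have h2 := pc_neg (i := 0) (hLO hx)
      have h3 := (hχ01 x).2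
      have h4 : χ x * (-pc 0 x) ≤ -pc 0 x := by nlinarith
      exact mul_le_mul_of_nonneg_right h4 h1
    · exact wi hv (hχ.mul hpc).continuousOn hLc hLO
  have e3 := setIntegral_sdiff hDc.measurableSet hi inter_subset_left
  have e4 : ∫ x in L \ (L ∩ Bs S v), (-pc 0 x) * Hd v x ≤ ∫ x in L, Hd (tru S v) x := by
    have hsp := tru_sp hS hv
    have hiT : IntegrableOn (Hd (tru S v)) L := ((Hd_contOn hsp.sm).mono hLO).integrableOn_compact hLc
    have hms : MeasurableSet (L \ (L ∩ Bs S v)) := hLc.measurableSet.diff hDc.measurableSet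
    calc ∫ x in L \ (L ∩ Bs S v), (-pc 0 x) * Hd v x ≤ ∫ x in L \ (L ∩ Bs S v), Hd (tru S v) x := by
          apply setIntegral_mono_on (hi.mono_set sdiff_subset) (hiT.mono_set sdiff_subset) hms
          intro x hx
          have hxO := hLO hx.1
          have h1 : S * pc 0 x / 2 < v x := by
            by_contra hcon
            exact hx.2 ⟨hx.1, not_lt.1 hcon⟩
          rw [tru_Hd hS hv hxO h1]
          have h2 := Hd_nonneg (hv.psd x hxO)
          have h3 := pc_ge 0 x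
          nlinarith
      _ ≤ ∫ x in L, Hd (tru S v) x := by
          apply setIntegral_mono_set hiT
          · exact (ae_restrict_iff' hLc.measurableSet).2 (Eventually.of_forall fun x hx =>
              Hd_nonneg (hsp.psd x (hLO hx)))
          · exact sdiff_subset.eventuallyLE
  have e5 := hM hS hT hr0 hr1 (tru_sp hS hv) (fun x hx => (tru_neg hS hneg hx).le) (fun x hx => tru_ge' hS hx)
  linarith

/-- cut-offs at the disc -/
lemma cut_exists {s : ℝ} (hs : 0 < s) : ∃ r : ℝ, 0 < r ∧ r < 1 ∧ ∀ T : ℝ, 0 < T →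
    ∃ χ : Cn 2 → ℝ, Continuous χ ∧ HasCompactSupport χ ∧ tsupport χ ⊆ Om ∧ (∀ x, χ x ∈ Icc (0 : ℝ) 1) ∧
      (∀ x, x ∉ Lw r T → χ x = 0) ∧
      (∫ z in ball (0 : ℂ) 1, (1 - ‖z‖ ^ 2)) - s ≤ ∫ z in ball (0 : ℂ) 1, χ (pp z 0) * (-pc 0 (pp z 0)) := by
  obtain ⟨r₀, hr0, hr1, hrs⟩ : ∃ r₀ : ℝ, 0 < r₀ ∧ r₀ < 1 ∧ (1 - r₀ ^ 2) * Real.pi ≤ s := by
    have h1 : Tendsto (fun r : ℝ => (1 - r ^ 2) * Real.pi) (𝓝[<] 1) (𝓝 ((1 - 1 ^ 2) * Real.pi)) := by
      have : Continuous fun r : ℝ => (1 - r ^ 2) * Real.pi := by fun_prop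
      exact (this.tendsto 1).mono_left nhdsWithin_le_nhds
    have h2 := h1.eventually (gt_mem_nhds (show (1 - 1 ^ 2) * Real.pi < s by norm_num; exact hs))
    have h3 : ∀ᶠ r : ℝ in 𝓝[<] 1, 0 < r := nhdsWithin_le_nhds (lt_mem_nhds one_pos)
    obtain ⟨r, ⟨h4, h5⟩, h6⟩ := ((h2.and h3).and self_mem_nhdsWithin).exists
    exact ⟨r, h5, h6, h4.le⟩
  refine ⟨(1 + r₀) / 2, by positivity, by linarith, fun T hT => ?_⟩
  set K : Set (Cn 2) := {x | ‖x 0‖ ≤ r₀ ∧ ‖x 1‖ ≤ 0} with hK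
  have hKc : IsCompact K := by
    apply (KR_compact 1).of_isClosed_subset
    · exact (isClosed_le (cont_coord 0).norm continuous_const).inter
        (isClosed_le (cont_coord 1).norm continuous_const)
    · exact fun x hx => ⟨hx.1.trans hr1.le, hx.2.trans zero_le_one⟩
  set V : Set (Cn 2) := {x | ‖x 0‖ < (1 + r₀) / 2 ∧ ‖x 1‖ < Real.exp (-T)} with hV
  have hVo : IsOpen V := (isOpen_lt (cont_coord 0).norm continuous_const).inter
    (isOpen_lt (cont_coord 1).norm continuous_const)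
  have hKV : K ⊆ V := fun x hx => ⟨hx.1.trans_lt (by linarith), hx.2.trans_lt (Real.exp_pos _)⟩
  obtain ⟨χ, hχs, hχc, hχV, hχ1, hχ01⟩ := cutoff hKc hVo hKV
  have hVL : V ⊆ Lw ((1 + r₀) / 2) T := fun x hx => ⟨hx.1.le, hx.2.le⟩
  refine ⟨χ, hχs.continuous, hχc, (hχV.trans hVL).trans (Lw_sub (by linarith) hT), hχ01, ?_, ?_⟩
  · intro x hx
    exact image_eq_zero_of_notMem_tsupport fun h => hx (hVL (hχV h))
  · have hc1 : Continuous fun z : ℂ => 1 - ‖z‖ ^ 2 := by fun_prop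
    have hc2 : Continuous fun z : ℂ => χ (pp z 0) * (-pc 0 (pp z 0)) :=
      (hχs.continuous.mul (pc_smooth 0).continuous.neg).comp pp_zero_cont
    have hi : ∀ f : ℂ → ℝ, Continuous f → IntegrableOn f (ball 0 1) := fun f hf =>
      (hf.continuousOn.integrableOn_compact (isCompact_closedBall (0 : ℂ) 1)).mono_set ball_subset_closedBall
    have h1 : ∫ _z in ball (0 : ℂ) 1, (1 - r₀ ^ 2) = (1 - r₀ ^ 2) * Real.pi := by
      rw [setIntegral_const, measureReal_def, Complex.volume_ball]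
      simp
      ring
    have h2 : ∫ z in ball (0 : ℂ) 1, ((1 - ‖z‖ ^ 2) - (1 - r₀ ^ 2)) ≤
        ∫ z in ball (0 : ℂ) 1, χ (pp z 0) * (-pc 0 (pp z 0)) := by
      apply setIntegral_mono_on (hi _ (by fun_prop)) (hi _ hc2) measurableSet_ball
      intro z hz
      have hz1 : ‖z‖ < 1 := by simpa using hz
      have hz0 := norm_nonneg z
      have e1 : -pc 0 (pp z 0) = 1 - ‖z‖ ^ 2 := by
        unfold pc
        rw [pp_zero]
        ring
      rw [e1]
      by_cases h : ‖z‖ ≤ r₀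
      · have h3 : χ (pp z 0) = 1 := by
          apply hχ1
          rw [hK, mem_ofPred_eq, pp_zero, pp_one]
          exact ⟨h, by simp⟩
        rw [h3]
        nlinarith
      · have h4 := not_le.1 h
        have h5 := (hχ01 (pp z 0)).1
        have h6 : 0 ≤ χ (pp z 0) * (1 - ‖z‖ ^ 2) := mul_nonneg h5 (by nlinarith)
        nlinarith
    rw [integral_sub (hi _ hc1) (hi _ continuous_const), h1] at h2
    linarith

end Pool.Agent.U574.FC
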