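import Mathlib
import Pool.Agent.U574.FC.Lev

/-!
Polar coordinates and a local Jensen inequality.
-/

set_option autoImplicit false
set_option maxHeartbeats 1000000

open MeasureTheory Metric Set Filter Topology
open scoped ContDiff ComplexOrder

namespace Pool.Agent.U574.FC
open Pool.Agent.H805R2

lemma polar_ball {G : ℂ → ℝ} (hG : Continuous G) {R : ℝ} (hR : 0 ≤ R) :
    ∫ z in ball (0 : ℂ) R, G z =
      ∫ s in (0 : ℝ)..R, s * ∫ θ in (0 : ℝ)..2 * Real.pi, G (s * Complex.exp (θ * Complex.I)) := by
  have h := Complex.integral_comp_polarCoord_symm (fun z => (ball (0 : ℂ) R).indicator G z)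
  rw [integral_indicator measurableSet_ball] at h
  rw [← h]
  have hsymm : ∀ p : ℝ × ℝ, Complex.polarCoord.symm p = p.1 * Complex.exp (p.2 * Complex.I) := by
    intro p
    rw [Complex.polarCoord_symm_apply, Complex.exp_mul_I]
    push_cast
    ring
  set H : ℝ × ℝ → ℝ := fun p => p.1 * G (p.1 * Complex.exp (p.2 * Complex.I)) with hH
  have hHc : Continuous H := by
    apply continuous_fst.mul
    exact hG.comp (by fun_prop)
  have e1 : ∫ p in polarCoord.target, p.1 • (ball (0 : ℂ) R).indicator G (Complex.polarCoord.symm p) =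
      ∫ p in Ioo 0 R ×ˢ Ioo (-Real.pi) Real.pi, H p := by
    have hsub : Ioo 0 R ×ˢ Ioo (-Real.pi) Real.pi ⊆ polarCoord.target := by
      intro p hp
      exact ⟨hp.1.1, hp.2⟩
    rw [setIntegral_eq_of_subset_of_forall_sdiff_eq_zero polarCoord.open_target.measurableSet hsub]
    · apply setIntegral_congr_fun (measurableSet_Ioo.prod measurableSet_Ioo)
      intro p hp
      simp only [hsymm, smul_eq_mul, hH]
      rw [indicator_of_mem]
      rw [mem_ball_zero_iff, norm_mul, Complex.norm_exp_ofReal_mul_I, mul_one, Complex.norm_real,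
        Real.norm_eq_abs, abs_of_pos hp.1.1]
      exact hp.1.2
    · intro p hp
      have h1 : 0 < p.1 := hp.1.1
      have h2 : ¬ p.1 < R := fun h3 => hp.2 ⟨⟨h1, h3⟩, hp.1.2⟩
      simp only [hsymm, smul_eq_mul]
      rw [indicator_of_notMem, mul_zero]
      rw [mem_ball_zero_iff, norm_mul, Complex.norm_exp_ofReal_mul_I, mul_one, Complex.norm_real,
        Real.norm_eq_abs, abs_of_pos h1]
      exact h2
  rw [e1, Measure.volume_eq_prod, setIntegral_prod]
  · rw [intervalIntegral.integral_of_le hR, ← integral_Ioc_eq_integral_Ioo]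
    apply setIntegral_congr_fun measurableSet_Ioc
    intro s _
    simp only [hH]
    rw [← integral_Ioc_eq_integral_Ioo, ← intervalIntegral.integral_of_le (by linarith [Real.pi_pos]),
      intervalIntegral.integral_const_mul]
    congr 1
    have hper : Function.Periodic (fun θ : ℝ => G (s * Complex.exp (θ * Complex.I))) (2 * Real.pi) := by
      intro θ
      simp only
      congr 2
      push_cast
      rw [add_mul, Complex.exp_add, Complex.exp_two_pi_mul_I, mul_one]
    have := hper.intervalIntegral_add_eq (-Real.pi) 0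
    rw [zero_add, show -Real.pi + 2 * Real.pi = Real.pi by ring] at this
    exact this
  · have hK : IsCompact (Icc 0 R ×ˢ Icc (-Real.pi) Real.pi) := isCompact_Icc.prod isCompact_Icc
    have := (hHc.continuousOn.integrableOn_compact (μ := (volume : Measure (ℝ × ℝ))) hK).mono_set
      (prod_mono Ioo_subset_Icc_self Ioo_subset_Icc_self)
    rwa [Measure.volume_eq_prod] at this

/-- the Levi form is quadratic -/
lemma levi_smul {n : ℕ} {u : Cn n → ℝ} (hu : ContDiff ℝ ∞ u) (z ζ : Cn n) (c : ℂ) :
    levi u z (c • ζ) = ‖c‖ ^ 2 * levi u z ζ := by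
  have h1 := levi_eq (hu.of_le ss_le) z (c • ζ)
  have h2 := levi_eq (hu.of_le ss_le) z ζ
  have h3 : ((levi u z (c • ζ) : ℝ) : ℂ) = ((‖c‖ ^ 2 * levi u z ζ : ℝ) : ℂ) := by
    rw [h1]
    push_cast
    rw [h2, Finset.mul_sum]
    apply Finset.sum_congr rfl
    intro j _
    rw [Finset.mul_sum]
    apply Finset.sum_congr rfl
    intro k _
    have : (‖c‖ : ℂ) ^ 2 = c * star c := by
      rw [Complex.star_def, Complex.mul_conj, Complex.normSq_eq_norm_sq]
      push_cast
      rfl
    rw [this]
    simp only [PiLp.smul_apply, smul_eq_mul, star_mul']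
    ring
  exact_mod_cast h3

/-- circle means -/
lemma circle_calc {n : ℕ} {u : Cn n → ℝ} (hu : ContDiff ℝ ∞ u) (a b : Cn n) :
    ∃ φ p Λ : ℝ → ℝ, Continuous φ ∧ Continuous p ∧ Continuous Λ ∧ φ 0 = 2 * Real.pi * u a ∧
      (∀ r, φ r = ∫ θ in (0 : ℝ)..2 * Real.pi, u (a + (r * Complex.exp (θ * Complex.I)) • b)) ∧
      (∀ r, HasDerivAt φ (p r) r) ∧ (∀ r, HasDerivAt (fun r => r * p r) (r * Λ r) r) ∧
      (∀ r, Λ r = ∫ θ in (0 : ℝ)..2 * Real.pi,
        4 * levi u (a + (r * Complex.exp (θ * Complex.I)) • b) b) := by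
  set v : ℝ → Cn n := fun θ => Complex.exp (θ * Complex.I) • b with hv
  set w : ℝ → Cn n := fun θ => Complex.I • v θ with hw
  have hvc : Continuous v := by
    simp only [hv]; fun_prop
  have hwc : Continuous w := by
    simp only [hw]; fun_prop
  have hvd : ∀ θ, HasDerivAt v (w θ) θ := by
    intro θ
    have h1 : HasDerivAt (fun θ : ℝ => Complex.exp (θ * Complex.I))
        (Complex.exp (θ * Complex.I) * (1 * Complex.I)) θ :=
      ((Complex.ofRealCLM.hasDerivAt (x := θ)).mul_const Complex.I).cexp
    refine (h1.smul_const b).congr_deriv ?_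
    simp only [hw, hv, smul_smul]
    congr 1
    ring
  have hwd : ∀ θ, HasDerivAt w (-v θ) θ := by
    intro θ
    refine ((hvd θ).const_smul Complex.I).congr_deriv ?_
    simp only [hw, smul_smul, Complex.I_mul_I, neg_smul, one_smul]
  set D : Cn n → (Cn n →L[ℝ] ℝ) := fderiv ℝ u with hD
  set DD : Cn n → (Cn n →L[ℝ] Cn n →L[ℝ] ℝ) := fderiv ℝ D with hDD
  have hDs : ContDiff ℝ ∞ D := hu.fderiv_right (by simp)
  have hDDs : ContDiff ℝ ∞ DD := hDs.fderiv_right (by simp)
  have hDc : Continuous D := hDs.continuous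
  have hDDc : Continuous DD := hDDs.continuous
  have hud : ∀ z, HasFDerivAt u (D z) z := fun z => (hu.differentiable (by simp) z).hasFDerivAt
  have hDd : ∀ z, HasFDerivAt D (DD z) z := fun z => (hDs.differentiable (by simp) z).hasFDerivAt
  set J : ℝ → ℝ → ℝ := fun r θ => u (a + r • v θ) with hJ
  set p : ℝ → ℝ → ℝ := fun r θ => D (a + r • v θ) (v θ) with hp
  set q : ℝ → ℝ → ℝ := fun r θ => D (a + r • v θ) (w θ) with hq
  have hrd : ∀ r θ, HasDerivAt (fun r : ℝ => a + r • v θ) (v θ) r := by
    intro r θ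
    refine (((hasDerivAt_id r).smul_const (v θ)).const_add a).congr_deriv ?_
    exact one_smul _ _
  have hθd : ∀ r θ : ℝ, HasDerivAt (fun θ : ℝ => a + r • v θ) (r • w θ) θ := by
    intro r θ
    exact ((hvd θ).const_smul r).const_add a
  have hJr : ∀ r θ, HasDerivAt (fun r => J r θ) (p r θ) r := by
    intro r θ
    exact (hud _).comp_hasDerivAt r (hrd r θ)
  have hpr : ∀ r θ, HasDerivAt (fun r => p r θ) (DD (a + r • v θ) (v θ) (v θ)) r := by
    intro r θ
    have h1 := (hDd (a + r • v θ)).comp_hasDerivAt r (hrd r θ)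
    refine (h1.clm_apply (hasDerivAt_const r (v θ))).congr_deriv ?_
    simp
  have hqθ : ∀ r θ, HasDerivAt (fun θ => q r θ)
      (r * DD (a + r • v θ) (w θ) (w θ) - p r θ) θ := by
    intro r θ
    have h1 := (hDd (a + r • v θ)).comp_hasDerivAt θ (hθd r θ)
    refine (h1.clm_apply (hwd θ)).congr_deriv ?_
    simp only [map_smul, map_neg, smul_apply, smul_eq_mul, hp, Function.comp_apply]
    ring
  set L : ℝ → ℝ → ℝ := fun r θ => 4 * levi u (a + r • v θ) b with hL
  have hLe : ∀ r θ, L r θ = DD (a + r • v θ) (v θ) (v θ) + DD (a + r • v θ) (w θ) (w θ) := by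
    intro r θ
    have h1 : levi u (a + r • v θ) b = levi u (a + r • v θ) (v θ) := by
      simp only [hv]
      rw [levi_smul hu, Complex.norm_exp_ofReal_mul_I]
      ring
    simp only [hL, h1]
    simp only [levi, D2, hw, hDD, hD]
    ring
  have hz : Continuous fun x : ℝ × ℝ => a + x.1 • v x.2 := by fun_prop
  have hJc : Continuous (Function.uncurry J) := hu.continuous.comp hz
  have hpc : Continuous (Function.uncurry p) :=
    (hDc.comp hz).clm_apply (hvc.comp continuous_snd)
  have hDvc : Continuous fun x : ℝ × ℝ => DD (a + x.1 • v x.2) (v x.2) (v x.2) :=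
    ((hDDc.comp hz).clm_apply (hvc.comp continuous_snd)).clm_apply (hvc.comp continuous_snd)
  have hDwc : Continuous fun x : ℝ × ℝ => DD (a + x.1 • v x.2) (w x.2) (w x.2) :=
    ((hDDc.comp hz).clm_apply (hwc.comp continuous_snd)).clm_apply (hwc.comp continuous_snd)
  have hLc : Continuous (Function.uncurry L) := by
    have : Function.uncurry L = fun x : ℝ × ℝ => DD (a + x.1 • v x.2) (v x.2) (v x.2) +
        DD (a + x.1 • v x.2) (w x.2) (w x.2) := by
      funext x
      exact hLe x.1 x.2
    rw [this]
    exact hDvc.add hDwc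
  set S : ℝ → ℝ → ℝ := fun r θ => r * p r θ with hS
  set S' : ℝ → ℝ → ℝ := fun r θ => p r θ + r * DD (a + r • v θ) (v θ) (v θ) with hS'
  have hSr : ∀ r θ, HasDerivAt (fun r => S r θ) (S' r θ) r := by
    intro r θ
    refine ((hasDerivAt_id r).mul (hpr r θ)).congr_deriv ?_
    simp [hS']
  have hSc : Continuous (Function.uncurry S) := continuous_fst.mul hpc
  have hSc' : Continuous (Function.uncurry S') := hpc.add (continuous_fst.mul hDvc)
  have h2π : (0 : ℝ) ≤ 2 * Real.pi := by positivity
  have hIS : ∀ r : ℝ, ∫ θ in (0 : ℝ)..2 * Real.pi, S' r θ = r * ∫ θ in (0 : ℝ)..2 * Real.pi, L r θ := by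
    intro r
    have hQ : ∫ θ in (0 : ℝ)..2 * Real.pi, (r * DD (a + r • v θ) (w θ) (w θ) - p r θ) = 0 := by
      rw [intervalIntegral.integral_eq_sub_of_hasDerivAt (fun θ _ => hqθ r θ)]
      · have : v (2 * Real.pi) = v 0 := by
          simp only [hv]
          push_cast
          rw [Complex.exp_two_pi_mul_I]
          simp
        simp only [hq, hw, this, sub_self]
      · apply Continuous.intervalIntegrable
        have h1 : Continuous fun θ : ℝ => (r, θ) := by fun_prop
        exact (continuous_const.mul (hDwc.comp h1)).sub (hpc.comp h1)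
    have hsum : ∀ θ, S' r θ + (r * DD (a + r • v θ) (w θ) (w θ) - p r θ) = r * L r θ := by
      intro θ
      rw [hLe]
      simp only [hS']
      ring
    have h1 : Continuous fun θ : ℝ => (r, θ) := by fun_prop
    have i1 : IntervalIntegrable (fun θ => S' r θ) volume 0 (2 * Real.pi) :=
      (hSc'.comp h1).intervalIntegrable _ _
    have i2 : IntervalIntegrable (fun θ => r * DD (a + r • v θ) (w θ) (w θ) - p r θ) volume 0
        (2 * Real.pi) :=
      ((continuous_const.mul (hDwc.comp h1)).sub (hpc.comp h1)).intervalIntegrable _ _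
    have h3 := intervalIntegral.integral_add i1 i2
    rw [hQ, add_zero] at h3
    rw [← h3]
    simp only [hsum]
    rw [intervalIntegral.integral_const_mul]
  have hev : ∀ r θ : ℝ, a + r • v θ = a + ((r : ℂ) * Complex.exp (θ * Complex.I)) • b := by
    intro r θ
    simp only [hv, ← Complex.coe_smul, smul_smul]
  refine ⟨fun r => ∫ θ in (0 : ℝ)..2 * Real.pi, J r θ, fun r => ∫ θ in (0 : ℝ)..2 * Real.pi, p r θ,
    fun r => ∫ θ in (0 : ℝ)..2 * Real.pi, L r θ, ?_, ?_, ?_, ?_, ?_, ?_, ?_, ?_⟩
  · exact intervalIntegral.continuous_parametric_intervalIntegral_of_continuous' hJc 0 (2 * Real.pi)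
  · exact intervalIntegral.continuous_parametric_intervalIntegral_of_continuous' hpc 0 (2 * Real.pi)
  · exact intervalIntegral.continuous_parametric_intervalIntegral_of_continuous' hLc 0 (2 * Real.pi)
  · simp [hJ]
  · intro r
    simp only [hJ, hev]
  · exact fun r => hasDerivAt_param hJc hpc hJr _ _ r
  · intro r
    have h1 := hasDerivAt_param hSc hSc' hSr 0 (2 * Real.pi) r
    rw [hIS] at h1
    have e : (fun r => ∫ θ in (0 : ℝ)..2 * Real.pi, S r θ) = fun r => r * ∫ θ in (0 : ℝ)..2 * Real.pi, p r θ := by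
      funext r
      simp only [hS, intervalIntegral.integral_const_mul]
    rw [e] at h1
    exact h1
  · intro r
    simp only [hL, hev]

/-- the local Jensen inequality, with a regularised kernel -/
theorem jensen {n : ℕ} {u : Cn n → ℝ} (hu : ContDiff ℝ ∞ u) (a b : Cn n) {r d D₀ : ℝ} (hr : 0 < r)
    (hd : 0 < d)
    (h0 : ∀ ζ : ℂ, ‖ζ‖ ≤ r → 0 ≤ levi u (a + ζ • b) b) (h1 : ∀ ζ : ℂ, ‖ζ‖ ≤ r → 4 * levi u (a + ζ • b) b ≤ D₀) :
    (2 / r ^ 2) * (∫ ζ in ball (0 : ℂ) r, u (a + ζ • b)) +
      (∫ ζ in ball (0 : ℂ) r, Real.log ((‖ζ‖ + d) / r) * (4 * levi u (a + ζ • b) b)) -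
      2 * Real.pi * d * r * D₀ ≤ 2 * Real.pi * u a := by
  obtain ⟨φ, p, Λ, hφc, hpc, hΛc, hφ0, hφ, hφd, hPd, hΛ⟩ := circle_calc hu a b
  have hlc : Continuous fun z : Cn n => levi u z b :=
    levi_continuous (hu.of_le ss_le) b
  -- the antiderivative
  set ks : ℝ → ℝ := fun s => s * Real.log r - s * Real.log s - (s - s ^ 3 / r ^ 2) / 2 with hks
  have hksc : Continuous ks := by
    simp only [hks]
    exact ((continuous_id.mul continuous_const).sub Real.continuous_mul_log).sub (by fun_prop)
  set H : ℝ → ℝ := fun s => ks s * p s + (1 - s ^ 2 / r ^ 2) * φ s with hH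
  have hHc : Continuous H := by
    simp only [hH]
    exact (hksc.mul hpc).add ((by fun_prop : Continuous fun s : ℝ => 1 - s ^ 2 / r ^ 2).mul hφc)
  have hHd : ∀ s ∈ Ioo 0 r, HasDerivAt H (ks s * Λ s - 2 / r ^ 2 * (s * φ s)) s := by
    intro s hs
    have hs0 : s ≠ 0 := hs.1.ne'
    have hk : HasDerivAt (fun s => Real.log r - Real.log s - (1 - s ^ 2 / r ^ 2) / 2)
        (-s⁻¹ + s / r ^ 2) s := by
      have e1 := (Real.hasDerivAt_log hs0).const_sub (Real.log r)
      have e2 : HasDerivAt (fun s : ℝ => (1 - s ^ 2 / r ^ 2) / 2) ((-(2 * s / r ^ 2)) / 2) s := by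
        have e3 := ((hasDerivAt_pow 2 s).div_const (r ^ 2)).const_sub 1
        refine (e3.div_const 2).congr_deriv ?_
        simp
      refine (e1.sub e2).congr_deriv ?_
      ring
    have h2 := hk.mul (hPd s)
    have e3 := ((hasDerivAt_pow 2 s).div_const (r ^ 2)).const_sub 1
    have h3 := e3.mul (hφd s)
    have h4 := h2.add h3
    refine (h4.congr_of_eventuallyEq ?_).congr_deriv ?_
    · filter_upwards [lt_mem_nhds hs.1] with y hy
      simp only [hH, hks, Pi.add_apply, Pi.mul_apply]
      field_simp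
    · simp only [hks]
      field_simp
      ring
  have hint : IntervalIntegrable (fun s => ks s * Λ s - 2 / r ^ 2 * (s * φ s)) volume 0 r :=
    ((hksc.mul hΛc).sub (continuous_const.mul (continuous_id.mul hφc))).intervalIntegrable _ _
  have hF := intervalIntegral.integral_eq_sub_of_hasDerivAt_of_le hr.le hHc.continuousOn hHd hint
  have hHr : H r = 0 := by
    simp only [hH, hks]
    have : r ^ 2 / r ^ 2 = 1 := div_self (by positivity)
    have h2 : r ^ 3 / r ^ 2 = r := by field_simp
    rw [this, h2]
    ring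
  have hH0 : H 0 = 2 * Real.pi * u a := by
    simp only [hH, hks, hφ0]
    simp
  have ij1 : IntervalIntegrable (fun s => ks s * Λ s) volume 0 r := (hksc.mul hΛc).intervalIntegrable _ _
  have ij2 : IntervalIntegrable (fun s => 2 / r ^ 2 * (s * φ s)) volume 0 r :=
    (continuous_const.mul (continuous_id.mul hφc)).intervalIntegrable _ _
  rw [hHr, hH0, intervalIntegral.integral_sub ij1 ij2, intervalIntegral.integral_const_mul] at hF
  -- area integrals
  have hA1 : ∫ ζ in ball (0 : ℂ) r, u (a + ζ • b) = ∫ s in (0 : ℝ)..r, s * φ s := by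
    have hc : Continuous fun ζ : ℂ => u (a + ζ • b) := hu.continuous.comp (by fun_prop)
    rw [polar_ball hc hr.le]
    simp only [hφ]
  have hlogc : Continuous fun ζ : ℂ => Real.log ((‖ζ‖ + d) / r) := by
    apply Continuous.log
    · fun_prop
    · intro ζ
      have : 0 < ‖ζ‖ + d := by positivity
      positivity
  have hA2 : ∫ ζ in ball (0 : ℂ) r, Real.log ((‖ζ‖ + d) / r) * (4 * levi u (a + ζ • b) b) =
      ∫ s in (0 : ℝ)..r, s * (Real.log ((s + d) / r) * Λ s) := by
    have hc : Continuous fun ζ : ℂ => Real.log ((‖ζ‖ + d) / r) * (4 * levi u (a + ζ • b) b) :=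
      hlogc.mul (continuous_const.mul (hlc.comp (by fun_prop)))
    rw [polar_ball hc hr.le]
    apply intervalIntegral.integral_congr
    intro s hs
    rw [uIcc_of_le hr.le] at hs
    simp only
    congr 1
    rw [hΛ, ← intervalIntegral.integral_const_mul]
    apply intervalIntegral.integral_congr
    intro θ _
    simp only
    rw [norm_mul, Complex.norm_exp_ofReal_mul_I, mul_one, Complex.norm_real, Real.norm_eq_abs,
      abs_of_nonneg hs.1]
  have hΛ0 : ∀ s ∈ Icc 0 r, 0 ≤ Λ s ∧ Λ s ≤ 2 * Real.pi * D₀ := by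
    intro s hs
    have hn : ∀ θ : ℝ, ‖(s : ℂ) * Complex.exp (θ * Complex.I)‖ ≤ r := by
      intro θ
      rw [norm_mul, Complex.norm_exp_ofReal_mul_I, mul_one, Complex.norm_real, Real.norm_eq_abs,
        abs_of_nonneg hs.1]
      exact hs.2
    have hc : Continuous fun θ : ℝ => 4 * levi u (a + (s * Complex.exp (θ * Complex.I)) • b) b :=
      continuous_const.mul (hlc.comp (by fun_prop))
    rw [hΛ]
    constructor
    · apply intervalIntegral.integral_nonneg (by positivity)
      intro θ _
      have := h0 _ (hn θ)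
      linarith
    · have := intervalIntegral.integral_mono_on (μ := volume) (a := 0) (b := 2 * Real.pi) (by positivity)
        (g := fun _ => D₀) (hc.intervalIntegrable _ _) (continuous_const.intervalIntegrable _ _)
        (fun θ _ => h1 _ (hn θ))
      simp only [intervalIntegral.integral_const, smul_eq_mul, sub_zero] at this
      exact this
  have hcmp : ∫ s in (0 : ℝ)..r, (s * (Real.log ((s + d) / r) * Λ s) - d * (2 * Real.pi * D₀)) ≤
      ∫ s in (0 : ℝ)..r, -(ks s * Λ s) := by
    have hc1 : ContinuousOn (fun s => s * (Real.log ((s + d) / r) * Λ s) - d * (2 * Real.pi * D₀))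
        (uIcc 0 r) := by
      rw [uIcc_of_le hr.le]
      apply ContinuousOn.sub _ continuousOn_const
      apply continuousOn_id.mul
      apply ContinuousOn.mul _ hΛc.continuousOn
      apply ContinuousOn.log
      · fun_prop
      · intro s hs
        have : 0 < s + d := by linarith [hs.1]
        positivity
    apply intervalIntegral.integral_mono_on hr.le hc1.intervalIntegrable
      ((hksc.mul hΛc).neg.intervalIntegrable _ _)
    intro s hs
    obtain ⟨hΛa, hΛb⟩ := hΛ0 s hs
    have key : s * Real.log ((s + d) / r) - d ≤ -ks s := by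
      rcases hs.1.eq_or_lt with h | h
      · rw [← h]
        simp only [hks]
        simp
        exact hd.le
      · have hl1 : Real.log ((s + d) / r) = Real.log (s + d) - Real.log r :=
          Real.log_div (by linarith) hr.ne'
        have hl2 : Real.log (s + d) ≤ Real.log s + d / s := by
          have h5 : s + d = s * (1 + d / s) := by field_simp
          rw [h5, Real.log_mul h.ne' (by positivity)]
          have := Real.log_le_sub_one_of_pos (x := 1 + d / s) (by positivity)
          linarith
        have h6 : s * Real.log (s + d) ≤ s * Real.log s + d := by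
          have := mul_le_mul_of_nonneg_left hl2 h.le
          rw [mul_add, mul_div_cancel₀ _ h.ne'] at this
          exact this
        have h7 : 0 ≤ s - s ^ 3 / r ^ 2 := by
          have h8 : s ^ 3 / r ^ 2 ≤ s := by
            rw [div_le_iff₀ (by positivity)]
            have : s ^ 2 ≤ r ^ 2 := by
              have := hs.2
              gcongr
            nlinarith
          linarith
        simp only [hks]
        rw [hl1]
        nlinarith
    have h8 := mul_le_mul_of_nonneg_right key hΛa
    have h9 : d * Λ s ≤ d * (2 * Real.pi * D₀) := mul_le_mul_of_nonneg_left hΛb hd.le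
    calc s * (Real.log ((s + d) / r) * Λ s) - d * (2 * Real.pi * D₀)
        ≤ (s * Real.log ((s + d) / r) - d) * Λ s := by linarith
      _ ≤ -ks s * Λ s := h8
      _ = -(ks s * Λ s) := by ring
  rw [intervalIntegral.integral_neg] at hcmp
  have hc2 : IntervalIntegrable (fun s => s * (Real.log ((s + d) / r) * Λ s)) volume 0 r := by
    apply ContinuousOn.intervalIntegrable
    rw [uIcc_of_le hr.le]
    apply continuousOn_id.mul
    apply ContinuousOn.mul _ hΛc.continuousOn
    apply ContinuousOn.log
    · fun_prop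
    · intro s hs
      have : 0 < s + d := by linarith [hs.1]
      positivity
  rw [intervalIntegral.integral_sub hc2 (continuous_const.intervalIntegrable _ _),
    intervalIntegral.integral_const, smul_eq_mul, sub_zero] at hcmp
  rw [hA1, hA2]
  linarith

end Pool.Agent.U574.FC
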