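import Mathlib
import Pool.Agent.U574.FC.Polar

/-!
Discretisation of the Riesz mass of a subharmonic function on a disc.
-/

set_option autoImplicit false
set_option maxHeartbeats 1000000

open MeasureTheory Metric Set Filter Topology
open scoped ContDiff ComplexOrder

namespace Pool.Agent.U574.FC
open Pool.Agent.H805R2

/-- mass bound -/
lemma mass_bound {n : ℕ} {u : Cn n → ℝ} (hu : ContDiff ℝ ∞ u) (a b : Cn n) {τ h : ℝ} (hτ : 0 < τ)
    (hτ1 : τ ≤ 1) (h0 : ∀ ζ : ℂ, ‖ζ‖ ≤ 1 - τ / 4 → 0 ≤ levi u (a + ζ • b) b)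
    (hneg : ∀ ζ : ℂ, ‖ζ‖ ≤ 1 - τ / 4 → u (a + ζ • b) ≤ 0)
    (hh : ∫ ζ in ball (0 : ℂ) (1 - τ / 4), -u (a + ζ • b) ≤ h) :
    ∫ ζ in ball (0 : ℂ) (1 - τ / 2), 4 * levi u (a + ζ • b) b ≤ 128 * h / τ ^ 2 := by
  obtain ⟨φ, p, Λ, hφc, hpc, hΛc, hφ0, hφ, hφd, hPd, hΛ⟩ := circle_calc hu a b
  have hlc : Continuous fun z : Cn n => levi u z b :=
    levi_continuous (hu.of_le ss_le) b
  set R₁ := 1 - τ / 2 with hR₁
  set R₂ := 1 - τ / 4 with hR₂
  set R₃ := 1 - 3 * τ / 8 with hR₃
  have hn : ∀ s : ℝ, 0 ≤ s → s ≤ R₂ → ∀ θ : ℝ, ‖(s : ℂ) * Complex.exp (θ * Complex.I)‖ ≤ R₂ := by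
    intro s hs hs2 θ
    rw [norm_mul, Complex.norm_exp_ofReal_mul_I, mul_one, Complex.norm_real, Real.norm_eq_abs,
      abs_of_nonneg hs]
    exact hs2
  have hΛ0 : ∀ s ∈ Icc 0 R₂, 0 ≤ Λ s := by
    intro s hs
    rw [hΛ]
    apply intervalIntegral.integral_nonneg (by positivity)
    intro θ _
    have := h0 _ (hn s hs.1 hs.2 θ)
    linarith
  have hφneg : ∀ s ∈ Icc 0 R₂, φ s ≤ 0 := by
    intro s hs
    have : 0 ≤ ∫ θ in (0 : ℝ)..2 * Real.pi, -u (a + (s * Complex.exp (θ * Complex.I)) • b) := by
      apply intervalIntegral.integral_nonneg (by positivity)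
      intro θ _
      have := hneg _ (hn s hs.1 hs.2 θ)
      linarith
    rw [intervalIntegral.integral_neg, ← hφ] at this
    linarith
  have hPmono : MonotoneOn (fun s => s * p s) (Icc 0 R₂) := by
    apply monotoneOn_of_deriv_nonneg (convex_Icc 0 R₂)
    · exact (continuous_id.mul hpc).continuousOn
    · exact fun r _ => (hPd r).differentiableAt.differentiableWithinAt
    · intro r hr
      rw [interior_Icc] at hr
      rw [(hPd r).deriv]
      exact mul_nonneg hr.1.le (hΛ0 r ⟨hr.1.le, hr.2.le⟩)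
  have hmass : ∫ ζ in ball (0 : ℂ) R₁, 4 * levi u (a + ζ • b) b = R₁ * p R₁ := by
    have hc : Continuous fun ζ : ℂ => 4 * levi u (a + ζ • b) b :=
      continuous_const.mul (hlc.comp (by fun_prop))
    rw [polar_ball hc (by linarith)]
    simp only [← hΛ]
    rw [intervalIntegral.integral_eq_sub_of_hasDerivAt (fun s _ => hPd s)
      ((continuous_id.mul hΛc).intervalIntegrable _ _)]
    simp
  set P := R₁ * p R₁ with hP
  have hP0 : 0 ≤ P := by
    have := hPmono ⟨le_rfl, by linarith⟩ ⟨by linarith, by linarith⟩ (by linarith : (0 : ℝ) ≤ R₁)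
    simpa using this
  have hφs : ∀ s ∈ Icc R₁ R₃, φ s ≤ -(P * (τ / 8)) := by
    intro s hs
    have h2 : φ R₂ - φ s = ∫ t in s..R₂, p t :=
      (intervalIntegral.integral_eq_sub_of_hasDerivAt (fun t _ => hφd t) (hpc.intervalIntegrable _ _)).symm
    have h3 : ∫ _t in s..R₂, P ≤ ∫ t in s..R₂, p t := by
      apply intervalIntegral.integral_mono_on (by linarith [hs.2]) (continuous_const.intervalIntegrable _ _)
        (hpc.intervalIntegrable _ _)
      intro t ht
      have h4 : P ≤ t * p t := hPmono ⟨by linarith, by linarith⟩ ⟨by linarith [hs.1, ht.1], ht.2⟩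
        (hs.1.trans ht.1)
      have ht0 : 0 < t := by linarith [hs.1, ht.1]
      have ht1 : t ≤ 1 := by linarith [ht.2]
      have h5 : 0 ≤ p t := by
        by_contra hcon
        push Not at hcon
        have := mul_neg_of_pos_of_neg ht0 hcon
        linarith
      nlinarith
    rw [intervalIntegral.integral_const, smul_eq_mul] at h3
    have h6 := hφneg R₂ ⟨by linarith, le_rfl⟩
    have h7 : τ / 8 ≤ R₂ - s := by linarith [hs.2]
    have h8 := mul_le_mul_of_nonneg_right h7 hP0
    nlinarith
  have hI : ∫ ζ in ball (0 : ℂ) R₂, -u (a + ζ • b) = ∫ s in (0 : ℝ)..R₂, s * (-φ s) := by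
    have hc : Continuous fun ζ : ℂ => -u (a + ζ • b) := (hu.continuous.comp (by fun_prop)).neg
    rw [polar_ball hc (by linarith)]
    simp only [intervalIntegral.integral_neg, ← hφ]
  rw [hmass]
  rw [hI] at hh
  have hlow : (R₃ - R₁) * ((1 / 2) * (P * (τ / 8))) ≤ ∫ s in (0 : ℝ)..R₂, s * (-φ s) := by
    have hc : Continuous fun s => s * (-φ s) := continuous_id.mul hφc.neg
    have e1 : ∫ s in (0 : ℝ)..R₂, s * (-φ s) = (∫ s in (0 : ℝ)..R₁, s * (-φ s)) +
        ((∫ s in R₁..R₃, s * (-φ s)) + ∫ s in R₃..R₂, s * (-φ s)) := by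
      rw [intervalIntegral.integral_add_adjacent_intervals (hc.intervalIntegrable _ _)
        (hc.intervalIntegrable _ _), intervalIntegral.integral_add_adjacent_intervals
        (hc.intervalIntegrable _ _) (hc.intervalIntegrable _ _)]
    have i1 : 0 ≤ ∫ s in (0 : ℝ)..R₁, s * (-φ s) := by
      apply intervalIntegral.integral_nonneg (by linarith)
      intro s hs
      have := hφneg s ⟨hs.1, by linarith [hs.2]⟩
      exact mul_nonneg hs.1 (by linarith)
    have i3 : 0 ≤ ∫ s in R₃..R₂, s * (-φ s) := by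
      apply intervalIntegral.integral_nonneg (by linarith)
      intro s hs
      have h1 : 0 ≤ s := by linarith [hs.1]
      have := hφneg s ⟨h1, hs.2⟩
      exact mul_nonneg h1 (by linarith)
    have i2 : ∫ _s in R₁..R₃, (1 / 2) * (P * (τ / 8)) ≤ ∫ s in R₁..R₃, s * (-φ s) := by
      apply intervalIntegral.integral_mono_on (by linarith) (continuous_const.intervalIntegrable _ _)
        (hc.intervalIntegrable _ _)
      intro s hs
      have h1 := hφs s hs
      have h2 : 1 / 2 ≤ s := by linarith [hs.1]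
      apply mul_le_mul h2 (by linarith) (by positivity) (by linarith)
    rw [intervalIntegral.integral_const, smul_eq_mul] at i2
    linarith
  have h9 : R₃ - R₁ = τ / 8 := by simp only [hR₃, hR₁]; ring
  rw [h9] at hlow
  rw [le_div_iff₀ (by positivity)]
  nlinarith

/-- listing points with multiplicities -/
lemma list_points {ι : Type*} [DecidableEq ι] (S : Finset ι) (pt : ι → ℂ) (mu : ι → ℕ)
    (h1 : ∀ q ∈ S, mu q ≠ 0 → ‖pt q‖ ≤ 1) :
    ∃ a : ℕ → ℂ, (∀ l, ‖a l‖ ≤ 1) ∧
      ∀ z : ℂ, ∏ l ∈ Finset.range (∑ q ∈ S, mu q), ‖z - a l‖ = ∏ q ∈ S, ‖z - pt q‖ ^ mu q := by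
  induction S using Finset.induction_on with
  | empty => exact ⟨fun _ => 0, by simp, by simp⟩
  | insert q S hq ih =>
    obtain ⟨a, ha, hp⟩ := ih (fun q hq' => h1 q (Finset.mem_insert_of_mem hq'))
    rcases Nat.eq_zero_or_pos (mu q) with h | h
    · refine ⟨a, ha, fun z => ?_⟩
      rw [Finset.sum_insert hq, Finset.prod_insert hq, h, zero_add, pow_zero, one_mul, hp]
    · refine ⟨fun l => if l < ∑ q ∈ S, mu q then a l else pt q, ?_, ?_⟩
      · intro l
        simp only
        split_ifs
        · exact ha l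
        · exact h1 q (Finset.mem_insert_self _ _) h.ne'
      · intro z
        rw [Finset.sum_insert hq, Finset.prod_insert hq, add_comm, Finset.prod_range_add, ← hp z, mul_comm]
        congr 1
        · simp
        · apply Finset.prod_congr rfl
          intro l hl
          simp only [if_pos (Finset.mem_range.1 hl)]

/-- discretisation -/
theorem discretise {n : ℕ} {u : Cn n → ℝ} (hu : ContDiff ℝ ∞ u) (a0 b : Cn n) {τ h : ℝ} (hτ : 0 < τ)
    (hτ1 : τ ≤ 1) (h0 : ∀ ζ : ℂ, ‖ζ‖ ≤ 1 - τ / 4 → 0 ≤ levi u (a0 + ζ • b) b)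
    (hneg : ∀ ζ : ℂ, ‖ζ‖ ≤ 1 - τ / 4 → u (a0 + ζ • b) ≤ 0)
    (hh : ∫ ζ in ball (0 : ℂ) (1 - τ / 4), -u (a0 + ζ • b) ≤ h) :
    ∃ L : ℕ, ∀ B : ℝ, 0 ≤ B → ∃ (N : ℕ) (a : ℕ → ℂ), (∀ l, ‖a l‖ ≤ 1) ∧ (N : ℝ) ≤ B * (21 * h / τ ^ 2) + L ∧
      ∀ z : ℂ, ‖z‖ ≤ 1 - τ → ∏ l ∈ Finset.range N, ‖z - a l‖ ≤
        Real.exp (B * (u (a0 + z • b) + τ + 2 * h / τ ^ 2) + N * Real.log 2) := by
  have hlc : Continuous fun z : Cn n => levi u z b :=
    levi_continuous (hu.of_le ss_le) b
  set F : ℂ → ℝ := fun a => 4 * levi u (a0 + a • b) b with hF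
  have hFc : Continuous F := continuous_const.mul (hlc.comp (by fun_prop))
  have hF0 : ∀ a, ‖a‖ ≤ 1 - τ / 4 → 0 ≤ F a := fun a ha => by
    have := h0 a ha
    simp only [hF]
    linarith
  obtain ⟨D₀, hD₀⟩ := (isCompact_closedBall (0 : ℂ) 1).exists_bound_of_continuousOn hFc.continuousOn
  have hD0 : 0 ≤ D₀ := (norm_nonneg _).trans (hD₀ 0 (by simp))
  have hFD : ∀ a, ‖a‖ ≤ 1 → F a ≤ D₀ := fun a ha =>
    (le_abs_self _).trans (hD₀ a (by simpa using ha))
  -- the mesh
  set d : ℝ := min (τ / 8) (2 / (3 * (D₀ + 1))) with hd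
  have hdp : 0 < d := by
    apply lt_min <;> positivity
  have hdτ : d ≤ τ / 8 := min_le_left _ _
  have hdD : 3 * d * (τ / 2) * D₀ ≤ τ := by
    have h1 : d ≤ 2 / (3 * (D₀ + 1)) := min_le_right _ _
    have h2 : 3 * d * D₀ ≤ 2 := by
      have h3 : 3 * d * (D₀ + 1) ≤ 2 := by
        calc 3 * d * (D₀ + 1) ≤ 3 * (2 / (3 * (D₀ + 1))) * (D₀ + 1) := by gcongr
          _ = 2 := by field_simp
      nlinarith
    nlinarith
  set c : ℂ → ℤ × ℤ := fun a => (⌊a.re / d⌋, ⌊a.im / d⌋) with hc
  have hcm : Measurable c := by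
    apply Measurable.prodMk
    · exact (Complex.measurable_re.div_const d).floor
    · exact (Complex.measurable_im.div_const d).floor
  set pt : ℤ × ℤ → ℂ := fun q => ⟨q.1 * d, q.2 * d⟩ with hpt
  have hptc : ∀ a, ‖a - pt (c a)‖ ≤ 2 * d := by
    intro a
    refine (Complex.norm_le_abs_re_add_abs_im _).trans ?_
    simp only [Complex.sub_re, Complex.sub_im, hpt, hc]
    have e1 : |a.re - ⌊a.re / d⌋ * d| ≤ d := by
      have h1 := Int.floor_le (a.re / d)
      have h2 := Int.lt_floor_add_one (a.re / d)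
      rw [le_div_iff₀ hdp] at h1
      rw [div_lt_iff₀ hdp] at h2
      rw [abs_le]
      constructor <;> linarith
    have e2 : |a.im - ⌊a.im / d⌋ * d| ≤ d := by
      have h1 := Int.floor_le (a.im / d)
      have h2 := Int.lt_floor_add_one (a.im / d)
      rw [le_div_iff₀ hdp] at h1
      rw [div_lt_iff₀ hdp] at h2
      rw [abs_le]
      constructor <;> linarith
    linarith
  obtain ⟨M, hM⟩ := exists_nat_gt (1 / d + 1)
  set S : Finset (ℤ × ℤ) := Finset.Icc (-(M : ℤ)) M ×ˢ Finset.Icc (-(M : ℤ)) M with hS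
  have hcS : ∀ a : ℂ, ‖a‖ ≤ 1 → c a ∈ S := by
    intro a ha
    have hre : |a.re| ≤ 1 := (Complex.abs_re_le_norm a).trans ha
    have him : |a.im| ≤ 1 := (Complex.abs_im_le_norm a).trans ha
    have key : ∀ x : ℝ, |x| ≤ 1 → ⌊x / d⌋ ∈ Finset.Icc (-(M : ℤ)) M := by
      intro x hx
      rw [abs_le] at hx
      rw [Finset.mem_Icc]
      have h1 : -(1 / d) ≤ x / d := by
        rw [← neg_div]
        exact div_le_div_of_nonneg_right hx.1 hdp.le
      have h2 : x / d ≤ 1 / d := div_le_div_of_nonneg_right hx.2 hdp.le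
      constructor
      · rw [Int.le_floor]
        push_cast
        linarith
      · have h3 := Int.floor_le (x / d)
        have h4 : ((⌊x / d⌋ : ℤ) : ℝ) ≤ ((M : ℤ) : ℝ) := by
          push_cast
          linarith
        exact_mod_cast h4
    rw [hS, Finset.mem_product]
    exact ⟨key _ hre, key _ him⟩
  set R₁ := 1 - τ / 2 with hR₁
  set A : Set ℂ := ball (0 : ℂ) R₁ with hA
  have hAm : MeasurableSet A := measurableSet_ball
  have hA1 : ∀ a ∈ A, ‖a‖ < R₁ := fun a ha => by simpa [hA] using ha
  -- sums over cells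
  have hcells : ∀ (E : Set ℂ) (G : ℂ → ℝ), MeasurableSet E → E ⊆ A → IntegrableOn G E →
      ∫ a in E, G a = ∑ q ∈ S, ∫ a in E ∩ c ⁻¹' {q}, G a := by
    intro E G hE hEA hG
    have hU : E = ⋃ q ∈ S, E ∩ c ⁻¹' {q} := by
      ext a
      simp only [mem_iUnion, mem_inter_iff, mem_preimage, mem_singleton_iff, exists_prop]
      constructor
      · intro ha
        exact ⟨c a, hcS a (by linarith [hA1 a (hEA ha)]), ha, rfl⟩
      · rintro ⟨q, _, ha, _⟩
        exact ha
    conv_lhs => rw [hU]
    apply integral_biUnion_finset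
    · intro q _
      exact hE.inter (hcm (measurableSet_singleton q))
    · intro q _ q' _ hqq
      rw [Function.onFun, Set.disjoint_left]
      rintro a ⟨_, ha⟩ ⟨_, ha'⟩
      exact hqq (by rw [mem_preimage, mem_singleton_iff] at ha ha'; rw [← ha, ← ha'])
    · intro q _
      exact hG.mono_set inter_subset_left
  have hFi : ∀ E : Set ℂ, E ⊆ A → IntegrableOn F E := fun E hE =>
    (hFc.continuousOn.integrableOn_compact (isCompact_closedBall (0 : ℂ) 1)).mono_set
      (hE.trans fun a ha => by
        have := hA1 a ha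
        rw [mem_closedBall_zero_iff]
        linarith)
  set m : ℤ × ℤ → ℝ := fun q => ∫ a in A ∩ c ⁻¹' {q}, F a with hm
  have hm0 : ∀ q, 0 ≤ m q := by
    intro q
    apply setIntegral_nonneg (hAm.inter (hcm (measurableSet_singleton q)))
    intro a ha
    exact hF0 a (by linarith [hA1 a ha.1])
  have hmsum : ∑ q ∈ S, m q ≤ 128 * h / τ ^ 2 := by
    rw [← hcells A F hAm Subset.rfl (hFi A Subset.rfl)]
    exact mass_bound hu a0 b hτ hτ1 h0 hneg hh
  refine ⟨S.card, fun B hB => ?_⟩
  set mu : ℤ × ℤ → ℕ := fun q => ⌈B * m q / (2 * Real.pi)⌉₊ with hmu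
  have hmu0 : ∀ q, mu q ≠ 0 → m q ≠ 0 := by
    intro q hq hmq
    apply hq
    simp only [hmu, hmq, mul_zero, zero_div, Nat.ceil_zero]
  have hptn : ∀ q ∈ S, mu q ≠ 0 → ‖pt q‖ ≤ 1 := by
    intro q _ hq
    have hne : (A ∩ c ⁻¹' {q}).Nonempty := by
      by_contra hcon
      rw [not_nonempty_iff_eq_empty] at hcon
      apply hmu0 q hq
      simp only [hm, hcon]
      simp
    obtain ⟨a, haA, haq⟩ := hne
    rw [mem_preimage, mem_singleton_iff] at haq
    have h1 := hptc a
    rw [haq] at h1
    have h2 : ‖pt q‖ ≤ ‖a‖ + ‖a - pt q‖ := by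
      have : pt q = a - (a - pt q) := by ring
      conv_lhs => rw [this]
      exact norm_sub_le _ _
    linarith [hA1 a haA]
  obtain ⟨a, ha1, hap⟩ := list_points S pt mu hptn
  set N := ∑ q ∈ S, mu q with hN
  refine ⟨N, a, ha1, ?_, ?_⟩
  · have h1 : (N : ℝ) ≤ ∑ q ∈ S, (B * m q / (2 * Real.pi) + 1) := by
      rw [hN]
      push_cast
      apply Finset.sum_le_sum
      intro q _
      have : 0 ≤ B * m q / (2 * Real.pi) := by
        have := hm0 q
        positivity
      exact (Nat.ceil_lt_add_one this).le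
    rw [Finset.sum_add_distrib, ← Finset.sum_div, ← Finset.mul_sum] at h1
    simp only [Finset.sum_const, nsmul_eq_mul, mul_one] at h1
    have hms0 : 0 ≤ ∑ q ∈ S, m q := Finset.sum_nonneg fun q _ => hm0 q
    have hh0 : 0 ≤ h := by
      have h5 := hms0.trans hmsum
      by_contra hcon
      push Not at hcon
      have : 128 * h / τ ^ 2 < 0 := div_neg_of_neg_of_pos (by linarith) (by positivity)
      linarith
    have h2 : B * (∑ q ∈ S, m q) / (2 * Real.pi) ≤ B * (21 * h / τ ^ 2) := by
      have h3 : (∑ q ∈ S, m q) / (2 * Real.pi) ≤ 21 * h / τ ^ 2 := by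
        rw [div_le_iff₀ (by positivity)]
        refine hmsum.trans ?_
        have h4 : 128 ≤ 21 * (2 * Real.pi) := by linarith [Real.pi_gt_d2]
        have h6 : 0 ≤ h / τ ^ 2 := by positivity
        calc 128 * h / τ ^ 2 = 128 * (h / τ ^ 2) := by ring
          _ ≤ 21 * (2 * Real.pi) * (h / τ ^ 2) := mul_le_mul_of_nonneg_right h4 h6
          _ = 21 * h / τ ^ 2 * (2 * Real.pi) := by ring
      calc B * (∑ q ∈ S, m q) / (2 * Real.pi) = B * ((∑ q ∈ S, m q) / (2 * Real.pi)) := by ring
        _ ≤ _ := mul_le_mul_of_nonneg_left h3 hB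
    linarith
  · intro z hz
    set r := τ / 2 with hr
    have hrp : 0 < r := by positivity
    have hball : ball z r ⊆ A := by
      intro a ha
      rw [mem_ball, dist_eq_norm] at ha
      rw [hA, mem_ball_zero_iff]
      calc ‖a‖ = ‖(a - z) + z‖ := by rw [sub_add_cancel]
        _ ≤ ‖a - z‖ + ‖z‖ := norm_add_le _ _
        _ < R₁ := by simp only [hR₁]; linarith
    set ell : ℤ × ℤ → ℝ := fun q => Real.log ((‖z - pt q‖ + d) / (2 + d)) with hell
    set K : ℂ → ℝ := fun a => Real.log ((‖a - z‖ + 3 * d) / r) with hK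
    have hKc : Continuous K := by
      apply Continuous.log
      · fun_prop
      · intro a
        have : 0 < ‖a - z‖ + 3 * d := by positivity
        positivity
    have hz1 : ‖z‖ ≤ 1 := by linarith
    have hterm : ∀ q ∈ S, (mu q : ℝ) * ell q ≤ (B / (2 * Real.pi)) * ∫ a in ball z r ∩ c ⁻¹' {q}, F a * K a := by
      intro q hq
      have hE : MeasurableSet (ball z r ∩ c ⁻¹' {q}) :=
        measurableSet_ball.inter (hcm (measurableSet_singleton q))
      have hsub : ball z r ∩ c ⁻¹' {q} ⊆ A ∩ c ⁻¹' {q} := inter_subset_inter_left _ hball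
      have hFE : ∀ a ∈ ball z r ∩ c ⁻¹' {q}, 0 ≤ F a := fun a ha =>
        hF0 a (by linarith [hA1 a (hball ha.1)])
      have hp1 : ∫ a in ball z r ∩ c ⁻¹' {q}, F a * ell q ≤ ∫ a in ball z r ∩ c ⁻¹' {q}, F a * K a := by
        apply setIntegral_mono_on _ _ hE
        · intro a ha
          apply mul_le_mul_of_nonneg_left _ (hFE a ha)
          apply Real.log_le_log
          · have : 0 < ‖z - pt q‖ + d := by positivity
            positivity
          · have haq : c a = q := ha.2
            have h1 := hptc a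
            rw [haq] at h1
            have h2 : ‖z - pt q‖ ≤ ‖a - z‖ + ‖a - pt q‖ := by
              have : z - pt q = (a - pt q) - (a - z) := by ring
              rw [this]
              refine (norm_sub_le _ _).trans ?_
              linarith
            apply div_le_div₀ (by positivity) (by linarith) hrp (by linarith)
        · exact ((hFi _ (inter_subset_left.trans hball)).mul_const _)
        · have : Continuous fun a => F a * K a := hFc.mul hKc
          exact (this.continuousOn.integrableOn_compact (isCompact_closedBall z r)).mono_set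
            (inter_subset_left.trans ball_subset_closedBall)
      rw [integral_mul_const] at hp1
      have hm1 : ∫ a in ball z r ∩ c ⁻¹' {q}, F a ≤ m q := by
        apply setIntegral_mono_set (hFi _ inter_subset_left)
        · rw [EventuallyLE, ae_restrict_iff' (hAm.inter (hcm (measurableSet_singleton q)))]
          exact Eventually.of_forall fun a ha => hF0 a (by linarith [hA1 a ha.1])
        · exact hsub.eventuallyLE
      have hm2 : 0 ≤ ∫ a in ball z r ∩ c ⁻¹' {q}, F a := setIntegral_nonneg hE hFE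
      have hBp : 0 ≤ B / (2 * Real.pi) := by positivity
      refine le_trans ?_ (mul_le_mul_of_nonneg_left hp1 hBp)
      by_cases hmq : mu q = 0
      · have h1 : B * m q / (2 * Real.pi) ≤ 0 := by
          have := Nat.ceil_eq_zero.1 hmq
          exact this
        have h2 : B / (2 * Real.pi) * ∫ a in ball z r ∩ c ⁻¹' {q}, F a = 0 := by
          apply le_antisymm
          · calc B / (2 * Real.pi) * ∫ a in ball z r ∩ c ⁻¹' {q}, F a ≤ B / (2 * Real.pi) * m q :=
                mul_le_mul_of_nonneg_left hm1 hBp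
              _ = B * m q / (2 * Real.pi) := by ring
              _ ≤ 0 := h1
          · positivity
        rw [hmq, ← mul_assoc, h2]
        simp
      · have hpq := hptn q hq hmq
        have hell0 : ell q ≤ 0 := by
          apply Real.log_nonpos
          · positivity
          · rw [div_le_one (by positivity)]
            have := norm_sub_le z (pt q)
            linarith
        have h1 : B * m q / (2 * Real.pi) ≤ mu q := Nat.le_ceil _
        have h2 : B / (2 * Real.pi) * (∫ a in ball z r ∩ c ⁻¹' {q}, F a) ≤ mu q := by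
          refine le_trans (mul_le_mul_of_nonneg_left hm1 hBp) (le_of_eq_of_le ?_ h1)
          ring
        nlinarith
    have hsum : ∑ q ∈ S, (mu q : ℝ) * ell q ≤ (B / (2 * Real.pi)) * ∫ a in ball z r, F a * K a := by
      have hi : IntegrableOn (fun a => F a * K a) (ball z r) := by
        have : Continuous fun a => F a * K a := hFc.mul hKc
        exact (this.continuousOn.integrableOn_compact (isCompact_closedBall z r)).mono_set
          ball_subset_closedBall
      rw [hcells (ball z r) _ measurableSet_ball hball hi, Finset.mul_sum]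
      exact Finset.sum_le_sum hterm
    -- Jensen
    have hshift : ∀ G : ℂ → ℝ, ∫ ζ in ball (0 : ℂ) r, G (z + ζ) = ∫ a in ball z r, G a := by
      intro G
      have h1 := (measurePreserving_add_left (volume : Measure ℂ) z).setIntegral_preimage_emb
        (measurableEmbedding_addLeft z) G (ball z r)
      rw [← h1]
      congr 2
      ext ζ
      simp [dist_eq_norm]
    have hle : ∀ ζ : ℂ, ‖ζ‖ ≤ r → ‖z + ζ‖ ≤ 1 - τ / 4 := by
      intro ζ hζ
      refine (norm_add_le _ _).trans ?_
      linarith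
    have e0 : ∀ ζ : ℂ, a0 + z • b + ζ • b = a0 + (z + ζ) • b := by
      intro ζ
      rw [add_smul, add_assoc]
    have hJ := jensen hu (a0 + z • b) b (r := r) (d := 3 * d) (D₀ := D₀) hrp (by positivity)
      (fun ζ hζ => by rw [e0]; exact h0 _ (hle ζ hζ))
      (fun ζ hζ => by rw [e0]; exact hFD _ (by linarith [hle ζ hζ]))
    simp only [e0] at hJ
    have hJ1 : ∫ ζ in ball (0 : ℂ) r, u (a0 + (z + ζ) • b) = ∫ a in ball z r, u (a0 + a • b) :=
      hshift fun a => u (a0 + a • b)
    have hJ2 : ∫ ζ in ball (0 : ℂ) r, Real.log ((‖ζ‖ + 3 * d) / r) * (4 * levi u (a0 + (z + ζ) • b) b) =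
        ∫ a in ball z r, F a * K a := by
      rw [← hshift fun a => F a * K a]
      congr 1
      funext ζ
      simp only [hF, hK, add_sub_cancel_left]
      ring
    rw [hJ1, hJ2] at hJ
    have huc : Continuous fun a : ℂ => -u (a0 + a • b) := (hu.continuous.comp (by fun_prop)).neg
    have hhz : ∫ a in ball z r, -u (a0 + a • b) ≤ h := by
      refine le_trans ?_ hh
      apply setIntegral_mono_set
      · exact (huc.continuousOn.integrableOn_compact (isCompact_closedBall (0 : ℂ) 1)).mono_set
          (fun a ha => by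
            rw [mem_ball_zero_iff] at ha
            rw [mem_closedBall_zero_iff]
            linarith)
      · rw [EventuallyLE, ae_restrict_iff' measurableSet_ball]
        refine Eventually.of_forall fun a ha => ?_
        rw [mem_ball_zero_iff] at ha
        have := hneg a ha.le
        simp only [Pi.zero_apply]
        linarith
      · apply LE.le.eventuallyLE
        refine hball.trans (ball_subset_ball ?_)
        simp only [hR₁]
        linarith
    rw [integral_neg] at hhz
    have hIK : ∫ a in ball z r, F a * K a ≤ 2 * Real.pi * (u (a0 + z • b) + τ + 2 * h / τ ^ 2) := by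
      have h1 : (2 / r ^ 2) * (∫ a in ball z r, u (a0 + a • b)) ≥ -(8 * h / τ ^ 2) := by
        have h2 : (2 / r ^ 2) * (-h) ≤ (2 / r ^ 2) * (∫ a in ball z r, u (a0 + a • b)) :=
          mul_le_mul_of_nonneg_left (by linarith) (by positivity)
        have h3 : (2 / r ^ 2) * (-h) = -(8 * h / τ ^ 2) := by
          simp only [hr]
          field_simp
          ring
        linarith
      have h4 : 2 * Real.pi * (3 * d) * r * D₀ ≤ 2 * Real.pi * τ := by
        calc 2 * Real.pi * (3 * d) * r * D₀ = 2 * Real.pi * (3 * d * (τ / 2) * D₀) := by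
              simp only [hr]; ring
          _ ≤ 2 * Real.pi * τ := mul_le_mul_of_nonneg_left hdD (by positivity)
      have h5 : 8 * h / τ ^ 2 ≤ 2 * Real.pi * (2 * h / τ ^ 2) := by
        have hh0 : 0 ≤ h := by
          have h5 := (Finset.sum_nonneg fun q (_ : q ∈ S) => hm0 q).trans hmsum
          by_contra hcon
          push Not at hcon
          have : 128 * h / τ ^ 2 < 0 := div_neg_of_neg_of_pos (by linarith) (by positivity)
          linarith
        have h6 : 0 ≤ h / τ ^ 2 := by positivity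
        calc 8 * h / τ ^ 2 = 8 * (h / τ ^ 2) := by ring
          _ ≤ 2 * Real.pi * 2 * (h / τ ^ 2) :=
              mul_le_mul_of_nonneg_right (by linarith [Real.pi_gt_three]) h6
          _ = 2 * Real.pi * (2 * h / τ ^ 2) := by ring
      linarith
    have hfin : ∑ q ∈ S, (mu q : ℝ) * ell q ≤ B * (u (a0 + z • b) + τ + 2 * h / τ ^ 2) := by
      refine hsum.trans ?_
      calc (B / (2 * Real.pi)) * ∫ a in ball z r, F a * K a
          ≤ (B / (2 * Real.pi)) * (2 * Real.pi * (u (a0 + z • b) + τ + 2 * h / τ ^ 2)) :=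
            mul_le_mul_of_nonneg_left hIK (by positivity)
        _ = B * (u (a0 + z • b) + τ + 2 * h / τ ^ 2) := by field_simp
    rw [hap z]
    calc ∏ q ∈ S, ‖z - pt q‖ ^ mu q ≤ ∏ q ∈ S, Real.exp (mu q * (Real.log 2 + ell q)) := by
          apply Finset.prod_le_prod
          · intro q _
            positivity
          · intro q hq
            by_cases hmq : mu q = 0
            · simp [hmq]
            rw [Real.exp_nat_mul]
            apply pow_le_pow_left₀ (norm_nonneg _)
            rw [Real.exp_add, Real.exp_log two_pos, hell, Real.exp_log (by positivity)]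
            rw [mul_div_assoc', le_div_iff₀ (by positivity)]
            have hzq : ‖z - pt q‖ ≤ 2 := by
              have := norm_sub_le z (pt q)
              linarith [hptn q hq hmq]
            nlinarith
      _ = Real.exp (∑ q ∈ S, (mu q : ℝ) * (Real.log 2 + ell q)) := by rw [Real.exp_sum]
      _ ≤ _ := by
          apply Real.exp_le_exp.2
          simp only [mul_add, Finset.sum_add_distrib]
          rw [← Finset.sum_mul]
          rw [hN]
          push_cast
          linarith

end Pool.Agent.U574.FC
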