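import Mathlib

/-!
Polynomials with small integer coefficients which are nearly divisible by prescribed polynomials.
-/

set_option autoImplicit false
set_option maxHeartbeats 1000000

open Finset

namespace Pool.Agent.U574.FC

variable {N : ℕ}

/-- evaluation of the polynomial with coefficient vector `c` -/
noncomputable def evL (z : ℂ) : (Fin N → ℂ) →ₗ[ℂ] ℂ where
  toFun c := ∑ j, c j * z ^ (j : ℕ)
  map_add' c d := by
    simp only [Pi.add_apply, add_mul, Finset.sum_add_distrib]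
  map_smul' r c := by
    simp only [Pi.smul_apply, smul_eq_mul, mul_assoc, Finset.mul_sum, RingHom.id_apply]

lemma evL_apply (z : ℂ) (c : Fin N → ℂ) : evL z c = ∑ j, c j * z ^ (j : ℕ) := rfl

/-- quotient by `z - a` -/
noncomputable def dvL (a : ℂ) : (Fin N → ℂ) →ₗ[ℂ] (Fin N → ℂ) where
  toFun c i := ∑ j, c j * (if i < j then a ^ ((j : ℕ) - 1 - (i : ℕ)) else 0)
  map_add' c d := by
    funext i
    simp only [Pi.add_apply, add_mul, Finset.sum_add_distrib]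
  map_smul' r c := by
    funext i
    simp only [Pi.smul_apply, smul_eq_mul, mul_assoc, Finset.mul_sum, RingHom.id_apply]

lemma dvL_apply (a : ℂ) (c : Fin N → ℂ) (i : Fin N) :
    dvL a c i = ∑ j, c j * (if i < j then a ^ ((j : ℕ) - 1 - (i : ℕ)) else 0) := rfl

/-- a norm which makes division a contraction -/
noncomputable def nmF (c : Fin N → ℂ) : ℝ := ∑ j, ‖c j‖ * 2 ^ (j : ℕ)

lemma nmF_nonneg (c : Fin N → ℂ) : 0 ≤ nmF c := by unfold nmF; positivity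

lemma geo {R : Type*} [CommRing R] (a z : R) (j : Fin N) :
    (∑ i : Fin N, z ^ (i : ℕ) * (if i < j then a ^ ((j : ℕ) - 1 - (i : ℕ)) else 0)) * (z - a) =
      z ^ (j : ℕ) - a ^ (j : ℕ) := by
  rw [← geom_sum₂_mul]
  congr 1
  simp only [Fin.lt_def, mul_ite, mul_zero]
  rw [Fin.sum_univ_eq_sum_range (fun i => if i < (j : ℕ) then z ^ i * a ^ ((j : ℕ) - 1 - i) else 0) N,
    ← Finset.sum_filter]
  apply Finset.sum_congr _ fun _ _ => rfl
  ext i
  simp only [mem_filter, mem_range]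
  have := j.2
  omega

lemma ev_dv (a z : ℂ) (c : Fin N → ℂ) : evL z c = evL a c + (z - a) * evL z (dvL a c) := by
  have h : (z - a) * evL z (dvL a c) = ∑ j, c j * (z ^ (j : ℕ) - a ^ (j : ℕ)) := by
    simp only [evL_apply, dvL_apply, Finset.sum_mul]
    rw [Finset.sum_comm, Finset.mul_sum]
    apply Finset.sum_congr rfl
    intro j _
    rw [← geo a z j, Finset.sum_mul, Finset.mul_sum, Finset.mul_sum]
    apply Finset.sum_congr rfl
    intro i _
    ring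
  rw [h, evL_apply, evL_apply, ← Finset.sum_add_distrib]
  apply Finset.sum_congr rfl
  intro j _
  ring

lemma nm_dv {a : ℂ} (ha : ‖a‖ ≤ 1) (c : Fin N → ℂ) : nmF (dvL a c) ≤ nmF c := by
  unfold nmF
  calc ∑ i, ‖dvL a c i‖ * 2 ^ (i : ℕ)
      ≤ ∑ i : Fin N, (∑ j : Fin N, ‖c j‖ * (if i < j then (1 : ℝ) ^ ((j : ℕ) - 1 - (i : ℕ)) else 0)) *
          2 ^ (i : ℕ) := by
        apply Finset.sum_le_sum
        intro i _
        apply mul_le_mul_of_nonneg_right _ (by positivity)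
        rw [dvL_apply]
        refine (norm_sum_le _ _).trans (Finset.sum_le_sum fun j _ => ?_)
        rw [norm_mul]
        apply mul_le_mul_of_nonneg_left _ (norm_nonneg _)
        split_ifs
        · rw [norm_pow]
          exact pow_le_pow_left₀ (norm_nonneg _) ha _
        · simp
    _ = ∑ j : Fin N, ‖c j‖ * (2 ^ (j : ℕ) - 1) := by
        simp only [Finset.sum_mul]
        rw [Finset.sum_comm]
        apply Finset.sum_congr rfl
        intro j _
        have := geo (1 : ℝ) 2 j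
        rw [one_pow] at this
        norm_num only at this
        rw [mul_one] at this
        rw [← this, Finset.mul_sum]
        apply Finset.sum_congr rfl
        intro i _
        ring
    _ ≤ ∑ j : Fin N, ‖c j‖ * 2 ^ (j : ℕ) := by
        apply Finset.sum_le_sum
        intro j _
        apply mul_le_mul_of_nonneg_left _ (norm_nonneg _)
        linarith

lemma ev_le {z : ℂ} (hz : ‖z‖ ≤ 2) (c : Fin N → ℂ) : ‖evL z c‖ ≤ nmF c := by
  rw [evL_apply, nmF]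
  refine (norm_sum_le _ _).trans (Finset.sum_le_sum fun j _ => ?_)
  rw [norm_mul, norm_pow]
  exact mul_le_mul_of_nonneg_left (pow_le_pow_left₀ (norm_nonneg _) hz _) (norm_nonneg _)

/-- repeated division by `z - a i` -/
noncomputable def FL (a : ℕ → ℂ) : ℕ → ((Fin N → ℂ) →ₗ[ℂ] (Fin N → ℂ))
  | 0 => LinearMap.id
  | i + 1 => (dvL (a i)).comp (FL a i)

/-- Newton coefficients -/
noncomputable def cfL (a : ℕ → ℂ) (i : ℕ) : (Fin N → ℂ) →ₗ[ℂ] ℂ := (evL (a i)).comp (FL a i)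

lemma nm_FL {a : ℕ → ℂ} (ha : ∀ l, ‖a l‖ ≤ 1) (c : Fin N → ℂ) (n : ℕ) : nmF (FL a n c) ≤ nmF c := by
  induction n with
  | zero => exact le_rfl
  | succ n ih => exact (nm_dv (ha n) _).trans ih

lemma cf_le {a : ℕ → ℂ} (ha : ∀ l, ‖a l‖ ≤ 1) (c : Fin N → ℂ) (n : ℕ) : ‖cfL a n c‖ ≤ nmF c :=
  (ev_le ((ha n).trans one_le_two) _).trans (nm_FL ha c n)

lemma newton (a : ℕ → ℂ) (c : Fin N → ℂ) (z : ℂ) (n : ℕ) :
    evL z c = ∑ i ∈ range n, cfL a i c * ∏ l ∈ range i, (z - a l) +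
      (∏ l ∈ range n, (z - a l)) * evL z (FL a n c) := by
  induction n with
  | zero => simp [FL]
  | succ n ih =>
    rw [ih, Finset.sum_range_succ, Finset.prod_range_succ, ev_dv (a n) z (FL a n c)]
    simp only [cfL, FL, LinearMap.comp_apply]
    ring

lemma FL_zero (a : ℕ → ℂ) (c : Fin N → ℂ) (n : ℕ) : ∀ i : Fin N, N ≤ i + n → FL a n c i = 0 := by
  induction n with
  | zero =>
    intro i hi
    have := i.2
    omega
  | succ n ih =>
    intro i hi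
    simp only [FL, LinearMap.comp_apply, dvL_apply]
    apply Finset.sum_eq_zero
    intro j _
    split_ifs with h
    · rw [ih j (by rw [Fin.lt_def] at h; omega), zero_mul]
    · rw [mul_zero]

lemma evL_FL_N (a : ℕ → ℂ) (c : Fin N → ℂ) (z : ℂ) : evL z (FL a N c) = 0 := by
  have : FL a N c = 0 := by
    funext i
    exact FL_zero a c N i (by omega)
  rw [this, map_zero]

/-- bound for a polynomial nearly divisible by `∏ (z - a l)` -/
lemma newton_le {a : ℕ → ℂ} (ha : ∀ l, ‖a l‖ ≤ 1) (c : Fin N → ℂ) {z : ℂ} (hz : ‖z‖ ≤ 1) (n : ℕ)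
    {ε : ℝ} (hc : ∀ i < n, ‖cfL a i c‖ ≤ ε) :
    ‖evL z c‖ ≤ n * 2 ^ n * ε + (∏ l ∈ range n, ‖z - a l‖) * nmF c := by
  rcases Nat.eq_zero_or_pos n with rfl | hn
  · simp only [CharP.cast_eq_zero, zero_mul, range_zero, prod_empty, one_mul, zero_add]
    exact ev_le (hz.trans one_le_two) c
  have hε : 0 ≤ ε := (norm_nonneg _).trans (hc 0 hn)
  rw [newton a c z n]
  refine (norm_add_le _ _).trans (add_le_add ?_ ?_)
  · refine (norm_sum_le _ _).trans ?_
    calc ∑ i ∈ range n, ‖cfL a i c * ∏ l ∈ range i, (z - a l)‖ ≤ ∑ i ∈ range n, 2 ^ n * ε := by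
          apply Finset.sum_le_sum
          intro i hi
          rw [norm_mul, norm_prod, mul_comm]
          apply mul_le_mul _ (hc i (mem_range.1 hi)) (norm_nonneg _) (by positivity)
          calc ∏ l ∈ range i, ‖z - a l‖ ≤ ∏ l ∈ range i, (2 : ℝ) := by
                apply Finset.prod_le_prod (fun _ _ => norm_nonneg _)
                intro l _
                refine (norm_sub_le _ _).trans ?_
                linarith [ha l]
            _ = 2 ^ i := by simp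
            _ ≤ 2 ^ n := pow_le_pow_right₀ one_le_two (mem_range.1 hi).le
      _ = n * 2 ^ n * ε := by simp; ring
  · rw [norm_mul, norm_prod]
    exact mul_le_mul_of_nonneg_left ((ev_le (hz.trans one_le_two) _).trans (nm_FL ha c n)) (by positivity)

/-- the coefficients in `z` of the polynomial with integer coefficients `t`, at the value `ω` of the
second variable -/
noncomputable def slc {N₁ N₂ : ℕ} (t : Fin N₁ × Fin N₂ → ℤ) (ω : ℂ) (j : Fin N₁) : ℂ :=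
  ∑ k, (t (j, k) : ℂ) * ω ^ (k : ℕ)

theorem siegel_pos {N₁ N₂ N₃ : ℕ} (n : Fin N₃ → ℕ) (a : Fin N₃ → ℕ → ℂ) (ha : ∀ m l, ‖a m l‖ ≤ 1)
    (ω : Fin N₃ → ℂ) (hω : ∀ m, ‖ω m‖ ≤ 1) (K : ℝ) (hK : 0 < K)
    (h0 : 0 < 2 * ∑ m, n m) (h1 : 2 * ∑ m, n m < N₁ * N₂) :
    ∃ t : Fin N₁ × Fin N₂ → ℤ, t ≠ 0 ∧
      (∀ p, |(t p : ℝ)| ≤ ((N₁ * N₂ : ℕ) * (K * 2 ^ N₁ + 1)) ^
        (((2 * ∑ m, n m : ℕ) : ℝ) / ((N₁ * N₂ : ℕ) - (2 * ∑ m, n m : ℕ)))) ∧
      ∀ m, ∀ i < n m, ‖cfL (a m) i (slc t (ω m))‖ ≤ 2 * ((N₁ * N₂ : ℕ) *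
        ((N₁ * N₂ : ℕ) * (K * 2 ^ N₁ + 1)) ^
        (((2 * ∑ m, n m : ℕ) : ℝ) / ((N₁ * N₂ : ℕ) - (2 * ∑ m, n m : ℕ)))) / K := by
  classical
  set al : (m : Fin N₃) → ℕ → Fin N₁ → ℂ := fun m i j => cfL (a m) i fun l => if j = l then 1 else 0
    with hal
  have hal1 : ∀ m i j, ‖al m i j‖ ≤ 2 ^ N₁ := by
    intro m i j
    refine (cf_le (ha m) _ _).trans ?_
    unfold nmF
    rw [Finset.sum_eq_single j]
    · simp only [if_true, norm_one, one_mul]
      exact pow_le_pow_right₀ one_le_two j.2.le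
    · intro b _ hb
      simp [Ne.symm hb]
    · simp
  set be : ((Σ m : Fin N₃, Fin (n m)) × Bool) → Fin N₁ × Fin N₂ → ℝ := fun r p =>
    if r.2 then (ω r.1.1 ^ (p.2 : ℕ) * al r.1.1 r.1.2 p.1).re
      else (ω r.1.1 ^ (p.2 : ℕ) * al r.1.1 r.1.2 p.1).im with hbe
  have hbn : ∀ m i (p : Fin N₁ × Fin N₂), ‖ω m ^ (p.2 : ℕ) * al m i p.1‖ ≤ 2 ^ N₁ := by
    intro m i p
    rw [norm_mul, norm_pow]
    calc ‖ω m‖ ^ (p.2 : ℕ) * ‖al m i p.1‖ ≤ 1 * 2 ^ N₁ :=
          mul_le_mul (pow_le_one₀ (norm_nonneg _) (hω m)) (hal1 _ _ _) (norm_nonneg _) zero_le_one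
      _ = 2 ^ N₁ := one_mul _
  have hbe1 : ∀ r p, |be r p| ≤ 2 ^ N₁ := by
    intro r p
    simp only [hbe]
    split_ifs
    · exact (Complex.abs_re_le_norm _).trans (hbn _ _ _)
    · exact (Complex.abs_im_le_norm _).trans (hbn _ _ _)
  set A : Matrix ((Σ m : Fin N₃, Fin (n m)) × Bool) (Fin N₁ × Fin N₂) ℤ :=
    Matrix.of fun r p => ⌊K * be r p⌋ with hA
  have hcr : Fintype.card ((Σ m : Fin N₃, Fin (n m)) × Bool) = 2 * ∑ m, n m := by
    rw [Fintype.card_prod, Fintype.card_sigma]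
    simp [mul_comm]
  have hcc : Fintype.card (Fin N₁ × Fin N₂) = N₁ * N₂ := by simp
  let _ : SeminormedAddCommGroup (Matrix ((Σ m : Fin N₃, Fin (n m)) × Bool) (Fin N₁ × Fin N₂) ℤ) :=
    Matrix.seminormedAddCommGroup
  obtain ⟨t, ht0, htA, htn⟩ := Int.Matrix.exists_ne_zero_int_vec_norm_le A
    (by rw [hcr, hcc]; exact h1) (by rw [hcr]; exact h0)
  have hAn : max 1 ‖A‖ ≤ K * 2 ^ N₁ + 1 := by
    apply max_le
    · have : 0 ≤ K * 2 ^ N₁ := by positivity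
      linarith
    · rw [Matrix.norm_le_iff (by positivity)]
      intro r p
      rw [hA, Matrix.of_apply, Int.norm_eq_abs]
      have h3 := Int.floor_le (K * be r p)
      have h4 := Int.lt_floor_add_one (K * be r p)
      have h5 : |K * be r p| ≤ K * 2 ^ N₁ := by
        rw [abs_mul, abs_of_pos hK]
        exact mul_le_mul_of_nonneg_left (hbe1 r p) hK.le
      rw [abs_le] at h5 ⊢
      constructor <;> linarith [h5.1, h5.2]
  rw [hcr, hcc] at htn
  set X : ℝ := ((N₁ * N₂ : ℕ) * (K * 2 ^ N₁ + 1)) ^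
        (((2 * ∑ m, n m : ℕ) : ℝ) / ((N₁ * N₂ : ℕ) - (2 * ∑ m, n m : ℕ))) with hX
  have hexp : 0 ≤ ((2 * ∑ m, n m : ℕ) : ℝ) / ((N₁ * N₂ : ℕ) - (2 * ∑ m, n m : ℕ)) := by
    apply div_nonneg (Nat.cast_nonneg _)
    have : ((2 * ∑ m, n m : ℕ) : ℝ) ≤ (N₁ * N₂ : ℕ) := by exact_mod_cast h1.le
    linarith
  have htX : ‖t‖ ≤ X := by
    refine htn.trans ?_
    rw [hX]
    apply Real.rpow_le_rpow (by positivity) _ hexp
    exact mul_le_mul_of_nonneg_left hAn (Nat.cast_nonneg _)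
  have htp : ∀ p, |(t p : ℝ)| ≤ X := by
    intro p
    rw [← Int.norm_eq_abs]
    exact (norm_le_pi_norm t p).trans htX
  have hX0 : 0 ≤ X := (norm_nonneg _).trans htX
  refine ⟨t, ht0, htp, ?_⟩
  intro m i hi
  have hsum : cfL (a m) i (slc t (ω m)) =
      ∑ p : Fin N₁ × Fin N₂, (t p : ℂ) * (ω m ^ (p.2 : ℕ) * al m i p.1) := by
    rw [LinearMap.pi_apply_eq_sum_univ (cfL (a m) i) (slc t (ω m)), Fintype.sum_prod_type]
    apply Finset.sum_congr rfl
    intro j _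
    rw [slc, smul_eq_mul, Finset.sum_mul]
    apply Finset.sum_congr rfl
    intro k _
    ring
  have hrow : ∀ b : Bool, |∑ p, (t p : ℝ) * be (⟨m, ⟨i, hi⟩⟩, b) p| ≤ (N₁ * N₂ : ℕ) * X / K := by
    intro b
    set r : (Σ m : Fin N₃, Fin (n m)) × Bool := (⟨m, ⟨i, hi⟩⟩, b) with hr
    have h2 : ∑ p, (t p : ℝ) * (A r p : ℝ) = 0 := by
      have h3 := congrFun htA r
      simp only [Matrix.mulVec, dotProduct, Pi.zero_apply] at h3
      have h4 : ((∑ p, A r p * t p : ℤ) : ℝ) = 0 := by rw [h3]; simp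
      push_cast at h4
      rw [← h4]
      exact Finset.sum_congr rfl fun p _ => mul_comm _ _
    have h3 : ∑ p, (t p : ℝ) * be r p = ∑ p, (t p : ℝ) * (be r p - (A r p : ℝ) / K) := by
      have h5 : ∑ p, (t p : ℝ) * ((A r p : ℝ) / K) = 0 := by
        rw [show ∑ p, (t p : ℝ) * ((A r p : ℝ) / K) = (∑ p, (t p : ℝ) * (A r p : ℝ)) / K by
          rw [Finset.sum_div]; exact Finset.sum_congr rfl fun p _ => by ring, h2, zero_div]
      simp only [mul_sub, Finset.sum_sub_distrib, h5, sub_zero]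
    rw [h3]
    refine (Finset.abs_sum_le_sum_abs _ _).trans ?_
    calc ∑ p, |(t p : ℝ) * (be r p - (A r p : ℝ) / K)| ≤ ∑ p : Fin N₁ × Fin N₂, X * (1 / K) := by
          apply Finset.sum_le_sum
          intro p _
          rw [abs_mul]
          apply mul_le_mul (htp p) _ (abs_nonneg _) hX0
          have h6 : be r p - (A r p : ℝ) / K = (K * be r p - (A r p : ℝ)) / K := by
            field_simp
          rw [h6, abs_div, abs_of_pos hK]
          apply div_le_div_of_nonneg_right _ hK.le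
          rw [hA, Matrix.of_apply, abs_le]
          have h7 := Int.floor_le (K * be r p)
          have h8 := Int.lt_floor_add_one (K * be r p)
          constructor <;> linarith
      _ = (N₁ * N₂ : ℕ) * X / K := by
          simp only [sum_const, card_univ, hcc, nsmul_eq_mul]
          ring
  have hre : (cfL (a m) i (slc t (ω m))).re = ∑ p, (t p : ℝ) * be (⟨m, ⟨i, hi⟩⟩, true) p := by
    rw [hsum, Complex.re_sum]
    apply Finset.sum_congr rfl
    intro p _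
    simp only [hbe, if_true]
    rw [← Complex.ofReal_intCast, Complex.re_ofReal_mul]
  have him : (cfL (a m) i (slc t (ω m))).im = ∑ p, (t p : ℝ) * be (⟨m, ⟨i, hi⟩⟩, false) p := by
    rw [hsum, Complex.im_sum]
    apply Finset.sum_congr rfl
    intro p _
    simp only [hbe, Bool.false_eq_true, if_false]
    rw [← Complex.ofReal_intCast, Complex.im_ofReal_mul]
  have h9 := Complex.norm_le_abs_re_add_abs_im (cfL (a m) i (slc t (ω m)))
  rw [hre, him] at h9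
  have h10 := hrow true
  have h11 := hrow false
  calc ‖cfL (a m) i (slc t (ω m))‖ ≤ (N₁ * N₂ : ℕ) * X / K + (N₁ * N₂ : ℕ) * X / K := by linarith
    _ = 2 * ((N₁ * N₂ : ℕ) * X) / K := by ring

theorem siegel {N₁ N₂ N₃ : ℕ} (n : Fin N₃ → ℕ) (a : Fin N₃ → ℕ → ℂ) (ha : ∀ m l, ‖a m l‖ ≤ 1)
    (ω : Fin N₃ → ℂ) (hω : ∀ m, ‖ω m‖ ≤ 1) (K : ℝ) (hK : 0 < K)
    (h1 : 2 * ∑ m, n m < N₁ * N₂) :
    ∃ t : Fin N₁ × Fin N₂ → ℤ, t ≠ 0 ∧
      (∀ p, |(t p : ℝ)| ≤ ((N₁ * N₂ : ℕ) * (K * 2 ^ N₁ + 1)) ^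
        (((2 * ∑ m, n m : ℕ) : ℝ) / ((N₁ * N₂ : ℕ) - (2 * ∑ m, n m : ℕ)))) ∧
      ∀ m, ∀ i < n m, ‖cfL (a m) i (slc t (ω m))‖ ≤ 2 * ((N₁ * N₂ : ℕ) *
        ((N₁ * N₂ : ℕ) * (K * 2 ^ N₁ + 1)) ^
        (((2 * ∑ m, n m : ℕ) : ℝ) / ((N₁ * N₂ : ℕ) - (2 * ∑ m, n m : ℕ)))) / K := by
  rcases Nat.eq_zero_or_pos (2 * ∑ m, n m) with h0 | h0
  · have hp : 0 < N₁ * N₂ := by omega
    have hp1 : 0 < N₁ := Nat.pos_of_mul_pos_right hp
    have hp2 : 0 < N₂ := Nat.pos_of_mul_pos_left hp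
    refine ⟨fun _ => 1, ?_, ?_, ?_⟩
    · intro h
      have := congrFun h (⟨0, hp1⟩, ⟨0, hp2⟩)
      simp at this
    · intro p
      rw [h0]
      simp
    · intro m i hi
      have h2 : ∑ m, n m = 0 := by omega
      have h3 := Finset.sum_eq_zero_iff.1 h2 m (mem_univ m)
      omega
  · exact siegel_pos n a ha ω hω K hK h0 h1

/-- the two-variable polynomial, as a polynomial in the second variable -/
lemma evL_slc {N₁ N₂ : ℕ} (t : Fin N₁ × Fin N₂ → ℤ) (z ω : ℂ) :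
    evL z (slc t ω) = evL ω (fun k : Fin N₂ => ∑ j : Fin N₁, (t (j, k) : ℂ) * z ^ (j : ℕ)) := by
  simp only [evL_apply, slc, Finset.sum_mul]
  rw [Finset.sum_comm]
  apply Finset.sum_congr rfl
  intro k _
  apply Finset.sum_congr rfl
  intro j _
  ring

lemma slc_le {N₁ N₂ : ℕ} (t : Fin N₁ × Fin N₂ → ℤ) {X : ℝ} (ht : ∀ p, |(t p : ℝ)| ≤ X) {ω : ℂ}
    (hω : ‖ω‖ ≤ 1) (j : Fin N₁) : ‖slc t ω j‖ ≤ N₂ * X := by
  unfold slc
  refine (norm_sum_le _ _).trans ?_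
  calc ∑ k : Fin N₂, ‖(t (j, k) : ℂ) * ω ^ (k : ℕ)‖ ≤ ∑ k : Fin N₂, X := by
        apply Finset.sum_le_sum
        intro k _
        rw [norm_mul, norm_pow, Complex.norm_intCast]
        calc |(t (j, k) : ℝ)| * ‖ω‖ ^ (k : ℕ) ≤ X * 1 :=
              mul_le_mul (ht _) (pow_le_one₀ (norm_nonneg _) hω) (by positivity) ((abs_nonneg _).trans (ht (j, k)))
          _ = X := mul_one _
    _ = N₂ * X := by simp

lemma P_le {N₁ N₂ : ℕ} (t : Fin N₁ × Fin N₂ → ℤ) {X : ℝ} (ht : ∀ p, |(t p : ℝ)| ≤ X) {z ω : ℂ}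
    (hz : ‖z‖ ≤ 1) (hω : ‖ω‖ ≤ 1) : ‖evL z (slc t ω)‖ ≤ N₁ * (N₂ * X) := by
  rw [evL_apply]
  refine (norm_sum_le _ _).trans ?_
  calc ∑ j : Fin N₁, ‖slc t ω j * z ^ (j : ℕ)‖ ≤ ∑ _j : Fin N₁, (N₂ * X) := by
        apply Finset.sum_le_sum
        intro j _
        rw [norm_mul, norm_pow]
        calc ‖slc t ω j‖ * ‖z‖ ^ (j : ℕ) ≤ (N₂ * X) * 1 :=
              mul_le_mul (slc_le t ht hω j) (pow_le_one₀ (norm_nonneg _) hz) (by positivity)
                ((norm_nonneg _).trans (slc_le t ht hω j))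
          _ = _ := mul_one _
    _ = N₁ * (N₂ * X) := by simp

lemma nmF_slc {N₁ N₂ : ℕ} (t : Fin N₁ × Fin N₂ → ℤ) {X : ℝ} (ht : ∀ p, |(t p : ℝ)| ≤ X) {ω : ℂ}
    (hω : ‖ω‖ ≤ 1) : nmF (slc t ω) ≤ N₁ * (N₂ * X) * 2 ^ N₁ := by
  unfold nmF
  calc ∑ j : Fin N₁, ‖slc t ω j‖ * 2 ^ (j : ℕ) ≤ ∑ _j : Fin N₁, (N₂ * X) * 2 ^ N₁ := by
        apply Finset.sum_le_sum
        intro j _
        exact mul_le_mul (slc_le t ht hω j) (pow_le_pow_right₀ one_le_two j.2.le) (by positivity)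
          ((norm_nonneg _).trans (slc_le t ht hω j))
    _ = N₁ * (N₂ * X) * 2 ^ N₁ := by simp; ring

end Pool.Agent.U574.FC
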