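import Mathlib
import Pool.Agent.U574.FC.Siegel

/-!
From roots of unity to the whole circle.
-/

set_option autoImplicit false
set_option maxHeartbeats 1000000

open Finset

namespace Pool.Agent.U574.FC

/-- roots of unity -/
noncomputable def rou (M : ℕ) (m : ℕ) : ℂ := Complex.exp (2 * Real.pi * Complex.I / M) ^ m

lemma rou_norm (M m : ℕ) : ‖rou M m‖ = 1 := by
  unfold rou
  rw [norm_pow, Complex.norm_exp]
  have : (2 * (Real.pi : ℂ) * Complex.I / M).re = 0 := by
    rw [show (2 * (Real.pi : ℂ) * Complex.I / M) = ((2 * Real.pi / M : ℝ) : ℂ) * Complex.I by push_cast; ring]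
    simp
  rw [this]
  simp

lemma rou_ne (M m : ℕ) : rou M m ≠ 0 := by
  intro h
  have := rou_norm M m
  rw [h, norm_zero] at this
  exact zero_ne_one this

lemma orth {M : ℕ} (hM : 0 < M) {l k : ℕ} (hl : l < M) (hk : k < M) :
    ∑ m ∈ range M, rou M m ^ l * (rou M m)⁻¹ ^ k = if l = k then (M : ℂ) else 0 := by
  have hz := Complex.isPrimitiveRoot_exp M hM.ne'
  set ζ := Complex.exp (2 * Real.pi * Complex.I / M) with hζ
  have e : ∀ m, rou M m ^ l * (rou M m)⁻¹ ^ k = (ζ ^ l * (ζ⁻¹) ^ k) ^ m := by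
    intro m
    rw [rou, ← hζ, mul_pow, ← pow_mul, ← pow_mul, inv_pow, inv_pow, ← pow_mul, inv_pow, ← pow_mul,
      mul_comm m l, mul_comm m k]
  rw [Finset.sum_congr rfl fun m _ => e m]
  have hζ0 : ζ ≠ 0 := Complex.exp_ne_zero _
  split_ifs with h
  · subst h
    rw [inv_pow, mul_inv_cancel₀ (pow_ne_zero _ hζ0)]
    simp
  · have h1 : ζ ^ l * (ζ⁻¹) ^ k ≠ 1 := by
      intro h2
      rw [inv_pow] at h2
      have h3 : ζ ^ l = ζ ^ k := by
        field_simp at h2
        exact h2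
      exact h (hz.pow_inj hl hk h3)
    have h4 : (ζ ^ l * (ζ⁻¹) ^ k) ^ M = 1 := by
      rw [mul_pow, ← pow_mul, ← pow_mul, mul_comm l, mul_comm k, pow_mul, pow_mul, hz.pow_eq_one, one_pow,
        one_mul, inv_pow, hz.pow_eq_one, inv_one, one_pow]
    have h5 := geom_sum_mul (ζ ^ l * (ζ⁻¹) ^ k) M
    rw [h4, sub_self] at h5
    exact (mul_eq_zero.1 h5).resolve_right (sub_ne_zero.2 h1)

lemma interp {M : ℕ} (hM : 0 < M) (p : Polynomial ℂ) (hp : p.natDegree < M) (u : ℂ) :
    p.eval u = ∑ m ∈ range M, p.eval (rou M m) * ((M : ℂ)⁻¹ * ∑ k ∈ range M, (u * (rou M m)⁻¹) ^ k) := by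
  have hM' : (M : ℂ) ≠ 0 := by exact_mod_cast hM.ne'
  have h1 : ∀ m, p.eval (rou M m) * ((M : ℂ)⁻¹ * ∑ k ∈ range M, (u * (rou M m)⁻¹) ^ k) =
      ∑ l ∈ range M, ∑ k ∈ range M, (M : ℂ)⁻¹ * p.coeff l * u ^ k * (rou M m ^ l * (rou M m)⁻¹ ^ k) := by
    intro m
    rw [Polynomial.eval_eq_sum_range' hp, Finset.sum_mul]
    apply Finset.sum_congr rfl
    intro l _
    rw [Finset.mul_sum, Finset.mul_sum]
    apply Finset.sum_congr rfl
    intro k _
    rw [mul_pow]
    ring
  rw [Finset.sum_congr rfl fun m _ => h1 m, Finset.sum_comm, Polynomial.eval_eq_sum_range' hp]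
  apply Finset.sum_congr rfl
  intro l hl
  rw [Finset.sum_comm]
  have h2 : ∀ k ∈ range M, ∑ m ∈ range M, (M : ℂ)⁻¹ * p.coeff l * u ^ k * (rou M m ^ l * (rou M m)⁻¹ ^ k) =
      if l = k then p.coeff l * u ^ k else 0 := by
    intro k hk
    rw [← Finset.mul_sum, orth hM (mem_range.1 hl) (mem_range.1 hk)]
    split_ifs
    · field_simp
    · ring
  rw [Finset.sum_congr rfl h2, Finset.sum_ite_eq]
  rw [if_pos hl]

/-- a polynomial of degree `< N₂` on the circle in terms of its values at `M ≥ 2 N₂` roots of unity -/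
theorem sample_bound {N₂ M : ℕ} (hN : 0 < N₂) (hM : 2 * N₂ ≤ M) (c : Fin N₂ → ℂ) {u : ℂ} (hu : ‖u‖ = 1) :
    ‖evL u c‖ ≤ ∑ m ∈ range M, ‖evL (rou M m) c‖ * (‖1 + rou M m * star u‖ / 2) ^ N₂ := by
  set q : Polynomial ℂ := ∑ k : Fin N₂, Polynomial.C (c k) * Polynomial.X ^ (k : ℕ) with hq
  set r : Polynomial ℂ := Polynomial.C (1 / 2) * (1 + Polynomial.C (star u) * Polynomial.X) with hr
  have hqe : ∀ x, q.eval x = evL x c := by
    intro x
    rw [hq, Polynomial.eval_finsetSum, evL_apply]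
    simp
  have hre : ∀ x, r.eval x = (1 + x * star u) / 2 := by
    intro x
    simp only [hr, Polynomial.eval_mul, Polynomial.eval_add, Polynomial.eval_C, Polynomial.eval_X,
      Polynomial.eval_one]
    ring
  have hqd : q.natDegree ≤ N₂ - 1 := by
    apply Polynomial.natDegree_sum_le_of_forall_le
    intro k _
    refine (Polynomial.natDegree_C_mul_X_pow_le _ _).trans ?_
    have := k.2
    omega
  have hrd : r.natDegree ≤ 1 := by
    rw [hr]
    refine (Polynomial.natDegree_C_mul_le _ _).trans ?_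
    refine (Polynomial.natDegree_add_le _ _).trans ?_
    simp only [Polynomial.natDegree_one, zero_le, sup_of_le_right]
    refine (Polynomial.natDegree_C_mul_le _ _).trans ?_
    simp
  have hpd : (q * r ^ N₂).natDegree < M := by
    have h1 := Polynomial.natDegree_mul_le (p := q) (q := r ^ N₂)
    have h2 := Polynomial.natDegree_pow_le (p := r) (n := N₂)
    have h3 : N₂ * r.natDegree ≤ N₂ * 1 := Nat.mul_le_mul_left _ hrd
    omega
  have huu : u * star u = 1 := by
    rw [Complex.star_def, Complex.mul_conj, Complex.normSq_eq_norm_sq, hu]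
    simp
  have h := interp (by omega) (q * r ^ N₂) hpd u
  have e1 : (q * r ^ N₂).eval u = evL u c := by
    rw [Polynomial.eval_mul, Polynomial.eval_pow, hqe, hre, huu]
    norm_num
  rw [e1] at h
  rw [h]
  refine (norm_sum_le _ _).trans (Finset.sum_le_sum fun m _ => ?_)
  rw [Polynomial.eval_mul, Polynomial.eval_pow, hqe, hre, norm_mul, norm_mul, norm_pow, norm_div]
  have h2 : ‖(M : ℂ)⁻¹ * ∑ k ∈ range M, (u * (rou M m)⁻¹) ^ k‖ ≤ 1 := by
    rw [norm_mul, norm_inv, Complex.norm_natCast]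
    have h3 : ‖∑ k ∈ range M, (u * (rou M m)⁻¹) ^ k‖ ≤ M := by
      refine (norm_sum_le _ _).trans ?_
      have : ∀ k ∈ range M, ‖(u * (rou M m)⁻¹) ^ k‖ = 1 := by
        intro k _
        rw [norm_pow, norm_mul, norm_inv, rou_norm, hu]
        simp
      rw [Finset.sum_congr rfl this]
      simp
    have hMp : (0 : ℝ) < M := by
      have : 0 < M := by omega
      exact_mod_cast this
    rw [inv_mul_le_iff₀ hMp, mul_one]
    exact h3
  calc ‖evL (rou M m) c‖ * (‖1 + rou M m * star u‖ / ‖(2 : ℂ)‖) ^ N₂ *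
        ‖(M : ℂ)⁻¹ * ∑ k ∈ range M, (u * (rou M m)⁻¹) ^ k‖
      ≤ ‖evL (rou M m) c‖ * (‖1 + rou M m * star u‖ / ‖(2 : ℂ)‖) ^ N₂ * 1 :=
        mul_le_mul_of_nonneg_left h2 (by positivity)
    _ = _ := by rw [mul_one, Complex.norm_two]

/-- the multiplier is small away from `u` -/
lemma mult_sq {v u : ℂ} (hv : ‖v‖ = 1) (hu : ‖u‖ = 1) :
    (‖1 + v * star u‖ / 2) ^ 2 = 1 - ‖v - u‖ ^ 2 / 4 := by
  have e1 : ‖v - u‖ = ‖1 - v * star u‖ := by
    have huu : star u * u = 1 := by
      rw [Complex.star_def, mul_comm, Complex.mul_conj, Complex.normSq_eq_norm_sq, hu]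
      simp
    have : v - u = -(1 - v * star u) * u := by
      linear_combination (-v) * huu
    rw [this, norm_mul, norm_neg, hu, mul_one]
  have e2 : ‖v * star u‖ = 1 := by rw [norm_mul, norm_star, hv, hu, one_mul]
  have h := parallelogram_law_with_norm ℝ (1 : ℂ) (v * star u)
  rw [e1, e2, norm_one] at *
  nlinarith

end Pool.Agent.U574.FC
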