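import Mathlib
import Pool.Agent.U574.FC.Disc
import Pool.Agent.U574.FC.Interp
import Pool.Agent.U574.FC.PP

/-!
A polynomial with integer coefficients which is small where a given function, subharmonic in the first
variable, is very negative.
-/

set_option autoImplicit false
set_option maxHeartbeats 1000000

open MeasureTheory Metric Set Filter Topology
open scoped ContDiff ComplexOrder

namespace Pool.Agent.U574.FC
open Pool.Agent.H805R2

lemma rou_near {M k : ℕ} (hM : 0 < M) (hk : 0 < k) (m : Fin (M * k)) :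
    ‖rou (M * k) m - rou M (m.divNat)‖ ≤ 2 * Real.pi / M := by
  have hM' : (0 : ℝ) < M := by exact_mod_cast hM
  have hk' : (0 : ℝ) < k := by exact_mod_cast hk
  set E := Complex.exp (2 * Real.pi * Complex.I / ((M * k : ℕ) : ℂ)) with hE
  have h1 : E ^ k = Complex.exp (2 * Real.pi * Complex.I / M) := by
    rw [hE, ← Complex.exp_nat_mul]
    congr 1
    push_cast
    have : (k : ℂ) ≠ 0 := by exact_mod_cast hk.ne'
    have : (M : ℂ) ≠ 0 := by exact_mod_cast hM.ne'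
    field_simp
  have h2 : rou (M * k) m = rou M (m.divNat) * E ^ ((m : ℕ) % k) := by
    unfold rou
    rw [← h1, ← hE, ← pow_mul, ← pow_add]
    congr 1
    rw [Fin.coe_divNat]
    exact (Nat.div_add_mod (m : ℕ) k).symm
  have h3 : E ^ ((m : ℕ) % k) =
      Complex.exp (Complex.I * ((((m : ℕ) % k : ℕ) : ℝ) * (2 * Real.pi / ((M * k : ℕ) : ℝ)) : ℝ)) := by
    rw [hE, ← Complex.exp_nat_mul]
    congr 1
    push_cast
    ring
  rw [h2]
  have h4 : rou M (m.divNat) * E ^ ((m : ℕ) % k) - rou M (m.divNat) =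
      rou M (m.divNat) * (E ^ ((m : ℕ) % k) - 1) := by ring
  rw [h4, norm_mul, rou_norm, one_mul, h3]
  refine (Real.norm_exp_I_mul_ofReal_sub_one_le).trans ?_
  rw [Real.norm_eq_abs, abs_of_nonneg (by positivity)]
  have h5 : (((m : ℕ) % k : ℕ) : ℝ) ≤ k := by exact_mod_cast (Nat.mod_lt _ hk).le
  calc (((m : ℕ) % k : ℕ) : ℝ) * (2 * Real.pi / ((M * k : ℕ) : ℝ))
      ≤ k * (2 * Real.pi / ((M * k : ℕ) : ℝ)) := mul_le_mul_of_nonneg_right h5 (by positivity)
    _ = 2 * Real.pi / M := by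
        push_cast
        field_simp

lemma two_pow_bound (n : ℕ) : (n : ℝ) * 2 ^ n ≤ Real.exp (2 * n) := by
  have h1 : (n : ℝ) ≤ 2 ^ n := by exact_mod_cast (Nat.lt_two_pow_self (n := n)).le
  have h2 : (4 : ℝ) ≤ Real.exp 2 := by
    have := Real.exp_one_gt_d9
    have h3 : Real.exp 2 = Real.exp 1 * Real.exp 1 := by rw [← Real.exp_add]; norm_num
    rw [h3]
    nlinarith
  calc (n : ℝ) * 2 ^ n ≤ 2 ^ n * 2 ^ n := mul_le_mul_of_nonneg_right h1 (by positivity)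
    _ = 4 ^ n := by rw [← mul_pow]; norm_num
    _ ≤ (Real.exp 2) ^ n := pow_le_pow_left₀ (by norm_num) h2 n
    _ = Real.exp (2 * n) := by rw [← Real.exp_nat_mul]; ring_nf

lemma sample_pts {u : Cn 2 → ℝ} (hu : ContDiff ℝ ∞ u) {τ : ℝ} (hτ : 0 < τ) (hτ1 : τ ≤ 1 / 100) (w : ℂ)
    (hpos : ∀ z : ℂ, ‖z‖ ≤ 1 - τ / 4 → 0 ≤ levi u (pp z w) (bas 0))
    (hneg : ∀ z : ℂ, ‖z‖ ≤ 1 - τ / 4 → u (pp z w) ≤ 0) :
    ∃ L : ℕ, ∀ (N₁ : ℕ) (B : ℝ), (L : ℝ) ≤ N₁ * τ / 100 → B * τ = N₁ →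
      ∃ (n : ℕ) (a : ℕ → ℂ), (∀ l, ‖a l‖ ≤ 1) ∧
        ((n : ℝ) ≤ N₁ * τ / 50 ∨ (n = N₁ ∧ τ ^ 4 / 5000 < ∫ z in ball (0 : ℂ) (1 - τ / 4), -u (pp z w))) ∧
        ∀ (c : Fin N₁ → ℂ) (z : ℂ), ‖z‖ ≤ 1 - τ → (∀ i < n, ‖cfL a i c‖ ≤ Real.exp (-(3 * B))) →
          ‖evL z c‖ ≤ Real.exp (-(2 * B)) + nmF c * Real.exp (B * (u (pp z w) + 3 * τ)) := by
  have key : ∀ (N₁ n : ℕ) (B : ℝ), B * τ = N₁ → n ≤ N₁ →
      (n : ℝ) * 2 ^ n * Real.exp (-(3 * B)) ≤ Real.exp (-(2 * B)) := by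
    intro N₁ n B hB hn
    have hB0 : 0 ≤ B := by
      by_contra hcon
      push Not at hcon
      have h1 := mul_neg_of_neg_of_pos hcon hτ
      have h2 : (0 : ℝ) ≤ N₁ := Nat.cast_nonneg _
      linarith
    calc (n : ℝ) * 2 ^ n * Real.exp (-(3 * B)) ≤ Real.exp (2 * n) * Real.exp (-(3 * B)) :=
          mul_le_mul_of_nonneg_right (two_pow_bound n) (Real.exp_nonneg _)
      _ = Real.exp (2 * n + -(3 * B)) := by rw [Real.exp_add]
      _ ≤ Real.exp (-(2 * B)) := by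
          apply Real.exp_le_exp.2
          have h1 : (n : ℝ) ≤ N₁ := by exact_mod_cast hn
          have h2 : B * τ ≤ B * (1 / 100) := mul_le_mul_of_nonneg_left hτ1 hB0
          linarith
  by_cases hgood : ∫ z in ball (0 : ℂ) (1 - τ / 4), -u (pp z w) ≤ τ ^ 4 / 5000
  · obtain ⟨L, hL⟩ := discretise hu (w • bas 1) (bas 0) hτ (by linarith) hpos hneg hgood
    refine ⟨L, fun N₁ B hLN hB => ?_⟩
    have hB0 : 0 ≤ B := by
      by_contra hcon
      push Not at hcon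
      have h1 := mul_neg_of_neg_of_pos hcon hτ
      have h2 : (0 : ℝ) ≤ N₁ := Nat.cast_nonneg _
      linarith
    obtain ⟨n, a, ha, hn, hp⟩ := hL B hB0
    have hn' : (n : ℝ) ≤ N₁ * τ / 50 := by
      refine hn.trans ?_
      have h1 : B * (21 * (τ ^ 4 / 5000) / τ ^ 2) = (B * τ) * τ * (21 / 5000) := by
        field_simp
      rw [h1, hB]
      have h2 : 0 ≤ (N₁ : ℝ) * τ := by positivity
      nlinarith
    have hnN : n ≤ N₁ := by
      have h2 : (N₁ : ℝ) * τ / 50 ≤ N₁ := by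
        have h3 : (0 : ℝ) ≤ N₁ := Nat.cast_nonneg _
        nlinarith
      exact_mod_cast hn'.trans h2
    refine ⟨n, a, ha, Or.inl hn', ?_⟩
    intro c z hz hc
    have h1 := newton_le ha c (hz.trans (by linarith)) n hc
    refine h1.trans (add_le_add (key N₁ n B hB hnN) ?_)
    rw [mul_comm]
    apply mul_le_mul_of_nonneg_left _ (nmF_nonneg c)
    refine (hp z hz).trans (Real.exp_le_exp.2 ?_)
    have h3 : (n : ℝ) * Real.log 2 ≤ B * τ := by
      have h4 : Real.log 2 ≤ 1 := by linarith [Real.log_two_lt_d9]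
      have h5 : (n : ℝ) ≤ N₁ := by exact_mod_cast hnN
      rw [hB]
      have h6 : (0 : ℝ) ≤ n := Nat.cast_nonneg _
      nlinarith
    have h4 : 2 * (τ ^ 4 / 5000) / τ ^ 2 ≤ τ := by
      have : 2 * (τ ^ 4 / 5000) / τ ^ 2 = τ ^ 2 * (2 / 5000) := by field_simp
      rw [this]
      nlinarith
    have h5 : B * (2 * (τ ^ 4 / 5000) / τ ^ 2) ≤ B * τ := mul_le_mul_of_nonneg_left h4 hB0
    have h6 : u (w • bas 1 + z • bas 0) = u (pp z w) := rfl
    rw [h6]
    linarith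
  · push Not at hgood
    refine ⟨0, fun N₁ B _ hB => ⟨N₁, fun _ => 0, by simp, Or.inr ⟨rfl, hgood⟩, ?_⟩⟩
    intro c z hz hc
    have h1 := newton (fun _ => 0) c z N₁
    rw [evL_FL_N, mul_zero, add_zero] at h1
    have h2 := key N₁ N₁ B hB le_rfl
    have h3 : ‖evL z c‖ ≤ N₁ * 2 ^ N₁ * Real.exp (-(3 * B)) := by
      rw [h1]
      refine (norm_sum_le _ _).trans ?_
      calc ∑ i ∈ Finset.range N₁, ‖cfL (fun _ => 0) i c * ∏ l ∈ Finset.range i, (z - 0)‖
          ≤ ∑ i ∈ Finset.range N₁, 2 ^ N₁ * Real.exp (-(3 * B)) := by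
            apply Finset.sum_le_sum
            intro i hi
            rw [norm_mul, norm_prod, mul_comm]
            apply mul_le_mul _ (hc i (Finset.mem_range.1 hi)) (norm_nonneg _) (by positivity)
            simp only [sub_zero, Finset.prod_const, Finset.card_range]
            calc ‖z‖ ^ i ≤ 1 := pow_le_one₀ (norm_nonneg _) (by linarith)
              _ ≤ 2 ^ N₁ := one_le_pow₀ (by norm_num)
        _ = N₁ * 2 ^ N₁ * Real.exp (-(3 * B)) := by simp; ring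
    have h4 : 0 ≤ nmF c * Real.exp (B * (u (pp z w) + 3 * τ)) :=
      mul_nonneg (nmF_nonneg c) (Real.exp_nonneg _)
    linarith

/-- choice of a large degree -/
lemma exists_large (C : ℝ) (n0 : ℕ) (x : ℝ) : ∃ N : ℕ, n0 ≤ N ∧ x ≤ N ∧ 4 * N * (C * N) ^ 2 ≤ Real.exp N := by
  have h1 := (Real.tendsto_pow_mul_exp_neg_atTop_nhds_zero 3).comp tendsto_natCast_atTop_atTop
  have h2 := h1.const_mul (4 * C ^ 2)
  rw [mul_zero] at h2
  have h3 := h2.eventually (gt_mem_nhds one_pos)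
  obtain ⟨N, hN1, hN2, hN3⟩ := (h3.and ((eventually_ge_atTop n0).and
    (tendsto_natCast_atTop_atTop.eventually (eventually_ge_atTop x)))).exists
  refine ⟨N, hN2, hN3, ?_⟩
  simp only [Function.comp_apply, Real.exp_neg] at hN1
  rw [← mul_assoc, mul_inv_lt_iff₀ (Real.exp_pos _), one_mul] at hN1
  have : 4 * (N : ℝ) * (C * N) ^ 2 = 4 * C ^ 2 * (N : ℝ) ^ 3 := by ring
  rw [this]
  exact hN1.le

theorem core {u : Cn 2 → ℝ} (hu : ContDiff ℝ ∞ u) {τ : ℝ} (hτ : 0 < τ) (hτ1 : τ ≤ 1 / 100) (ws : ℂ)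
    {M : ℕ} (hM : 0 < M) {δ : ℝ} (hδ : 0 < δ) (hMδ : 2 * Real.pi / M ≤ δ)
    (hpos : ∀ z y : ℂ, ‖z‖ ≤ 1 - τ / 4 → ‖y‖ = 1 → 0 ≤ levi u (pp z (ws * y)) (bas 0))
    (hneg : ∀ z y : ℂ, ‖z‖ ≤ 1 - τ / 4 → ‖y‖ = 1 → u (pp z (ws * y)) ≤ 0)
    (hlow : ∀ z y : ℂ, ‖z‖ ≤ 1 - τ / 4 → ‖y‖ = 1 → -1 ≤ u (pp z (ws * y)))
    (huc : ∀ z y y' : ℂ, ‖z‖ ≤ 1 - τ / 4 → ‖y‖ = 1 → ‖y'‖ = 1 → ‖y - y'‖ ≤ 2 * δ →
      u (pp z (ws * y)) ≤ u (pp z (ws * y')) + τ)
    (havg : ∑ α ∈ Finset.range M, ∫ z in ball (0 : ℂ) (1 - τ / 4), -u (pp z (ws * rou M α)) ≤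
      τ ^ 5 / 1000000 * M) :
    ∃ (B : ℝ) (N₁ N₂ : ℕ) (t : Fin N₁ × Fin N₂ → ℤ), 1 / τ ≤ B ∧ B * τ = N₁ ∧ t ≠ 0 ∧
      (∀ p, |(t p : ℝ)| ≤ Real.exp (B * τ)) ∧ (N₁ : ℝ) * N₂ ≤ Real.exp (B * τ) ∧
      ∀ z y : ℂ, ‖z‖ ≤ 1 - τ → ‖y‖ = 1 →
        ‖evL z (slc t y)‖ ≤ Real.exp (B * (u (pp z (ws * y)) + 7 * τ)) := by
  have hM' : (0 : ℝ) < M := by exact_mod_cast hM
  set I : ℕ → ℝ := fun α => ∫ z in ball (0 : ℂ) (1 - τ / 4), -u (pp z (ws * rou M α)) with hI
  have hI0 : ∀ α, 0 ≤ I α := by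
    intro α
    apply setIntegral_nonneg measurableSet_ball
    intro z hz
    rw [mem_ball_zero_iff] at hz
    have := hneg z (rou M α) hz.le (rou_norm M α)
    linarith
  choose L hL using fun α : ℕ => sample_pts hu hτ hτ1 (ws * rou M α)
    (fun z hz => hpos z _ hz (rou_norm M α)) (fun z hz => hneg z _ hz (rou_norm M α))
  -- the degree
  set C : ℝ := 32 / (τ * δ ^ 2) + M with hC
  obtain ⟨N₁, hN1a, hN1b, hN1c⟩ := exists_large C 1 (100 * (∑ α ∈ Finset.range M, L α : ℕ) / τ)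
  have hN1 : (1 : ℝ) ≤ N₁ := by exact_mod_cast hN1a
  set B : ℝ := N₁ / τ with hB
  have hBτ : B * τ = N₁ := by rw [hB]; field_simp
  have hB0 : 0 < B := by positivity
  have hBN : (N₁ : ℝ) ≤ B / 100 := by
    rw [← hBτ]
    have := mul_le_mul_of_nonneg_left hτ1 hB0.le
    linarith
  have hLN : ∀ α ∈ Finset.range M, (L α : ℝ) ≤ N₁ * τ / 100 := by
    intro α hα
    have h1 : (L α : ℝ) ≤ (∑ α ∈ Finset.range M, L α : ℕ) := by
      exact_mod_cast Finset.single_le_sum (f := L) (fun _ _ => Nat.zero_le _) hα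
    rw [div_le_iff₀ hτ] at hN1b
    linarith
  have hex : ∀ α : Fin M, ∃ (n : ℕ) (a : ℕ → ℂ), (∀ l, ‖a l‖ ≤ 1) ∧
        ((n : ℝ) ≤ N₁ * τ / 50 ∨ (n = N₁ ∧ τ ^ 4 / 5000 < I α)) ∧
        ∀ (c : Fin N₁ → ℂ) (z : ℂ), ‖z‖ ≤ 1 - τ → (∀ i < n, ‖cfL a i c‖ ≤ Real.exp (-(3 * B))) →
          ‖evL z c‖ ≤ Real.exp (-(2 * B)) + nmF c * Real.exp (B * (u (pp z (ws * rou M α)) + 3 * τ)) :=
    fun α => hL α N₁ B (hLN α (Finset.mem_range.2 α.2)) hBτ
  choose n a ha hn hna using hex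
  -- counting
  have hcount : (∑ α, n α : ℝ) ≤ M * (N₁ * τ / 40) := by
    have h1 : ∀ α : Fin M, (n α : ℝ) ≤ N₁ * τ / 50 + N₁ * (I α / (τ ^ 4 / 5000)) := by
      intro α
      rcases hn α with h | ⟨h, h'⟩
      · have : 0 ≤ N₁ * (I α / (τ ^ 4 / 5000)) := by
          have := hI0 α
          positivity
        linarith
      · have h2 : 1 ≤ I α / (τ ^ 4 / 5000) := by
          rw [le_div_iff₀ (by positivity)]
          linarith
        rw [h]
        have h3 : 0 ≤ (N₁ : ℝ) * τ / 50 := by positivity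
        have h4 := mul_le_mul_of_nonneg_left h2 (by positivity : (0 : ℝ) ≤ N₁)
        linarith
    calc (∑ α, n α : ℝ) ≤ ∑ α : Fin M, (N₁ * τ / 50 + N₁ * (I α / (τ ^ 4 / 5000))) :=
          Finset.sum_le_sum fun α _ => h1 α
      _ = M * (N₁ * τ / 50) + N₁ * ((∑ α : Fin M, I α) / (τ ^ 4 / 5000)) := by
          rw [Finset.sum_add_distrib, ← Finset.mul_sum, Finset.sum_div]
          simp
      _ ≤ M * (N₁ * τ / 50) + N₁ * (τ * M / 200) := by
          have h2 : (∑ α : Fin M, I α) ≤ τ ^ 5 / 1000000 * M := by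
            rw [Fin.sum_univ_eq_sum_range I M]
            exact havg
          have h3 : (∑ α : Fin M, I α) / (τ ^ 4 / 5000) ≤ τ * M / 200 := by
            rw [div_le_iff₀ (by positivity)]
            calc (∑ α : Fin M, I α) ≤ τ ^ 5 / 1000000 * M := h2
              _ = τ * M / 200 * (τ ^ 4 / 5000) := by ring
          have := mul_le_mul_of_nonneg_left h3 (by positivity : (0 : ℝ) ≤ N₁)
          linarith
      _ = M * (N₁ * τ / 40) := by ring
  -- the number of samples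
  set q : ℕ := ⌈32 * B / (δ ^ 2 * M)⌉₊ with hq
  have hq0 : 0 < q := Nat.ceil_pos.2 (by positivity)
  have hq1 : 32 * B / (δ ^ 2 * M) ≤ q := Nat.le_ceil _
  have hq2 : (q : ℝ) ≤ 32 * B / (δ ^ 2 * M) + 1 := (Nat.ceil_lt_add_one (by positivity)).le
  set N₂ : ℕ := M * q with hN₂
  have hN20 : 0 < N₂ := Nat.mul_pos hM hq0
  have hN2a : 32 * B / δ ^ 2 ≤ N₂ := by
    rw [hN₂]
    push_cast
    calc 32 * B / δ ^ 2 = (M : ℝ) * (32 * B / (δ ^ 2 * M)) := by field_simp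
      _ ≤ (M : ℝ) * q := mul_le_mul_of_nonneg_left hq1 hM'.le
  have hN2b : (N₂ : ℝ) ≤ C * N₁ := by
    rw [hN₂]
    push_cast
    calc (M : ℝ) * q ≤ M * (32 * B / (δ ^ 2 * M) + 1) := mul_le_mul_of_nonneg_left hq2 hM'.le
      _ = 32 / (τ * δ ^ 2) * N₁ + M := by rw [hB]; field_simp
      _ ≤ 32 / (τ * δ ^ 2) * N₁ + M * N₁ := by
          have : (M : ℝ) * 1 ≤ M * N₁ := mul_le_mul_of_nonneg_left hN1 hM'.le
          linarith
      _ = C * N₁ := by rw [hC]; ring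
  have hN2' : (1 : ℝ) ≤ N₂ := by exact_mod_cast hN20
  set Q : ℝ := ((N₁ * N₂ : ℕ) : ℝ) with hQ
  have hQ1 : 1 ≤ Q := by
    rw [hQ]
    push_cast
    have := mul_le_mul hN1 hN2' zero_le_one (by positivity : (0 : ℝ) ≤ N₁)
    linarith
  have hbig : 4 * (N₁ : ℝ) * (N₂ : ℝ) ^ 2 ≤ Real.exp N₁ := by
    refine le_trans ?_ hN1c
    have : (N₂ : ℝ) ^ 2 ≤ (C * N₁) ^ 2 := by gcongr
    exact mul_le_mul_of_nonneg_left this (by positivity)
  have hQe : 4 * N₂ * Q ≤ Real.exp N₁ := by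
    rw [hQ]
    push_cast
    calc 4 * (N₂ : ℝ) * (N₁ * N₂) = 4 * (N₁ : ℝ) * (N₂ : ℝ) ^ 2 := by ring
      _ ≤ _ := hbig
  have hQe' : 4 * Q ≤ Real.exp N₁ := by
    refine le_trans ?_ hQe
    have := mul_le_mul_of_nonneg_left hN2' (by positivity : 0 ≤ 4 * Q)
    linarith
  -- Siegel
  have hk2 : 0 < 2 * q := by omega
  set n' : Fin (M * (2 * q)) → ℕ := fun m => n m.divNat with hn'
  have hsum' : ((∑ m, n' m : ℕ) : ℝ) ≤ N₁ * N₂ * τ / 20 := by
    have h1 : ∑ m, n' m = ∑ p : Fin M × Fin (2 * q), n p.1 := by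
      rw [← finProdFinEquiv.symm.sum_comp (fun p : Fin M × Fin (2 * q) => n p.1)]
      rfl
    rw [h1, Fintype.sum_prod_type]
    simp only [Finset.sum_const, Finset.card_univ, Fintype.card_fin, smul_eq_mul, ← Finset.mul_sum]
    push_cast
    calc 2 * (q : ℝ) * ∑ α, (n α : ℝ) ≤ 2 * q * (M * (N₁ * τ / 40)) :=
          mul_le_mul_of_nonneg_left hcount (by positivity)
      _ = N₁ * (M * q) * τ / 20 := by ring
      _ = N₁ * N₂ * τ / 20 := by rw [hN₂]; push_cast; ring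
  have hR : ((2 * ∑ m, n' m : ℕ) : ℝ) ≤ Q * τ / 10 := by
    push_cast
    rw [hQ]
    push_cast at hsum' ⊢
    linarith
  have hRlt : 2 * ∑ m, n' m < N₁ * N₂ := by
    have : ((2 * ∑ m, n' m : ℕ) : ℝ) < ((N₁ * N₂ : ℕ) : ℝ) := by
      refine hR.trans_lt ?_
      rw [← hQ]
      have := mul_le_mul_of_nonneg_left hτ1 (by positivity : 0 ≤ Q)
      linarith
    exact_mod_cast this
  obtain ⟨t, ht0, htX, htc⟩ := siegel n' (fun m => a m.divNat) (fun m l => ha _ l)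
    (fun m : Fin (M * (2 * q)) => rou (M * (2 * q)) m) (fun m => (rou_norm _ _).le) (Real.exp (4 * B))
    (Real.exp_pos _) hRlt
  set X : ℝ := (((N₁ * N₂ : ℕ) : ℝ) * (Real.exp (4 * B) * 2 ^ N₁ + 1)) ^
        (((2 * ∑ m, n' m : ℕ) : ℝ) / (((N₁ * N₂ : ℕ) : ℝ) - ((2 * ∑ m, n' m : ℕ) : ℝ))) with hX
  have h2N : (2 : ℝ) ^ N₁ ≤ Real.exp N₁ := by
    have h1 : (2 : ℝ) ≤ Real.exp 1 := by linarith [Real.exp_one_gt_d9]
    calc (2 : ℝ) ^ N₁ ≤ (Real.exp 1) ^ N₁ := pow_le_pow_left₀ (by norm_num) h1 _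
      _ = Real.exp N₁ := by rw [← Real.exp_nat_mul, mul_one]
  have hXle : X ≤ Real.exp (B * τ) := by
    have hbase : ((N₁ * N₂ : ℕ) : ℝ) * (Real.exp (4 * B) * 2 ^ N₁ + 1) ≤ Real.exp (6 * B) := by
      have h1 : Real.exp (4 * B) * 2 ^ N₁ + 1 ≤ 2 * (Real.exp (4 * B) * Real.exp N₁) := by
        have h3 : 1 ≤ Real.exp (4 * B) * Real.exp N₁ := by
          rw [← Real.exp_add]
          exact Real.one_le_exp (by positivity)
        have h4 : Real.exp (4 * B) * 2 ^ N₁ ≤ Real.exp (4 * B) * Real.exp N₁ :=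
          mul_le_mul_of_nonneg_left h2N (Real.exp_nonneg _)
        linarith
      calc ((N₁ * N₂ : ℕ) : ℝ) * (Real.exp (4 * B) * 2 ^ N₁ + 1)
          ≤ Q * (2 * (Real.exp (4 * B) * Real.exp N₁)) := mul_le_mul_of_nonneg_left h1 (by positivity)
        _ = (2 * Q) * (Real.exp (4 * B) * Real.exp N₁) := by ring
        _ ≤ Real.exp N₁ * (Real.exp (4 * B) * Real.exp N₁) :=
            mul_le_mul_of_nonneg_right (by linarith) (by positivity)
        _ = Real.exp (N₁ + (4 * B + N₁)) := by rw [Real.exp_add, Real.exp_add]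
        _ ≤ Real.exp (6 * B) := Real.exp_le_exp.2 (by linarith)
    have hden : 0 < Q - ((2 * ∑ m, n' m : ℕ) : ℝ) := by
      have : ((2 * ∑ m, n' m : ℕ) : ℝ) < ((N₁ * N₂ : ℕ) : ℝ) := by exact_mod_cast hRlt
      rw [hQ]
      linarith
    have he0 : 0 ≤ ((2 * ∑ m, n' m : ℕ) : ℝ) / (Q - ((2 * ∑ m, n' m : ℕ) : ℝ)) :=
      div_nonneg (Nat.cast_nonneg _) hden.le
    have he1 : ((2 * ∑ m, n' m : ℕ) : ℝ) / (Q - ((2 * ∑ m, n' m : ℕ) : ℝ)) ≤ τ / 6 := by
      rw [div_le_iff₀ hden]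
      have h1 : (1 + τ / 6) * ((2 * ∑ m, n' m : ℕ) : ℝ) ≤ (1 + τ / 6) * (Q * τ / 10) :=
        mul_le_mul_of_nonneg_left hR (by positivity)
      have h2 : (1 + τ / 6) * (Q * τ / 10) ≤ τ / 6 * Q := by
        have h3 : 0 ≤ Q * τ := by positivity
        have h4 := mul_le_mul_of_nonneg_left hτ1 h3
        have e3 : (1 + τ / 6) * (Q * τ / 10) = Q * τ / 10 + Q * τ * τ / 60 := by ring
        rw [e3]
        linarith
      have e1 : τ / 6 * (Q - ((2 * ∑ m, n' m : ℕ) : ℝ)) = τ / 6 * Q - τ / 6 * ((2 * ∑ m, n' m : ℕ) : ℝ) := by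
        ring
      have e2 : (1 + τ / 6) * ((2 * ∑ m, n' m : ℕ) : ℝ) =
          ((2 * ∑ m, n' m : ℕ) : ℝ) + τ / 6 * ((2 * ∑ m, n' m : ℕ) : ℝ) := by ring
      rw [e1]
      rw [e2] at h1
      linarith
    calc X ≤ (Real.exp (6 * B)) ^ (((2 * ∑ m, n' m : ℕ) : ℝ) / (Q - ((2 * ∑ m, n' m : ℕ) : ℝ))) := by
          rw [hX]
          exact Real.rpow_le_rpow (by positivity) hbase he0
      _ = Real.exp (6 * B * (((2 * ∑ m, n' m : ℕ) : ℝ) / (Q - ((2 * ∑ m, n' m : ℕ) : ℝ)))) := by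
          rw [← Real.exp_mul]
      _ ≤ Real.exp (B * τ) := by
          apply Real.exp_le_exp.2
          have := mul_le_mul_of_nonneg_left he1 (by positivity : 0 ≤ 6 * B)
          linarith
  have hcf : ∀ m, ∀ i < n' m, ‖cfL (a m.divNat) i (slc t (rou (M * (2 * q)) m))‖ ≤ Real.exp (-(3 * B)) := by
    intro m i hi
    refine (htc m i hi).trans ?_
    rw [← hQ, div_le_iff₀ (Real.exp_pos _), ← Real.exp_add]
    calc 2 * (Q * X) ≤ 2 * (Q * Real.exp (B * τ)) := by gcongr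
      _ = (2 * Q) * Real.exp (B * τ) := by ring
      _ ≤ Real.exp N₁ * Real.exp (B * τ) := mul_le_mul_of_nonneg_right (by linarith) (Real.exp_nonneg _)
      _ = Real.exp (N₁ + B * τ) := by rw [Real.exp_add]
      _ ≤ Real.exp (-(3 * B) + 4 * B) := by
          apply Real.exp_le_exp.2
          rw [hBτ]
          linarith
  have hPle : ∀ z y : ℂ, ‖z‖ ≤ 1 → ‖y‖ ≤ 1 → ‖evL z (slc t y)‖ ≤ Q * Real.exp (B * τ) := by
    intro z y hz hy
    refine (P_le t htX hz hy).trans ?_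
    rw [hQ]
    push_cast
    calc (N₁ : ℝ) * (N₂ * X) = N₁ * N₂ * X := by ring
      _ ≤ N₁ * N₂ * Real.exp (B * τ) := mul_le_mul_of_nonneg_left hXle (by positivity)
  refine ⟨B, N₁, N₂, t, ?_, hBτ, ht0, fun p => (htX p).trans hXle, ?_, ?_⟩
  · rw [hB]
    exact div_le_div_of_nonneg_right hN1 hτ.le
  · rw [hBτ]
    have h1 : (N₁ : ℝ) * N₂ = Q := by rw [hQ]; push_cast; ring
    rw [h1]
    linarith
  · intro z u0 hz hu0
    have hz1 : ‖z‖ ≤ 1 := by linarith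
    have hz4 : ‖z‖ ≤ 1 - τ / 4 := by linarith
    set U := u (pp z (ws * u0)) with hU
    have hUlow : -1 ≤ U := hlow z u0 hz4 hu0
    have hN3 : 2 * N₂ ≤ M * (2 * q) := by
      rw [hN₂]
      exact le_of_eq (by ring)
    rw [evL_slc]
    refine (sample_bound hN20 hN3 _ hu0).trans ?_
    have hterm : ∀ m ∈ Finset.range (M * (2 * q)),
        ‖evL (rou (M * (2 * q)) m) (fun k : Fin N₂ => ∑ j : Fin N₁, (t (j, k) : ℂ) * z ^ (j : ℕ))‖ *
          (‖1 + rou (M * (2 * q)) m * star u0‖ / 2) ^ N₂ ≤ 2 * Q * Real.exp (B * (U + 6 * τ)) := by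
      intro m hm
      rw [← evL_slc]
      set ym := rou (M * (2 * q)) m with hym
      have hyn : ‖ym‖ = 1 := rou_norm _ _
      have hsq := mult_sq hyn hu0
      have hx0 : 0 ≤ ‖1 + ym * star u0‖ / 2 := by positivity
      by_cases hnear : ‖ym - u0‖ ≤ δ
      · have hx1 : ‖1 + ym * star u0‖ / 2 ≤ 1 := by
          have : (‖1 + ym * star u0‖ / 2) ^ 2 ≤ 1 := by
            rw [hsq]
            have := sq_nonneg ‖ym - u0‖
            linarith
          exact (pow_le_one_iff_of_nonneg hx0 two_ne_zero).1 this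
        have hx2 : (‖1 + ym * star u0‖ / 2) ^ N₂ ≤ 1 := pow_le_one₀ hx0 hx1
        set mf : Fin (M * (2 * q)) := ⟨m, Finset.mem_range.1 hm⟩ with hmf
        have h1 := hna mf.divNat (slc t ym) z hz (hcf mf)
        have h2 := rou_near hM hk2 mf
        have h3 : ‖rou M (mf.divNat) - u0‖ ≤ 2 * δ := by
          have : rou M (mf.divNat) - u0 = (ym - u0) - (ym - rou M (mf.divNat)) := by ring
          rw [this]
          refine (norm_sub_le _ _).trans ?_
          have : ‖ym - rou M (mf.divNat)‖ ≤ 2 * Real.pi / M := h2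
          linarith
        have h4 := huc z _ u0 hz4 (rou_norm M mf.divNat) hu0 h3
        have h5 : nmF (slc t ym) ≤ Q * Real.exp (2 * (B * τ)) := by
          refine (nmF_slc t htX hyn.le).trans ?_
          rw [hQ]
          push_cast
          calc (N₁ : ℝ) * (N₂ * X) * 2 ^ N₁ ≤ N₁ * (N₂ * Real.exp (B * τ)) * Real.exp N₁ := by
                apply mul_le_mul _ h2N (by positivity) (by positivity)
                gcongr
            _ = N₁ * N₂ * (Real.exp (B * τ) * Real.exp (B * τ)) := by rw [hBτ]; ring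
            _ = N₁ * N₂ * Real.exp (2 * (B * τ)) := by rw [← Real.exp_add]; ring_nf
        have h6 : ‖evL z (slc t ym)‖ ≤ 2 * Q * Real.exp (B * (U + 6 * τ)) := by
          refine h1.trans ?_
          have h7 : nmF (slc t ym) * Real.exp (B * (u (pp z (ws * rou M mf.divNat)) + 3 * τ)) ≤
              Q * Real.exp (B * (U + 6 * τ)) := by
            calc nmF (slc t ym) * Real.exp (B * (u (pp z (ws * rou M mf.divNat)) + 3 * τ))
                ≤ (Q * Real.exp (2 * (B * τ))) * Real.exp (B * (U + τ + 3 * τ)) := by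
                  apply mul_le_mul h5 _ (Real.exp_nonneg _) (by positivity)
                  apply Real.exp_le_exp.2
                  apply mul_le_mul_of_nonneg_left _ hB0.le
                  linarith
              _ = Q * Real.exp (B * (U + 6 * τ)) := by
                  rw [mul_assoc, ← Real.exp_add]
                  congr 2
                  ring
          have h8 : Real.exp (-(2 * B)) ≤ Q * Real.exp (B * (U + 6 * τ)) := by
            calc Real.exp (-(2 * B)) ≤ Real.exp (B * (U + 6 * τ)) := by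
                  apply Real.exp_le_exp.2
                  have : B * (-2) ≤ B * (U + 6 * τ) := mul_le_mul_of_nonneg_left (by linarith) hB0.le
                  linarith
              _ = 1 * Real.exp (B * (U + 6 * τ)) := (one_mul _).symm
              _ ≤ _ := mul_le_mul_of_nonneg_right hQ1 (Real.exp_nonneg _)
          linarith
        calc ‖evL z (slc t ym)‖ * (‖1 + ym * star u0‖ / 2) ^ N₂ ≤ ‖evL z (slc t ym)‖ * 1 :=
              mul_le_mul_of_nonneg_left hx2 (norm_nonneg _)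
          _ ≤ _ := by rw [mul_one]; exact h6
      · push Not at hnear
        have h1 : (‖1 + ym * star u0‖ / 2) ^ 2 ≤ (Real.exp (-(δ ^ 2 / 8))) ^ 2 := by
          rw [hsq, ← Real.exp_nat_mul]
          have h2 : δ ^ 2 ≤ ‖ym - u0‖ ^ 2 := by gcongr
          have h3 := Real.add_one_le_exp (((2 : ℕ) : ℝ) * -(δ ^ 2 / 8))
          push_cast at h3 ⊢
          linarith
        have h2 : ‖1 + ym * star u0‖ / 2 ≤ Real.exp (-(δ ^ 2 / 8)) :=
          (pow_le_pow_iff_left₀ hx0 (Real.exp_nonneg _) two_ne_zero).1 h1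
        have h3 : (‖1 + ym * star u0‖ / 2) ^ N₂ ≤ Real.exp (-(4 * B)) := by
          calc (‖1 + ym * star u0‖ / 2) ^ N₂ ≤ (Real.exp (-(δ ^ 2 / 8))) ^ N₂ :=
                pow_le_pow_left₀ hx0 h2 _
            _ = Real.exp (N₂ * -(δ ^ 2 / 8)) := by rw [← Real.exp_nat_mul]
            _ ≤ Real.exp (-(4 * B)) := by
                apply Real.exp_le_exp.2
                rw [div_le_iff₀ (by positivity)] at hN2a
                linarith
        calc ‖evL z (slc t ym)‖ * (‖1 + ym * star u0‖ / 2) ^ N₂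
            ≤ (Q * Real.exp (B * τ)) * Real.exp (-(4 * B)) :=
              mul_le_mul (hPle z ym hz1 hyn.le) h3 (by positivity) (by positivity)
          _ = Q * Real.exp (B * τ + -(4 * B)) := by rw [mul_assoc, ← Real.exp_add]
          _ ≤ Q * Real.exp (B * (U + 6 * τ)) := by
              apply mul_le_mul_of_nonneg_left _ (by positivity)
              apply Real.exp_le_exp.2
              have : B * (τ - 4) ≤ B * (U + 6 * τ) := mul_le_mul_of_nonneg_left (by linarith) hB0.le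
              linarith
          _ ≤ 2 * Q * Real.exp (B * (U + 6 * τ)) := by
              apply mul_le_mul_of_nonneg_right _ (Real.exp_nonneg _)
              linarith
    refine (Finset.sum_le_sum hterm).trans ?_
    rw [Finset.sum_const, Finset.card_range, nsmul_eq_mul]
    have e1 : (((M * (2 * q) : ℕ) : ℝ)) = 2 * N₂ := by
      rw [hN₂]
      push_cast
      ring
    rw [e1]
    calc 2 * (N₂ : ℝ) * (2 * Q * Real.exp (B * (U + 6 * τ))) = (4 * N₂ * Q) * Real.exp (B * (U + 6 * τ)) := by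
          ring
      _ ≤ Real.exp N₁ * Real.exp (B * (U + 6 * τ)) := mul_le_mul_of_nonneg_right hQe (Real.exp_nonneg _)
      _ = Real.exp (B * (U + 7 * τ)) := by
          rw [← Real.exp_add, ← hBτ]
          congr 1
          ring

end Pool.Agent.U574.FC
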