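import Mathlib
import Pool.Agent.U574.FC.Tools

/-!
Comparison of weighted Monge-Ampère masses with the right-hand side measure, and smooth approximants from
above of a function of class `F`.
-/

set_option autoImplicit false
set_option maxHeartbeats 1000000

open MeasureTheory Metric Set Filter Topology
open scoped ContDiff ComplexOrder

namespace Pool.Agent.U574.FC
open Pool.Agent.H805R2

/-- Lebesgue measure of the unit disc times the Dirac mass at `0` -/
noncomputable def mu0 : Measure (Cn 2) :=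
  ((volume : Measure ℂ).restrict (ball 0 1)).map fun z : ℂ => pp z 0

lemma int_mu0 {c : ℝ} (hc : 0 ≤ c) {f : Cn 2 → ℝ} (hf : Continuous f) :
    ∫ x, f x ∂(ENNReal.ofReal c • mu0) = c * ∫ z in ball (0 : ℂ) 1, f (pp z 0) := by
  rw [integral_smul_measure, ENNReal.toReal_ofReal hc, smul_eq_mul, mu0,
    integral_map pp_zero_cont.measurable.aemeasurable hf.aestronglyMeasurable]

/-- comparison of weighted masses -/
theorem cmp {a b h : Cn 2 → ℝ} (ha : SP a) (hb : ContDiffOn ℝ ∞ b Om) {C : Set (Cn 2)} (hC : IsCompact C)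
    (hCO : C ⊆ Om) (hbp : ∀ x ∈ C, (hess b x).PosSemidef) (hh : SP h) (hh0 : ∀ x ∈ Om, h x ≤ 0)
    (hab : ∀ x ∈ Om, x ∉ C → a x ≤ b x) {K : Set (Cn 2)} (hK : IsCompact K) (hKC : K ⊆ C)
    {η : ℝ} (hη : 0 < η) (hKab : ∀ x ∈ K, b x + η < a x) :
    ∫ x in K, (-h x) * Hd a x ≤ ∫ x in C, (-h x) * Hd b x := by
  obtain ⟨K1, hK1, hCK1, hK1O⟩ := exists_compact_between hC Om_open hCO
  obtain ⟨χ, hχs, hχc, hχO, hχ1, hχ01⟩ := cutoff hK1 Om_open hK1O
  set A : Cn 2 → ℝ := fun x => χ x * a x with hA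
  set B : Cn 2 → ℝ := fun x => χ x * b x with hB
  set H : Cn 2 → ℝ := fun x => χ x * h x with hH
  have hAs : ContDiff ℝ ∞ A := cutoff_mul_smooth Om_open hχs ha.sm hχO
  have hBs : ContDiff ℝ ∞ B := cutoff_mul_smooth Om_open hχs hb hχO
  have hHs : ContDiff ℝ ∞ H := cutoff_mul_smooth Om_open hχs hh.sm hχO
  have hnb : ∀ x ∈ C, ∀ᶠ y in 𝓝 x, y ∈ K1 := by
    intro x hx
    filter_upwards [isOpen_interior.mem_nhds (hCK1 hx)] with y hy
    exact interior_subset hy
  have hAe : ∀ x ∈ C, A =ᶠ[𝓝 x] a := fun x hx => by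
    filter_upwards [hnb x hx] with y hy
    simp only [hA, hχ1 y hy, one_mul]
  have hBe : ∀ x ∈ C, B =ᶠ[𝓝 x] b := fun x hx => by
    filter_upwards [hnb x hx] with y hy
    simp only [hB, hχ1 y hy, one_mul]
  have hHe : ∀ x ∈ C, H =ᶠ[𝓝 x] h := fun x hx => by
    filter_upwards [hnb x hx] with y hy
    simp only [hH, hχ1 y hy, one_mul]
  set ψ := glue η B A with hψ
  have hψs : ContDiff ℝ ∞ ψ := glue_smooth η hBs hAs
  have hoff : ∀ x, x ∉ C → ψ x = B x := by
    intro x hx
    apply glue_of_le hη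
    by_cases hxt : x ∈ tsupport χ
    · simp only [hA, hB]
      exact mul_le_mul_of_nonneg_left (hab x (hχO hxt) hx) (hχ01 x).1
    · simp only [hA, hB, image_eq_zero_of_notMem_tsupport hxt, zero_mul, le_refl]
  have hBp : ∀ x ∈ C, (hess B x).PosSemidef := fun x hx => by
    rw [hess_congr (hBe x hx)]
    exact hbp x hx
  have hAp : ∀ x ∈ C, (hess A x).PosSemidef := fun x hx => by
    rw [hess_congr (hAe x hx)]
    exact ha.psd x (hCO hx)
  have hHp : ∀ x ∈ C, (hess H x).PosSemidef := fun x hx => by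
    rw [hess_congr (hHe x hx)]
    exact hh.psd x (hCO hx)
  have hψp : ∀ x ∈ C, (hess ψ x).PosSemidef := fun x hx =>
    glue_psd hη hBs hAs x (hBp x hx) (hAp x hx)
  have key := compare_on B ψ H hBs hψs hHs C hC hoff (fun x => le_glue_left hη B A x) hBp hψp hHp
  have hcH : Continuous fun x => (-H x) * Hd ψ x := hHs.continuous.neg.mul (Hd_cont hψs)
  have e1 : ∫ x in K, (-h x) * Hd a x = ∫ x in K, (-H x) * Hd ψ x := by
    apply setIntegral_congr_fun hK.measurableSet
    intro x hx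
    have hxC := hKC hx
    simp only
    rw [(hHe x hxC).self_of_nhds]
    congr 1
    have h1 : ψ =ᶠ[𝓝 x] fun y => A y + (-(c0 * η)) := by
      have h2 : ∀ᶠ y in 𝓝 x, B y + η < A y := by
        have : B x + η < A x := by
          rw [(hAe x hxC).self_of_nhds, (hBe x hxC).self_of_nhds]
          exact hKab x hx
        exact ((hBs.continuous.add continuous_const).continuousAt.eventually_lt hAs.continuous.continuousAt this)
      filter_upwards [h2] with y hy
      rw [hψ, glue_of_ge hη hy.le]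
      ring
    unfold Hd
    rw [hess_congr h1, hess_add_const _ hAs, hess_congr (hAe x hxC)]
  have e2 : ∫ x in K, (-H x) * Hd ψ x ≤ ∫ x in C, (-H x) * Hd ψ x := by
    apply setIntegral_mono_set
    · exact hcH.continuousOn.integrableOn_compact hC
    · refine (ae_restrict_iff' hC.measurableSet).2 (Eventually.of_forall fun x hx => ?_)
      simp only [Pi.zero_apply]
      rw [(hHe x hx).self_of_nhds]
      exact mul_nonneg (by linarith [hh0 x (hCO hx)]) (Hd_nonneg (hψp x hx))
    · exact hKC.eventuallyLE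
  have e3 : ∫ x in C, (-H x) * Hd B x = ∫ x in C, (-h x) * Hd b x := by
    apply setIntegral_congr_fun hC.measurableSet
    intro x hx
    simp only
    rw [(hHe x hx).self_of_nhds, Hd_congr (hBe x hx)]
  rw [e1, ← e3]
  exact e2.trans key

lemma dini_usc {u : ℕ → Cn 2 → ℝ} {φ : Cn 2 → EReal} {K : Set (Cn 2)} (hK : IsCompact K) (hKO : K ⊆ Om)
    (husc : ∀ j, UpperSemicontinuousOn (fun z => ((u j z : ℝ) : EReal)) Om)
    (hanti : ∀ z ∈ Om, Antitone fun j => u j z)
    (hlim : ∀ z ∈ Om, Tendsto (fun j => ((u j z : ℝ) : EReal)) atTop (𝓝 (φ z)))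
    {g : Cn 2 → ℝ} (hg : ContinuousOn g K) (h : ∀ z ∈ K, φ z < ((g z : ℝ) : EReal)) :
    ∃ j0, ∀ j ≥ j0, ∀ z ∈ K, u j z < g z := by
  have := hK.induction_on (p := fun S => ∃ k0, ∀ k ≥ k0, ∀ z ∈ S, z ∈ K → u k z < g z)
    ⟨0, fun k _ z hz => absurd hz (notMem_empty z)⟩
    (fun S T hST ⟨k0, hk0⟩ => ⟨k0, fun k hk z hz => hk0 k hk z (hST hz)⟩)
    (fun S T ⟨k0, hk0⟩ ⟨k1, hk1⟩ => ⟨max k0 k1, fun k hk z hz => by
      rcases hz with hz | hz
      · exact hk0 k (le_of_max_le_left hk) z hz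
      · exact hk1 k (le_of_max_le_right hk) z hz⟩)
    (fun x hx => by
      obtain ⟨j, hj⟩ := ((hlim x (hKO hx)).eventually (gt_mem_nhds (h x hx))).exists
      have hj' : u j x < g x := by exact_mod_cast hj
      obtain ⟨m, hm1, hm2⟩ := exists_between hj'
      have h1 : ∀ᶠ y in 𝓝[Om] x, ((u j y : ℝ) : EReal) < (m : EReal) :=
        husc j x (hKO hx) m (EReal.coe_lt_coe_iff.2 hm1)
      have h2 : ∀ᶠ y in 𝓝[K] x, m < g y := (hg x hx).eventually (lt_mem_nhds hm2)
      have h3 : ∀ᶠ y in 𝓝[K] x, u j y < g y := by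
        filter_upwards [nhdsWithin_mono x hKO h1, h2] with y hy1 hy2
        have : u j y < m := by exact_mod_cast hy1
        linarith
      refine ⟨_, h3, j, fun k hk z hz hzK => ?_⟩
      exact (hanti z (hKO hzK) hk).trans_lt hz)
  obtain ⟨j0, hj0⟩ := this
  exact ⟨j0, fun j hj z hz => hj0 j hj z hz hz⟩

/-- domination by the mass of a single function of class `E0` -/
lemma dom1 {u : Cn 2 → ℝ} {ν : Measure (Cn 2)} (hu : IsE0 Om u ν) {V h : Cn 2 → ℝ} (hV : SP V)
    (hV0 : ∀ x ∈ Om, V x ≤ 0) (hh : SP h) (hh0 : ∀ x ∈ Om, h x ≤ 0) {e : ℝ}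
    (huV : ∀ x ∈ Om, u x < V x + e) {δ : ℝ} (hδ : 0 < δ) (hδ1 : δ < 1) {K : Set (Cn 2)} (hK : IsCompact K)
    (hKO : K ⊆ Om) (hKe : ∀ x ∈ K, e < -(δ * V x)) :
    ∃ χ : Cn 2 → ℝ, Continuous χ ∧ HasCompactSupport χ ∧ tsupport χ ⊆ Om ∧ (∀ x, χ x ∈ Icc (0 : ℝ) 1) ∧
      kap * (1 - δ) ^ 2 * ∫ x in K, (-h x) * Hd V x ≤ ∫ x, χ x * (-h x) ∂ν := by
  obtain ⟨hpsh, _, hu0, hubd, hMA, _⟩ := hu
  rcases K.eq_empty_or_nonempty with hKe0 | hKne
  · refine ⟨fun _ => 0, continuous_const, HasCompactSupport.zero, by simp, fun x => by simp, ?_⟩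
    rw [hKe0]
    simp
  -- a positive margin
  have hcV : ContinuousOn (fun x => -(δ * V x) - e) K := by
    have := hV.sm.continuousOn.mono hKO
    fun_prop
  obtain ⟨x0, hx0, hmin⟩ := hK.exists_isMinOn hKne hcV
  set m := -(δ * V x0) - e with hm
  have hm0 : 0 < m := by have := hKe x0 hx0; linarith
  have hmK : ∀ x ∈ K, m ≤ -(δ * V x) - e := fun x hx => hmin hx
  set t := m / 4 with ht
  have ht0 : 0 < t := by positivity
  obtain ⟨C0, hC0, hC0O, hC0u⟩ := bdry_compact Om_open Om_bdd hubd t ht0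
  set C := C0 ∪ K with hCd
  have hC : IsCompact C := hC0.union hK
  have hCO : C ⊆ Om := union_subset hC0O hKO
  obtain ⟨U, v, hU, hCU, hUO, hvs, hvc, hvp, hv0, huv, _, hva, hvl, hvm⟩ := extract Om_open hMA hu0 hC hCO
  obtain ⟨χ, hχs, hχc, hχU, hχ1, hχ01⟩ := cutoff hC hU hCU
  refine ⟨χ, hχs.continuous, hχc, hχU.trans hUO, hχ01, ?_⟩
  -- the weighted cut-off
  set a : Cn 2 → ℝ := fun x => (1 - δ) * V x + (-t) with ha
  have hasp : SP a := sp_affine hV (by linarith) (-t)
  have hlt : ∀ x ∈ K, u x < a x - 2 * t := by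
    intro x hx
    have h1 := huV x (hKO hx)
    have h2 := hmK x hx
    simp only [ha]
    have : m = 4 * t := by rw [ht]; ring
    nlinarith
  obtain ⟨k0, hk0⟩ := dini_lt v u (fun x => a x - 2 * t) hK (fun k => (hvs k).continuous.continuousOn)
    (fun z hz => hva z (hCU (Or.inr hz))) (fun z hz => hvl z (hCU (Or.inr hz)))
    ((hasp.sm.continuousOn.mono hKO).sub continuousOn_const) hlt
  have hstep : ∀ k ≥ k0, kap * (1 - δ) ^ 2 * ∫ x in K, (-h x) * Hd V x ≤
      ∫ x, (χ x * (-h x)) * maDensity (v k) x := by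
    intro k hk
    have h1 : ∫ x in K, (-h x) * Hd a x ≤ ∫ x in C, (-h x) * Hd (v k) x := by
      apply cmp hasp (hvs k).contDiffOn hC hCO (fun x hx => hvp k x (hCU hx)) hh hh0 ?_ hK subset_union_right
        ht0 (fun x hx => by have := hk0 k hk x hx; linarith)
      intro x hx hxC
      have h2 := hC0u x hx (fun h => hxC (Or.inl h))
      have h3 := huv k x hx
      have h4 := hV0 x hx
      simp only [ha]
      nlinarith
    have h2 : ∫ x in K, (-h x) * Hd a x = (1 - δ) ^ 2 * ∫ x in K, (-h x) * Hd V x := by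
      rw [← integral_const_mul]
      apply setIntegral_congr_fun hK.measurableSet
      intro x hx
      simp only [ha]
      rw [Hd_affine_at hV.sm _ _ (hKO hx)]
      ring
    rw [h2] at h1
    have h3 : ∫ x in C, (-h x) * Hd (v k) x ≤ ∫ x, (χ x * (-h x)) * Hd (v k) x := by
      have hcut : Continuous fun x => χ x * (-h x) := by
        have : ContDiff ℝ ∞ fun x => χ x * (-h x) :=
          cutoff_mul_smooth Om_open hχs hh.sm.neg (hχU.trans hUO)
        exact this.continuous
      have hi : Integrable fun x => (χ x * (-h x)) * Hd (v k) x :=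
        (hcut.mul (Hd_cont (hvs k))).integrable_of_hasCompactSupport (hχc.mul_right.mul_right)
      have h4 : ∫ x in C, (-h x) * Hd (v k) x = ∫ x in C, (χ x * (-h x)) * Hd (v k) x := by
        apply setIntegral_congr_fun hC.measurableSet
        intro x hx
        simp only
        rw [hχ1 x hx, one_mul]
      rw [h4]
      apply setIntegral_le_integral hi
      refine Eventually.of_forall fun x => ?_
      simp only [Pi.zero_apply]
      by_cases hx : x ∈ tsupport χ
      · have h5 := hh0 x (hUO (hχU hx))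
        have h6 := Hd_nonneg (hvp k x (hχU hx))
        have h7 := (hχ01 x).1
        have : 0 ≤ -h x := by linarith
        positivity
      · rw [image_eq_zero_of_notMem_tsupport hx]
        simp
    have h5 : ∫ x, (χ x * (-h x)) * maDensity (v k) x = kap * ∫ x, (χ x * (-h x)) * Hd (v k) x := by
      rw [← integral_const_mul]
      congr 1
      funext x
      rw [maD]
      ring
    rw [h5]
    have := mul_le_mul_of_nonneg_left (h1.trans h3) kap_pos.le
    linarith
  have hcut : ContDiff ℝ ∞ fun x => χ x * (-h x) := cutoff_mul_smooth Om_open hχs hh.sm.neg (hχU.trans hUO)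
  have hsup : tsupport (fun x => χ x * (-h x)) ⊆ U := (tsupport_mul_subset_left).trans hχU
  exact ge_of_tendsto (hvm _ hcut.continuous hχc.mul_right hsup) (eventually_atTop.2 ⟨k0, hstep⟩)

/-- domination by the right-hand side measure -/
theorem dom {c : ℝ} (hc : 0 ≤ c) {φ : Cn 2 → EReal} (hF : IsCegrellF Om φ (ENNReal.ofReal c • mu0))
    {V h : Cn 2 → ℝ} (hV : SP V) (hV0 : ∀ x ∈ Om, V x ≤ 0) (hVb : Bd V) {e e' : ℝ} (he : 0 ≤ e) (hee : e < e')
    (hVφ : ∀ x ∈ Om, φ x ≤ ((V x + e : ℝ) : EReal)) (hh : SP h) (hh0 : ∀ x ∈ Om, h x ≤ 0) (hhb : Bd h)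
    {δ : ℝ} (hδ : 0 < δ) (hδ1 : δ < 1) {K : Set (Cn 2)} (hK : IsCompact K) (hKO : K ⊆ Om)
    (hKe : ∀ x ∈ K, e' < -(δ * V x)) :
    kap * (1 - δ) ^ 2 * ∫ x in K, (-h x) * Hd V x ≤ c * ∫ z in ball (0 : ℂ) 1, -h (pp z 0) := by
  obtain ⟨_, _, u, ν, hE, hanti, hlim, ⟨M, hM⟩, hweak⟩ := hF
  -- comparison with `u j`
  obtain ⟨CV, hCV, hCVO, hCVb⟩ := hVb e' (by linarith)
  obtain ⟨j0, hj0⟩ := dini_usc (g := fun x => V x + e') hCV hCVO (fun j => (hE j).1.1) hanti hlim
    ((hV.sm.continuousOn.mono hCVO).add continuousOn_const) (fun z hz => (hVφ z (hCVO hz)).trans_lt (by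
      exact_mod_cast (by linarith : V z + e < V z + e')))
  have huV : ∀ j ≥ j0, ∀ x ∈ Om, u j x < V x + e' := by
    intro j hj x hx
    by_cases hxC : x ∈ CV
    · exact hj0 j hj x hxC
    · have h1 := hCVb x hx hxC
      have h2 := (hE j).2.2.1 x hx
      linarith
  -- a lower bound of `h` on the disc
  have hhc : Continuous fun z : ℂ => pp z 0 := pp_zero_cont
  have hM0 : ∀ j, (ν j Om).toReal ≤ max M 0 := by
    intro j
    have h1 := ENNReal.toReal_mono ENNReal.ofReal_ne_top (hM j)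
    rw [ENNReal.toReal_ofReal'] at h1
    exact h1
  apply le_of_forall_pos_le_add
  intro σ' hσ'
  set σ := σ' / (max M 0 + 1) with hσd
  have hσ : 0 < σ := by positivity
  obtain ⟨Ch, hCh, hChO, hChb⟩ := hhb σ hσ
  obtain ⟨χ', hχs, hχc, hχO, hχ1, hχ01⟩ := cutoff hCh Om_open hChO
  have hcs : ContDiff ℝ ∞ fun x => χ' x * (-h x) := cutoff_mul_smooth Om_open hχs hh.sm.neg hχO
  have hts : tsupport (fun x => χ' x * (-h x)) ⊆ Om := (tsupport_mul_subset_left).trans hχO
  have hlimj := hweak _ hcs.continuous hχc.mul_right hts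
  have hle : ∀ j ≥ j0, kap * (1 - δ) ^ 2 * ∫ x in K, (-h x) * Hd V x ≤
      (∫ x, χ' x * (-h x) ∂(ν j)) + σ' := by
    intro j hj
    obtain ⟨χ, hχk, hχkc, hχkO, hχk01, hbd⟩ := dom1 (hE j) hV hV0 hh hh0 (huV j hj) hδ hδ1 hK hKO hKe
    refine hbd.trans ?_
    have hfin : ν j Om < ⊤ := (hE j).2.2.2.2.2
    have hOm : MeasurableSet Om := Om_open.measurableSet
    have : IsFiniteMeasure ((ν j).restrict Om) := ⟨by rwa [Measure.restrict_apply_univ]⟩
    have e1 : ∫ x, χ x * (-h x) ∂(ν j) = ∫ x in Om, χ x * (-h x) ∂(ν j) := by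
      symm
      apply setIntegral_eq_integral_of_forall_compl_eq_zero
      intro x hx
      rw [image_eq_zero_of_notMem_tsupport (fun h => hx (hχkO h)), zero_mul]
    have e2 : ∫ x, χ' x * (-h x) ∂(ν j) = ∫ x in Om, χ' x * (-h x) ∂(ν j) := by
      symm
      apply setIntegral_eq_integral_of_forall_compl_eq_zero
      intro x hx
      rw [image_eq_zero_of_notMem_tsupport (fun h => hx (hχO h)), zero_mul]
    have hcont1 : Continuous fun x => χ x * (-h x) := by
      rw [continuous_iff_continuousAt]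
      intro x
      by_cases hx : x ∈ tsupport χ
      · exact hχk.continuousAt.mul ((hh.sm.continuousOn.neg).continuousAt (Om_open.mem_nhds (hχkO hx)))
      · have : (fun x => χ x * (-h x)) =ᶠ[𝓝 x] fun _ => 0 := by
          filter_upwards [notMem_tsupport_iff_eventuallyEq.1 hx] with y hy
          rw [hy]
          simp
        exact continuousAt_const.congr this.symm
    have hi1 : Integrable (fun x => χ x * (-h x)) ((ν j).restrict Om) :=
      hcont1.integrable_of_hasCompactSupport hχkc.mul_right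
    have hi2 : Integrable (fun x => χ' x * (-h x)) ((ν j).restrict Om) :=
      hcs.continuous.integrable_of_hasCompactSupport hχc.mul_right
    rw [e1, e2]
    calc ∫ x in Om, χ x * (-h x) ∂(ν j) ≤ ∫ x in Om, (χ' x * (-h x) + σ) ∂(ν j) := by
          apply integral_mono_ae hi1 (hi2.add (integrable_const σ))
          refine (ae_restrict_iff' hOm).2 (Eventually.of_forall fun x hx => ?_)
          simp only [Pi.add_apply]
          have h1 := hh0 x hx
          have h2 := hχk01 x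
          have h3 : χ x * (-h x) ≤ -h x := by nlinarith [h2.2]
          by_cases hxC : x ∈ Ch
          · rw [hχ1 x hxC]
            linarith
          · have h4 := hChb x hx hxC
            have h5 : 0 ≤ χ' x * (-h x) := mul_nonneg (hχ01 x).1 (by linarith)
            linarith
      _ = (∫ x in Om, χ' x * (-h x) ∂(ν j)) + σ * (ν j Om).toReal := by
          rw [integral_add hi2 (integrable_const σ), integral_const, smul_eq_mul, measureReal_def,
            Measure.restrict_apply_univ]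
          ring
      _ ≤ (∫ x in Om, χ' x * (-h x) ∂(ν j)) + σ' := by
          gcongr
          have h1 := hM0 j
          have h2 : 0 ≤ max M 0 := le_max_right _ _
          calc σ * (ν j Om).toReal ≤ σ * (max M 0 + 1) := by gcongr; linarith
            _ = σ' := by rw [hσd]; field_simp
  have hfinal := ge_of_tendsto (hlimj.add_const σ') (eventually_atTop.2 ⟨j0, hle⟩)
  refine hfinal.trans ?_
  rw [int_mu0 hc hcs.continuous]
  gcongr ?_ + _
  apply mul_le_mul_of_nonneg_left _ hc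
  -- the last comparison
  by_cases hint : IntegrableOn (fun z : ℂ => -h (pp z 0)) (ball 0 1)
  · apply setIntegral_mono_on
    · have : Continuous fun z : ℂ => χ' (pp z 0) * (-h (pp z 0)) := hcs.continuous.comp hhc
      exact (this.continuousOn.integrableOn_compact (isCompact_closedBall (0 : ℂ) 1)).mono_set ball_subset_closedBall
    · exact hint
    · exact measurableSet_ball
    · intro z hz
      have hzO : pp z 0 ∈ Om := by
        rw [pp_mem]
        exact ⟨by simpa using hz, by simp⟩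
      have h1 := hh0 _ hzO
      have h2 := (hχ01 (pp z 0)).2
      nlinarith
  · exfalso
    apply hint
    -- `h` is bounded on the disc
    obtain ⟨m, hm⟩ : ∃ m : ℝ, ∀ z ∈ ball (0 : ℂ) 1, |(-h (pp z 0))| ≤ m := by
      have hcb : ContinuousOn h Ch := hh.sm.continuousOn.mono hChO
      obtain ⟨m1, hm1⟩ := hCh.exists_bound_of_continuousOn hcb
      refine ⟨max m1 σ, fun z hz => ?_⟩
      have hzO : pp z 0 ∈ Om := by
        rw [pp_mem]
        exact ⟨by simpa using hz, by simp⟩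
      rw [abs_neg]
      by_cases hxC : pp z 0 ∈ Ch
      · exact (hm1 _ hxC).trans (le_max_left _ _)
      · have h1 := hh0 _ hzO
        have h2 := hChb _ hzO hxC
        rw [abs_of_nonpos h1]
        exact le_trans (by linarith) (le_max_right _ _)
    have hcon : ContinuousOn (fun z : ℂ => -h (pp z 0)) (ball 0 1) := by
      apply (hh.sm.continuousOn.comp hhc.continuousOn ?_).neg
      intro z hz
      change pp z 0 ∈ Om
      rw [pp_mem]
      exact ⟨by simpa using hz, by simp⟩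
    have hfm : IsFiniteMeasure ((volume : Measure ℂ).restrict (ball 0 1)) := ⟨by
      rw [Measure.restrict_apply_univ, Complex.volume_ball]
      simp⟩
    refine Integrable.of_bound (hcon.aestronglyMeasurable measurableSet_ball) m ?_
    refine (ae_restrict_iff' measurableSet_ball).2 (Eventually.of_forall fun z hz => ?_)
    rw [Real.norm_eq_abs]
    exact hm z hz

/-- admissible approximants -/
structure Adm (φ : Cn 2 → EReal) (e : ℝ) (v : Cn 2 → ℝ) : Prop where
  sp : SP v
  neg : ∀ x ∈ Om, v x < 0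
  bd : Bd v
  ge : ∀ x ∈ Om, φ x ≤ ((v x + e : ℝ) : EReal)

/-- the exhaustion of the bidisc -/
noncomputable def exh : Cn 2 → ℝ := rm (pc 0) (pc 1)

lemma exh_sp : SP exh := rm_sp (pc_sp 0) (pc_sp 1) fun _ hx => pc_neg hx

lemma exh_neg {x : Cn 2} (hx : x ∈ Om) : exh x < 0 := rm_neg (pc_neg hx) (pc_neg hx)

lemma bd_of_pc {f : Cn 2 → ℝ} (h0 : ∀ x ∈ Om, pc 0 x ≤ f x) (h1 : ∀ x ∈ Om, pc 1 x ≤ f x) : Bd f := by
  intro θ hθ
  obtain ⟨r, hr1, hr2⟩ : ∃ r : ℝ, r < 1 ∧ 1 - θ < r ^ 2 ∧ 0 < r := by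
    have h1 : Tendsto (fun r : ℝ => r ^ 2) (𝓝[<] 1) (𝓝 1) := by
      have : Tendsto (fun r : ℝ => r ^ 2) (𝓝 1) (𝓝 (1 ^ 2)) := (continuous_pow 2).tendsto 1
      rw [one_pow] at this
      exact this.mono_left nhdsWithin_le_nhds
    have h2 := h1.eventually (lt_mem_nhds (show 1 - θ < 1 by linarith))
    have h3 : ∀ᶠ r : ℝ in 𝓝[<] 1, 0 < r := nhdsWithin_le_nhds (lt_mem_nhds one_pos)
    obtain ⟨r, ⟨h4, h5⟩, h6⟩ := ((h2.and h3).and self_mem_nhdsWithin).exists
    exact ⟨r, h6, h4, h5⟩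
  refine ⟨KR r, KR_compact r, KR_sub hr1, fun x hx hxC => ?_⟩
  have h2 : r < ‖x 0‖ ∨ r < ‖x 1‖ := by
    by_contra hcon
    push Not at hcon
    exact hxC hcon
  rcases h2 with h | h
  · have h3 := h0 x hx
    unfold pc at h3
    nlinarith [hr2.1, hr2.2, norm_nonneg (x 0)]
  · have h3 := h1 x hx
    unfold pc at h3
    nlinarith [hr2.1, hr2.2, norm_nonneg (x 1)]

lemma exh_bd : Bd exh := bd_of_pc (fun _ hx => le_rm (pc_neg hx)) (fun _ hx => rm_ge_beta (pc_neg hx))

lemma Bd.smul {f : Cn 2 → ℝ} (hf : Bd f) {c : ℝ} (hc : 0 < c) : Bd (fun x => c * f x) := by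
  intro θ hθ
  obtain ⟨C, h1, h2, h3⟩ := hf (θ / c) (by positivity)
  refine ⟨C, h1, h2, fun x hx hxC => ?_⟩
  have := mul_lt_mul_of_pos_left (h3 x hx hxC) hc
  rw [mul_neg, mul_div_cancel₀ _ hc.ne'] at this
  exact this

theorem approx {c : ℝ} (hc : 0 ≤ c) {φ : Cn 2 → EReal} (hF : IsCegrellF Om φ (ENNReal.ofReal c • mu0))
    {e : ℝ} (he : 0 < e) {K : Set (Cn 2)} (hK : IsCompact K) (hKO : K ⊆ Om) {g : Cn 2 → ℝ}
    (hg : ContinuousOn g K) (hgφ : ∀ x ∈ K, φ x < ((g x : ℝ) : EReal)) {χ : Cn 2 → ℝ} (hχ : Continuous χ)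
    (hχc : HasCompactSupport χ) (hχO : tsupport χ ⊆ Om) {ε : ℝ} (hε : 0 < ε) :
    ∃ v : Cn 2 → ℝ, Adm φ e v ∧ (∀ x ∈ K, v x < g x) ∧
      |kap * (∫ x, χ x * Hd v x) - c * ∫ z in ball (0 : ℂ) 1, χ (pp z 0)| < ε := by
  obtain ⟨_, _, us, ν, hE, hanti, hlim, _, hweak⟩ := hF
  obtain ⟨j0, hj0⟩ := dini_usc (g := g) hK hKO (fun j => (hE j).1.1) hanti hlim hg hgφ
  have hw := hweak χ hχ hχc hχO
  rw [int_mu0 hc hχ] at hw
  have hw2 := (Metric.tendsto_atTop.1 hw) (ε / 2) (by positivity)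
  obtain ⟨j1, hj1⟩ := hw2
  set j := max j0 j1 with hj
  have hug : ∀ z ∈ K, us j z < g z := hj0 j (le_max_left _ _)
  have hdj := hj1 j (le_max_right _ _)
  rw [Real.dist_eq] at hdj
  obtain ⟨hpsh, ⟨M, hM⟩, hu0, hubd, hMA, _⟩ := hE j
  have hφu : ∀ x ∈ Om, φ x ≤ ((us j x : ℝ) : EReal) := fun x hx =>
    le_of_tendsto (hlim x hx) (eventually_atTop.2 ⟨j, fun i hi => EReal.coe_le_coe_iff.2 (hanti x hx hi)⟩)
  set u := us j with hu
  set D := K ∪ tsupport χ with hD
  have hDc : IsCompact D := hK.union hχc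
  have hDO : D ⊆ Om := union_subset hKO hχO
  obtain ⟨A, hA0, hA⟩ : ∃ A : ℝ, 0 < A ∧ ∀ x ∈ D, A * exh x < -M - 2 := by
    have hcf : ContinuousOn (fun x => (M + 2) / (-exh x)) D := by
      apply continuousOn_const.div ((exh_sp.sm.continuousOn.mono hDO).neg)
      intro x hx
      have := exh_neg (hDO hx)
      change -(exh x) ≠ 0
      linarith
    obtain ⟨B, hB⟩ := hDc.exists_bound_of_continuousOn hcf
    refine ⟨max B 0 + 1, by positivity, fun x hx => ?_⟩
    have h1 := (Real.le_norm_self _).trans (hB x hx)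
    have h2 := exh_neg (hDO hx)
    have h3 : (M + 2) / (-exh x) < max B 0 + 1 := by
      have := le_max_left B 0
      linarith
    rw [div_lt_iff₀ (by linarith)] at h3
    linarith
  set θ := min (e / 4) (1 / 4) with hθ
  have hθ0 : 0 < θ := by positivity
  have hθe : θ ≤ e / 4 := min_le_left _ _
  have hθ4 : θ ≤ 1 / 4 := min_le_right _ _
  have hAb : Bd (fun x => A * exh x) := exh_bd.smul hA0
  obtain ⟨CA, hCA, hCAO, hCAb⟩ := hAb θ hθ0
  set C := CA ∪ D with hC
  have hCc : IsCompact C := hCA.union hDc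
  have hCO : C ⊆ Om := union_subset hCAO hDO
  obtain ⟨U, v, hU, hCU, hUO, hvs, hvc, hvp, hv0, huv, hvη, hva, hvl, hvm⟩ :=
    extract Om_open hMA hu0 hCc hCO
  have hDC : D ⊆ C := subset_union_right
  have hKU : K ⊆ U := (subset_union_left.trans hDC).trans hCU
  have hχU : tsupport χ ⊆ U := (subset_union_right.trans hDC).trans hCU
  obtain ⟨k0, hk0⟩ := hvη θ hθ0
  obtain ⟨k1, hk1⟩ := dini_lt v u g hK (fun k => (hvs k).continuous.continuousOn)
    (fun z hz => hva z (hKU hz)) (fun z hz => hvl z (hKU hz)) hg hug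
  have hwm := (Metric.tendsto_atTop.1 (hvm χ hχ hχc hχU)) (ε / 2) (by positivity)
  obtain ⟨k2, hk2⟩ := hwm
  set k := max k0 (max k1 k2) with hk
  have hkθ := hk0 k (le_max_left _ _)
  have hkg := hk1 k ((le_max_left _ _).trans (le_max_right _ _))
  have hkm := hk2 k ((le_max_right _ _).trans (le_max_right _ _))
  rw [Real.dist_eq] at hkm
  set a : Cn 2 → ℝ := fun x => v k x + (-(2 * θ)) with ha
  set b : Cn 2 → ℝ := fun x => A * exh x with hb
  have has : ContDiff ℝ ∞ a := (hvs k).add contDiff_const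
  have hbsp : SP b := sp_smul exh_sp hA0.le
  set V := glue θ b a with hV
  have hVD : ∀ x ∈ D, b x + θ < a x := by
    intro x hx
    have h1 := hA x hx
    have h2 := huv k x (hDO hx)
    have h3 := hM x (hDO hx)
    simp only [ha, hb]
    linarith
  have hVDe : ∀ x ∈ D, V =ᶠ[𝓝 x] fun y => v k y + (-(2 * θ) - c0 * θ) := by
    intro x hx
    have h1 : ContinuousAt (fun y => b y + θ) x :=
      ((hbsp.sm.continuousOn).continuousAt (Om_open.mem_nhds (hDO hx))).add continuousAt_const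
    have h2 := h1.eventually_lt has.continuous.continuousAt (hVD x hx)
    filter_upwards [h2] with y hy
    rw [hV, glue_of_ge hθ0 hy.le]
    simp only [ha]
    ring
  have hoff : ∀ x ∈ Om, x ∉ C → V x = b x := by
    intro x hx hxC
    apply glue_of_le hθ0
    have h1 := hCAb x hx (fun h => hxC (Or.inl h))
    have h2 := hkθ x
    simp only [ha, hb]
    linarith
  have hVb : ∀ x, b x ≤ V x := fun x => le_glue_left hθ0 b a x
  refine ⟨V, ⟨⟨glue_smOn θ hbsp.sm has.contDiffOn, ?_⟩, ?_, hAb.mono fun x _ => hVb x, ?_⟩, ?_, ?_⟩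
  · intro x hx
    by_cases hxC : x ∈ C
    · apply glue_sp_at hθ0 hbsp.sm has.contDiffOn hx (hbsp.psd x hx)
      rw [ha, hess_add_const _ (hvs k)]
      exact hvp k x (hCU hxC)
    · have h1 : V =ᶠ[𝓝 x] b := by
        filter_upwards [(Om_open.sdiff hCc.isClosed).mem_nhds ⟨hx, hxC⟩] with y hy
        exact hoff y hy.1 hy.2
      rw [hess_congr h1]
      exact hbsp.psd x hx
  · intro x hx
    refine (glue_le hθ0 b a x).trans_lt (max_lt ?_ ?_)
    · simp only [hb]
      exact mul_neg_of_pos_of_neg hA0 (exh_neg hx)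
    · have := hkθ x
      simp only [ha]
      linarith
  · intro x hx
    refine (hφu x hx).trans (EReal.coe_le_coe_iff.2 ?_)
    have h1 := huv k x hx
    have h2 := le_glue_right hθ0 b a x
    have h3 := mul_le_mul_of_nonneg_right c0_le_one hθ0.le
    simp only [ha] at h2
    rw [hV]
    linarith
  · intro x hx
    have h1 := (hVDe x (Or.inl hx)).self_of_nhds
    have h2 := hkg x hx
    have h3 := mul_nonneg c0_nonneg hθ0.le
    rw [h1]
    linarith
  · have e1 : ∫ x, χ x * maDensity (v k) x = kap * ∫ x, χ x * Hd V x := by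
      rw [← integral_const_mul]
      congr 1
      funext x
      by_cases hx : x ∈ tsupport χ
      · have h1 : Hd V x = Hd (v k) x := by
          rw [Hd_congr (hVDe x (Or.inr hx))]
          unfold Hd
          rw [hess_add_const _ (hvs k)]
        rw [maD, h1]
        ring
      · rw [image_eq_zero_of_notMem_tsupport hx]
        simp
    rw [← e1]
    calc |(∫ x, χ x * maDensity (v k) x) - c * ∫ z in ball (0 : ℂ) 1, χ (pp z 0)|
        = |((∫ x, χ x * maDensity (v k) x) - ∫ x, χ x ∂(ν j)) +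
            ((∫ x, χ x ∂(ν j)) - c * ∫ z in ball (0 : ℂ) 1, χ (pp z 0))| := by ring_nf
      _ ≤ _ := abs_add_le _ _
      _ < ε / 2 + ε / 2 := add_lt_add hkm hdj
      _ = ε := by ring

end Pool.Agent.U574.FC
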