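import Mathlib
import Pool.Agent.U574.FC.Polar
import Pool.Agent.U574.FC.Siegel

/-!
Lower bound for the integral of the logarithm of a polynomial with integer coefficients.
-/

set_option autoImplicit false
set_option maxHeartbeats 1000000

open MeasureTheory Metric Set Filter Topology
open scoped ContDiff ComplexOrder

namespace Pool.Agent.U574.FC
open Pool.Agent.H805R2

lemma circle_int {p : Polynomial ℂ} (hp0 : p ≠ 0) (hl : 1 ≤ ‖p.leadingCoeff‖) {r : ℝ} (hr : 0 < r)
    (hr1 : r ≤ 1) {N : ℕ} (hN : p.natDegree ≤ N) {σ : ℝ} (hσ : 0 < σ) :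
    2 * Real.pi * (N * Real.log r) ≤
      ∫ θ in (0 : ℝ)..2 * Real.pi, (1 / 2) * Real.log (‖p.eval (r * Complex.exp (θ * Complex.I))‖ ^ 2 + σ) := by
  set q : Polynomial ℂ := p.comp (Polynomial.C (r : ℂ) * Polynomial.X) with hq
  have hrC : (r : ℂ) ≠ 0 := by exact_mod_cast hr.ne'
  have hdeg : (Polynomial.C (r : ℂ) * Polynomial.X).natDegree = 1 := Polynomial.natDegree_C_mul_X _ hrC
  have hlead : q.leadingCoeff = p.leadingCoeff * (r : ℂ) ^ p.natDegree := by
    rw [hq, Polynomial.leadingCoeff_comp (by rw [hdeg]; exact one_ne_zero)]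
    congr 2
    rw [Polynomial.leadingCoeff_mul, Polynomial.leadingCoeff_C, Polynomial.leadingCoeff_X, mul_one]
  have hlead0 : q.leadingCoeff ≠ 0 := by
    rw [hlead]
    exact mul_ne_zero (Polynomial.leadingCoeff_ne_zero.2 hp0) (pow_ne_zero _ hrC)
  have hq0 : q ≠ 0 := Polynomial.leadingCoeff_ne_zero.1 hlead0
  have heval : ∀ x, q.eval x = p.eval (r * x) := by
    intro x
    rw [hq, Polynomial.eval_comp]
    simp
  have h1 : (N : ℝ) * Real.log r ≤ q.logMahlerMeasure := by
    rw [Polynomial.logMahlerMeasure_eq_log_MahlerMeasure]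
    have h2 := Real.log_le_log (norm_pos_iff.2 hlead0) (Polynomial.leadingCoeff_le_mahlerMeasure q)
    refine le_trans ?_ h2
    rw [hlead, norm_mul, norm_pow, Complex.norm_real, Real.norm_eq_abs, abs_of_pos hr,
      Real.log_mul (by linarith) (by positivity), Real.log_pow]
    have h3 := Real.log_nonneg hl
    have h4 := Real.log_nonpos hr.le hr1
    have h5 : (p.natDegree : ℝ) ≤ N := by exact_mod_cast hN
    nlinarith
  rw [Polynomial.logMahlerMeasure_def, Real.circleAverage, smul_eq_mul] at h1
  have hpi : 0 < 2 * Real.pi := by positivity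
  have h2 : 2 * Real.pi * (N * Real.log r) ≤
      ∫ θ in (0 : ℝ)..2 * Real.pi, Real.log ‖q.eval (circleMap 0 1 θ)‖ := by
    have := mul_le_mul_of_nonneg_left h1 hpi.le
    rwa [← mul_assoc (2 * Real.pi) (2 * Real.pi)⁻¹, mul_inv_cancel₀ hpi.ne', one_mul] at this
  refine h2.trans ?_
  apply intervalIntegral.integral_mono_ae hpi.le
  · exact q.intervalIntegrable_mahlerMeasure
  · apply Continuous.intervalIntegrable
    apply continuous_const.mul
    apply Continuous.log
    · have : Continuous fun θ : ℝ => p.eval (r * Complex.exp (θ * Complex.I)) :=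
        p.continuous.comp (by fun_prop)
      exact (this.norm.pow 2).add continuous_const
    · intro θ
      positivity
  · have hfin : {z : ℂ | q.eval z = 0}.Countable := by
      apply Set.Finite.countable
      refine (q.roots.toFinset.finite_toSet).subset ?_
      intro z hz
      simp only [Finset.mem_coe, Multiset.mem_toFinset]
      exact (Polynomial.mem_roots hq0).2 hz
    have hc := hfin.preimage_circleMap 0 (R := 1) one_ne_zero
    have hnull := hc.measure_zero (volume : Measure ℝ)
    have hae : ∀ᵐ θ : ℝ, θ ∉ circleMap 0 1 ⁻¹' {z : ℂ | q.eval z = 0} := measure_eq_zero_iff_ae_notMem.1 hnull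
    filter_upwards [hae] with θ hθ
    have e1 : circleMap 0 1 θ = Complex.exp (θ * Complex.I) := by simp [circleMap]
    have h3 : q.eval (circleMap 0 1 θ) = p.eval (r * Complex.exp (θ * Complex.I)) := by rw [heval, e1]
    have h4 : p.eval (r * Complex.exp (θ * Complex.I)) ≠ 0 := by
      intro h5
      apply hθ
      rw [mem_preimage, mem_ofPred_eq, h3, h5]
    rw [h3]
    have h5 : 0 < ‖p.eval (r * Complex.exp (θ * Complex.I))‖ := norm_pos_iff.2 h4
    have h6 : Real.log ‖p.eval (r * Complex.exp (θ * Complex.I))‖ =
        (1 / 2) * Real.log (‖p.eval (r * Complex.exp (θ * Complex.I))‖ ^ 2) := by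
      rw [Real.log_pow]
      push_cast
      ring
    rw [h6]
    apply mul_le_mul_of_nonneg_left _ (by norm_num)
    apply Real.log_le_log (by positivity)
    linarith

theorem int_log {N : ℕ} (s : Fin N → ℤ) (hs : s ≠ 0) {σ : ℝ} (hσ : 0 < σ) :
    -(Real.pi / 2) * N ≤
      ∫ z in ball (0 : ℂ) 1, (1 / 2) * Real.log (‖evL z (fun j => (s j : ℂ))‖ ^ 2 + σ) := by
  set P : Polynomial ℤ := ∑ j : Fin N, Polynomial.monomial (j : ℕ) (s j) with hP
  set p : Polynomial ℂ := P.map (Int.castRingHom ℂ) with hp
  have hPc : ∀ j : Fin N, P.coeff j = s j := by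
    intro j
    rw [hP, Polynomial.finset_sum_coeff, Finset.sum_eq_single j]
    · simp
    · intro b _ hb
      rw [Polynomial.coeff_monomial, if_neg]
      exact fun h => hb (Fin.ext h)
    · simp
  have hP0 : P ≠ 0 := by
    intro h
    apply hs
    funext j
    rw [← hPc j, h]
    simp
  have hinj : Function.Injective (Int.castRingHom ℂ) := Int.cast_injective
  have hp0 : p ≠ 0 := (Polynomial.map_ne_zero_iff hinj).2 hP0
  have hlead : 1 ≤ ‖p.leadingCoeff‖ := by
    rw [hp, Polynomial.leadingCoeff_map_of_injective hinj]
    simp only [eq_intCast, Complex.norm_intCast]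
    have : P.leadingCoeff ≠ 0 := Polynomial.leadingCoeff_ne_zero.2 hP0
    exact_mod_cast Int.one_le_abs this
  have hdeg : p.natDegree ≤ N := by
    rw [hp, Polynomial.natDegree_map_eq_of_injective hinj, hP]
    apply Polynomial.natDegree_sum_le_of_forall_le
    intro j _
    exact (Polynomial.natDegree_monomial_le _).trans j.2.le
  have hev : ∀ z, p.eval z = evL z (fun j => (s j : ℂ)) := by
    intro z
    rw [hp, hP, Polynomial.map_sum, Polynomial.eval_finsetSum, evL_apply]
    simp
  have hc : Continuous fun z : ℂ => (1 / 2) * Real.log (‖evL z (fun j => (s j : ℂ))‖ ^ 2 + σ) := by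
    simp only [← hev]
    apply continuous_const.mul
    apply Continuous.log
    · exact (p.continuous.norm.pow 2).add continuous_const
    · intro z
      positivity
  rw [polar_ball hc zero_le_one]
  have hcont : Continuous fun r : ℝ => 2 * Real.pi * N * (r * Real.log r) :=
    continuous_const.mul Real.continuous_mul_log
  have hF : ∫ r in (0 : ℝ)..1, r * Real.log r = -(1 / 4) := by
    have hG : Continuous fun r : ℝ => r * (r * Real.log r) / 2 - r ^ 2 / 4 :=
      ((continuous_id.mul Real.continuous_mul_log).div_const 2).sub (by fun_prop)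
    rw [intervalIntegral.integral_eq_sub_of_hasDerivAt_of_le zero_le_one hG.continuousOn
      (f' := fun r => r * Real.log r) _ (Real.continuous_mul_log.intervalIntegrable _ _)]
    · simp
    · intro r hr
      have h1 := ((hasDerivAt_id r).mul (Real.hasDerivAt_mul_log hr.1.ne')).div_const 2
      have h2 := (hasDerivAt_pow 2 r).div_const 4
      refine (h1.sub h2).congr_deriv ?_
      simp only [id_eq, one_mul]
      push_cast
      ring
  calc -(Real.pi / 2) * N = ∫ r in (0 : ℝ)..1, 2 * Real.pi * N * (r * Real.log r) := by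
        rw [intervalIntegral.integral_const_mul, hF]
        ring
    _ ≤ _ := by
        apply intervalIntegral.integral_mono_on zero_le_one (hcont.intervalIntegrable _ _)
        · apply Continuous.intervalIntegrable
          apply continuous_id.mul
          apply intervalIntegral.continuous_parametric_intervalIntegral_of_continuous'
          exact hc.comp (by fun_prop)
        · intro r hr
          rcases hr.1.eq_or_lt with h | h
          · rw [← h]
            simp
          · have := circle_int hp0 hlead h hr.2 hdeg hσ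
            simp only [hev] at this
            calc 2 * Real.pi * N * (r * Real.log r) = r * (2 * Real.pi * (N * Real.log r)) := by ring
              _ ≤ _ := mul_le_mul_of_nonneg_left this h.le

end Pool.Agent.U574.FC
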