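import Mathlib
import Pool.Agent.U574.FC.Core
import Pool.Agent.U574.FC.IntLog
import Pool.Agent.H805K.Calc

/-!
Filling a hole with a plurisubharmonic function close to zero.
-/

set_option autoImplicit false
set_option maxHeartbeats 1000000

open MeasureTheory Metric Set Filter Topology
open scoped ContDiff ComplexOrder

namespace Pool.Agent.U574.FC
open Pool.Agent.H805R2

lemma logpot {n : ℕ} {F : Cn n → ℂ} (hF : ContDiff ℂ ∞ F) {σ : ℝ} (hσ : 0 < σ) {c : ℝ} (hc : 0 ≤ c) (d : ℝ) :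
    ContDiff ℝ ∞ (fun x => c * Real.log (‖F x‖ ^ 2 + σ ^ 2) + d) ∧
      ∀ x, (hess (fun x => c * Real.log (‖F x‖ ^ 2 + σ ^ 2) + d) x).PosSemidef := by
  have hs : ContDiff ℝ ∞ (fun x => ‖F x‖ ^ 2 + σ ^ 2) := (Pool.Agent.H805K.nsq_sm hF).add contDiff_const
  have hl : ContDiff ℝ ∞ (fun x => Real.log (‖F x‖ ^ 2 + σ ^ 2)) := hs.log fun x => by positivity
  have hsm : ContDiff ℝ ∞ (fun x => c * Real.log (‖F x‖ ^ 2 + σ ^ 2) + d) :=
    (contDiff_const.mul hl).add contDiff_const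
  refine ⟨hsm, fun x => ?_⟩
  rw [psd_iff hsm]
  intro ζ
  set h : Cn n → ℂ := fun x => (1 / (σ : ℂ)) * F x with hh
  have hhs : ContDiff ℂ ∞ h := contDiff_const.mul hF
  have hl1 : ContDiff ℝ ∞ (fun y => Real.log (1 + ‖h y‖ ^ 2)) :=
    (contDiff_const.add (Pool.Agent.H805K.nsq_sm hhs)).log fun x => by positivity
  have e1 : (fun x => c * Real.log (‖F x‖ ^ 2 + σ ^ 2) + d) =
      fun x => c * Real.log (1 + ‖h x‖ ^ 2) + (c * Real.log (σ ^ 2) + d) := by
    funext y
    have e2 : ‖F y‖ ^ 2 + σ ^ 2 = σ ^ 2 * (1 + ‖h y‖ ^ 2) := by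
      simp only [hh, norm_mul, norm_div, norm_one, Complex.norm_real, Real.norm_eq_abs, abs_of_pos hσ]
      field_simp
      ring
    rw [e2, Real.log_mul (by positivity) (by positivity)]
    ring
  rw [e1, levi_add ((contDiff_const.mul hl1).of_le ss_le) contDiff_const, levi_const_mul _ (hl1.of_le ss_le),
    levi_const, add_zero, Pool.Agent.H805K.levi_log_one hhs]
  positivity

/-- removing a power of the second variable -/
lemma drop_pow {N₁ : ℕ} : ∀ {N₂ : ℕ} (t : Fin N₁ × Fin N₂ → ℤ), t ≠ 0 →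
    ∃ (N' k : ℕ) (t' : Fin N₁ × Fin (N' + 1) → ℤ), N' + 1 ≤ N₂ ∧ (fun j => t' (j, 0)) ≠ 0 ∧
      (∀ X : ℝ, (∀ p, |(t p : ℝ)| ≤ X) → ∀ p, |(t' p : ℝ)| ≤ X) ∧
      ∀ y : ℂ, slc t y = y ^ k • slc t' y := by
  intro N₂
  induction N₂ with
  | zero =>
    intro t ht
    exfalso
    apply ht
    funext p
    exact p.2.elim0
  | succ N ih =>
    intro t ht
    by_cases h : (fun j => t (j, 0)) = 0
    · have ht' : (fun p : Fin N₁ × Fin N => t (p.1, p.2.succ)) ≠ 0 := by
        intro h2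
        apply ht
        funext p
        obtain ⟨j, k⟩ := p
        refine Fin.cases ?_ ?_ k
        · exact congrFun h j
        · intro k
          exact congrFun h2 (j, k)
      obtain ⟨N', k, t', h1, h2, h3, h4⟩ := ih _ ht'
      refine ⟨N', k + 1, t', by omega, h2, fun X hX => h3 X fun p => hX _, ?_⟩
      intro y
      have h5 : slc t y = y • slc (fun p : Fin N₁ × Fin N => t (p.1, p.2.succ)) y := by
        funext j
        have h0 : t (j, 0) = 0 := congrFun h j
        simp only [slc, Pi.smul_apply, smul_eq_mul, Fin.sum_univ_succ, h0, Fin.val_succ, Finset.mul_sum]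
        simp only [Int.cast_zero, zero_mul, zero_add]
        apply Finset.sum_congr rfl
        intro k _
        ring
      rw [h5, h4, smul_smul, pow_succ']
    · exact ⟨N, 0, t, le_rfl, h, fun X hX => hX, fun y => by rw [pow_zero, one_smul]⟩

lemma slc_zero {N₁ N' : ℕ} (t : Fin N₁ × Fin (N' + 1) → ℤ) : slc t 0 = fun j => ((t (j, 0) : ℤ) : ℂ) := by
  funext j
  simp [slc, Fin.sum_univ_succ]

lemma hol_poly {N₁ N₂ : ℕ} (t : Fin N₁ × Fin N₂ → ℤ) (ws : ℂ) :
    ContDiff ℂ ∞ fun x : Cn 2 => evL (x 0) (slc t (x 1 / ws)) := by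
  have h0 : ContDiff ℂ ∞ fun x : Cn 2 => x 0 := (EuclideanSpace.proj (𝕜 := ℂ) (0 : Fin 2)).contDiff
  have h1 : ContDiff ℂ ∞ fun x : Cn 2 => x 1 / ws :=
    ((EuclideanSpace.proj (𝕜 := ℂ) (1 : Fin 2)).contDiff).div_const ws
  simp only [evL_apply, slc]
  apply ContDiff.sum
  intro j _
  apply ContDiff.mul _ (h0.pow _)
  apply ContDiff.sum
  intro k _
  exact contDiff_const.mul (h1.pow _)

theorem fill {v : Cn 2 → ℝ} (hv : SP v) (hlo : ∀ x ∈ Om, ‖x 0‖ ^ 2 - 1 ≤ v x) (hup : ∀ x ∈ Om, v x ≤ 0)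
    {τ : ℝ} (hτ : 0 < τ) (hτ1 : τ ≤ 1 / 100) {ws : ℂ} (hws : ws ≠ 0) {B : ℝ} {N₁ N' : ℕ}
    {t : Fin N₁ × Fin (N' + 1) → ℤ} (hB : 1 / τ ≤ B) (hBτ : B * τ = N₁) (ht0 : (fun j => t (j, 0)) ≠ 0)
    (htX : ∀ p, |(t p : ℝ)| ≤ Real.exp (B * τ)) (hNN : (N₁ : ℝ) * ((N' + 1 : ℕ) : ℝ) ≤ Real.exp (B * τ))
    (hP : ∀ z y : ℂ, ‖z‖ ≤ 1 - τ → ‖y‖ = 1 →
      ‖evL z (slc t y)‖ ≤ Real.exp (B * (v (pp z (ws * y)) + 7 * τ))) (hws1 : ‖ws‖ < 1) :
    ∃ φ : Cn 2 → ℝ, SP φ ∧ (∀ x ∈ Om, v x ≤ φ x) ∧ (∀ x ∈ Om, φ x ≤ 0) ∧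
      (∀ x ∈ Om, ‖ws‖ ≤ ‖x 1‖ → φ x = v x) ∧ ∫ z in ball (0 : ℂ) 1, -φ (pp z 0) ≤ 34 * τ := by
  have hB0 : 0 < B := lt_of_lt_of_le (by positivity) hB
  have hBinv : 1 / B ≤ τ := by
    rw [div_le_iff₀ hB0]
    rw [div_le_iff₀ hτ] at hB
    linarith
  have hwsn : 0 < ‖ws‖ := norm_pos_iff.2 hws
  set F : Cn 2 → ℂ := fun x => evL (x 0) (slc t (x 1 / ws)) with hF
  set σ : ℝ := Real.exp (-(2 * B)) with hσ
  have hσ0 : 0 < σ := Real.exp_pos _
  set ψ : Cn 2 → ℝ := fun x => (1 / (2 * B)) * Real.log (‖F x‖ ^ 2 + σ ^ 2) + -(9 * τ) with hψ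
  obtain ⟨hψs, hψp⟩ := logpot (hol_poly t ws) hσ0 (by positivity : 0 ≤ 1 / (2 * B)) (-(9 * τ))
  -- logarithmic bounds
  have hlog : ∀ (x : Cn 2) (a : ℝ), -2 ≤ a → ‖F x‖ ≤ Real.exp (B * a) → ψ x ≤ a - 8 * τ := by
    intro x a ha hFx
    have h1 : ‖F x‖ ^ 2 + σ ^ 2 ≤ 2 * Real.exp (2 * (B * a)) := by
      have h2 : ‖F x‖ ^ 2 ≤ Real.exp (2 * (B * a)) := by
        calc ‖F x‖ ^ 2 ≤ (Real.exp (B * a)) ^ 2 := pow_le_pow_left₀ (norm_nonneg _) hFx 2
          _ = Real.exp (2 * (B * a)) := by rw [← Real.exp_nat_mul]; norm_num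
      have h3 : σ ^ 2 ≤ Real.exp (2 * (B * a)) := by
        rw [hσ, ← Real.exp_nat_mul]
        apply Real.exp_le_exp.2
        push_cast
        have := mul_le_mul_of_nonneg_left ha hB0.le
        linarith
      linarith
    have h2 : Real.log (‖F x‖ ^ 2 + σ ^ 2) ≤ Real.log 2 + 2 * (B * a) := by
      have h3 := Real.log_le_log (by positivity) h1
      rwa [Real.log_mul two_ne_zero (Real.exp_ne_zero _), Real.log_exp] at h3
    have h3 : (1 / (2 * B)) * Real.log (‖F x‖ ^ 2 + σ ^ 2) ≤ (1 / (2 * B)) * (Real.log 2 + 2 * (B * a)) :=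
      mul_le_mul_of_nonneg_left h2 (by positivity)
    have h4 : (1 / (2 * B)) * (Real.log 2 + 2 * (B * a)) = (1 / B) * (Real.log 2 / 2) + a := by
      field_simp
    have h5 : (1 / B) * (Real.log 2 / 2) ≤ τ * 1 := by
      apply mul_le_mul hBinv _ _ hτ.le
      · linarith [Real.log_two_lt_d9]
      · have := Real.log_pos one_lt_two
        positivity
    simp only [hψ]
    linarith
  have hA : ∀ x ∈ Om, ‖x 1‖ = ‖ws‖ → ‖x 0‖ ≤ 1 - τ → ψ x < v x := by
    intro x hx hx1 hx0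
    have hy : ‖x 1 / ws‖ = 1 := by rw [norm_div, hx1, div_self hwsn.ne']
    have h1 := hP (x 0) (x 1 / ws) hx0 hy
    rw [mul_div_cancel₀ _ hws, pp_eta] at h1
    have h2 : -1 ≤ v x := by
      have := hlo x hx
      have h3 := sq_nonneg ‖x 0‖
      linarith
    have := hlog x (v x + 7 * τ) (by linarith) h1
    linarith
  have hFB : ∀ x ∈ Om, ‖x 1‖ ≤ ‖ws‖ → ψ x ≤ -(6 * τ) := by
    intro x hx hx1
    have hy : ‖x 1 / ws‖ ≤ 1 := by
      rw [norm_div, div_le_one hwsn]
      exact hx1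
    have h1 := P_le t htX hx.1.le hy
    have h2 : ‖F x‖ ≤ Real.exp (B * (2 * τ)) := by
      refine h1.trans ?_
      calc (N₁ : ℝ) * (((N' + 1 : ℕ) : ℝ) * Real.exp (B * τ))
          = (N₁ * ((N' + 1 : ℕ) : ℝ)) * Real.exp (B * τ) := by ring
        _ ≤ Real.exp (B * τ) * Real.exp (B * τ) := mul_le_mul_of_nonneg_right hNN (Real.exp_nonneg _)
        _ = Real.exp (B * (2 * τ)) := by rw [← Real.exp_add]; ring_nf
    have := hlog x (2 * τ) (by linarith) h2
    linarith
  have hBd : ∀ x ∈ Om, ‖x 1‖ = ‖ws‖ → ψ x < v x := by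
    intro x hx hx1
    by_cases hx0 : ‖x 0‖ ≤ 1 - τ
    · exact hA x hx hx1 hx0
    · push Not at hx0
      have h1 := hFB x hx hx1.le
      have h2 := hlo x hx
      have h3 : (1 - τ) ^ 2 ≤ ‖x 0‖ ^ 2 := by
        have : 0 ≤ 1 - τ := by linarith
        gcongr
      nlinarith
  set φ : Cn 2 → ℝ := fun x => if ‖x 1‖ < ‖ws‖ then glue τ v ψ x else v x with hφ
  have hvc : ContinuousOn v Om := hv.sm.continuousOn
  have hloc : ∀ x ∈ Om, (‖x 1‖ < ‖ws‖ ∧ φ =ᶠ[𝓝 x] glue τ v ψ) ∨ φ =ᶠ[𝓝 x] v := by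
    intro x hx
    rcases lt_trichotomy ‖x 1‖ ‖ws‖ with h | h | h
    · left
      refine ⟨h, ?_⟩
      have : ∀ᶠ y : Cn 2 in 𝓝 x, ‖y 1‖ < ‖ws‖ :=
        (cont_coord 1).norm.continuousAt.eventually (gt_mem_nhds h)
      filter_upwards [this] with y hy
      simp only [hφ, if_pos hy]
    · right
      have h1 := hBd x hx h
      have h2 : ∀ᶠ y in 𝓝 x, ψ y < v y := by
        have hc : ContinuousAt (fun y => v y - ψ y) x :=
          (hvc.continuousAt (Om_open.mem_nhds hx)).sub hψs.continuous.continuousAt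
        have := hc.eventually (lt_mem_nhds (by linarith : 0 < v x - ψ x))
        filter_upwards [this] with y hy
        linarith
      filter_upwards [h2] with y hy
      simp only [hφ]
      split_ifs
      · exact glue_of_le hτ hy.le
      · rfl
    · right
      have : ∀ᶠ y : Cn 2 in 𝓝 x, ‖ws‖ < ‖y 1‖ :=
        (cont_coord 1).norm.continuousAt.eventually (lt_mem_nhds h)
      filter_upwards [this] with y hy
      simp only [hφ, if_neg hy.le.not_gt]
  have hSP : SP φ := by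
    constructor
    · intro x hx
      apply ContDiffAt.contDiffWithinAt
      have hvx : ContDiffAt ℝ ∞ v x := hv.sm.contDiffAt (Om_open.mem_nhds hx)
      rcases hloc x hx with ⟨_, h⟩ | h
      · refine ContDiffAt.congr_of_eventuallyEq ?_ h
        unfold glue
        exact hvx.add (contDiffAt_const.mul (sm_smooth.contDiffAt.comp x
          ((hψs.contDiffAt.sub hvx).div_const τ)))
      · exact hvx.congr_of_eventuallyEq h
    · intro x hx
      rcases hloc x hx with ⟨_, h⟩ | h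
      · rw [hess_congr h]
        obtain ⟨v', hv1, hv2⟩ := copy_pt hv.sm hx
        have h2 : glue τ v ψ =ᶠ[𝓝 x] glue τ v' ψ := by
          filter_upwards [hv2] with y hy
          unfold glue
          rw [hy]
        rw [hess_congr h2]
        apply glue_psd hτ hv1 hψs x _ (hψp x)
        rw [hess_congr hv2]
        exact hv.psd x hx
      · rw [hess_congr h]
        exact hv.psd x hx
  refine ⟨φ, hSP, ?_, ?_, ?_, ?_⟩
  · intro x _
    simp only [hφ]
    split_ifs
    · exact le_glue_left hτ _ _ _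
    · exact le_rfl
  · intro x hx
    simp only [hφ]
    split_ifs with h
    · refine (glue_le hτ _ _ _).trans (max_le (hup x hx) ?_)
      have := hFB x hx h.le
      linarith
    · exact hup x hx
  · intro x _ hx1
    simp only [hφ, if_neg hx1.not_gt]
  · by_cases hint : IntegrableOn (fun z : ℂ => -φ (pp z 0)) (ball 0 1)
    swap
    · rw [integral_undef hint]
      positivity
    set h : Fin N₁ → ℤ := fun j => t (j, 0) with hh
    set G : ℂ → ℝ := fun z => (1 / 2) * Real.log (‖evL z (fun j => (h j : ℂ))‖ ^ 2 + σ ^ 2) with hG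
    have hψG : ∀ z, ψ (pp z 0) = (1 / B) * G z - 9 * τ := by
      intro z
      simp only [hψ, hF, pp_zero, pp_one, zero_div, slc_zero, hG, hh]
      field_simp
      ring
    have hGc : Continuous G := by
      have h1 : Continuous fun z : ℂ => B * (ψ (pp z 0) + 9 * τ) := by
        apply continuous_const.mul
        apply Continuous.add _ continuous_const
        exact hψs.continuous.comp (pp_cont.comp (by fun_prop : Continuous fun z : ℂ => (z, (0 : ℂ))))
      have h2 : G = fun z : ℂ => B * (ψ (pp z 0) + 9 * τ) := by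
        funext z
        rw [hψG]
        field_simp
        ring
      rw [h2]
      exact h1
    have hGi : IntegrableOn G (ball (0 : ℂ) 1) :=
      (hGc.continuousOn.integrableOn_compact (isCompact_closedBall (0 : ℂ) 1)).mono_set ball_subset_closedBall
    have hvol : (volume : Measure ℂ).real (ball (0 : ℂ) 1) = Real.pi := by
      rw [Measure.real, Complex.volume_ball]
      simp
    have h1 : ∫ z in ball (0 : ℂ) 1, -φ (pp z 0) ≤ ∫ z in ball (0 : ℂ) 1, (-(1 / B) * G z + 10 * τ) := by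
      apply setIntegral_mono_on hint _ measurableSet_ball
      · intro z _
        have h2 : φ (pp z 0) = glue τ v ψ (pp z 0) := by
          simp only [hφ, pp_one, norm_zero, if_pos hwsn]
        rw [h2]
        have h3 := le_glue_right hτ v ψ (pp z 0)
        rw [hψG] at h3
        have h4 := mul_le_mul_of_nonneg_right c0_le_one hτ.le
        linarith
      · exact (hGi.const_mul _).add (integrableOn_const (by
          rw [Complex.volume_ball]
          simp))
    have h2 : ∫ z in ball (0 : ℂ) 1, (-(1 / B) * G z + 10 * τ) =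
        -(1 / B) * (∫ z in ball (0 : ℂ) 1, G z) + 10 * τ * Real.pi := by
      rw [integral_add (hGi.const_mul _) (integrableOn_const (by rw [Complex.volume_ball]; simp)),
        integral_const_mul, setIntegral_const, hvol, smul_eq_mul]
      ring
    have h3 := int_log h ht0 (by positivity : 0 < σ ^ 2)
    have h4 : -(1 / B) * (∫ z in ball (0 : ℂ) 1, G z) ≤ Real.pi / 2 * τ := by
      have h5 : (1 / B) * (-(Real.pi / 2) * N₁) ≤ (1 / B) * (∫ z in ball (0 : ℂ) 1, G z) :=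
        mul_le_mul_of_nonneg_left h3 (by positivity)
      have h6 : (1 / B) * (-(Real.pi / 2) * N₁) = -(Real.pi / 2 * τ) := by
        rw [← hBτ]
        field_simp
      linarith
    have h5 : Real.pi ≤ 3.15 := Real.pi_lt_d2.le
    have h6 : Real.pi * τ ≤ 3.15 * τ := mul_le_mul_of_nonneg_right h5 hτ.le
    rw [h2] at h1
    linarith

end Pool.Agent.U574.FC
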