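import Mathlib
import Pool.Agent.U574.FC.Fill

/-!
The filling theorem: if the mean of `-v` over an annulus is small, `v` may be replaced near `w = 0` by a
plurisubharmonic function which is close to zero on `w = 0`.
-/

set_option autoImplicit false
set_option maxHeartbeats 1000000

open MeasureTheory Metric Set Filter Topology
open scoped ContDiff ComplexOrder

namespace Pool.Agent.U574.FC
open Pool.Agent.H805R2

lemma ball_ae (r : ℝ) : (ball (0 : ℂ) r : Set ℂ) =ᵐ[volume] closedBall (0 : ℂ) r :=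
  ae_eq_of_subset_of_measure_ge ball_subset_closedBall
    (Measure.addHaar_closedBall_eq_addHaar_ball (volume : Measure ℂ) (0 : ℂ) r).le
    measurableSet_ball.nullMeasurableSet measure_closedBall_lt_top.ne

lemma Ann_pos {a b : ℝ} (ha : 0 < a) (hab : a < b) : (volume : Measure ℂ) (Ann a b) ≠ 0 := by
  have hopen : IsOpen {w : ℂ | a < ‖w‖ ∧ ‖w‖ < b} :=
    (isOpen_lt continuous_const continuous_norm).inter (isOpen_lt continuous_norm continuous_const)
  have hne : {w : ℂ | a < ‖w‖ ∧ ‖w‖ < b}.Nonempty := by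
    refine ⟨(((a + b) / 2 : ℝ) : ℂ), ?_⟩
    rw [mem_ofPred_eq, Complex.norm_real, Real.norm_eq_abs, abs_of_pos (by linarith)]
    constructor <;> linarith
  have h1 := hopen.measure_pos (volume : Measure ℂ) hne
  have h2 : {w : ℂ | a < ‖w‖ ∧ ‖w‖ < b} ⊆ Ann a b := fun w hw => ⟨hw.1.le, hw.2.le⟩
  exact (h1.trans_le (measure_mono h2)).ne'

/-- rotation invariance -/
lemma rot_ann {a b : ℝ} (c : ℂ) (hc : ‖c‖ = 1) (f : ℂ → ℝ) :
    ∫ w in Ann a b, f (c * w) = ∫ w in Ann a b, f w := by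
  set C : Circle := ⟨c, by simpa [Submonoid.unitSphere] using hc⟩ with hC
  have h1 := (rotation C).measurePreserving.setIntegral_preimage_emb
    (rotation C).toHomeomorph.measurableEmbedding f (Ann a b)
  have h2 : (rotation C) ⁻¹' (Ann a b) = Ann a b := by
    ext w
    simp only [mem_preimage, Ann, mem_ofPred_eq]
    rw [LinearIsometryEquiv.norm_map]
  rw [h2] at h1
  rw [← h1]
  rfl

/-- a good direction -/
lemma good_dir {I : ℂ → ℝ} {a b κ : ℝ} (ha : 0 < a) (hab : a < b) (hI : ContinuousOn I (Ann a b))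
    (havg : ∫ w in Ann a b, I w * (‖w‖ ^ 2)⁻¹ ≤ κ * ∫ w in Ann a b, (‖w‖ ^ 2)⁻¹) (M : ℕ) :
    ∃ ws ∈ Ann a b, ∑ α ∈ Finset.range M, I (ws * rou M α) ≤ κ * M := by
  have hm : MeasurableSet (Ann a b) := (Ann_compact a b).isClosed.measurableSet
  have hwc : ContinuousOn (fun w : ℂ => (‖w‖ ^ 2)⁻¹) (Ann a b) := by
    apply ContinuousOn.inv₀ (by fun_prop)
    intro w hw
    have : 0 < ‖w‖ := ha.trans_le hw.1
    positivity
  have hmaps : ∀ α, MapsTo (fun w : ℂ => rou M α * w) (Ann a b) (Ann a b) := by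
    intro α w hw
    simp only [Ann, mem_ofPred_eq, norm_mul, rou_norm, one_mul]
    exact hw
  have hci : ∀ α, ContinuousOn (fun w : ℂ => I (rou M α * w) * (‖w‖ ^ 2)⁻¹) (Ann a b) := fun α =>
    (hI.comp (by fun_prop) (hmaps α)).mul hwc
  have hwi : IntegrableOn (fun w : ℂ => (‖w‖ ^ 2)⁻¹) (Ann a b) := hwc.integrableOn_compact (Ann_compact a b)
  have hint : ∀ α, IntegrableOn (fun w : ℂ => I (rou M α * w) * (‖w‖ ^ 2)⁻¹) (Ann a b) := fun α =>
    (hci α).integrableOn_compact (Ann_compact a b)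
  set f : ℂ → ℝ := fun w => (∑ α ∈ Finset.range M, I (rou M α * w) * (‖w‖ ^ 2)⁻¹) - κ * M * (‖w‖ ^ 2)⁻¹
    with hf
  have hfi : IntegrableOn f (Ann a b) :=
    (integrable_finset_sum _ fun α _ => hint α).sub (hwi.const_mul _)
  have hle : ∫ w in Ann a b, f w ≤ 0 := by
    rw [hf, integral_sub (integrable_finset_sum _ fun α _ => hint α) (hwi.const_mul _),
      integral_finset_sum _ fun α _ => hint α, integral_const_mul]
    have h1 : ∀ α ∈ Finset.range M, ∫ w in Ann a b, I (rou M α * w) * (‖w‖ ^ 2)⁻¹ =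
        ∫ w in Ann a b, I w * (‖w‖ ^ 2)⁻¹ := by
      intro α _
      have := rot_ann (a := a) (b := b) (rou M α) (rou_norm M α) fun w => I w * (‖w‖ ^ 2)⁻¹
      simp only [norm_mul, rou_norm, one_mul] at this
      exact this
    rw [Finset.sum_congr rfl h1, Finset.sum_const, Finset.card_range, nsmul_eq_mul]
    have h2 := mul_le_mul_of_nonneg_left havg (Nat.cast_nonneg M : (0 : ℝ) ≤ M)
    linarith
  obtain ⟨ws, hws, h1⟩ := exists_le_setAverage (Ann_pos ha hab) (Ann_compact a b).measure_lt_top.ne hfi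
  refine ⟨ws, hws, ?_⟩
  have h2 : f ws ≤ 0 := by
    refine h1.trans ?_
    rw [setAverage_eq, smul_eq_mul]
    exact mul_nonpos_of_nonneg_of_nonpos (by positivity) hle
  have hw0 : 0 < ‖ws‖ := ha.trans_le hws.1
  have h3 : f ws = ((∑ α ∈ Finset.range M, I (rou M α * ws)) - κ * M) * (‖ws‖ ^ 2)⁻¹ := by
    simp only [hf]
    rw [sub_mul, Finset.sum_mul]
  rw [h3] at h2
  have h4 : 0 < (‖ws‖ ^ 2)⁻¹ := by positivity
  have h5 : (∑ α ∈ Finset.range M, I (rou M α * ws)) - κ * M ≤ 0 := by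
    by_contra hcon
    push Not at hcon
    have := mul_pos hcon h4
    linarith
  have h6 : ∀ α ∈ Finset.range M, I (ws * rou M α) = I (rou M α * ws) := fun α _ => by rw [mul_comm]
  rw [Finset.sum_congr rfl h6]
  linarith

theorem ew {v : Cn 2 → ℝ} (hv : SP v) (hlo : ∀ x ∈ Om, ‖x 0‖ ^ 2 - 1 ≤ v x) (hup : ∀ x ∈ Om, v x ≤ 0)
    {τ : ℝ} (hτ : 0 < τ) (hτ1 : τ ≤ 1 / 100) {a b : ℝ} (ha : 0 < a) (hab : a < b) (hb : b < 1)
    (havg : ∫ w in Ann a b, (∫ z in ball (0 : ℂ) (1 - τ / 4), -v (pp z w)) * (‖w‖ ^ 2)⁻¹ ≤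
      τ ^ 5 / 1000000 * ∫ w in Ann a b, (‖w‖ ^ 2)⁻¹) :
    ∃ ρ ∈ Icc a b, ∃ φ : Cn 2 → ℝ, SP φ ∧ (∀ x ∈ Om, v x ≤ φ x) ∧ (∀ x ∈ Om, φ x ≤ 0) ∧
      (∀ x ∈ Om, ρ ≤ ‖x 1‖ → φ x = v x) ∧ ∫ z in ball (0 : ℂ) 1, -φ (pp z 0) ≤ 34 * τ := by
  set K : Set (Cn 2) := {x | ‖x 0‖ ≤ 1 - τ / 4 ∧ a ≤ ‖x 1‖ ∧ ‖x 1‖ ≤ b} with hK
  have hKc : IsCompact K := by
    apply (KR_compact 1).of_isClosed_subset
    · exact (isClosed_le (cont_coord 0).norm continuous_const).inter
        ((isClosed_le continuous_const (cont_coord 1).norm).inter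
          (isClosed_le (cont_coord 1).norm continuous_const))
    · intro x hx
      exact ⟨hx.1.trans (by linarith), hx.2.2.trans hb.le⟩
  have hKO : K ⊆ Om := fun x hx => ⟨hx.1.trans_lt (by linarith), hx.2.2.trans_lt hb⟩
  obtain ⟨u, W, hus, hW, hKW, hWO, huv, _, _⟩ := copy hv.sm hKc hKO
  have hppK : ∀ z w : ℂ, ‖z‖ ≤ 1 - τ / 4 → w ∈ Ann a b → pp z w ∈ K := by
    intro z w hz hw
    rw [hK, mem_ofPred_eq, pp_zero, pp_one]
    exact ⟨hz, hw.1, hw.2⟩
  -- uniform continuity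
  have huc := hKc.uniformContinuousOn_of_continuous hus.continuous.continuousOn
  rw [Metric.uniformContinuousOn_iff] at huc
  obtain ⟨δ', hδ', hδ⟩ := huc τ hτ
  set δ := δ' / 3 with hδd
  have hδ0 : 0 < δ := by positivity
  obtain ⟨M, hM⟩ := exists_nat_gt (2 * Real.pi / δ)
  have hM0 : 0 < M := by
    have : (0 : ℝ) < M := lt_trans (by positivity) hM
    exact_mod_cast this
  have hM' : (0 : ℝ) < M := by exact_mod_cast hM0
  have hMδ : 2 * Real.pi / M ≤ δ := by
    rw [div_le_iff₀ hM']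
    rw [div_lt_iff₀ hδ0] at hM
    linarith
  -- slice integrals
  set I : ℂ → ℝ := fun w => ∫ z in ball (0 : ℂ) (1 - τ / 4), -v (pp z w) with hI
  have hIu : ∀ w ∈ Ann a b, I w = ∫ z in closedBall (0 : ℂ) (1 - τ / 4), -u (pp z w) := by
    intro w hw
    rw [hI]
    simp only
    rw [setIntegral_congr_set (ball_ae (1 - τ / 4))]
    apply setIntegral_congr_fun measurableSet_closedBall
    intro z hz
    rw [mem_closedBall_zero_iff] at hz
    simp only
    rw [huv _ (hKW (hppK z w hz hw))]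
  have hIc : ContinuousOn I (Ann a b) := by
    have h1 : Continuous fun w : ℂ => ∫ z in closedBall (0 : ℂ) (1 - τ / 4), -u (pp z w) := by
      apply continuous_parametric_integral_of_continuous (f := fun w z => -u (pp z w)) _
        (isCompact_closedBall _ _)
      exact (hus.continuous.comp (pp_cont.comp continuous_swap)).neg
    exact h1.continuousOn.congr hIu
  obtain ⟨ws, hws, hsum⟩ := good_dir ha hab hIc havg M
  have hws0 : ws ≠ 0 := by
    intro h
    have := hws.1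
    rw [h, norm_zero] at this
    linarith
  have hwsy : ∀ y : ℂ, ‖y‖ = 1 → ws * y ∈ Ann a b := by
    intro y hy
    simp only [Ann, mem_ofPred_eq, norm_mul, hy, mul_one]
    exact hws
  have huvp : ∀ z y : ℂ, ‖z‖ ≤ 1 - τ / 4 → ‖y‖ = 1 → u (pp z (ws * y)) = v (pp z (ws * y)) :=
    fun z y hz hy => huv _ (hKW (hppK z _ hz (hwsy y hy)))
  have hIu' : ∀ α, I (ws * rou M α) = ∫ z in ball (0 : ℂ) (1 - τ / 4), -u (pp z (ws * rou M α)) := by
    intro α
    apply setIntegral_congr_fun measurableSet_ball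
    intro z hz
    rw [mem_ball_zero_iff] at hz
    simp only
    rw [huvp z _ hz.le (rou_norm M α)]
  obtain ⟨B, N₁, N₂, t, hB, hBτ, ht0, htX, hNN, hP⟩ := core hus hτ hτ1 ws hM0 hδ0 hMδ
    (fun z y hz hy => by
      have h1 := hppK z _ hz (hwsy y hy)
      have h2 : u =ᶠ[𝓝 (pp z (ws * y))] v := by
        filter_upwards [hW.mem_nhds (hKW h1)] with x hx using huv x hx
      rw [levi_congr h2]
      exact (psd_iff_at hv.sm (hKO h1)).1 (hv.psd _ (hKO h1)) _)
    (fun z y hz hy => by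
      rw [huvp z y hz hy]
      exact hup _ (hKO (hppK z _ hz (hwsy y hy))))
    (fun z y hz hy => by
      rw [huvp z y hz hy]
      have := hlo _ (hKO (hppK z _ hz (hwsy y hy)))
      have h2 := sq_nonneg ‖(pp z (ws * y)) 0‖
      linarith)
    (fun z y y' hz hy hy' hyy => by
      have h1 : dist (pp z (ws * y)) (pp z (ws * y')) < δ' := by
        rw [dist_eq_norm]
        have e1 : pp z (ws * y) - pp z (ws * y') = (ws * (y - y')) • bas 1 := by
          unfold pp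
          rw [mul_sub, sub_smul]
          abel
        rw [e1, norm_smul, norm_mul]
        have e2 : ‖(bas 1 : Cn 2)‖ = 1 := by simp [bas]
        rw [e2, mul_one]
        have e3 : ‖ws‖ ≤ 1 := hws.2.trans hb.le
        calc ‖ws‖ * ‖y - y'‖ ≤ 1 * (2 * δ) := mul_le_mul e3 hyy (norm_nonneg _) zero_le_one
          _ < δ' := by rw [hδd]; linarith
      have h2 := hδ _ (hppK z _ hz (hwsy y hy)) _ (hppK z _ hz (hwsy y' hy')) h1
      rw [Real.dist_eq] at h2
      have := (abs_lt.1 h2).2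
      linarith)
    (by simp only [← hIu']; exact hsum)
  obtain ⟨N', k, t', h1, h2, h3, h4⟩ := drop_pow t ht0
  have hP' : ∀ z y : ℂ, ‖z‖ ≤ 1 - τ → ‖y‖ = 1 →
      ‖evL z (slc t' y)‖ ≤ Real.exp (B * (v (pp z (ws * y)) + 7 * τ)) := by
    intro z y hz hy
    have h5 := hP z y hz hy
    rw [h4 y, map_smul, norm_smul, norm_pow, hy, one_pow, one_mul,
      huvp z y (hz.trans (by linarith)) hy] at h5
    exact h5
  have hNN' : (N₁ : ℝ) * ((N' + 1 : ℕ) : ℝ) ≤ Real.exp (B * τ) := by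
    refine le_trans ?_ hNN
    apply mul_le_mul_of_nonneg_left _ (Nat.cast_nonneg _)
    exact_mod_cast h1
  obtain ⟨φ, g1, g2, g3, g4, g5⟩ := fill hv hlo hup hτ hτ1 hws0 hB hBτ h2 (h3 _ htX) hNN' hP'
    (hws.2.trans_lt hb)
  exact ⟨‖ws‖, hws, φ, g1, g2, g3, g4, g5⟩

end Pool.Agent.U574.FC
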