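import Mathlib
import Pool.Agent.U574.FC.Tools

/-!
The Monge-Ampère mass near `w = 0` of a plurisubharmonic function bounded below by `S (‖z‖² - 1)`.
-/

set_option autoImplicit false
set_option maxHeartbeats 1000000

open MeasureTheory Metric Set Filter Topology
open scoped ContDiff ComplexOrder

namespace Pool.Agent.U574.FC
open Pool.Agent.H805R2

lemma qc_indep (x : Cn 2) (c : ℂ) : qc 1 (x + c • bas 0) = qc 1 x := by
  have : (x + c • bas 0 : Cn 2) 1 = x 1 := by simp [bas]
  unfold qc
  rw [this]

/-- the profile of the cut-off -/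
noncomputable def Fc (t : ℝ) : ℝ := Real.smoothTransition (2 * t + 4)

/-- a bump dominating its second derivative -/
noncomputable def Gc (t : ℝ) : ℝ := Real.smoothTransition (2 * t + 5) - Real.smoothTransition (2 * t + 3)

lemma Fc_smooth : ContDiff ℝ ∞ Fc := Real.smoothTransition.contDiff.comp (by fun_prop)

lemma Gc_smooth : ContDiff ℝ ∞ Gc :=
  (Real.smoothTransition.contDiff.comp (by fun_prop)).sub (Real.smoothTransition.contDiff.comp (by fun_prop))

lemma Fc_zero : ∀ t ≤ (-2 : ℝ), Fc t = 0 := fun t ht => Real.smoothTransition.zero_of_nonpos (by linarith)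

lemma Fc_one {t : ℝ} (ht : -(3 / 2) ≤ t) : Fc t = 1 := Real.smoothTransition.one_of_one_le (by linarith)

lemma Gc_zero : ∀ t ≤ (-(5 / 2) : ℝ), Gc t = 0 := by
  intro t ht
  unfold Gc
  rw [Real.smoothTransition.zero_of_nonpos (by linarith), Real.smoothTransition.zero_of_nonpos (by linarith), sub_zero]

lemma Gc_zero' {t : ℝ} (ht : -1 ≤ t) : Gc t = 0 := by
  unfold Gc
  rw [Real.smoothTransition.one_of_one_le (by linarith), Real.smoothTransition.one_of_one_le (by linarith), sub_self]

lemma Gc_nonneg (t : ℝ) : 0 ≤ Gc t := by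
  unfold Gc
  have := Real.smoothTransition.monotone (show 2 * t + 3 ≤ 2 * t + 5 by linarith)
  linarith

lemma Gc_le (t : ℝ) : Gc t ≤ 1 := by
  unfold Gc
  have := Real.smoothTransition.le_one (2 * t + 5)
  have := Real.smoothTransition.nonneg (2 * t + 3)
  linarith

lemma Fc_dom : ∃ B : ℝ, 0 ≤ B ∧ ∀ t, |deriv (deriv Fc) t| ≤ B * Gc t := by
  have hF' : ContDiff ℝ ∞ (deriv Fc) := by
    have := Fc_smooth
    rw [contDiff_infty_iff_deriv] at this
    exact this.2
  have hc : Continuous (deriv (deriv Fc)) := hF'.continuous_deriv (by simp)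
  obtain ⟨B, hB⟩ := (isCompact_Icc (a := (-2 : ℝ)) (b := -(3 / 2))).exists_bound_of_continuousOn hc.continuousOn
  refine ⟨max B 0, le_max_right _ _, fun t => ?_⟩
  by_cases ht : t ∈ Icc (-2 : ℝ) (-(3 / 2))
  · have h1 : Gc t = 1 := by
      unfold Gc
      rw [Real.smoothTransition.one_of_one_le (by linarith [ht.1]),
        Real.smoothTransition.zero_of_nonpos (by linarith [ht.2]), sub_zero]
    rw [h1, mul_one]
    exact (hB t ht).trans (le_max_left _ _)
  · have h0 : deriv (deriv Fc) t = 0 := by
      rcases lt_or_ge t (-2) with h | h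
      · exact deriv_zero_of hF' (deriv_zero_of Fc_smooth Fc_zero) t h.le
      · have h2 : -(3 / 2) < t := by
          by_contra hcon
          exact ht ⟨h, not_lt.1 hcon⟩
        have h3 : deriv Fc =ᶠ[𝓝 t] fun _ => 0 := by
          filter_upwards [lt_mem_nhds h2] with s hs
          have h4 : Fc =ᶠ[𝓝 s] fun _ => 1 := by
            filter_upwards [lt_mem_nhds hs] with y hy
            exact Fc_one hy.le
          rw [h4.deriv_eq]
          simp
        rw [h3.deriv_eq]
        simp
    rw [h0, abs_zero]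
    exact mul_nonneg (le_max_right _ _) (Gc_nonneg t)

lemma qc_log {x : Cn 2} {s : ℝ} (h : s < ‖x 1‖) (hs : 0 < s) : 2 * Real.log s < Real.log (qc 1 x) := by
  unfold qc
  rw [Real.log_pow]
  have := Real.log_lt_log hs h
  push_cast
  linarith

theorem m2 : ∃ C : ℝ, 0 < C ∧ ∀ {S T r : ℝ}, 0 < S → 0 < T → 0 ≤ r → r < 1 → ∀ {V : Cn 2 → ℝ}, SP V →
    (∀ x ∈ Om, V x ≤ 0) → (∀ x ∈ Om, S * pc 0 x ≤ V x) →
    ∫ x in {x : Cn 2 | ‖x 0‖ ≤ r ∧ ‖x 1‖ ≤ Real.exp (-T)}, Hd V x ≤ C * S ^ 2 / T := by
  obtain ⟨B, hB0, hB⟩ := Fc_dom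
  refine ⟨12 * Real.pi ^ 2 * (B + 1), by positivity, ?_⟩
  intro S T r hS hT hr0 hr1 V hV hV0 hVS
  set s := 1 - r ^ 2 with hs
  have hs0 : 0 < s := by rw [hs]; nlinarith
  have hs1 : s ≤ 1 := by rw [hs]; nlinarith
  set ε := S * s / 8 with hε
  have hε0 : 0 < ε := by positivity
  set a : Cn 2 → ℝ := fun x => 1 / 2 * V x + (-ε) with ha
  set b : Cn 2 → ℝ := fun x => S * pc 0 x with hb
  have hbs : ContDiff ℝ ∞ b := contDiff_const.mul (pc_smooth 0)
  have hasp : SP a := sp_affine hV (by norm_num) (-ε)
  have hbsp : SP b := sp_smul (pc_sp 0) hS.le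
  set Q := glue ε b a with hQ
  have hQsp : SP Q := glue_sp hε0 hbsp hasp
  set r₁ := Real.sqrt (1 - s / 8) with hr₁
  have hr₁sq : r₁ ^ 2 = 1 - s / 8 := Real.sq_sqrt (by linarith)
  have hr₁0 : 0 ≤ r₁ := Real.sqrt_nonneg _
  have hr₁1 : r₁ < 1 := by nlinarith
  have hrr₁ : r ≤ r₁ := by
    apply Real.le_sqrt_of_sq_le
    rw [hs]
    nlinarith
  set ρ₁ := Real.exp (-(T / 2)) with hρ₁
  have hρ0 : 0 < ρ₁ := Real.exp_pos _
  have hρ1 : ρ₁ < 1 := by
    rw [hρ₁, Real.exp_lt_one_iff]
    linarith
  set D : Set (Cn 2) := {x | ‖x 0‖ ≤ r₁ ∧ ‖x 1‖ ≤ ρ₁} with hD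
  have hDcl : IsClosed D := (isClosed_le (cont_coord 0).norm continuous_const).inter
    (isClosed_le (cont_coord 1).norm continuous_const)
  have hDc : IsCompact D := (KR_compact 1).of_isClosed_subset hDcl
    fun x hx => ⟨hx.1.trans hr₁1.le, hx.2.trans hρ1.le⟩
  have hDO : D ⊆ Om := fun x hx => ⟨hx.1.trans_lt hr₁1, hx.2.trans_lt hρ1⟩
  obtain ⟨K1, hK1, hDK1, hK1O⟩ := exists_compact_between hDc Om_open hDO
  obtain ⟨χ, hχs, hχc, hχO, hχ1, hχ01⟩ := cutoff hK1 Om_open hK1O
  set c : Cn 2 → ℝ := fun x => χ x * (Q x - b x) with hc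
  have hcs : ContDiff ℝ ∞ c := cutoff_mul_smooth Om_open hχs (hQsp.sm.sub hbs.contDiffOn) hχO
  have hcc : HasCompactSupport c := hχc.mul_right
  set g : Cn 2 → ℝ := fun x => 1 - lg Fc T (qc 1 x) with hg
  have hls : ContDiff ℝ ∞ fun x : Cn 2 => lg Fc T (qc 1 x) :=
    (lg_smooth Fc_smooth hT Fc_zero).comp (qc_smooth 1)
  have hgs : ContDiff ℝ ∞ g := contDiff_const.sub hls
  -- local descriptions
  have hnb : ∀ x ∈ D, (fun y => b y + c y) =ᶠ[𝓝 x] Q := by
    intro x hx
    filter_upwards [isOpen_interior.mem_nhds (hDK1 hx)] with y hy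
    simp only [hc, hχ1 y (interior_subset hy), one_mul]
    ring
  have hfz : ∀ x ∈ Om, r₁ < ‖x 0‖ → Q x = b x := by
    intro x hx hxr
    apply glue_of_le hε0
    have h1 := hV0 x hx
    have h2 : r₁ ^ 2 < ‖x 0‖ ^ 2 := by gcongr
    simp only [ha, hb, pc]
    have h3 : S * (1 - s / 8 - 1) ≤ S * (‖x 0‖ ^ 2 - 1) := by
      apply mul_le_mul_of_nonneg_left _ hS.le
      linarith
    have h4 : S * (1 - s / 8 - 1) = -ε := by rw [hε]; ring
    linarith
  have hcz : ∀ x, r₁ < ‖x 0‖ → c x = 0 := by
    intro x hx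
    by_cases hxO : x ∈ tsupport χ
    · simp only [hc, hfz x (hχO hxO) hx, sub_self, mul_zero]
    · simp only [hc, image_eq_zero_of_notMem_tsupport hxO, zero_mul]
  have hcze : ∀ x, r₁ < ‖x 0‖ → c =ᶠ[𝓝 x] fun _ => 0 := by
    intro x hx
    filter_upwards [(isOpen_lt continuous_const (cont_coord 0).norm).mem_nhds hx] with y hy
    exact hcz y hy
  -- the cut-off
  have hg01 : ∀ x, 0 ≤ g x ∧ g x ≤ 1 := by
    intro x
    simp only [hg, lg]
    split_ifs
    · norm_num
    · unfold Fc
      have h1 := Real.smoothTransition.nonneg (2 * (Real.log (qc 1 x) / T) + 4)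
      have h2 := Real.smoothTransition.le_one (2 * (Real.log (qc 1 x) / T) + 4)
      constructor <;> linarith
  have hqT : ∀ x : Cn 2, ρ₁ < ‖x 1‖ → 0 < qc 1 x ∧ -1 < Real.log (qc 1 x) / T := by
    intro x hx
    have h0 : 0 < ‖x 1‖ := hρ0.trans hx
    refine ⟨by unfold qc; positivity, ?_⟩
    have h1 := qc_log hx hρ0
    rw [hρ₁, Real.log_exp] at h1
    rw [lt_div_iff₀ hT]
    linarith
  have hgz : ∀ x : Cn 2, ρ₁ < ‖x 1‖ → g x = 0 := by
    intro x hx
    obtain ⟨h1, h2⟩ := hqT x hx
    simp only [hg]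
    rw [lg_pos h1, Fc_one (by linarith), sub_self]
  have hlev : ∀ x, levi g x (bas 1) = -(lgd (deriv (deriv Fc)) T (qc 1 x) / T ^ 2) := by
    intro x
    simp only [hg]
    rw [levi_sub (f := fun _ => (1 : ℝ)) contDiff_const (hls.of_le ss_le), lg_levi Fc_smooth hT Fc_zero]
    have : levi (fun _ : Cn 2 => (1 : ℝ)) x (bas 1) = 0 := by
      unfold levi D2
      have h1 : fderiv ℝ (fun _ : Cn 2 => (1 : ℝ)) = fun _ => 0 := by
        funext y
        exact fderiv_const_apply _
      rw [h1]
      simp
    rw [this, zero_sub]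
  set m : Cn 2 → ℝ := fun x => B * lgd Gc T (qc 1 x) / T ^ 2 with hm
  have hms : ContDiff ℝ ∞ m :=
    (contDiff_const.mul ((lgd_smooth Gc_smooth hT Gc_zero).comp (qc_smooth 1))).div_const _
  have hm0 : ∀ x, 0 ≤ m x := by
    intro x
    simp only [hm, lgd]
    split_ifs with h
    · simp
    · have := Gc_nonneg (Real.log (qc 1 x) / T)
      have : 0 < qc 1 x := not_le.1 h
      positivity
  have hmdom : ∀ x, |levi g x (bas 1)| ≤ m x := by
    intro x
    rw [hlev, abs_neg, abs_div, abs_of_pos (show 0 < T ^ 2 by positivity)]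
    simp only [hm]
    apply div_le_div_of_nonneg_right _ (by positivity)
    unfold lgd
    split_ifs with h
    · simp
    · have h1 : 0 < qc 1 x := not_le.1 h
      rw [abs_div, abs_of_pos h1, ← mul_div_assoc]
      exact div_le_div_of_nonneg_right (hB _) h1.le
  have hmz : ∀ x : Cn 2, ρ₁ < ‖x 1‖ → m x = 0 := by
    intro x hx
    obtain ⟨h1, h2⟩ := hqT x hx
    simp only [hm]
    rw [lgd_pos h1, Gc_zero' h2.le]
    simp
  -- pointwise facts on `D`
  have hleb : ∀ x, levi b x (bas 0) = S := by
    intro x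
    simp only [hb]
    rw [levi_const_mul _ ((pc_smooth 0).of_le ss_le)]
    have h1 : levi (pc 0) x (bas 0) = 1 := by
      have := hess_diag (pc_smooth 0) x 0
      rw [hess_pc0] at this
      simp at this
      exact_mod_cast this.symm
    rw [h1, mul_one]
  have hSl : ∀ x ∈ D, 0 ≤ S + levi c x (bas 0) := by
    intro x hx
    have h1 := (psd_iff_at hQsp.sm (hDO hx)).1 (hQsp.psd x (hDO hx)) (bas 0)
    rw [← levi_congr (hnb x hx), levi_add (hbs.of_le ss_le) (hcs.of_le ss_le), hleb] at h1
    exact h1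
  have hc0S : ∀ x ∈ D, 0 ≤ c x ∧ c x ≤ S := by
    intro x hx
    have h1 : c x = Q x - b x := by
      have := (hnb x hx).self_of_nhds
      linarith
    rw [h1]
    have h2 := le_glue_left hε0 b a x
    have h3 := glue_le hε0 b a x
    refine ⟨by linarith, ?_⟩
    have h4 := hV0 x (hDO hx)
    have h5 := pc_ge 0 x
    have h6 : -S ≤ b x := by
      simp only [hb]
      nlinarith
    have h7 : b x ≤ 0 := by
      simp only [hb]
      exact mul_nonpos_of_nonneg_of_nonpos hS.le (pc_neg (hDO hx)).le
    have h8 : a x ≤ 0 := by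
      simp only [ha]
      linarith
    have h9 := h3.trans (max_le h7 h8)
    linarith
  have hHb : ∀ x, (hess b x).det.re = 0 := by
    intro x
    have : hess b x = (S : ℂ) • hess (pc 0) x := hess_const_mul S (pc_smooth 0) x
    rw [this, hess_pc0, Matrix.det_smul, Matrix.det_fin_two]
    simp
  -- the path formula
  have hpf := path_formula b c g hbs hcs hgs hcc
  have hbc : ContDiff ℝ ∞ fun x => b x + c x := hbs.add hcs
  have hpos : ∀ x, 0 ≤ g x * ((hess (fun z => b z + c z) x).det.re - (hess b x).det.re) := by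
    intro x
    rw [hHb, sub_zero]
    by_cases hxD : x ∈ D
    · apply mul_nonneg (hg01 x).1
      rw [hess_congr (hnb x hxD)]
      exact det_hess_nonneg (hQsp.psd x (hDO hxD))
    · by_cases hx0 : ‖x 0‖ ≤ r₁
      · have hx1 : ρ₁ < ‖x 1‖ := by
          by_contra hcon
          exact hxD ⟨hx0, not_lt.1 hcon⟩
        rw [hgz x hx1, zero_mul]
      · have h1 : (fun z => b z + c z) =ᶠ[𝓝 x] b := by
          filter_upwards [hcze x (not_le.1 hx0)] with y hy
          rw [hy, add_zero]
        rw [hess_congr h1, hHb, mul_zero]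
  set A : Set (Cn 2) := {x | ‖x 0‖ ≤ r ∧ ‖x 1‖ ≤ Real.exp (-T)} with hA
  have hAcl : IsClosed A := (isClosed_le (cont_coord 0).norm continuous_const).inter
    (isClosed_le (cont_coord 1).norm continuous_const)
  have hAD : A ⊆ D := fun x hx => ⟨hx.1.trans hrr₁, hx.2.trans (by
    rw [hρ₁]
    exact Real.exp_le_exp.2 (by linarith))⟩
  have hint : Integrable fun x => g x * ((hess (fun z => b z + c z) x).det.re - (hess b x).det.re) := by
    apply Continuous.integrable_of_hasCompactSupport
    · exact hgs.continuous.mul ((det_hess_continuous hbc).sub (det_hess_continuous hbs))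
    · apply HasCompactSupport.intro hcc
      intro x hx
      have h1 : (fun z => b z + c z) =ᶠ[𝓝 x] b := by
        filter_upwards [notMem_tsupport_iff_eventuallyEq.1 hx] with y hy
        rw [hy]
        simp
      rw [hess_congr h1, sub_self, mul_zero]
  have hlow : 1 / 4 * ∫ x in A, Hd V x ≤
      ∫ x, g x * ((hess (fun z => b z + c z) x).det.re - (hess b x).det.re) := by
    have h1 : 1 / 4 * ∫ x in A, Hd V x =
        ∫ x in A, g x * ((hess (fun z => b z + c z) x).det.re - (hess b x).det.re) := by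
      rw [← integral_const_mul]
      apply setIntegral_congr_fun hAcl.measurableSet
      intro x hx
      have hxO := hDO (hAD hx)
      simp only
      have hgx : g x = 1 := by
        simp only [hg, lg]
        split_ifs with hq
        · ring
        · have hq0 : 0 < qc 1 x := not_le.1 hq
          have h2 : Real.log (qc 1 x) / T ≤ -2 := by
            rw [div_le_iff₀ hT]
            unfold qc at *
            have h3 : 0 < ‖x 1‖ := by
              rcases (norm_nonneg (x 1)).eq_or_lt with h | h
              · rw [← h] at hq0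
                norm_num at hq0
              · exact h
            rw [Real.log_pow]
            have := Real.log_le_log h3 hx.2
            rw [Real.log_exp] at this
            push_cast
            linarith
          rw [Fc_zero _ h2, sub_zero]
      have h4 : Q =ᶠ[𝓝 x] fun y => 1 / 2 * V y + (-ε - c0 * ε) := by
        have h5 : b x + ε < a x := by
          have h6 := hVS x hxO
          simp only [ha, hb]
          have h7 : S * s ≤ -(S * pc 0 x) := by
            unfold pc
            have : ‖x 0‖ ^ 2 ≤ r ^ 2 := by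
              have := hx.1
              gcongr
            rw [hs]
            nlinarith
          have h8 : ε = S * s / 8 := hε
          have h9 : 0 < S * s := by positivity
          linarith
        have h6 : ContinuousAt (fun y => b y + ε) x := hbs.continuous.continuousAt.add continuousAt_const
        have h7 : ContinuousAt a x := hasp.sm.continuousOn.continuousAt (Om_open.mem_nhds hxO)
        filter_upwards [h6.eventually_lt h7 h5] with y hy
        rw [hQ, glue_of_ge hε0 hy.le]
        simp only [ha]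
        ring
      have h5 := Hd_affine_at hV.sm (1 / 2) (-ε - c0 * ε) hxO
      rw [hgx, hHb, hess_congr (hnb x (hAD hx)), hess_congr h4]
      unfold Hd at h5 ⊢
      rw [h5]
      ring
    rw [h1]
    exact setIntegral_le_integral hint (Eventually.of_forall hpos)
  -- the upper bound
  set Bd0 : Cn 2 → ℝ := fun x => S * m x * (2 * S + levi c x (bas 0)) with hBd0
  have hlc : Continuous fun x => levi c x (bas 0) :=
    levi_continuous (hcs.of_le ss_le) (bas 0)
  have hBdc : Continuous Bd0 := (continuous_const.mul hms.continuous).mul (continuous_const.add hlc)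
  have hpt : ∀ τ ∈ Icc (0 : ℝ) 1, ∀ x,
      ‖c x * (((hess b x + (τ : ℂ) • hess c x).adjugate * hess g x).trace).re‖ ≤ D.indicator Bd0 x := by
    intro τ hτ x
    rw [tr_one hgs (fun x c => by simp only [hg]; rw [qc_indep])]
    have h1 : (hess b x + (τ : ℂ) • hess c x) 0 0 = ((S + τ * levi c x (bas 0) : ℝ) : ℂ) := by
      rw [Matrix.add_apply, Matrix.smul_apply, hess_diag hbs, hess_diag hcs, hleb]
      push_cast
      rfl
    rw [h1, ← Complex.ofReal_mul, Complex.ofReal_re, Real.norm_eq_abs]
    by_cases hxD : x ∈ D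
    · rw [indicator_of_mem hxD]
      obtain ⟨h2, h3⟩ := hc0S x hxD
      have h4 := hSl x hxD
      have h5 : 0 ≤ S + τ * levi c x (bas 0) := by nlinarith [hτ.1, hτ.2]
      have h6 : S + τ * levi c x (bas 0) ≤ 2 * S + levi c x (bas 0) := by nlinarith [hτ.1, hτ.2]
      rw [abs_mul (c x), abs_mul (S + τ * levi c x (bas 0)), abs_of_nonneg h2, abs_of_nonneg h5]
      have h7 := hmdom x
      have h8 := hm0 x
      simp only [hBd0]
      calc c x * ((S + τ * levi c x (bas 0)) * |levi g x (bas 1)|)
          ≤ S * ((2 * S + levi c x (bas 0)) * m x) := by gcongr; linarith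
        _ = S * m x * (2 * S + levi c x (bas 0)) := by ring
    · rw [indicator_of_notMem hxD]
      by_cases hx0 : ‖x 0‖ ≤ r₁
      · have hx1 : ρ₁ < ‖x 1‖ := by
          by_contra hcon
          exact hxD ⟨hx0, not_lt.1 hcon⟩
        have h2 := hmdom x
        rw [hmz x hx1] at h2
        have h3 : levi g x (bas 1) = 0 := abs_nonpos_iff.1 h2
        rw [h3]
        simp
      · rw [hcz x (not_le.1 hx0)]
        simp
  have hBi : IntegrableOn Bd0 D := hBdc.continuousOn.integrableOn_compact hDc
  have hup : ‖∫ τ in (0 : ℝ)..1, ∫ x, c x * (((hess b x + (τ : ℂ) • hess c x).adjugate * hess g x).trace).re‖ ≤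
      (∫ x in D, Bd0 x) * |1 - 0| := by
    apply intervalIntegral.norm_integral_le_of_norm_le_const
    intro τ hτ
    rw [uIoc_of_le zero_le_one] at hτ
    rw [← integral_indicator hDc.measurableSet]
    apply norm_integral_le_of_norm_le
    · exact hBi.integrable_indicator hDc.measurableSet
    · exact Eventually.of_forall (hpt τ ⟨hτ.1.le, hτ.2⟩)
  -- the cross term vanishes
  have hcross : ∫ x in D, m x * levi c x (bas 0) = 0 := by
    have h1 : ∫ x in D, m x * levi c x (bas 0) = ∫ x, m x * levi c x (bas 0) := by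
      apply setIntegral_eq_integral_of_forall_compl_eq_zero
      intro x hxD
      by_cases hx0 : ‖x 0‖ ≤ r₁
      · have hx1 : ρ₁ < ‖x 1‖ := by
          by_contra hcon
          exact hxD ⟨hx0, not_lt.1 hcon⟩
        rw [hmz x hx1, zero_mul]
      · have h2 : levi c x (bas 0) = 0 := by
          rw [levi_congr (hcze x (not_le.1 hx0))]
          unfold levi D2
          have h1 : fderiv ℝ (fun _ : Cn 2 => (0 : ℝ)) = fun _ => 0 := by
            funext y
            exact fderiv_const_apply _
          rw [h1]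
          simp
        rw [h2, mul_zero]
    rw [h1, ibp_zero hcs hms hcc]
    have h2 : ∀ x, levi m x (bas 0) = 0 := by
      intro x
      have hz : ∀ c : ℂ, ∀ (x : Cn 2) (t : ℝ), m (x + t • (c • bas 0)) = m x := by
        intro c x t
        have : t • (c • (bas 0 : Cn 2)) = ((t : ℂ) * c) • bas 0 := by
          rw [mul_smul, Complex.coe_smul]
        rw [this]
        simp only [hm]
        rw [qc_indep]
      have h3 := (D2_dir_zero hms (ξ := bas 0) (fun x t => by simpa using hz 1 x t) x (bas 0)).1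
      have h4 := (D2_dir_zero hms (ξ := Complex.I • bas 0) (hz Complex.I) x (Complex.I • bas 0)).1
      unfold levi
      rw [h3, h4]
      simp
    simp [h2]
  have hsplit : ∫ x in D, Bd0 x = 2 * S ^ 2 * (∫ x in D, m x) + S * ∫ x in D, m x * levi c x (bas 0) := by
    rw [← integral_const_mul, ← integral_const_mul, ← integral_add]
    · apply integral_congr_ae
      refine Eventually.of_forall fun x => ?_
      simp only [hBd0]
      ring
    · exact ((continuous_const.mul hms.continuous).continuousOn.integrableOn_compact hDc)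
    · exact ((continuous_const.mul (hms.continuous.mul hlc)).continuousOn.integrableOn_compact hDc)
  -- the mass of `m`
  have hmass : ∫ x in D, m x ≤ 3 / 2 * Real.pi ^ 2 * B / T := by
    set a1 := Real.exp (-(5 / 4 * T)) with ha1
    have ha10 : 0 < a1 := Real.exp_pos _
    have hab : a1 ≤ ρ₁ := by
      rw [ha1, hρ₁]
      exact Real.exp_le_exp.2 (by linarith)
    obtain ⟨hi1, hv1⟩ := AE_int ha10 hab
    have h1 : ∀ x ∈ D, m x ≤ (AE a1 ρ₁).indicator (fun x => B / T ^ 2 * (‖x 1‖ ^ 2)⁻¹) x := by
      intro x hx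
      by_cases hxa : a1 ≤ ‖x 1‖
      · have hxE : x ∈ AE a1 ρ₁ := ⟨⟨hxa, hx.2⟩, mem_closedBall_zero_iff.2 (hx.1.trans hr₁1.le)⟩
        rw [indicator_of_mem hxE]
        have h2 : 0 < ‖x 1‖ := ha10.trans_le hxa
        have h3 : 0 < qc 1 x := by unfold qc; positivity
        simp only [hm]
        rw [lgd_pos h3]
        have h4 := Gc_le (Real.log (qc 1 x) / T)
        unfold qc at *
        rw [div_eq_mul_inv (Gc _), ← mul_assoc, mul_div_right_comm]
        gcongr
        calc B * Gc _ ≤ B * 1 := by gcongr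
          _ = B := mul_one B
      · have h2 : m x = 0 := by
          simp only [hm]
          rw [lgd_zero hT Gc_zero]
          · simp
          · unfold qc
            have h3 := not_le.1 hxa
            calc ‖x 1‖ ^ 2 < a1 ^ 2 := by gcongr
              _ = Real.exp (-(5 / 2) * T) := by
                rw [ha1, ← Real.exp_nat_mul]
                congr 1
                push_cast
                ring
        rw [h2]
        apply indicator_nonneg
        intro y hy
        have : 0 < ‖y 1‖ := ha10.trans_le hy.1.1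
        positivity
    have hi2 : Integrable ((AE a1 ρ₁).indicator (fun x : Cn 2 => B / T ^ 2 * (‖x 1‖ ^ 2)⁻¹)) :=
      (integrable_indicator_iff (AE_compact _ _).measurableSet).2 (hi1.const_mul _)
    calc ∫ x in D, m x ≤ ∫ x in D, (AE a1 ρ₁).indicator (fun x => B / T ^ 2 * (‖x 1‖ ^ 2)⁻¹) x := by
          apply setIntegral_mono_on
          · exact hms.continuous.continuousOn.integrableOn_compact hDc
          · exact hi2.integrableOn
          · exact hDc.measurableSet
          · exact h1
      _ ≤ ∫ x, (AE a1 ρ₁).indicator (fun x => B / T ^ 2 * (‖x 1‖ ^ 2)⁻¹) x := by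
          apply setIntegral_le_integral hi2
          refine Eventually.of_forall fun x => ?_
          apply indicator_nonneg
          intro y hy
          have : 0 < ‖y 1‖ := ha10.trans_le hy.1.1
          positivity
      _ = B / T ^ 2 * (Real.pi * (2 * Real.pi * Real.log (ρ₁ / a1))) := by
          rw [integral_indicator (AE_compact _ _).measurableSet, integral_const_mul, hv1]
      _ = 3 / 2 * Real.pi ^ 2 * B / T := by
          have : Real.log (ρ₁ / a1) = 3 / 4 * T := by
            rw [hρ₁, ha1, ← Real.exp_sub, Real.log_exp]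
            ring
          rw [this]
          field_simp
          ring
  rw [hpf] at hlow
  have h1 := hlow.trans ((Real.le_norm_self _).trans hup)
  rw [hsplit, hcross, mul_zero, add_zero, sub_zero, abs_one, mul_one] at h1
  have h2 : 2 * S ^ 2 * (∫ x in D, m x) ≤ 2 * S ^ 2 * (3 / 2 * Real.pi ^ 2 * B / T) := by gcongr
  have h3 : 2 * S ^ 2 * (3 / 2 * Real.pi ^ 2 * B / T) ≤ 2 * S ^ 2 * (3 / 2 * Real.pi ^ 2 * (B + 1) / T) := by
    gcongr
    linarith
  have h4 : 12 * Real.pi ^ 2 * (B + 1) * S ^ 2 / T = 4 * (2 * S ^ 2 * (3 / 2 * Real.pi ^ 2 * (B + 1) / T)) := by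
    ring
  rw [h4]
  linarith

end Pool.Agent.U574.FC
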