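import Mathlib
import Pool.Agent.U574.FC.Tools

/-!
The energy in the second coordinate of truncations, and averages over logarithmic annuli.
-/

set_option autoImplicit false
set_option maxHeartbeats 1000000

open MeasureTheory Metric Set Filter Topology
open scoped ContDiff ComplexOrder

namespace Pool.Agent.U574.FC
open Pool.Agent.H805R2

lemma G1_nonneg (f : Cn 2 → ℝ) (x : Cn 2) : 0 ≤ G1 f f x := by
  unfold G1
  have := mul_self_nonneg (fderiv ℝ f x (bas 1))
  have := mul_self_nonneg (fderiv ℝ f x (Complex.I • bas 1))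
  positivity

lemma G1_cont {f g : Cn 2 → ℝ} (hf : ContDiff ℝ ∞ f) (hg : ContDiff ℝ ∞ g) : Continuous (G1 f g) := by
  unfold G1
  exact (((fderiv_smooth hf _).continuous.mul (fderiv_smooth hg _).continuous).add
    ((fderiv_smooth hf _).continuous.mul (fderiv_smooth hg _).continuous)).div_const 4

lemma G1_cs {f g : Cn 2 → ℝ} (hf : HasCompactSupport f) : HasCompactSupport (G1 f g) := by
  apply HasCompactSupport.intro hf
  intro x hx
  have h : f =ᶠ[𝓝 x] fun _ => 0 := notMem_tsupport_iff_eventuallyEq.1 hx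
  have h2 : fderiv ℝ f x = 0 := by
    rw [h.fderiv_eq]
    exact fderiv_const_apply _
  unfold G1
  rw [h2]
  simp

lemma levi_pc0 (x : Cn 2) : levi (pc 0) x (bas 0) = 1 := by
  have := hess_diag (pc_smooth 0) x 0
  rw [hess_pc0] at this
  simp at this
  exact_mod_cast this.symm

lemma sub_compact {v : Cn 2 → ℝ} (hv : ContinuousOn v Om) (hb : Bd v) {ε : ℝ} (hε : 0 < ε) :
    IsCompact {x | x ∈ Om ∧ v x ≤ -ε} := by
  obtain ⟨C, hC, hCO, hCb⟩ := hb ε hε
  have h1 : IsClosed (C ∩ v ⁻¹' Iic (-ε)) :=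
    (hv.mono hCO).preimage_isClosed_of_isClosed hC.isClosed isClosed_Iic
  have h2 : {x | x ∈ Om ∧ v x ≤ -ε} = C ∩ v ⁻¹' Iic (-ε) := by
    ext x
    constructor
    · intro hx
      refine ⟨?_, hx.2⟩
      by_contra hcon
      have := hCb x hx.1 hcon
      linarith [hx.2]
    · intro hx
      exact ⟨hCO hx.1, hx.2⟩
  rw [h2]
  exact hC.of_isClosed_subset h1 inter_subset_left

lemma energy {v : Cn 2 → ℝ} (hv : SP v) (hb : Bd v) {ε : ℝ} (hε : 0 < ε) :
    ∃ f : Cn 2 → ℝ, ContDiff ℝ ∞ f ∧ HasCompactSupport f ∧ (∀ x, x ∉ Om → f x = 0) ∧ (∀ x, 0 ≤ f x) ∧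
      (∀ x ∈ Om, -v x ≤ f x + 2 * ε) ∧
      1 / 2 * ∫ x, G1 f f x ≤ ∫ x in {x | x ∈ Om ∧ v x ≤ -ε}, (-pc 0 x) * Hd v x := by
  set C : Set (Cn 2) := {x | x ∈ Om ∧ v x ≤ -ε} with hC
  have hCc : IsCompact C := sub_compact hv.sm.continuousOn hb hε
  have hCO : C ⊆ Om := fun x hx => hx.1
  obtain ⟨K1, hK1, hCK1, hK1O⟩ := exists_compact_between hCc Om_open hCO
  obtain ⟨χ, hχs, hχc, hχO, hχ1, hχ01⟩ := cutoff hK1 Om_open hK1O
  set Φ : ℝ → ℝ := fun s => ε * sm ((-ε - s) / ε) with hΦ
  have hΦs : ContDiff ℝ ∞ Φ := contDiff_const.mul (sm_smooth.comp (by fun_prop))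
  have hΦ0 : ∀ s, -ε ≤ s → Φ s = 0 := by
    intro s hs
    simp only [hΦ]
    rw [sm_of_nonpos, mul_zero]
    exact div_nonpos_of_nonpos_of_nonneg (by linarith) hε.le
  have hΦn : ∀ s, 0 ≤ Φ s := fun s => mul_nonneg hε.le (sm_nonneg _)
  have hΦd : ∀ s, HasDerivAt Φ (-Real.smoothTransition ((-ε - s) / ε)) s := by
    intro s
    have h1 : HasDerivAt (fun s : ℝ => (-ε - s) / ε) (-1 / ε) s := by
      have := ((hasDerivAt_id s).const_sub (-ε)).div_const ε
      exact this
    have h2 := ((sm_hasDeriv ((-ε - s) / ε)).comp s h1).const_mul ε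
    have h3 : ε * (Real.smoothTransition ((-ε - s) / ε) * (-1 / ε)) =
        -Real.smoothTransition ((-ε - s) / ε) := by
      field_simp
    rw [h3] at h2
    exact h2
  set b : Cn 2 → ℝ := fun x => χ x * v x with hbd
  set c : Cn 2 → ℝ := fun x => χ x * Φ (v x) with hcd
  have hbs : ContDiff ℝ ∞ b := cutoff_mul_smooth Om_open hχs hv.sm hχO
  have hcs : ContDiff ℝ ∞ c := cutoff_mul_smooth Om_open hχs (hΦs.comp_contDiffOn hv.sm) hχO
  have hcc : HasCompactSupport c := hχc.mul_right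
  have hcz : ∀ x, x ∉ C → c x = 0 := by
    intro x hx
    by_cases hxt : x ∈ tsupport χ
    · have h1 : -ε ≤ v x := by
        by_contra hcon
        exact hx ⟨hχO hxt, (not_le.1 hcon).le⟩
      simp only [hcd, hΦ0 _ h1, mul_zero]
    · simp only [hcd, image_eq_zero_of_notMem_tsupport hxt, zero_mul]
  have hcze : ∀ x, x ∉ C → c =ᶠ[𝓝 x] fun _ => 0 := by
    intro x hx
    filter_upwards [hCc.isClosed.isOpen_compl.mem_nhds hx] with y hy
    exact hcz y hy
  have hK : ∀ x ∈ C, ∀ᶠ y in 𝓝 x, y ∈ K1 := by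
    intro x hx
    filter_upwards [isOpen_interior.mem_nhds (hCK1 hx)] with y hy
    exact interior_subset hy
  have hbe : ∀ x ∈ C, b =ᶠ[𝓝 x] v := fun x hx => by
    filter_upwards [hK x hx] with y hy
    simp only [hbd, hχ1 y hy, one_mul]
  have hce : ∀ x ∈ C, c =ᶠ[𝓝 x] fun y => Φ (b y) := fun x hx => by
    filter_upwards [hK x hx] with y hy
    simp only [hcd, hbd, hχ1 y hy, one_mul]
  have hbce : ∀ x ∈ C, (fun y => b y + c y) =ᶠ[𝓝 x] glue ε v (fun _ => -ε) := fun x hx => by
    filter_upwards [hK x hx] with y hy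
    simp only [hcd, hbd, hχ1 y hy, one_mul, hΦ, glue]
  refine ⟨c, hcs, hcc, ?_, fun x => mul_nonneg (hχ01 x).1 (hΦn _), ?_, ?_⟩
  · intro x hx
    exact hcz x fun h => hx (hCO h)
  · intro x hx
    by_cases hxC : x ∈ C
    · have h1 : c x = Φ (v x) := by
        have := hχ1 x (interior_subset (hCK1 hxC))
        simp only [hcd, this, one_mul]
      rw [h1]
      have h2 := mul_le_mul_of_nonneg_left (le_sm ((-ε - v x) / ε)) hε.le
      rw [mul_sub, mul_div_cancel₀ _ hε.ne'] at h2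
      have h3 := mul_le_mul_of_nonneg_right c0_le_one hε.le
      simp only [hΦ]
      linarith
    · rw [hcz x hxC]
      have : -ε < v x := by
        by_contra hcon
        exact hxC ⟨hx, not_lt.1 hcon⟩
      linarith
  · -- the energy inequality
    have hpf := path_formula b c (pc 0) hbs hcs (pc_smooth 0) hcc
    set I1 := ∫ x, G1 c b x with hI1
    set I2 := ∫ x, G1 c c x with hI2
    have hlb : Continuous fun x => levi b x (bas 1) :=
      levi_continuous (hbs.of_le ss_le) (bas 1)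
    have hlc : Continuous fun x => levi c x (bas 1) :=
      levi_continuous (hcs.of_le ss_le) (bas 1)
    have hinner : ∀ τ : ℝ, ∫ x, c x * (((hess b x + (τ : ℂ) • hess c x).adjugate * hess (pc 0) x).trace).re =
        -I1 + τ * (-I2) := by
      intro τ
      have h1 : ∀ x, c x * (((hess b x + (τ : ℂ) • hess c x).adjugate * hess (pc 0) x).trace).re =
          c x * levi b x (bas 1) + τ * (c x * levi c x (bas 1)) := by
        intro x
        have hp : ∀ (x : Cn 2) (c : ℂ), pc 0 (x + c • bas 1) = pc 0 x := by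
          intro x c
          have : (x + c • bas 1 : Cn 2) 0 = x 0 := by simp [bas]
          unfold pc
          rw [this]
        rw [tr_zero (pc_smooth 0) hp, levi_pc0]
        have h2 : (hess b x + (τ : ℂ) • hess c x) 1 1 =
            ((levi b x (bas 1) + τ * levi c x (bas 1) : ℝ) : ℂ) := by
          rw [Matrix.add_apply, Matrix.smul_apply, hess_diag hbs, hess_diag hcs]
          push_cast
          rfl
        rw [h2, Complex.ofReal_one, mul_one, Complex.ofReal_re]
        ring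
      simp_rw [h1]
      rw [integral_add, integral_const_mul, ibp_one hcs hcc hbs, ibp_one hcs hcc hcs]
      · exact (hcs.continuous.mul hlb).integrable_of_hasCompactSupport hcc.mul_right
      · exact ((hcs.continuous.mul hlc).integrable_of_hasCompactSupport hcc.mul_right).const_mul τ
    have hR : ∫ τ in (0 : ℝ)..1, ∫ x, c x *
        (((hess b x + (τ : ℂ) • hess c x).adjugate * hess (pc 0) x).trace).re = -I1 - I2 / 2 := by
      simp_rw [hinner]
      rw [intervalIntegral.integral_add (by simp) (by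
        apply Continuous.intervalIntegrable
        fun_prop)]
      simp
      ring
    rw [hR] at hpf
    -- the left-hand side
    have hbc : ContDiff ℝ ∞ fun x => b x + c x := hbs.add hcs
    have hL : ∫ x, pc 0 x * ((hess (fun z => b z + c z) x).det.re - (hess b x).det.re) ≤
        ∫ x in C, (-pc 0 x) * Hd v x := by
      rw [← setIntegral_eq_integral_of_forall_compl_eq_zero (s := C)]
      · apply setIntegral_mono_on
        · exact ((pc_smooth 0).continuous.mul ((det_hess_continuous hbc).sub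
            (det_hess_continuous hbs))).continuousOn.integrableOn_compact hCc
        · exact ((pc_smooth 0).continuous.neg.continuousOn.mul
            ((Hd_contOn hv.sm).mono hCO)).integrableOn_compact hCc
        · exact hCc.measurableSet
        · intro x hx
          have h1 : 0 ≤ (hess (fun z => b z + c z) x).det.re := by
            rw [hess_congr (hbce x hx)]
            apply det_hess_nonneg
            apply glue_sp_at hε hv.sm contDiffOn_const (hCO hx) (hv.psd x (hCO hx))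
            rw [hess_const_zero]
            exact Matrix.PosSemidef.zero
          have h2 : (hess b x).det.re = Hd v x := by
            rw [hess_congr (hbe x hx)]
            rfl
          have h3 := pc_neg (i := 0) (hCO hx)
          rw [h2]
          nlinarith
      · intro x hx
        have h1 : (fun z => b z + c z) =ᶠ[𝓝 x] b := by
          filter_upwards [hcze x hx] with y hy
          rw [hy, add_zero]
        rw [hess_congr h1, sub_self, mul_zero]
    rw [hpf] at hL
    -- comparison of the two energies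
    have hI : I2 ≤ -I1 := by
      rw [hI1, hI2, ← integral_neg]
      apply integral_mono
      · exact (G1_cont hcs hcs).integrable_of_hasCompactSupport (G1_cs hcc)
      · exact ((G1_cont hcs hbs).integrable_of_hasCompactSupport (G1_cs hcc)).neg
      · intro x
        simp only
        by_cases hxC : x ∈ C
        · set d := -Real.smoothTransition ((-ε - b x) / ε) with hd
          have hd0 : d ≤ 0 := by
            rw [hd]
            linarith [Real.smoothTransition.nonneg ((-ε - b x) / ε)]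
          have hd1 : -1 ≤ d := by
            rw [hd]
            linarith [Real.smoothTransition.le_one ((-ε - b x) / ε)]
          have h1 : ∀ ξ, fderiv ℝ c x ξ = d * fderiv ℝ b x ξ := by
            intro ξ
            have h2 : HasFDerivAt (fun y => Φ (b y)) (d • fderiv ℝ b x) x :=
              (hΦd (b x)).comp_hasFDerivAt x ((hbs.differentiable (by simp)).differentiableAt.hasFDerivAt)
            rw [(hce x hxC).fderiv_eq, h2.fderiv]
            rfl
          have h3 := G1_nonneg b x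
          unfold G1 at h3 ⊢
          rw [h1, h1]
          nlinarith [mul_nonneg (mul_nonneg (by linarith : 0 ≤ -d) (by linarith : 0 ≤ 1 + d)) h3]
        · have h2 : fderiv ℝ c x = 0 := by
            rw [(hcze x hxC).fderiv_eq]
            exact fderiv_const_apply _
          unfold G1
          rw [h2]
          simp
    linarith

/-- a linear functional of the second coordinate -/
lemma lin_fderiv (L : ℂ →L[ℝ] ℝ) (x ξ : Cn 2) : fderiv ℝ (fun y : Cn 2 => L (y 1)) x ξ = L (ξ 1) := by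
  have : HasFDerivAt (fun y : Cn 2 => L (y 1)) (L.comp (crd 1)) x := (L.comp (crd 1)).hasFDerivAt
  rw [this.fderiv]
  rfl

lemma vec_div {γ : ℝ → ℝ} (hγ : ContDiff ℝ ∞ γ) {f : Cn 2 → ℝ} (hf : ContDiff ℝ ∞ f) (hfc : HasCompactSupport f) :
    ∫ x, f x * (γ (qc 1 x) + qc 1 x * deriv γ (qc 1 x)) =
      -∫ x, γ (qc 1 x) * ((x 1).re * fderiv ℝ f x (bas 1) + (x 1).im * fderiv ℝ f x (Complex.I • bas 1)) / 2 := by
  have hq : ContDiff ℝ ∞ fun x : Cn 2 => γ (qc 1 x) := hγ.comp (qc_smooth 1)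
  have hb : (bas 1 : Cn 2) 1 = 1 := by simp [bas]
  have hb2 : (Complex.I • bas 1 : Cn 2) 1 = Complex.I := by simp [bas]
  have hre : ContDiff ℝ ∞ fun x : Cn 2 => (x 1).re := (Complex.reCLM.comp (crd 1)).contDiff
  have him : ContDiff ℝ ∞ fun x : Cn 2 => (x 1).im := (Complex.imCLM.comp (crd 1)).contDiff
  have hdq : ∀ x ξ, fderiv ℝ (fun x : Cn 2 => γ (qc 1 x)) x ξ = deriv γ (qc 1 x) * (2 * inner ℝ (x 1) (ξ 1)) := by
    intro x ξ
    have h1 : HasFDerivAt (fun x : Cn 2 => γ (qc 1 x)) (deriv γ (qc 1 x) • fderiv ℝ (qc 1) x) x :=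
      ((hγ.differentiable (by simp)).differentiableAt.hasDerivAt).comp_hasFDerivAt x
        (((qc_smooth 1).differentiable (by simp)).differentiableAt.hasFDerivAt)
    rw [h1.fderiv, ← qc_fderiv]
    rfl
  have h1 := dir_ibp hf hfc (hq.mul hre) (bas 1)
  have h2 := dir_ibp hf hfc (hq.mul him) (Complex.I • bas 1)
  have e1 : ∀ x : Cn 2, fderiv ℝ (fun y : Cn 2 => γ (qc 1 y) * (y 1).re) x (bas 1) =
      γ (qc 1 x) + 2 * deriv γ (qc 1 x) * (x 1).re ^ 2 := by
    intro x
    rw [fderiv_mul_apply' hq hre, hdq, hb]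
    have := lin_fderiv Complex.reCLM x (bas 1)
    simp only [Complex.reCLM_apply] at this
    rw [this, hb, Complex.inner]
    simp
    ring
  have e2 : ∀ x : Cn 2, fderiv ℝ (fun y : Cn 2 => γ (qc 1 y) * (y 1).im) x (Complex.I • bas 1) =
      γ (qc 1 x) + 2 * deriv γ (qc 1 x) * (x 1).im ^ 2 := by
    intro x
    rw [fderiv_mul_apply' hq him, hdq, hb2]
    have := lin_fderiv Complex.imCLM x (Complex.I • bas 1)
    simp only [Complex.imCLM_apply] at this
    rw [this, hb2, Complex.inner]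
    simp
    ring
  have hqq : ∀ x : Cn 2, qc 1 x = (x 1).re ^ 2 + (x 1).im ^ 2 := by
    intro x
    unfold qc
    rw [← Complex.normSq_eq_norm_sq, Complex.normSq_apply]
    ring
  have hi1 : Integrable fun x : Cn 2 => f x * fderiv ℝ (fun y : Cn 2 => γ (qc 1 y) * (y 1).re) x (bas 1) :=
    (hf.continuous.mul (fderiv_smooth (hq.mul hre) _).continuous).integrable_of_hasCompactSupport hfc.mul_right
  have hi2 : Integrable fun x : Cn 2 => f x * fderiv ℝ (fun y : Cn 2 => γ (qc 1 y) * (y 1).im) x (Complex.I • bas 1) :=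
    (hf.continuous.mul (fderiv_smooth (hq.mul him) _).continuous).integrable_of_hasCompactSupport hfc.mul_right
  have hj1 : Integrable fun x : Cn 2 => fderiv ℝ f x (bas 1) * (γ (qc 1 x) * (x 1).re) :=
    ((fderiv_smooth hf _).continuous.mul (hq.mul hre).continuous).integrable_of_hasCompactSupport
      (HasCompactSupport.mul_right (hfc.fderiv_apply (𝕜 := ℝ) _))
  have hj2 : Integrable fun x : Cn 2 => fderiv ℝ f x (Complex.I • bas 1) * (γ (qc 1 x) * (x 1).im) :=
    ((fderiv_smooth hf _).continuous.mul (hq.mul him).continuous).integrable_of_hasCompactSupport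
      (HasCompactSupport.mul_right (hfc.fderiv_apply (𝕜 := ℝ) _))
  have s1 : (fun x => f x * (γ (qc 1 x) + qc 1 x * deriv γ (qc 1 x))) = fun x =>
      (f x * fderiv ℝ (fun y : Cn 2 => γ (qc 1 y) * (y 1).re) x (bas 1) +
        f x * fderiv ℝ (fun y : Cn 2 => γ (qc 1 y) * (y 1).im) x (Complex.I • bas 1)) / 2 := by
    funext x
    rw [e1, e2]
    have := hqq x
    linear_combination f x * deriv γ (qc 1 x) * this
  have s2 : (fun x => γ (qc 1 x) * ((x 1).re * fderiv ℝ f x (bas 1) +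
      (x 1).im * fderiv ℝ f x (Complex.I • bas 1)) / 2) = fun x : Cn 2 =>
      (fderiv ℝ f x (bas 1) * (γ (qc 1 x) * (x 1).re) +
        fderiv ℝ f x (Complex.I • bas 1) * (γ (qc 1 x) * (x 1).im)) / 2 := by
    funext x
    ring
  rw [s1, s2, integral_div, integral_div, integral_add hi1 hi2, integral_add hj1 hj2, h1, h2]
  ring

/-- the basic estimate -/
lemma scale {γ : ℝ → ℝ} (hγ : ContDiff ℝ ∞ γ) {f : Cn 2 → ℝ} (hf : ContDiff ℝ ∞ f) (hfc : HasCompactSupport f)
    (hfO : ∀ x, x ∉ Om → f x = 0) {a b : ℝ} (ha : 0 < a) (hab : a ≤ b)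
    (hs : ∀ q, 0 ≤ q → q ≤ 1 → γ q ≠ 0 → a ^ 2 ≤ q ∧ q ≤ b ^ 2) (hbd : ∀ q, 0 ≤ q → q ≤ 1 → |q * γ q| ≤ 2)
    {l : ℝ} (hl : 0 < l) :
    |∫ x, f x * (γ (qc 1 x) + qc 1 x * deriv γ (qc 1 x))| ≤
      l / 2 * (∫ x in AE a b, G1 f f x) + 2 / l * (Real.pi * (2 * Real.pi * Real.log (b / a))) := by
  rw [vec_div hγ hf hfc, abs_neg]
  obtain ⟨hi, hv⟩ := AE_int ha hab
  have hGi : IntegrableOn (G1 f f) (AE a b) := (G1_cont hf hf).continuousOn.integrableOn_compact (AE_compact a b)
  have hmeas := (AE_compact a b).measurableSet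
  have hint : IntegrableOn (fun x : Cn 2 => l / 2 * G1 f f x + 2 / l * (‖x 1‖ ^ 2)⁻¹) (AE a b) :=
    (hGi.const_mul _).add (hi.const_mul _)
  have e1 : l / 2 * (∫ x in AE a b, G1 f f x) + 2 / l * (Real.pi * (2 * Real.pi * Real.log (b / a))) =
      ∫ x, (AE a b).indicator (fun x : Cn 2 => l / 2 * G1 f f x + 2 / l * (‖x 1‖ ^ 2)⁻¹) x := by
    rw [integral_indicator hmeas, integral_add (hGi.const_mul _) (hi.const_mul _), integral_const_mul,
      integral_const_mul, hv]
  rw [e1, ← Real.norm_eq_abs]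
  apply norm_integral_le_of_norm_le ((integrable_indicator_iff hmeas).2 hint)
  refine Eventually.of_forall fun x => ?_
  rw [Real.norm_eq_abs]
  have hindn : 0 ≤ (AE a b).indicator (fun x : Cn 2 => l / 2 * G1 f f x + 2 / l * (‖x 1‖ ^ 2)⁻¹) x := by
    apply indicator_nonneg
    intro y _
    have := G1_nonneg f y
    positivity
  -- far away
  have hfar : ∀ i : Fin 2, 1 < ‖x i‖ → fderiv ℝ f x = 0 := by
    intro i hi
    have h1 : f =ᶠ[𝓝 x] fun _ => 0 := by
      filter_upwards [(isOpen_lt continuous_const (cont_coord i).norm).mem_nhds hi] with y hy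
      apply hfO
      intro hyO
      have h2 : (1 : ℝ) < ‖y i‖ := hy
      fin_cases i
      · exact absurd hyO.1 (not_lt.2 h2.le)
      · exact absurd hyO.2 (not_lt.2 h2.le)
    rw [h1.fderiv_eq]
    exact fderiv_const_apply _
  by_cases h0 : ‖x 0‖ ≤ 1
  swap
  · rw [hfar 0 (not_le.1 h0)]
    simpa using hindn
  by_cases h1 : ‖x 1‖ ≤ 1
  swap
  · rw [hfar 1 (not_le.1 h1)]
    simpa using hindn
  have hq0 := qc_nonneg 1 x
  have hq1 : qc 1 x ≤ 1 := by
    unfold qc
    have := norm_nonneg (x 1)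
    nlinarith
  by_cases hγ0 : γ (qc 1 x) = 0
  · rw [hγ0]
    simpa using hindn
  obtain ⟨h2, h3⟩ := hs _ hq0 hq1 hγ0
  have hmem : x ∈ AE a b := by
    refine ⟨⟨?_, ?_⟩, mem_closedBall_zero_iff.2 h0⟩
    · unfold qc at h2
      exact (sq_le_sq₀ ha.le (norm_nonneg _)).1 h2
    · unfold qc at h3
      exact (sq_le_sq₀ (norm_nonneg _) (ha.le.trans hab)).1 h3
  rw [indicator_of_mem hmem]
  have hqpos : 0 < qc 1 x := lt_of_lt_of_le (by positivity) h2
  have hb4 : γ (qc 1 x) ^ 2 * qc 1 x ≤ 4 * (qc 1 x)⁻¹ := by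
    have h4 := hbd _ hq0 hq1
    have h5 : (qc 1 x * γ (qc 1 x)) ^ 2 ≤ 4 := by
      rw [← sq_abs]
      nlinarith [abs_nonneg (qc 1 x * γ (qc 1 x))]
    rw [← div_eq_mul_inv, le_div_iff₀ hqpos]
    nlinarith
  have hqq : qc 1 x = (x 1).re ^ 2 + (x 1).im ^ 2 := by
    unfold qc
    rw [← Complex.normSq_eq_norm_sq, Complex.normSq_apply]
    ring
  have hG : G1 f f x = (fderiv ℝ f x (bas 1) / 2) ^ 2 + (fderiv ℝ f x (Complex.I • bas 1) / 2) ^ 2 := by
    unfold G1
    ring
  have hq' : (‖x 1‖ ^ 2)⁻¹ = (qc 1 x)⁻¹ := rfl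
  rw [hq', hG]
  set X := fderiv ℝ f x (bas 1) with hX
  set Y := fderiv ℝ f x (Complex.I • bas 1) with hY
  set P := γ (qc 1 x) with hP
  set u := (x 1).re with hu
  set v := (x 1).im with hv'
  have hmain : ∀ σ : ℝ, σ ^ 2 = 1 → σ * (P * (u * X + v * Y) / 2) ≤
      l / 2 * ((X / 2) ^ 2 + (Y / 2) ^ 2) + 2 / l * (qc 1 x)⁻¹ := by
    intro σ hσ
    have h5 : l * (σ * (P * (u * X + v * Y) / 2)) ≤
        l ^ 2 / 2 * ((X / 2) ^ 2 + (Y / 2) ^ 2) + 1 / 2 * (P ^ 2 * qc 1 x) := by
      rw [hqq]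
      have e1 : P ^ 2 * (u ^ 2 + v ^ 2) = σ ^ 2 * P ^ 2 * (u ^ 2 + v ^ 2) := by rw [hσ]; ring
      rw [e1]
      nlinarith [sq_nonneg (l * (X / 2) - σ * P * u), sq_nonneg (l * (Y / 2) - σ * P * v)]
    have h6 : l * (σ * (P * (u * X + v * Y) / 2)) ≤
        l * (l / 2 * ((X / 2) ^ 2 + (Y / 2) ^ 2) + 2 / l * (qc 1 x)⁻¹) := by
      have e2 : l * (l / 2 * ((X / 2) ^ 2 + (Y / 2) ^ 2) + 2 / l * (qc 1 x)⁻¹) =
          l ^ 2 / 2 * ((X / 2) ^ 2 + (Y / 2) ^ 2) + 2 * (qc 1 x)⁻¹ := by
        field_simp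
      rw [e2]
      linarith
    exact le_of_mul_le_mul_left h6 hl
  rw [abs_le]
  constructor
  · have := hmain (-1) (by norm_num)
    linarith
  · have := hmain 1 (by norm_num)
    linarith

/-- the logarithmic cut-off profile -/
noncomputable def Bt (t : ℝ) : ℝ := sm (t + 4) - sm (t + 2)

lemma Bt_smooth : ContDiff ℝ ∞ Bt := (sm_smooth.comp (by fun_prop)).sub (sm_smooth.comp (by fun_prop))

lemma Bt_zero : ∀ t ≤ (-4 : ℝ), Bt t = 0 := by
  intro t ht
  unfold Bt
  rw [sm_of_nonpos (by linarith), sm_of_nonpos (by linarith), sub_zero]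

lemma Bt_two {t : ℝ} (ht : -1 ≤ t) : Bt t = 2 := by
  unfold Bt
  rw [sm_of_one_le (by linarith), sm_of_one_le (by linarith)]
  ring

lemma Bt_nonneg (t : ℝ) : 0 ≤ Bt t := by
  unfold Bt
  have := sm_mono (show t + 2 ≤ t + 4 by linarith)
  linarith

lemma Bt_le (t : ℝ) : Bt t ≤ 2 := by
  unfold Bt
  have := sm_sub_mono (show t + 2 ≤ t + 4 by linarith)
  simp only at this
  linarith

lemma Bt_deriv (t : ℝ) : deriv Bt t = Real.smoothTransition (t + 4) - Real.smoothTransition (t + 2) := by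
  have h1 : HasDerivAt (fun t => sm (t + 4)) (Real.smoothTransition (t + 4)) t :=
    (sm_hasDeriv (t + 4)).comp_add_const t 4
  have h2 : HasDerivAt (fun t => sm (t + 2)) (Real.smoothTransition (t + 2)) t :=
    (sm_hasDeriv (t + 2)).comp_add_const t 2
  exact (h1.sub h2).deriv

lemma Bt_deriv_nonneg (t : ℝ) : 0 ≤ deriv Bt t := by
  rw [Bt_deriv]
  have := Real.smoothTransition.monotone (show t + 2 ≤ t + 4 by linarith)
  linarith

lemma Bt_deriv_one {t : ℝ} (h1 : -3 ≤ t) (h2 : t ≤ -2) : deriv Bt t = 1 := by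
  rw [Bt_deriv, Real.smoothTransition.one_of_one_le (by linarith), Real.smoothTransition.zero_of_nonpos (by linarith),
    sub_zero]

/-- the logarithmic average at scale `T` -/
noncomputable def av (f : Cn 2 → ℝ) (T : ℝ) : ℝ := ∫ x, f x * (lgd (deriv Bt) T (qc 1 x) / T)

lemma lgd_rel {T : ℝ} (hT : 0 < T) (q : ℝ) :
    lgd Bt T q + q * deriv (lgd Bt T) q = lgd (deriv Bt) T q / T := by
  have hs : ContDiff ℝ ∞ (lgd Bt T) := lgd_smooth Bt_smooth hT Bt_zero
  have e2 : HasDerivAt (fun y => y * lgd Bt T y) (1 * lgd Bt T q + q * deriv (lgd Bt T) q) q :=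
    (hasDerivAt_id q).mul (hs.differentiable (by simp)).differentiableAt.hasDerivAt
  have e3 : (fun y => y * lgd Bt T y) = lg Bt T := funext fun y => mul_lgd y
  rw [e3] at e2
  have e4 := e2.unique (lg_deriv Bt_smooth hT Bt_zero q)
  rw [one_mul] at e4
  exact e4

lemma lg_Bt_bd {T : ℝ} (q : ℝ) : 0 ≤ lg Bt T q ∧ lg Bt T q ≤ 2 := by
  unfold lg
  split_ifs
  · norm_num
  · exact ⟨Bt_nonneg _, Bt_le _⟩

lemma av_le {f : Cn 2 → ℝ} (hf : ContDiff ℝ ∞ f) (hfc : HasCompactSupport f) (hfO : ∀ x, x ∉ Om → f x = 0)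
    {T l : ℝ} (hT : 0 < T) (hl : 0 < l) :
    av f T ≤ l / 2 * (∫ x, G1 f f x) + 8 * Real.pi ^ 2 * T / l := by
  have hs : ContDiff ℝ ∞ (lgd Bt T) := lgd_smooth Bt_smooth hT Bt_zero
  have h := scale hs hf hfc hfO (a := Real.exp (-(2 * T))) (b := 1) (Real.exp_pos _)
    (Real.exp_le_one_iff.2 (by linarith)) (by
      intro q hq0 hq1 hne
      refine ⟨?_, by linarith⟩
      by_contra hcon
      apply hne
      apply lgd_zero hT Bt_zero
      have : Real.exp (-(2 * T)) ^ 2 = Real.exp (-4 * T) := by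
        rw [← Real.exp_nat_mul]
        congr 1
        push_cast
        ring
      rw [← this]
      exact not_le.1 hcon) (by
      intro q hq0 hq1
      rw [mul_lgd]
      obtain ⟨h1, h2⟩ := lg_Bt_bd (T := T) q
      rw [abs_of_nonneg h1]
      exact h2) hl
  simp_rw [lgd_rel hT] at h
  have h2 := (le_abs_self _).trans h
  have h3 : ∫ x in AE (Real.exp (-(2 * T))) 1, G1 f f x ≤ ∫ x, G1 f f x :=
    setIntegral_le_integral ((G1_cont hf hf).integrable_of_hasCompactSupport (G1_cs hfc))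
      (Eventually.of_forall fun x => G1_nonneg f x)
  have h4 : Real.log (1 / Real.exp (-(2 * T))) = 2 * T := by
    rw [one_div, Real.log_inv, Real.log_exp]
    ring
  rw [h4] at h2
  unfold av
  calc _ ≤ l / 2 * (∫ x in AE (Real.exp (-(2 * T))) 1, G1 f f x) + 2 / l * (Real.pi * (2 * Real.pi * (2 * T))) := h2
    _ ≤ l / 2 * (∫ x, G1 f f x) + 2 / l * (Real.pi * (2 * Real.pi * (2 * T))) := by gcongr
    _ = _ := by ring

lemma av_diff {f : Cn 2 → ℝ} (hf : ContDiff ℝ ∞ f) (hfc : HasCompactSupport f) (hfO : ∀ x, x ∉ Om → f x = 0)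
    {T₁ T₂ l : ℝ} (hT₁ : 0 < T₁) (hT : T₁ < T₂) (hl : 0 < l) :
    av f T₂ - av f T₁ ≤ l / 2 * (∫ x in AE (Real.exp (-(2 * T₂))) (Real.exp (-(T₁ / 2))), G1 f f x) +
      8 * Real.pi ^ 2 * T₂ / l := by
  have hT₂ : 0 < T₂ := hT₁.trans hT
  have hs1 : ContDiff ℝ ∞ (lgd Bt T₁) := lgd_smooth Bt_smooth hT₁ Bt_zero
  have hs2 : ContDiff ℝ ∞ (lgd Bt T₂) := lgd_smooth Bt_smooth hT₂ Bt_zero
  have hab : Real.exp (-(2 * T₂)) ≤ Real.exp (-(T₁ / 2)) := Real.exp_le_exp.2 (by linarith)
  have h := scale (γ := fun q => lgd Bt T₂ q - lgd Bt T₁ q) (hs2.sub hs1) hf hfc hfO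
    (a := Real.exp (-(2 * T₂))) (b := Real.exp (-(T₁ / 2))) (Real.exp_pos _) hab (by
      intro q hq0 hq1 hne
      constructor
      · by_contra hcon
        apply hne
        have e1 : Real.exp (-(2 * T₂)) ^ 2 = Real.exp (-4 * T₂) := by
          rw [← Real.exp_nat_mul]
          congr 1
          push_cast
          ring
        rw [e1, not_le] at hcon
        have h2 : q < Real.exp (-4 * T₁) := hcon.trans (Real.exp_lt_exp.2 (by linarith))
        rw [lgd_zero hT₂ Bt_zero hcon, lgd_zero hT₁ Bt_zero h2, sub_zero]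
      · by_contra hcon
        apply hne
        have e1 : Real.exp (-(T₁ / 2)) ^ 2 = Real.exp (-T₁) := by
          rw [← Real.exp_nat_mul]
          congr 1
          push_cast
          ring
        rw [e1, not_le] at hcon
        have hqp : 0 < q := (Real.exp_pos _).trans hcon
        have hlog : -T₁ < Real.log q := (Real.lt_log_iff_exp_lt hqp).2 hcon
        rw [lgd_pos hqp, lgd_pos hqp, Bt_two (by rw [le_div_iff₀ hT₂]; linarith),
          Bt_two (by rw [le_div_iff₀ hT₁]; linarith), sub_self]) (by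
      intro q hq0 hq1
      rw [mul_sub, mul_lgd, mul_lgd]
      obtain ⟨h1, h2⟩ := lg_Bt_bd (T := T₁) q
      obtain ⟨h3, h4⟩ := lg_Bt_bd (T := T₂) q
      rw [abs_le]
      constructor <;> linarith) hl
  have e2 : ∀ x, f x * ((lgd Bt T₂ (qc 1 x) - lgd Bt T₁ (qc 1 x)) +
      qc 1 x * deriv (fun q => lgd Bt T₂ q - lgd Bt T₁ q) (qc 1 x)) =
      f x * (lgd (deriv Bt) T₂ (qc 1 x) / T₂) - f x * (lgd (deriv Bt) T₁ (qc 1 x) / T₁) := by
    intro x
    rw [← lgd_rel hT₂, ← lgd_rel hT₁]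
    have h5 : deriv (fun q => lgd Bt T₂ q - lgd Bt T₁ q) (qc 1 x) =
        deriv (lgd Bt T₂) (qc 1 x) - deriv (lgd Bt T₁) (qc 1 x) :=
      ((hs2.differentiable (by simp)).differentiableAt.hasDerivAt.sub
        (hs1.differentiable (by simp)).differentiableAt.hasDerivAt).deriv
    rw [h5]
    ring
  simp_rw [e2] at h
  have hB' : ContDiff ℝ ∞ (deriv Bt) := by
    have := Bt_smooth
    rw [contDiff_infty_iff_deriv] at this
    exact this.2
  have hB0 := deriv_zero_of Bt_smooth Bt_zero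
  have hi : ∀ T : ℝ, 0 < T → Integrable fun x => f x * (lgd (deriv Bt) T (qc 1 x) / T) := fun T hT =>
    (hf.continuous.mul (((lgd_smooth hB' hT hB0).comp (qc_smooth 1)).div_const T).continuous
      ).integrable_of_hasCompactSupport hfc.mul_right
  rw [integral_sub (hi T₂ hT₂) (hi T₁ hT₁)] at h
  have h2 := (le_abs_self _).trans h
  have h4 : Real.log (Real.exp (-(T₁ / 2)) / Real.exp (-(2 * T₂))) ≤ 2 * T₂ := by
    rw [← Real.exp_sub, Real.log_exp]
    linarith
  unfold av
  calc _ ≤ _ := h2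
    _ ≤ l / 2 * (∫ x in AE (Real.exp (-(2 * T₂))) (Real.exp (-(T₁ / 2))), G1 f f x) +
        2 / l * (Real.pi * (2 * Real.pi * (2 * T₂))) := by gcongr
    _ = _ := by ring

lemma av_low {f : Cn 2 → ℝ} (hf : ContDiff ℝ ∞ f) (hfc : HasCompactSupport f) (hf0 : ∀ x, 0 ≤ f x)
    {T r : ℝ} (hT : 0 < T) :
    ∫ w in Ann (Real.exp (-(3 / 2 * T))) (Real.exp (-(1 * T))),
      (∫ z in ball (0 : ℂ) r, f (pp z w)) * (‖w‖ ^ 2)⁻¹ ≤ T * av f T := by
  set a := Real.exp (-(3 / 2 * T)) with ha
  set b := Real.exp (-(1 * T)) with hb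
  have ha0 : 0 < a := Real.exp_pos _
  have hB' : ContDiff ℝ ∞ (deriv Bt) := by
    have := Bt_smooth
    rw [contDiff_infty_iff_deriv] at this
    exact this.2
  have hB0 := deriv_zero_of Bt_smooth Bt_zero
  set F : Cn 2 → ℝ := fun x => f x * (lgd (deriv Bt) T (qc 1 x) / T) with hF
  have hFc : Continuous F := hf.continuous.mul (((lgd_smooth hB' hT hB0).comp (qc_smooth 1)).div_const T).continuous
  have hFi : Integrable F := hFc.integrable_of_hasCompactSupport hfc.mul_right
  have hF0 : ∀ x, 0 ≤ F x := by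
    intro x
    simp only [hF]
    apply mul_nonneg (hf0 x)
    apply div_nonneg _ hT.le
    unfold lgd
    split_ifs with h
    · exact le_rfl
    · exact div_nonneg (Bt_deriv_nonneg _) (not_le.1 h).le
  have h1 : ∫ x in {x : Cn 2 | x 1 ∈ Ann a b ∧ x 0 ∈ ball (0 : ℂ) r}, F x ≤ ∫ x, F x :=
    setIntegral_le_integral hFi (Eventually.of_forall hF0)
  rw [fub_on hFi.integrableOn] at h1
  have h2 : ∫ w in Ann a b, (∫ z in ball (0 : ℂ) r, f (pp z w)) * (‖w‖ ^ 2)⁻¹ =
      T * ∫ w in Ann a b, ∫ z in ball (0 : ℂ) r, F (pp z w) := by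
    rw [← integral_const_mul]
    apply setIntegral_congr_fun (Ann_compact a b).measurableSet
    intro w hw
    simp only
    rw [← integral_mul_const, ← integral_const_mul]
    congr 1
    funext z
    simp only [hF]
    have hw0 : 0 < ‖w‖ := ha0.trans_le hw.1
    have hq : qc 1 (pp z w) = ‖w‖ ^ 2 := by
      unfold qc
      rw [pp_one]
    rw [hq, lgd_pos (by positivity), Real.log_pow, Bt_deriv_one]
    · field_simp
    · have := Real.log_le_log ha0 hw.1
      rw [ha, Real.log_exp] at this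
      rw [le_div_iff₀ hT]
      push_cast
      linarith
    · have := Real.log_le_log hw0 hw.2
      rw [hb, Real.log_exp] at this
      rw [div_le_iff₀ hT]
      push_cast
      linarith
  rw [h2]
  exact mul_le_mul_of_nonneg_left h1 hT.le

end Pool.Agent.U574.FC
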