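import Mathlib
import Pool.Agent.U574.FC.Dom
import Pool.Agent.U574.FC.Scale

/-!
There are arbitrarily large scales at which all approximants have small average.
-/

set_option autoImplicit false
set_option maxHeartbeats 1000000

open MeasureTheory Metric Set Filter Topology
open scoped ContDiff ComplexOrder

namespace Pool.Agent.U574.FC
open Pool.Agent.H805R2

/-- the total weighted mass -/
noncomputable def P0 : ℝ := ∫ z in ball (0 : ℂ) 1, (1 - ‖z‖ ^ 2)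

lemma P0_nonneg : 0 ≤ P0 := by
  unfold P0
  apply setIntegral_nonneg measurableSet_ball
  intro z hz
  have h : ‖z‖ < 1 := by simpa using hz
  have := norm_nonneg z
  nlinarith

lemma P0_int : IntegrableOn (fun z : ℂ => 1 - ‖z‖ ^ 2) (ball 0 1) := by
  have : Continuous fun z : ℂ => 1 - ‖z‖ ^ 2 := by fun_prop
  exact (this.continuousOn.integrableOn_compact (isCompact_closedBall (0 : ℂ) 1)).mono_set ball_subset_closedBall

lemma pbound {c : ℝ} (hc : 0 ≤ c) {φ : Cn 2 → EReal} (hF : IsCegrellF Om φ (ENNReal.ofReal c • mu0))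
    {V : Cn 2 → ℝ} (hV : SP V) (hV0 : ∀ x ∈ Om, V x ≤ 0) (hVb : Bd V) {e e' : ℝ} (he : 0 ≤ e) (hee : e < e')
    (hVφ : ∀ x ∈ Om, φ x ≤ ((V x + e : ℝ) : EReal))
    {δ : ℝ} (hδ : 0 < δ) (hδ1 : δ < 1) {K : Set (Cn 2)} (hK : IsCompact K) (hKO : K ⊆ Om)
    (hKe : ∀ x ∈ K, e' < -(δ * V x)) :
    kap * (1 - δ) ^ 2 * ∫ x in K, (-pc 0 x) * Hd V x ≤ c * P0 := by
  obtain ⟨A, hA1, hA⟩ : ∃ A : ℝ, 1 ≤ A ∧ ∀ x ∈ K, A * pc 1 x ≤ -2 := by
    have hcf : ContinuousOn (fun x => 2 / (-pc 1 x)) K := by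
      apply continuousOn_const.div ((pc_smooth 1).continuous.neg.continuousOn)
      intro x hx
      have := pc_neg (i := 1) (hKO hx)
      change -(pc 1 x) ≠ 0
      linarith
    obtain ⟨B, hB⟩ := hK.exists_bound_of_continuousOn hcf
    refine ⟨max B 1, le_max_right _ _, fun x hx => ?_⟩
    have h1 := ((Real.le_norm_self _).trans (hB x hx)).trans (le_max_left B 1)
    have h2 := pc_neg (i := 1) (hKO hx)
    rw [div_le_iff₀ (by linarith)] at h1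
    linarith
  have hA0 : 0 < A := by linarith
  set β : Cn 2 → ℝ := fun x => A * pc 1 x with hβ
  have hβn : ∀ x ∈ Om, β x < 0 := fun x hx => mul_neg_of_pos_of_neg hA0 (pc_neg hx)
  set h := rm (pc 0) β with hh
  have hhsp : SP h := rm_sp (pc_sp 0) (sp_smul (pc_sp 1) hA0.le) hβn
  have hh0 : ∀ x ∈ Om, h x ≤ 0 := fun x hx => (rm_neg (pc_neg hx) (hβn x hx)).le
  have hhb : Bd h := by
    have h1 : Bd fun x => 1 / A * h x := by
      apply bd_of_pc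
      · intro x hx
        have h2 : pc 0 x ≤ h x := le_rm (hβn x hx)
        have h3 := pc_neg (i := 0) hx
        rw [one_div, inv_mul_eq_div, le_div_iff₀ hA0]
        nlinarith
      · intro x hx
        have h2 : β x ≤ h x := rm_ge_beta (hβn x hx)
        rw [one_div, inv_mul_eq_div, le_div_iff₀ hA0]
        simp only [hβ] at h2
        linarith
    have h2 := h1.smul hA0
    have h3 : (fun x => A * (1 / A * h x)) = h := by
      funext x
      field_simp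
    rwa [h3] at h2
  have key := dom hc hF hV hV0 hVb he hee hVφ hhsp hh0 hhb hδ hδ1 hK hKO hKe
  have e1 : ∫ x in K, (-h x) * Hd V x = ∫ x in K, (-pc 0 x) * Hd V x := by
    apply setIntegral_congr_fun hK.measurableSet
    intro x hx
    have h1 : h x = pc 0 x := by
      apply rm_of_le (hβn x (hKO hx))
      have h2 := hA x hx
      have h3 := pc_ge 0 x
      simp only [hβ]
      linarith
    simp only
    rw [h1]
  rw [e1] at key
  refine key.trans ?_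
  apply mul_le_mul_of_nonneg_left _ hc
  unfold P0
  have hmem : ∀ z ∈ ball (0 : ℂ) 1, pp z 0 ∈ Om := by
    intro z hz
    rw [pp_mem]
    exact ⟨by simpa using hz, by simp⟩
  apply integral_mono_of_nonneg
  · refine (ae_restrict_iff' measurableSet_ball).2 (Eventually.of_forall fun z hz => ?_)
    have := hh0 _ (hmem z hz)
    simp only [Pi.zero_apply]
    linarith
  · exact P0_int
  · refine (ae_restrict_iff' measurableSet_ball).2 (Eventually.of_forall fun z hz => ?_)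
    have h1 : pc 0 (pp z 0) ≤ h (pp z 0) := le_rm (hβn _ (hmem z hz))
    simp only
    unfold pc at h1
    rw [pp_zero] at h1
    linarith

lemma Adm.mono {φ : Cn 2 → EReal} {e e' : ℝ} {v : Cn 2 → ℝ} (h : Adm φ e v) (hee : e ≤ e') : Adm φ e' v :=
  ⟨h.sp, h.neg, h.bd, fun x hx => (h.ge x hx).trans (EReal.coe_le_coe_iff.2 (by linarith))⟩

/-- energy of the truncations of admissible approximants -/
lemma energy_adm {c : ℝ} (hc : 0 ≤ c) {φ : Cn 2 → EReal} (hF : IsCegrellF Om φ (ENNReal.ofReal c • mu0))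
    {ε : ℝ} (hε : 0 < ε) {v : Cn 2 → ℝ} (hv : Adm φ (ε / 8) v) :
    ∃ f : Cn 2 → ℝ, ContDiff ℝ ∞ f ∧ HasCompactSupport f ∧ (∀ x, x ∉ Om → f x = 0) ∧ (∀ x, 0 ≤ f x) ∧
      (∀ x ∈ Om, -v x ≤ f x + 2 * ε) ∧ ∫ x, G1 f f x ≤ 8 * c * P0 / kap := by
  obtain ⟨f, h1, h2, h3, h4, h5, h6⟩ := energy hv.sp hv.bd hε
  refine ⟨f, h1, h2, h3, h4, h5, ?_⟩
  have h7 := pbound hc hF hv.sp (fun x hx => (hv.neg x hx).le) hv.bd (e := ε / 8) (e' := ε / 4) (by positivity)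
    (by linarith) hv.ge (δ := 1 / 2) (by norm_num) (by norm_num)
    (sub_compact hv.sp.sm.continuousOn hv.bd hε) (fun x hx => hx.1) (by
      intro x hx
      have := hx.2
      linarith)
  have hk := kap_pos
  rw [le_div_iff₀ hk]
  nlinarith

lemma min_list {φ : Cn 2 → EReal} {e : ℝ} (he : 0 < e) (w : ℕ → Cn 2 → ℝ) (hw : ∀ i, Adm φ e (w i)) (N : ℕ) :
    ∃ g : Cn 2 → ℝ, ContinuousOn g Om ∧ (∀ x ∈ Om, φ x < ((g x : ℝ) : EReal)) ∧
      ∀ i < N, ∀ x ∈ Om, g x ≤ w i x + 2 * e := by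
  have hlt : ∀ i, ∀ x ∈ Om, φ x < ((w i x + 2 * e : ℝ) : EReal) := fun i x hx =>
    ((hw i).ge x hx).trans_lt (EReal.coe_lt_coe_iff.2 (by linarith))
  induction N with
  | zero =>
    exact ⟨fun x => w 0 x + 2 * e, (hw 0).sp.sm.continuousOn.add continuousOn_const, hlt 0, by simp⟩
  | succ N ih =>
    obtain ⟨g, hg1, hg2, hg3⟩ := ih
    refine ⟨fun x => min (g x) (w N x + 2 * e), continuous_min.comp_continuousOn
      (hg1.prodMk ((hw N).sp.sm.continuousOn.add continuousOn_const)), ?_, ?_⟩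
    · intro x hx
      rcases min_choice (g x) (w N x + 2 * e) with h | h
      · simp only [h]
        exact hg2 x hx
      · simp only [h]
        exact hlt N x hx
    · intro i hi x hx
      rcases Nat.lt_succ_iff_lt_or_eq.1 hi with h | h
      · exact (min_le_left _ _).trans (hg3 i h x hx)
      · rw [h]
        exact min_le_right _ _

/-- the average as an integral over a product set -/
lemma I_eq {u : Cn 2 → ℝ} (hu : ContinuousOn u Om) {a b r : ℝ} (ha : 0 < a) (hb : b < 1) (hr : r < 1) :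
    IntegrableOn (fun x => u x * (‖x 1‖ ^ 2)⁻¹) {x : Cn 2 | x 1 ∈ Ann a b ∧ x 0 ∈ ball (0 : ℂ) r} ∧
    ∫ w in Ann a b, (∫ z in ball (0 : ℂ) r, u (pp z w)) * (‖w‖ ^ 2)⁻¹ =
      ∫ x in {x : Cn 2 | x 1 ∈ Ann a b ∧ x 0 ∈ ball (0 : ℂ) r}, u x * (‖x 1‖ ^ 2)⁻¹ := by
  set D : Set (Cn 2) := {x | x 1 ∈ Ann a b ∧ x 0 ∈ closedBall (0 : ℂ) r} with hD
  have hDc : IsCompact D := by
    apply (KR_compact (max b r)).of_isClosed_subset
    · exact ((Ann_compact a b).isClosed.preimage (cont_coord 1)).inter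
        (isClosed_closedBall.preimage (cont_coord 0))
    · intro x hx
      exact ⟨(mem_closedBall_zero_iff.1 hx.2).trans (le_max_right _ _), hx.1.2.trans (le_max_left _ _)⟩
  have hDO : D ⊆ Om := fun x hx => ⟨(mem_closedBall_zero_iff.1 hx.2).trans_lt hr, hx.1.2.trans_lt hb⟩
  have hc : ContinuousOn (fun x : Cn 2 => u x * (‖x 1‖ ^ 2)⁻¹) D := by
    apply (hu.mono hDO).mul
    apply ContinuousOn.inv₀ (((cont_coord 1).norm.pow 2).continuousOn)
    intro x hx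
    have : 0 < ‖x 1‖ := ha.trans_le hx.1.1
    change ‖x 1‖ ^ 2 ≠ 0
    positivity
  have hi : IntegrableOn (fun x => u x * (‖x 1‖ ^ 2)⁻¹) {x : Cn 2 | x 1 ∈ Ann a b ∧ x 0 ∈ ball (0 : ℂ) r} :=
    (hc.integrableOn_compact hDc).mono_set fun x hx => ⟨hx.1, ball_subset_closedBall hx.2⟩
  refine ⟨hi, ?_⟩
  rw [fub_on hi]
  apply setIntegral_congr_fun (Ann_compact a b).measurableSet
  intro w _
  simp only [pp_one]
  rw [integral_mul_const]

/-- lower bound of the average of the truncation at one scale -/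
lemma star_low {φ : Cn 2 → EReal} {ε ε₁ e T r r' : ℝ} (hε : 0 < ε) (hε₁ : ε₁ = ε / 100) (he : e = ε₁ / 8)
    (hr1 : r < 1) (hT : 1 ≤ T) (hrr : r ≤ r') (hTr : Real.exp (-T) ≤ r') {w v f : Cn 2 → ℝ} (hw : Adm φ e w)
    (hvw : ∀ x ∈ KR r', x ∈ Om → v x < w x + 2 * e)
    (hfs : ContDiff ℝ ∞ f) (hfc : HasCompactSupport f) (hf0 : ∀ x, 0 ≤ f x)
    (hfv : ∀ x ∈ Om, -v x ≤ f x + 2 * ε₁)
    (hwI : ε * (T * √T) < ∫ w' in Ann (Real.exp (-(3 / 2 * T))) (Real.exp (-(1 * T))),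
        (∫ z in ball (0 : ℂ) r, -w (pp z w')) * (‖w'‖ ^ 2)⁻¹) : ε / 2 * √T ≤ av f T := by
  have hTi0 : 0 < T := by linarith
  have h3 := av_low hfs hfc hf0 (T := T) (r := r) hTi0
  obtain ⟨a, ha⟩ : ∃ a, a = Real.exp (-(3 / 2 * T)) := ⟨_, rfl⟩
  obtain ⟨b, hb⟩ : ∃ b, b = Real.exp (-(1 * T)) := ⟨_, rfl⟩
  rw [← ha, ← hb] at hwI h3
  have ha0 : 0 < a := by rw [ha]; exact Real.exp_pos _
  have hab : a ≤ b := by rw [ha, hb]; exact Real.exp_le_exp.2 (by linarith)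
  have hb1 : b < 1 := by rw [hb, Real.exp_lt_one_iff]; linarith
  have hbr : b ≤ r' := by
    rw [hb, one_mul]
    exact hTr
  have hlog : Real.log (b / a) = T / 2 := by
    rw [hb, ha, ← Real.exp_sub, Real.log_exp]
    ring
  clear ha hb
  have hEm : MeasurableSet {x : Cn 2 | x 1 ∈ Ann a b ∧ x 0 ∈ ball (0 : ℂ) r} :=
    ((Ann_compact a b).measurableSet.preimage (cont_coord 1).measurable).inter
      (measurableSet_ball.preimage (cont_coord 0).measurable)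
  obtain ⟨i1, j1⟩ := I_eq (u := fun x => -w x) hw.sp.sm.continuousOn.neg ha0 hb1 hr1
  obtain ⟨i2, j2⟩ := I_eq (u := f) hfs.continuous.continuousOn ha0 hb1 hr1
  obtain ⟨i3, j3⟩ := AE_int ha0 hab
  have hEAE : {x : Cn 2 | x 1 ∈ Ann a b ∧ x 0 ∈ ball (0 : ℂ) r} ⊆ AE a b := fun x hx =>
    ⟨hx.1, mem_closedBall_zero_iff.2 ((mem_ball_zero_iff.1 hx.2).le.trans hr1.le)⟩
  have hEO : ∀ x ∈ {x : Cn 2 | x 1 ∈ Ann a b ∧ x 0 ∈ ball (0 : ℂ) r}, x ∈ Om ∧ x ∈ KR r' := fun x hx =>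
    ⟨⟨(mem_ball_zero_iff.1 hx.2).trans hr1, hx.1.2.trans_lt hb1⟩,
      (mem_ball_zero_iff.1 hx.2).le.trans hrr, hx.1.2.trans hbr⟩
  generalize {x : Cn 2 | x 1 ∈ Ann a b ∧ x 0 ∈ ball (0 : ℂ) r} = E at *
  have hq : ∫ x in E, (‖x 1‖ ^ 2)⁻¹ ≤ Real.pi ^ 2 * T := by
    have h1 : ∫ x in E, (‖x 1‖ ^ 2)⁻¹ ≤ ∫ x in AE a b, (‖x 1‖ ^ 2)⁻¹ := by
      apply setIntegral_mono_set i3
      · exact Eventually.of_forall fun x => by positivity
      · exact hEAE.eventuallyLE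
    rw [j3, hlog] at h1
    linarith
  rw [j1] at hwI
  have h2 : ∫ x in E, (-w x) * (‖x 1‖ ^ 2)⁻¹ ≤
      ∫ x in E, (f x * (‖x 1‖ ^ 2)⁻¹ + (2 * ε₁ + 2 * e) * (‖x 1‖ ^ 2)⁻¹) := by
    apply setIntegral_mono_on i1 (i2.add ((i3.mono_set hEAE).const_mul _)) hEm
    intro x hx
    obtain ⟨hxO, hxK⟩ := hEO x hx
    have h4 := hvw x hxK hxO
    have h5 := hfv x hxO
    have h6 : 0 ≤ (‖x 1‖ ^ 2)⁻¹ := by positivity
    simp only [Pi.add_apply]
    rw [← add_mul]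
    apply mul_le_mul_of_nonneg_right _ h6
    linarith
  rw [integral_add i2 ((i3.mono_set hEAE).const_mul _), integral_const_mul, ← j2] at h2
  have hcoef : 2 * ε₁ + 2 * e = 9 / 400 * ε := by rw [he, hε₁]; ring
  rw [hcoef] at h2
  have h4 : 9 / 400 * ε * ∫ x in E, (‖x 1‖ ^ 2)⁻¹ ≤ 9 / 400 * ε * (Real.pi ^ 2 * T) := by gcongr
  have hs1 : 1 ≤ √T := by
    rw [Real.one_le_sqrt]
    exact hT
  have hpi2 : Real.pi ^ 2 ≤ 10 := by
    have := Real.pi_lt_d2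
    have := Real.pi_pos
    nlinarith
  have h6 : 9 / 400 * ε * (Real.pi ^ 2 * T) ≤ ε / 2 * √T * T := by
    calc 9 / 400 * ε * (Real.pi ^ 2 * T) ≤ 9 / 400 * ε * (10 * T) := by gcongr
      _ = 9 / 40 * (ε * T) := by ring
      _ ≤ 1 / 2 * (ε * T) := by
        have : 0 < ε * T := by positivity
        linarith
      _ = ε / 2 * 1 * T := by ring
      _ ≤ ε / 2 * √T * T := by gcongr
  have h7 : T * (ε / 2 * √T) ≤ T * av f T := by linarith
  exact le_of_mul_le_mul_left h7 hTi0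

/-- energy in the window of one scale -/
lemma star_win {ε E0 l₁ d T : ℝ} (hε : 0 < ε) (hE00 : 0 ≤ E0) (hl₁ : l₁ = ε / (4 * (E0 + 1))) (hd0 : 0 < d)
    (hd1 : d ≤ 1 / 2) (hd2 : d ≤ ε * l₁ / (64 * Real.pi ^ 2)) (hT : 1 ≤ T) {f : Cn 2 → ℝ}
    (hfs : ContDiff ℝ ∞ f) (hfc : HasCompactSupport f) (hfO : ∀ x, x ∉ Om → f x = 0)
    (hfE : ∫ x, G1 f f x ≤ E0) (h1 : ε / 2 * √T ≤ av f T) :
    ε ^ 2 / (256 * Real.pi ^ 2) ≤ ∫ x in AE (Real.exp (-(2 * T))) (Real.exp (-(d * T / 2))), G1 f f x := by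
  have hpi := Real.pi_pos
  have hl₁0 : 0 < l₁ := by rw [hl₁]; positivity
  have hTi0 : 0 < T := by linarith
  have hs0 : 0 < √T := Real.sqrt_pos.2 hTi0
  have hss : √T * √T = T := Real.mul_self_sqrt hTi0.le
  have h2 := av_le hfs hfc hfO (T := d * T) (l := l₁ * √T) (by positivity) (by positivity)
  have e1 : l₁ * √T / 2 * (∫ x, G1 f f x) ≤ ε / 8 * √T := by
    have h3 : l₁ * (∫ x, G1 f f x) ≤ ε / 4 := by
      calc l₁ * (∫ x, G1 f f x) ≤ l₁ * (E0 + 1) := by gcongr; linarith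
        _ = ε / 4 := by rw [hl₁]; field_simp
    calc l₁ * √T / 2 * (∫ x, G1 f f x) = √T / 2 * (l₁ * (∫ x, G1 f f x)) := by ring
      _ ≤ √T / 2 * (ε / 4) := by gcongr
      _ = ε / 8 * √T := by ring
  have e2 : 8 * Real.pi ^ 2 * (d * T) / (l₁ * √T) ≤ ε / 8 * √T := by
    rw [div_le_iff₀ (by positivity)]
    have e3 : ε / 8 * √T * (l₁ * √T) = ε / 8 * l₁ * T := by
      calc _ = ε / 8 * l₁ * (√T * √T) := by ring
        _ = _ := by rw [hss]
    rw [e3]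
    rw [le_div_iff₀ (by positivity)] at hd2
    calc 8 * Real.pi ^ 2 * (d * T) = 1 / 8 * (d * (64 * Real.pi ^ 2)) * T := by ring
      _ ≤ 1 / 8 * (ε * l₁) * T := by gcongr
      _ = ε / 8 * l₁ * T := by ring
  have hl₂0 : 0 < 64 * Real.pi ^ 2 / ε := by positivity
  have hdT : d * T < T := by nlinarith
  have h4 := av_diff hfs hfc hfO (T₁ := d * T) (T₂ := T) (l := 64 * Real.pi ^ 2 / ε * √T) (by positivity) hdT
    (by positivity)
  generalize ∫ x in AE (Real.exp (-(2 * T))) (Real.exp (-(d * T / 2))), G1 f f x = W at *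
  have h5 : 8 * Real.pi ^ 2 * T / (64 * Real.pi ^ 2 / ε * √T) = ε / 8 * √T := by
    rw [div_eq_iff (by positivity)]
    calc 8 * Real.pi ^ 2 * T = 8 * Real.pi ^ 2 * (√T * √T) := by rw [hss]
      _ = ε / 8 * √T * (64 * Real.pi ^ 2 / ε * √T) := by
        field_simp
        ring
  rw [h5] at h4
  have h6 : √T * (ε / 8) ≤ √T * (64 * Real.pi ^ 2 / ε / 2 * W) := by linarith
  have h7 : ε / 8 ≤ 64 * Real.pi ^ 2 / ε / 2 * W := le_of_mul_le_mul_left h6 hs0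
  rw [div_le_iff₀ (by positivity)]
  have h8 : ε * (ε / 8) ≤ ε * (64 * Real.pi ^ 2 / ε / 2 * W) := mul_le_mul_of_nonneg_left h7 hε.le
  have h9 : ε * (64 * Real.pi ^ 2 / ε / 2 * W) = 32 * Real.pi ^ 2 * W := by
    field_simp
    ring
  rw [h9] at h8
  linarith

/-- the windows are disjoint -/
lemma win_disj {d R T1 : ℝ} (hd0 : 0 < d) (hR : R = 5 / d) (hR1 : 1 < R) (hT1 : 1 ≤ T1) (N : ℕ) :
    Set.Pairwise (↑(Finset.range N)) (Function.onFun Disjoint fun i : ℕ =>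
      AE (Real.exp (-(2 * (T1 * R ^ i)))) (Real.exp (-(d * (T1 * R ^ i) / 2)))) := by
  have key : ∀ i j : ℕ, i < j → Disjoint (AE (Real.exp (-(2 * (T1 * R ^ i)))) (Real.exp (-(d * (T1 * R ^ i) / 2))))
      (AE (Real.exp (-(2 * (T1 * R ^ j)))) (Real.exp (-(d * (T1 * R ^ j) / 2)))) := by
    intro i j hij
    rw [Set.disjoint_left]
    intro x hx hx'
    have h3 := Real.exp_le_exp.1 (hx.1.1.trans hx'.1.2)
    have h4 : R * (T1 * R ^ i) ≤ T1 * R ^ j := by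
      have : R ^ (i + 1) ≤ R ^ j := pow_le_pow_right₀ hR1.le hij
      calc R * (T1 * R ^ i) = T1 * R ^ (i + 1) := by ring
        _ ≤ T1 * R ^ j := by gcongr
    have h5 : 5 * (T1 * R ^ i) ≤ d * (T1 * R ^ j) := by
      have h6 : d * R = 5 := by rw [hR]; field_simp
      calc 5 * (T1 * R ^ i) = (d * R) * (T1 * R ^ i) := by rw [h6]
        _ = d * (R * (T1 * R ^ i)) := by ring
        _ ≤ d * (T1 * R ^ j) := by gcongr
    have h6 : 0 < T1 * R ^ i := by positivity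
    linarith
  intro i _ j _ hij
  rcases lt_or_gt_of_ne hij with h | h
  · exact key i j h
  · exact (key j i h).symm

theorem star {c : ℝ} (hc : 0 ≤ c) {φ : Cn 2 → EReal} (hF : IsCegrellF Om φ (ENNReal.ofReal c • mu0))
    {r : ℝ} (hr1 : r < 1) {ε : ℝ} (hε : 0 < ε) :
    ∃ e : ℝ, 0 < e ∧ ∀ T0 : ℝ, ∃ T : ℝ, T0 ≤ T ∧ 1 ≤ T ∧ ∀ v : Cn 2 → ℝ, Adm φ e v →
      ∫ w in Ann (Real.exp (-(3 / 2 * T))) (Real.exp (-(1 * T))),
        (∫ z in ball (0 : ℂ) r, -v (pp z w)) * (‖w‖ ^ 2)⁻¹ ≤ ε * (T * √T) := by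
  obtain ⟨ε₁, hε₁⟩ : ∃ ε₁ : ℝ, ε₁ = ε / 100 := ⟨_, rfl⟩
  have hε₁0 : 0 < ε₁ := by rw [hε₁]; positivity
  obtain ⟨e, he⟩ : ∃ e : ℝ, e = ε₁ / 8 := ⟨_, rfl⟩
  have he0 : 0 < e := by rw [he]; positivity
  refine ⟨e, he0, fun T0 => ?_⟩
  by_contra hcon
  push Not at hcon
  have hk := kap_pos
  have hP := P0_nonneg
  have hpi := Real.pi_pos
  obtain ⟨E0, hE0⟩ : ∃ E0 : ℝ, E0 = 8 * c * P0 / kap := ⟨_, rfl⟩
  have hE00 : 0 ≤ E0 := by rw [hE0]; positivity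
  obtain ⟨l₁, hl₁⟩ : ∃ l₁ : ℝ, l₁ = ε / (4 * (E0 + 1)) := ⟨_, rfl⟩
  have hl₁0 : 0 < l₁ := by rw [hl₁]; positivity
  obtain ⟨d, hd0, hd1, hd2⟩ : ∃ d : ℝ, 0 < d ∧ d ≤ 1 / 2 ∧ d ≤ ε * l₁ / (64 * Real.pi ^ 2) :=
    ⟨min (1 / 2) (ε * l₁ / (64 * Real.pi ^ 2)), by positivity, min_le_left _ _, min_le_right _ _⟩
  obtain ⟨R, hR⟩ : ∃ R : ℝ, R = 5 / d := ⟨_, rfl⟩
  have hR1 : 1 < R := by
    rw [hR, lt_div_iff₀ hd0]
    linarith
  have he₂0 : 0 < ε ^ 2 / (256 * Real.pi ^ 2) := by positivity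
  obtain ⟨N, hN⟩ := exists_nat_gt (E0 / (ε ^ 2 / (256 * Real.pi ^ 2)))
  obtain ⟨T1, hT10, hT11⟩ : ∃ T1 : ℝ, T0 ≤ T1 ∧ 1 ≤ T1 := ⟨max T0 1, le_max_left _ _, le_max_right _ _⟩
  have hTT : ∀ i : ℕ, T1 ≤ T1 * R ^ i := fun i => by
    have : 1 ≤ R ^ i := one_le_pow₀ hR1.le
    nlinarith
  have hT1' : ∀ i : ℕ, 1 ≤ T1 * R ^ i := fun i => hT11.trans (hTT i)
  choose w hw hwI using fun i : ℕ => hcon (T1 * R ^ i) (hT10.trans (hTT i)) (hT1' i)
  obtain ⟨g, hg1, hg2, hg3⟩ := min_list he0 w hw N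
  obtain ⟨r', hrr', hTr', hr'1⟩ : ∃ r' : ℝ, r ≤ r' ∧ Real.exp (-T1) ≤ r' ∧ r' < 1 :=
    ⟨max r (Real.exp (-T1)), le_max_left _ _, le_max_right _ _,
      max_lt hr1 (by rw [Real.exp_lt_one_iff]; linarith)⟩
  obtain ⟨v, hv, hvg, _⟩ := approx hc hF he0 (KR_compact r') (KR_sub hr'1) (hg1.mono (KR_sub hr'1))
    (fun x hx => hg2 x (KR_sub hr'1 hx)) (χ := fun _ => 0) continuous_const HasCompactSupport.zero (by simp)
    one_pos
  rw [he] at hv
  obtain ⟨f, hfs, hfc, hfO, hf0, hfv, hfE⟩ := energy_adm hc hF hε₁0 hv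
  rw [← hE0] at hfE
  have hwin : ∀ i < N, ε ^ 2 / (256 * Real.pi ^ 2) ≤
      ∫ x in AE (Real.exp (-(2 * (T1 * R ^ i)))) (Real.exp (-(d * (T1 * R ^ i) / 2))), G1 f f x := by
    intro i hi
    refine star_win hε hE00 hl₁ hd0 hd1 hd2 (hT1' i) hfs hfc hfO hfE ?_
    exact star_low hε hε₁ he hr1 (hT1' i) hrr' ((Real.exp_le_exp.2 (by linarith [hTT i])).trans hTr') (hw i)
      (fun x hxK hxO => (hvg x hxK).trans_le (hg3 i hi x hxO)) hfs hfc hf0 hfv (hwI i)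
  have hGi : Integrable (G1 f f) := (G1_cont hfs hfs).integrable_of_hasCompactSupport (G1_cs hfc)
  have hsum : ∑ i ∈ Finset.range N,
      ∫ x in AE (Real.exp (-(2 * (T1 * R ^ i)))) (Real.exp (-(d * (T1 * R ^ i) / 2))), G1 f f x ≤ E0 := by
    rw [← integral_biUnion_finset _ (fun i _ => (AE_compact _ _).measurableSet) (win_disj hd0 hR hR1 hT11 N)
      (fun i _ => hGi.integrableOn)]
    exact (setIntegral_le_integral hGi (Eventually.of_forall fun x => G1_nonneg f x)).trans hfE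
  have hlow : (N : ℝ) * (ε ^ 2 / (256 * Real.pi ^ 2)) ≤ ∑ i ∈ Finset.range N,
      ∫ x in AE (Real.exp (-(2 * (T1 * R ^ i)))) (Real.exp (-(d * (T1 * R ^ i) / 2))), G1 f f x := by
    have : (N : ℝ) * (ε ^ 2 / (256 * Real.pi ^ 2)) = ∑ _i ∈ Finset.range N, ε ^ 2 / (256 * Real.pi ^ 2) := by
      rw [Finset.sum_const, Finset.card_range, nsmul_eq_mul]
    rw [this]
    exact Finset.sum_le_sum fun i hi => hwin i (Finset.mem_range.1 hi)
  rw [div_lt_iff₀ he₂0] at hN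
  linarith

end Pool.Agent.U574.FC
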