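import Mathlib
import Pool.Agent.U574.FC.Star
import Pool.Agent.U574.FC.Conc

/-!
Building blocks of the final argument.
-/

set_option autoImplicit false

open MeasureTheory Metric Set Filter Topology
open scoped ContDiff ComplexOrder

namespace Pool.Agent.U574.FC
open Pool.Agent.H805R2

lemma P0_low : 1 / 2 ≤ P0 := by
  have h1 : ∫ z in ball (0 : ℂ) (1 / 2), (3 / 4 : ℝ) ≤ ∫ z in ball (0 : ℂ) (1 / 2), (1 - ‖z‖ ^ 2) := by
    have hsub : ball (0 : ℂ) (1 / 2) ⊆ ball (0 : ℂ) 1 := ball_subset_ball (by norm_num)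
    apply setIntegral_mono_on _ (P0_int.mono_set hsub) measurableSet_ball
    · intro z hz
      have h : ‖z‖ < 1 / 2 := by simpa using hz
      have := norm_nonneg z
      nlinarith
    · exact (continuous_const.continuousOn.integrableOn_compact (isCompact_closedBall (0 : ℂ) (1 / 2))).mono_set
        ball_subset_closedBall
  have h2 : ∫ z in ball (0 : ℂ) (1 / 2), (1 - ‖z‖ ^ 2) ≤ P0 := by
    unfold P0
    apply setIntegral_mono_set P0_int
    · refine (ae_restrict_iff' measurableSet_ball).2 (Eventually.of_forall fun z hz => ?_)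
      have h : ‖z‖ < 1 := by simpa using hz
      have := norm_nonneg z
      simp only [Pi.zero_apply]
      nlinarith
    · exact (ball_subset_ball (by norm_num)).eventuallyLE
  have h3 : ∫ _z in ball (0 : ℂ) (1 / 2), (3 / 4 : ℝ) = 3 / 16 * Real.pi := by
    rw [setIntegral_const, measureReal_def, Complex.volume_ball]
    simp
    ring
  have := Real.pi_gt_three
  linarith

/-- the mass property near `w = 0` with constant `CM` -/
def MassP (CM : ℝ) : Prop := ∀ {S T r : ℝ}, 0 < S → 0 < T → 0 ≤ r → r < 1 → ∀ {V : Cn 2 → ℝ}, SP V →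
    (∀ x ∈ Om, V x ≤ 0) → (∀ x ∈ Om, S * pc 0 x ≤ V x) → ∫ x in Lw r T, Hd V x ≤ CM * S ^ 2 / T

/-- the cut-off property -/
def CutP (r s : ℝ) : Prop := ∀ T : ℝ, 0 < T →
    ∃ χ : Cn 2 → ℝ, Continuous χ ∧ HasCompactSupport χ ∧ tsupport χ ⊆ Om ∧ (∀ x, χ x ∈ Icc (0 : ℝ) 1) ∧
      (∀ x, x ∉ Lw r T → χ x = 0) ∧
      P0 - s ≤ ∫ z in ball (0 : ℂ) 1, χ (pp z 0) * (-pc 0 (pp z 0))

lemma pcn_cont : Continuous fun x : Cn 2 => -pc 0 x := (pc_smooth 0).continuous.neg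

lemma conc_adm {c : ℝ} (hc : 0 < c) {φ : Cn 2 → EReal} (hF : IsCegrellF Om φ (ENNReal.ofReal c • mu0))
    {CM : ℝ} (hCM : 0 < CM) (hM : MassP CM) {r : ℝ} (hr0 : 0 < r) (hr1 : r < 1) (hcut : CutP r (P0 / 300))
    {e : ℝ} (he0 : 0 < e) {S : ℝ} (hS : 1 ≤ S) {K : Set (Cn 2)} (hK : IsCompact K) (hKO : K ⊆ Om)
    {g : Cn 2 → ℝ} (hg : ContinuousOn g K) (hgφ : ∀ x ∈ K, φ x < ((g x : ℝ) : EReal)) :
    ∃ T : ℝ, 0 < T ∧ ∃ v, Adm φ e v ∧ (∀ x ∈ K, v x < g x) ∧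
        99 / 100 * (c * P0) ≤ kap * ∫ x in Lw r T ∩ Bs S v, (-pc 0 x) * Hd v x := by
  have hk := kap_pos
  have hP0 := P0_low
  have hPpos : 0 < c * P0 := by positivity
  have hS0 : 0 < S := by linarith
  set T := 300 * kap * CM * S ^ 2 / (c * P0) with hT
  have hT0 : 0 < T := by positivity
  obtain ⟨χ, hχ, hχc, hχO, hχ01, hχL, hχi⟩ := hcut T hT0
  have hts : tsupport (fun x => χ x * (-pc 0 x)) ⊆ Om := (tsupport_mul_subset_left).trans hχO
  obtain ⟨v, hv, hvg, hvi⟩ := approx hc.le hF he0 hK hKO hg hgφ (χ := fun x => χ x * (-pc 0 x))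
    (hχ.mul pcn_cont) hχc.mul_right hts (ε := c * P0 / 300) (by positivity)
  refine ⟨T, hT0, v, hv, hvg, ?_⟩
  have h1 := conc hM hv.sp hv.neg hS0 hT0 hr0.le hr1 hχ hχ01 hχL
  have h2 := (abs_lt.1 hvi).1
  have h3 : c * (P0 - P0 / 300) ≤ c * ∫ z in ball (0 : ℂ) 1, χ (pp z 0) * (-pc 0 (pp z 0)) :=
    mul_le_mul_of_nonneg_left hχi hc.le
  have h4 : kap * (CM * S ^ 2 / T) = c * P0 / 300 := by
    rw [hT]
    field_simp
  have h5 := mul_le_mul_of_nonneg_left h1 hk.le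
  rw [mul_add, h4] at h5
  linarith

/-- lower bound of the weighted mass of the truncation on the sublevel set -/
lemma mass_low {c : ℝ} (hc : 0 < c) {φ : Cn 2 → EReal} (hF : IsCegrellF Om φ (ENNReal.ofReal c • mu0))
    {e t ϱ S : ℝ} (he0 : 0 < e) (ht0 : 0 < t) (het : e ≤ t / 400) (htϱ : t = ϱ / 400) (hS1 : 1 ≤ S)
    {v₀ v : Cn 2 → ℝ} (hv₀ : Adm φ e v₀) (hv : Adm φ e v)
    {K' L : Set (Cn 2)} (hK'c : IsCompact K') (hK'O : K' ⊆ Om)
    (hv₀m : 99 / 100 * (c * P0) ≤ kap * ∫ x in K', (-pc 0 x) * Hd v₀ x)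
    (hK'v : ∀ x ∈ K', v₀ x ≤ -ϱ) (hSv₀ : ∀ x ∈ K', S * pc 0 x / 2 ≤ v₀ x) (hvg : ∀ x ∈ K', v x < v₀ x + 2 * e)
    (hLO : L ⊆ Om) (hLp : ∀ x ∈ L, pc 0 x ≤ -(2 * ϱ))
    (hvm : 99 / 100 * (c * P0) ≤ kap * ∫ x in L ∩ Bs S v, (-pc 0 x) * Hd v x) :
    S * (c * P0) / 4 ≤ kap * ∫ x in {x | x ∈ Om ∧ tru S v x ≤ -t} ∩ Bs S v, (-tru S v x) * Hd (tru S v) x := by
  have hk := kap_pos
  have hP0 := P0_low
  have hPpos : 0 < c * P0 := by positivity
  have hS0 : 0 < S := by linarith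
  have hVsp : SP (tru S v) := tru_sp hS0 hv.sp
  have hVneg : ∀ x ∈ Om, tru S v x < 0 := fun x hx => tru_neg hS0 hv.neg hx
  have hVv : ∀ x ∈ Om, v x ≤ tru S v x := fun x hx => tru_ge hS0 hx
  have hmax : ∀ x ∈ Om, tru S v x ≤ max (v x) (S * pc 0 x / 2) := fun x hx => tru_max hS0 hx
  have hhalf : ∀ x ∈ Om, v x ≤ S * pc 0 x / 2 → tru S v x ≤ S * pc 0 x / 2 := fun x hx h => tru_half hS0 hx h
  have hHd : ∀ x ∈ Om, S * pc 0 x / 2 < v x → Hd (tru S v) x = Hd v x := fun x hx h => tru_Hd hS0 hv.sp hx h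
  generalize tru S v = V at *
  have hVb : Bd V := hv.bd.mono hVv
  generalize hC : {x | x ∈ Om ∧ V x ≤ -t} = C
  have hCm : ∀ x, x ∈ C ↔ x ∈ Om ∧ V x ≤ -t := by
    intro x
    rw [← hC]
    rfl
  have hCc : IsCompact C := by
    rw [← hC]
    exact sub_compact hVsp.sm.continuousOn hVb ht0
  have hCO : C ⊆ Om := fun x hx => ((hCm x).1 hx).1
  have hDc : IsCompact (C ∩ Bs S v) := Bs_compact hv.sp.sm.continuousOn hCc hCO
  have hDm : ∀ x, x ∈ C ∩ Bs S v ↔ x ∈ C ∧ v x ≤ S * pc 0 x / 2 := fun x => Iff.rfl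
  have hDC : C ∩ Bs S v ⊆ C := inter_subset_left
  generalize C ∩ Bs S v = D at *
  -- (a) the mass of `V` is at least the mass of `v₀`
  have ha : 97 / 100 * (c * P0) ≤ kap * ∫ x in C, (-pc 0 x) * Hd V x := by
    have hKC : ∀ x ∈ K', V x + t < 99 / 100 * v₀ x + (-t) := by
      intro x hx
      have h1 := hmax x (hK'O hx)
      have h2 := hvg x hx
      have h3 := hSv₀ x hx
      have h4 : V x ≤ v₀ x + 2 * e := h1.trans (max_le h2.le (by linarith))
      have h5 := hK'v x hx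
      linarith
    have h1 := cmp (sp_affine hv₀.sp (c := 99 / 100) (by norm_num) (-t)) hVsp.sm hCc hCO
      (fun x hx => hVsp.psd x (hCO hx)) (pc_sp 0) (fun x hx => (pc_neg hx).le) (by
        intro x hx hxC
        have h2 : -t < V x := by
          by_contra hcon
          exact hxC ((hCm x).2 ⟨hx, not_lt.1 hcon⟩)
        have h3 := hv₀.neg x hx
        linarith) hK'c (by
        intro x hx
        have h2 := hKC x hx
        have h3 := hv₀.neg x (hK'O hx)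
        exact (hCm x).2 ⟨hK'O hx, by linarith⟩) ht0 hKC
    have h2 : ∫ x in K', (-pc 0 x) * Hd (fun y => 99 / 100 * v₀ y + (-t)) x =
        (99 / 100) ^ 2 * ∫ x in K', (-pc 0 x) * Hd v₀ x := by
      rw [← integral_const_mul]
      apply setIntegral_congr_fun hK'c.measurableSet
      intro x hx
      simp only
      rw [Hd_affine_at hv₀.sp.sm _ _ (hK'O hx)]
      ring
    rw [h2] at h1
    have h3 := mul_le_mul_of_nonneg_left h1 hk.le
    linarith
  -- (b) the mass of `v` in `C` is at most `P`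
  have hb : kap * ∫ x in C, (-pc 0 x) * Hd v x ≤ 103 / 100 * (c * P0) := by
    have h1 := pbound hc.le hF hv.sp (fun x hx => (hv.neg x hx).le) hv.bd he0.le (e' := t / 200)
      (by linarith) hv.ge (δ := 1 / 100) (by norm_num) (by norm_num) hCc hCO (by
        intro x hx
        have h2 := hVv x (hCO hx)
        have h3 := ((hCm x).1 hx).2
        linarith)
    linarith
  -- (c) off `D` the two masses agree and are small
  have hiV : IntegrableOn (fun x => (-pc 0 x) * Hd V x) C := wi hVsp pcn_cont.continuousOn hCc hCO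
  have hiv : IntegrableOn (fun x => (-pc 0 x) * Hd v x) C := wi hv.sp pcn_cont.continuousOn hCc hCO
  have hcD : 99 / 100 * (c * P0) ≤ kap * ∫ x in D, (-pc 0 x) * Hd v x := by
    refine hvm.trans (mul_le_mul_of_nonneg_left ?_ hk.le)
    have hsub : L ∩ Bs S v ⊆ D := by
      intro x hx
      have hxO := hLO hx.1
      have h1 := hhalf x hxO hx.2
      have h2 := hLp x hx.1
      have h3 : S * pc 0 x / 2 ≤ -ϱ := by nlinarith
      exact (hDm x).2 ⟨(hCm x).2 ⟨hxO, by linarith⟩, hx.2⟩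
    apply setIntegral_mono_set (hiv.mono_set hDC)
    · refine (ae_restrict_iff' hDc.measurableSet).2 (Eventually.of_forall fun x hx => ?_)
      have hxO := hCO (hDC hx)
      have h1 := pc_neg (i := 0) hxO
      have h2 := Hd_nonneg (hv.sp.psd x hxO)
      simp only [Pi.zero_apply]
      have : 0 ≤ -pc 0 x := by linarith
      positivity
    · exact hsub.eventuallyLE
  have hoff : ∫ x in C \ D, (-pc 0 x) * Hd V x = ∫ x in C \ D, (-pc 0 x) * Hd v x := by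
    apply setIntegral_congr_fun (hCc.measurableSet.diff hDc.measurableSet)
    intro x hx
    have h1 : S * pc 0 x / 2 < v x := by
      by_contra hcon
      exact hx.2 ((hDm x).2 ⟨hx.1, not_lt.1 hcon⟩)
    simp only
    rw [hHd x (hCO hx.1) h1]
  rw [setIntegral_sdiff hDc.measurableSet hiV hDC, setIntegral_sdiff hDc.measurableSet hiv hDC] at hoff
  have hDV : 1 / 2 * (c * P0) ≤ kap * ∫ x in D, (-pc 0 x) * Hd V x := by
    have h1 : kap * ∫ x in D, (-pc 0 x) * Hd V x = kap * (∫ x in C, (-pc 0 x) * Hd V x) -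
        kap * (∫ x in C, (-pc 0 x) * Hd v x) + kap * ∫ x in D, (-pc 0 x) * Hd v x := by
      linear_combination (-kap) * hoff
    rw [h1]
    linarith
  -- (d) the weighted mass
  have hiVV : IntegrableOn (fun x => (-V x) * Hd V x) C := wi hVsp hVsp.sm.continuousOn.neg hCc hCO
  have h1 : S / 2 * ∫ x in D, (-pc 0 x) * Hd V x ≤ ∫ x in D, (-V x) * Hd V x := by
    rw [← integral_const_mul]
    apply setIntegral_mono_on ((hiV.mono_set hDC).const_mul _) (hiVV.mono_set hDC) hDc.measurableSet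
    intro x hx
    have hxO := hCO (hDC hx)
    have h2 := hhalf x hxO ((hDm x).1 hx).2
    have h3 := Hd_nonneg (hVsp.psd x hxO)
    rw [← mul_assoc]
    apply mul_le_mul_of_nonneg_right _ h3
    linarith
  calc S * (c * P0) / 4 = S / 2 * (1 / 2 * (c * P0)) := by ring
    _ ≤ S / 2 * (kap * ∫ x in D, (-pc 0 x) * Hd V x) := by gcongr
    _ = kap * (S / 2 * ∫ x in D, (-pc 0 x) * Hd V x) := by ring
    _ ≤ _ := mul_le_mul_of_nonneg_left h1 hk.le

/-- the average of the truncation -/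
lemma avg_tru {v V : Cn 2 → ℝ} (hv : SP v) (hV : SP V) (hVv : ∀ x ∈ Om, v x ≤ V x) {S : ℝ} (hS0 : 0 < S)
    {a b r B : ℝ} (ha0 : 0 < a) (hb1 : b < 1) (hr : r < 1)
    (h1 : ∫ w in Ann a b, (∫ z in ball (0 : ℂ) r, -v (pp z w)) * (‖w‖ ^ 2)⁻¹ ≤ B) :
    ∫ w in Ann a b, (∫ z in ball (0 : ℂ) r, -(1 / S * V (pp z w))) * (‖w‖ ^ 2)⁻¹ ≤ 1 / S * B := by
  have hU : SP fun x => 1 / S * V x := sp_smul hV (by positivity)
  obtain ⟨i1, j1⟩ := I_eq (u := fun x => -(1 / S * V x)) hU.sm.continuousOn.neg ha0 hb1 hr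
  obtain ⟨i2, j2⟩ := I_eq (u := fun x => -v x) hv.sm.continuousOn.neg ha0 hb1 hr
  rw [j2] at h1
  rw [j1]
  have hEm : MeasurableSet {x : Cn 2 | x 1 ∈ Ann a b ∧ x 0 ∈ ball (0 : ℂ) r} :=
    ((Ann_compact a b).measurableSet.preimage (cont_coord 1).measurable).inter
      (measurableSet_ball.preimage (cont_coord 0).measurable)
  have h2 : ∫ x in {x : Cn 2 | x 1 ∈ Ann a b ∧ x 0 ∈ ball (0 : ℂ) r}, (-(1 / S * V x)) * (‖x 1‖ ^ 2)⁻¹ ≤
      ∫ x in {x : Cn 2 | x 1 ∈ Ann a b ∧ x 0 ∈ ball (0 : ℂ) r}, 1 / S * ((-v x) * (‖x 1‖ ^ 2)⁻¹) := by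
    apply setIntegral_mono_on i1 (i2.const_mul _) hEm
    intro x hx
    have hxO : x ∈ Om := ⟨(mem_ball_zero_iff.1 hx.2).trans hr, hx.1.2.trans_lt hb1⟩
    have h3 := hVv x hxO
    have h4 : 0 ≤ (‖x 1‖ ^ 2)⁻¹ := by positivity
    have h5 : 0 ≤ 1 / S := by positivity
    rw [← mul_assoc]
    apply mul_le_mul_of_nonneg_right _ h4
    nlinarith
  rw [integral_const_mul] at h2
  exact h2.trans (mul_le_mul_of_nonneg_left h1 (by positivity))

/-- the part of a compact set near `w = 0` carries little mass -/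
lemma near_small {CM : ℝ} (hM : MassP CM) {V : Cn 2 → ℝ} (hVsp : SP V) (hVneg : ∀ x ∈ Om, V x < 0)
    {S T ρ : ℝ} (hS0 : 0 < S) (hT0 : 0 < T) (hVp : ∀ x ∈ Om, S * pc 0 x ≤ V x) (hρ : ρ ≤ Real.exp (-T))
    {D : Set (Cn 2)} (hDc : IsCompact D) (hDO : D ⊆ Om) :
    ∫ x in D, (-V x) * Hd V x ≤ (∫ x in D ∩ {x | ρ ≤ ‖x 1‖}, (-V x) * Hd V x) + S * (CM * S ^ 2 / T) := by
  have hD₁c : IsCompact (D ∩ {x | ρ ≤ ‖x 1‖}) := hDc.inter_right (isClosed_le continuous_const (cont_coord 1).norm)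
  have hD₁m : ∀ x, x ∈ D ∩ {x : Cn 2 | ρ ≤ ‖x 1‖} ↔ x ∈ D ∧ ρ ≤ ‖x 1‖ := fun x => Iff.rfl
  have hD₁D : D ∩ {x | ρ ≤ ‖x 1‖} ⊆ D := inter_subset_left
  generalize D ∩ {x | ρ ≤ ‖x 1‖} = D₁ at *
  have hiVV : IntegrableOn (fun x => (-V x) * Hd V x) D := wi hVsp hVsp.sm.continuousOn.neg hDc hDO
  obtain ⟨rC, hrC0, hrC1, hrC⟩ : ∃ rC : ℝ, 0 ≤ rC ∧ rC < 1 ∧ ∀ x ∈ D, ‖x 0‖ ≤ rC := by
    rcases D.eq_empty_or_nonempty with h | h
    · refine ⟨0, le_rfl, one_pos, ?_⟩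
      rw [h]
      simp
    · obtain ⟨x₀, hx₀, hmax⟩ := hDc.exists_isMaxOn h (cont_coord 0).norm.continuousOn
      exact ⟨‖x₀ 0‖, norm_nonneg _, (hDO hx₀).1, fun x hx => hmax hx⟩
  have hLc : IsCompact (Lw rC T) := Lw_compact hrC1 hT0
  have hLO : Lw rC T ⊆ Om := Lw_sub hrC1 hT0
  have hiL : IntegrableOn (fun x => S * Hd V x) (Lw rC T) :=
    ((((Hd_contOn hVsp.sm).mono hLO).const_smul S).integrableOn_compact hLc)
  have hsub : D \ D₁ ⊆ Lw rC T := by
    intro x hx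
    have h1 : ‖x 1‖ < ρ := by
      by_contra hcon
      exact hx.2 ((hD₁m x).2 ⟨hx.1, not_lt.1 hcon⟩)
    exact ⟨hrC x hx.1, h1.le.trans hρ⟩
  have h1 : ∫ x in D \ D₁, (-V x) * Hd V x ≤ ∫ x in D \ D₁, S * Hd V x := by
    apply setIntegral_mono_on (hiVV.mono_set sdiff_subset) (hiL.mono_set hsub)
      (hDc.measurableSet.diff hD₁c.measurableSet)
    intro x hx
    have hxO := hDO hx.1
    have h2 := hVp x hxO
    have h3 := pc_ge 0 x
    have h4 := Hd_nonneg (hVsp.psd x hxO)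
    apply mul_le_mul_of_nonneg_right _ h4
    nlinarith
  have h2 : ∫ x in D \ D₁, S * Hd V x ≤ ∫ x in Lw rC T, S * Hd V x := by
    apply setIntegral_mono_set hiL
    · refine (ae_restrict_iff' hLc.measurableSet).2 (Eventually.of_forall fun x hx => ?_)
      have := Hd_nonneg (hVsp.psd x (hLO hx))
      simp only [Pi.zero_apply]
      positivity
    · exact hsub.eventuallyLE
  rw [integral_const_mul S (fun x => Hd V x), integral_const_mul S (fun x => Hd V x)] at h2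
  rw [integral_const_mul] at h1
  have h3 := hM hS0 hT0 hrC0 hrC1 hVsp (fun x hx => (hVneg x hx).le) hVp
  have h4 := mul_le_mul_of_nonneg_left h3 hS0.le
  rw [setIntegral_sdiff hD₁c.measurableSet hiVV hD₁D] at h1
  linarith

/-- the final upper bound -/
lemma far_small {c : ℝ} (hc : 0 < c) {φ : Cn 2 → EReal} (hF : IsCegrellF Om φ (ENNReal.ofReal c • mu0))
    {V ψ : Cn 2 → ℝ} (hVsp : SP V) (hVneg : ∀ x ∈ Om, V x < 0) (hVb : Bd V) {e t S τ : ℝ} (he0 : 0 < e)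
    (het : e ≤ t / 400) (hS0 : 0 < S) (hVφ : ∀ x ∈ Om, φ x ≤ ((V x + e : ℝ) : EReal))
    (hψsp : SP ψ) (hψU : ∀ x ∈ Om, 1 / S * V x ≤ ψ x) (hψ0 : ∀ x ∈ Om, ψ x ≤ 0)
    (hψi : ∫ z in ball (0 : ℂ) 1, -ψ (pp z 0) ≤ τ)
    {D₁ : Set (Cn 2)} (hD₁c : IsCompact D₁) (hD₁O : D₁ ⊆ Om) (hD₁t : ∀ x ∈ D₁, V x ≤ -t)
    (hψe : ∀ x ∈ D₁, ψ x = 1 / S * V x) :
    98 / 100 * (kap * ∫ x in D₁, (-V x) * Hd V x) ≤ S * c * τ := by
  have hk := kap_pos
  set h : Cn 2 → ℝ := fun x => S * ψ x with hh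
  have hhsp : SP h := sp_smul hψsp hS0.le
  have hh0 : ∀ x ∈ Om, h x ≤ 0 := fun x hx => mul_nonpos_of_nonneg_of_nonpos hS0.le (hψ0 x hx)
  have hhb : Bd h := by
    apply hVb.mono
    intro x hx
    have h2 := mul_le_mul_of_nonneg_left (hψU x hx) hS0.le
    have h3 : S * (1 / S * V x) = V x := by field_simp
    rw [h3] at h2
    exact h2
  have hup := dom hc.le hF hVsp (fun x hx => (hVneg x hx).le) hVb he0.le (e' := t / 200) (by linarith) hVφ hhsp hh0
    hhb (δ := 1 / 100) (by norm_num) (by norm_num) hD₁c hD₁O (by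
      intro x hx
      have h3 := hD₁t x hx
      linarith)
  have hhV : ∫ x in D₁, (-h x) * Hd V x = ∫ x in D₁, (-V x) * Hd V x := by
    apply setIntegral_congr_fun hD₁c.measurableSet
    intro x hx
    simp only [hh]
    rw [hψe x hx]
    field_simp
  rw [hhV] at hup
  have h1 : ∫ z in ball (0 : ℂ) 1, -h (pp z 0) = S * ∫ z in ball (0 : ℂ) 1, -ψ (pp z 0) := by
    rw [← integral_const_mul]
    congr 1
    funext z
    simp only [hh]
    ring
  rw [h1] at hup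
  have h2 : c * (S * ∫ z in ball (0 : ℂ) 1, -ψ (pp z 0)) ≤ c * (S * τ) := by gcongr
  have h3 : 0 ≤ ∫ x in D₁, (-V x) * Hd V x := by
    apply setIntegral_nonneg hD₁c.measurableSet
    intro x hx
    have h4 := hVneg x (hD₁O hx)
    have h5 := Hd_nonneg (hVsp.psd x (hD₁O hx))
    have : 0 ≤ -V x := by linarith
    positivity
  have h4 : 0 ≤ kap * ∫ x in D₁, (-V x) * Hd V x := by positivity
  linarith

end Pool.Agent.U574.FC
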