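import Mathlib
import Pool.Agent.U574.FC.Parts
import Pool.Agent.U574.FC.EW
import Pool.Agent.U574.FC.M2

/-!
The measure `c · (Lebesgue ⊗ δ₀)` is not the Monge-Ampère measure of a function of class `F`.
-/

set_option autoImplicit false

open MeasureTheory Metric Set Filter Topology
open scoped ContDiff ComplexOrder

namespace Pool.Agent.U574.FC
open Pool.Agent.H805R2

/-- the last step -/
lemma last_step {c : ℝ} (hc : 0 < c) {φ : Cn 2 → EReal} (hF : IsCegrellF Om φ (ENNReal.ofReal c • mu0))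
    {CM : ℝ} (hM : MassP CM) {K₀ ε : ℝ} (hK₀ : K₀ = 8 * kap * CM / (c * P0)) (hK₀0 : 0 < K₀)
    (hε : ε = Real.pi * (1 / 1000) ^ 5 / (1000000 * √K₀)) {e t S T : ℝ} (he0 : 0 < e)
    (ht0 : 0 < t) (het : e ≤ t / 400) (hS0 : 0 < S) (hT0 : 0 < T) (hSsq : T = K₀ * S ^ 2)
    {v : Cn 2 → ℝ} (hv : Adm φ e v)
    (hTI : ∫ w in Ann (Real.exp (-(3 / 2 * T))) (Real.exp (-(1 * T))),
        (∫ z in ball (0 : ℂ) (1 - 1 / 1000 / 4), -v (pp z w)) * (‖w‖ ^ 2)⁻¹ ≤ ε * (T * √T))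
    (hd : S * (c * P0) / 4 ≤
      kap * ∫ x in {x | x ∈ Om ∧ tru S v x ≤ -t} ∩ Bs S v, (-tru S v x) * Hd (tru S v) x) : False := by
  have hk := kap_pos
  have hP0 := P0_low
  have hpi := Real.pi_pos
  have hsK : 0 < √K₀ := Real.sqrt_pos.2 hK₀0
  have hVsp : SP (tru S v) := tru_sp hS0 hv.sp
  have hVneg : ∀ x ∈ Om, tru S v x < 0 := fun x hx => tru_neg hS0 hv.neg hx
  have hVv : ∀ x ∈ Om, v x ≤ tru S v x := fun x hx => tru_ge hS0 hx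
  have hVp : ∀ x ∈ Om, S * pc 0 x ≤ tru S v x := fun x hx => tru_ge' hS0 hx
  have hVb : Bd (tru S v) := hv.bd.mono hVv
  have hVφ : ∀ x ∈ Om, φ x ≤ ((tru S v x + e : ℝ) : EReal) := fun x hx =>
    (hv.ge x hx).trans (EReal.coe_le_coe_iff.2 (by linarith [hVv x hx]))
  have hCc : IsCompact {x | x ∈ Om ∧ tru S v x ≤ -t} := sub_compact hVsp.sm.continuousOn hVb ht0
  have hDc : IsCompact ({x | x ∈ Om ∧ tru S v x ≤ -t} ∩ Bs S v) :=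
    Bs_compact hv.sp.sm.continuousOn hCc fun x hx => hx.1
  have hDt : ∀ x ∈ {x | x ∈ Om ∧ tru S v x ≤ -t} ∩ Bs S v, x ∈ Om ∧ tru S v x ≤ -t := fun x hx => hx.1
  generalize {x | x ∈ Om ∧ tru S v x ≤ -t} ∩ Bs S v = D at *
  generalize tru S v = V at *
  have hDO : D ⊆ Om := fun x hx => (hDt x hx).1
  have hab : Real.exp (-(3 / 2 * T)) < Real.exp (-(1 * T)) := Real.exp_lt_exp.2 (by linarith)
  have hb1 : Real.exp (-(1 * T)) < 1 := by rw [Real.exp_lt_one_iff]; linarith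
  have hUlo : ∀ x ∈ Om, ‖x 0‖ ^ 2 - 1 ≤ 1 / S * V x := by
    intro x hx
    have h1 := hVp x hx
    rw [one_div, inv_mul_eq_div, le_div_iff₀ hS0]
    unfold pc at h1
    linarith
  have hUup : ∀ x ∈ Om, 1 / S * V x ≤ 0 := fun x hx =>
    mul_nonpos_of_nonneg_of_nonpos (by positivity) (hVneg x hx).le
  have havg : ∫ w in Ann (Real.exp (-(3 / 2 * T))) (Real.exp (-(1 * T))),
      (∫ z in ball (0 : ℂ) (1 - 1 / 1000 / 4), -(1 / S * V (pp z w))) * (‖w‖ ^ 2)⁻¹ ≤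
      (1 / 1000) ^ 5 / 1000000 * ∫ w in Ann (Real.exp (-(3 / 2 * T))) (Real.exp (-(1 * T))), (‖w‖ ^ 2)⁻¹ := by
    have h1 := avg_tru hv.sp hVsp hVv hS0 (Real.exp_pos _) hb1 (by norm_num) hTI
    refine h1.trans (le_of_eq ?_)
    have hsT : √T = √K₀ * S := by
      rw [hSsq, Real.sqrt_mul hK₀0.le, Real.sqrt_sq hS0.le]
    rw [ann_exp hT0.le (by norm_num), hsT, hε]
    field_simp
    ring
  obtain ⟨ρ, hρ, ψ, hψsp, hψU, hψ0, hψe, hψi⟩ := ew (v := fun x => 1 / S * V x) (sp_smul hVsp (by positivity))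
    hUlo hUup (τ := 1 / 1000) (by norm_num) (by norm_num) (Real.exp_pos _) hab hb1 havg
  have hnear := near_small hM hVsp hVneg hS0 hT0 hVp (ρ := ρ) (by
    have := hρ.2
    rwa [one_mul] at this) hDc hDO
  have hD₁c : IsCompact (D ∩ {x | ρ ≤ ‖x 1‖}) := hDc.inter_right (isClosed_le continuous_const (cont_coord 1).norm)
  have hfar := far_small hc hF hVsp hVneg hVb he0 het hS0 hVφ hψsp hψU hψ0 hψi hD₁c
    (fun x hx => hDO hx.1) (fun x hx => (hDt x hx.1).2) (fun x hx => hψe x (hDO hx.1) hx.2)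
  have h4 : kap * (S * (CM * S ^ 2 / T)) = S * (c * P0) / 8 := by
    rw [hSsq, hK₀]
    have : CM ≠ 0 := by
      rintro rfl
      rw [mul_zero, zero_div] at hK₀
      linarith
    field_simp
  have h5 := mul_le_mul_of_nonneg_left hnear hk.le
  rw [mul_add, h4] at h5
  generalize kap * ∫ x in D ∩ {x | ρ ≤ ‖x 1‖}, (-V x) * Hd V x = X at *
  have h6 : S * (c * P0) / 8 ≤ X := by linarith
  have h7 : 0 < S * c := by positivity
  have h8 : S * (c * P0) = S * c * P0 := by ring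
  rw [h8] at h6
  nlinarith

theorem main_neg {c : ℝ} (hc : 0 < c) (φ : Cn 2 → EReal) :
    ¬ IsCegrellF Om φ (ENNReal.ofReal c • mu0) := by
  intro hF
  obtain ⟨CM, hCM, hM⟩ := m2
  have hM' : MassP CM := hM
  have hk := kap_pos
  have hP0 := P0_low
  have hpi := Real.pi_pos
  have hPpos : 0 < c * P0 := by positivity
  obtain ⟨K₀, hK₀⟩ : ∃ K₀ : ℝ, K₀ = 8 * kap * CM / (c * P0) := ⟨_, rfl⟩
  have hK₀0 : 0 < K₀ := by rw [hK₀]; positivity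
  have hsK : 0 < √K₀ := Real.sqrt_pos.2 hK₀0
  obtain ⟨ε, hε⟩ : ∃ ε : ℝ, ε = Real.pi * (1 / 1000) ^ 5 / (1000000 * √K₀) := ⟨_, rfl⟩
  have hε0 : 0 < ε := by rw [hε]; positivity
  obtain ⟨e₁, he₁, hstar⟩ := star hc.le hF (r := 1 - 1 / 1000 / 4) (by norm_num) hε0
  obtain ⟨r, hr0, hr1, hcut⟩ := cut_exists (s := P0 / 300) (by positivity)
  have hcut' : CutP r (P0 / 300) := hcut
  obtain ⟨ϱ, hϱ⟩ : ∃ ϱ : ℝ, ϱ = (1 - r ^ 2) / 2 := ⟨_, rfl⟩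
  have hϱ0 : 0 < ϱ := by rw [hϱ]; nlinarith
  have hLp : ∀ T : ℝ, ∀ x ∈ Lw r T, pc 0 x ≤ -(2 * ϱ) := by
    intro T x hx
    have h1 : ‖x 0‖ ≤ r := hx.1
    have h2 : ‖x 0‖ ^ 2 ≤ r ^ 2 := by gcongr
    rw [hϱ]
    unfold pc
    linarith
  obtain ⟨t, ht⟩ : ∃ t : ℝ, t = ϱ / 400 := ⟨_, rfl⟩
  have ht0 : 0 < t := by rw [ht]; positivity
  obtain ⟨e, he0, hee₁, het⟩ : ∃ e : ℝ, 0 < e ∧ e ≤ e₁ ∧ e ≤ t / 400 :=
    ⟨min e₁ (t / 400), by positivity, min_le_left _ _, min_le_right _ _⟩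
  -- the first approximant
  obtain ⟨T₁, hT₁, v₀, hv₀, _, hv₀m⟩ := conc_adm hc hF hCM hM' hr0 hr1 hcut' he0 (S := 1) le_rfl
    (K := ∅) isCompact_empty (empty_subset _) (g := fun _ => 0) (by simp) (by simp)
  have hL1c : IsCompact (Lw r T₁) := Lw_compact hr1 hT₁
  have hL1O : Lw r T₁ ⊆ Om := Lw_sub hr1 hT₁
  have hK'c : IsCompact (Lw r T₁ ∩ Bs 1 v₀) := Bs_compact hv₀.sp.sm.continuousOn hL1c hL1O
  have hK'O : Lw r T₁ ∩ Bs 1 v₀ ⊆ Om := inter_subset_left.trans hL1O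
  have hK'p : ∀ x ∈ Lw r T₁ ∩ Bs 1 v₀, pc 0 x ≤ -(2 * ϱ) := fun x hx => hLp T₁ x hx.1
  have hK'v : ∀ x ∈ Lw r T₁ ∩ Bs 1 v₀, v₀ x ≤ -ϱ := by
    intro x hx
    have h1 := hLp T₁ x hx.1
    have h2 : v₀ x ≤ 1 * pc 0 x / 2 := hx.2
    linarith
  generalize Lw r T₁ ∩ Bs 1 v₀ = K' at *
  obtain ⟨M₀, hM₀⟩ := hK'c.exists_bound_of_continuousOn (hv₀.sp.sm.continuousOn.mono hK'O)
  obtain ⟨S₀, hS₀1, hS₀M⟩ : ∃ S₀ : ℝ, 1 ≤ S₀ ∧ M₀ / ϱ ≤ S₀ := ⟨max 1 (M₀ / ϱ), le_max_left _ _, le_max_right _ _⟩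
  -- the scale
  obtain ⟨T, hTK, hT1, hTI⟩ := hstar (K₀ * S₀ ^ 2)
  have hT0 : 0 < T := by linarith
  obtain ⟨S, hS⟩ : ∃ S : ℝ, S = √(T / K₀) := ⟨_, rfl⟩
  have hSS₀ : S₀ ≤ S := by
    rw [hS]
    apply Real.le_sqrt_of_sq_le
    rw [le_div_iff₀ hK₀0]
    linarith
  have hS1 : 1 ≤ S := hS₀1.trans hSS₀
  have hS0 : 0 < S := by linarith
  have hSsq : T = K₀ * S ^ 2 := by
    rw [hS, Real.sq_sqrt (by positivity)]
    field_simp
  have hSv₀ : ∀ x ∈ K', S * pc 0 x / 2 ≤ v₀ x := by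
    intro x hx
    have h1 := hK'p x hx
    have h2 := hM₀ x hx
    rw [Real.norm_eq_abs] at h2
    have h3 := (abs_le.1 h2).1
    have h4 : M₀ ≤ S * ϱ := by
      have : M₀ / ϱ ≤ S := hS₀M.trans hSS₀
      rwa [div_le_iff₀ hϱ0] at this
    nlinarith
  -- the second approximant
  obtain ⟨T₂, hT₂, v, hv, hvg, hvm⟩ := conc_adm hc hF hCM hM' hr0 hr1 hcut' he0 hS1 hK'c hK'O
    (g := fun x => v₀ x + 2 * e) ((hv₀.sp.sm.continuousOn.mono hK'O).add continuousOn_const) (fun x hx =>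
      (hv₀.ge x (hK'O hx)).trans_lt (EReal.coe_lt_coe_iff.2 (by linarith)))
  have hd := mass_low hc hF he0 ht0 het ht hS1 hv₀ hv hK'c hK'O hv₀m hK'v hSv₀ hvg (Lw_sub hr1 hT₂)
    (hLp T₂) hvm
  exact last_step hc hF hM' hK₀ hK₀0 hε he0 ht0 het hS0 hT0 hSsq hv (hTI v (hv.mono hee₁)) hd

end Pool.Agent.U574.FC
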